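import Mathlib

/-!
KE16, block A, row D1 (ONLY MATHLIB, MEDIUM). Pontryagin duality for a finitely generated ideal.

Plan: `f : M →ₗ[R] (S → M)`, `s ↦ (j • s)_j` (`LinearMap.pi`, `LinearMap.lsmul`); `x` vanishes on
`ker f`, so it factors through `M ⧸ ker f`, which embeds in `S → M` (`LinearMap.quotKerEquivRange`,
or: `CharacterModule.dual_surjective_of_injective` for the injective map `M ⧸ ker f → (S → M)`,
`Submodule.liftQ`, over `R` or over `ℤ`); get `y : CharacterModule (S → M)` with `y (f s) = x s`.
`y v = ∑ j, y (Pi.single j (v j))`, so `x = ∑ j, j • y_j` with `y_j s = y (Pi.single j s)`.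
-/

namespace KE16

theorem dual_ker {R M : Type} [CommRing R] [AddCommGroup M] [Module R M] (S : Set R)
    (hS : S.Finite) (x : CharacterModule M) (hx : ∀ s : M, (∀ j ∈ S, j • s = 0) → x s = 0) :
    x ∈ Ideal.span S • (⊤ : Submodule R (CharacterModule M)) := by
  classical
  haveI : Fintype S := hS.fintype
  let f : M →ₗ[R] (S → M) := LinearMap.pi (fun j : S => LinearMap.lsmul R M (j : R))
  have hf : ∀ (s : M) (j : S), f s j = (j : R) • s := fun s j => rfl
  have hker : ∀ s : M, s ∈ (LinearMap.ker f).toAddSubgroup → s ∈ AddMonoidHom.ker x := by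
    intro s hs
    have hs' : f s = 0 := hs
    refine hx s fun j hj => ?_
    have := congrFun hs' ⟨j, hj⟩
    rwa [hf] at this
  let q : M ⧸ (LinearMap.ker f) →ₗ[R] (S → M) := (LinearMap.ker f).liftQ f le_rfl
  have hq : Function.Injective q := by
    rw [← LinearMap.ker_eq_bot]
    exact Submodule.ker_liftQ_eq_bot _ _ _ le_rfl
  let x' : CharacterModule (M ⧸ LinearMap.ker f) :=
    QuotientAddGroup.lift (LinearMap.ker f).toAddSubgroup x hker
  obtain ⟨y, hy⟩ := CharacterModule.dual_surjective_of_injective q hq x'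
  have hy' : ∀ s : M, y (f s) = x s := fun s =>
    DFunLike.congr_fun hy (Submodule.Quotient.mk s)
  have hsum : x = ∑ j : S, (j : R) • (CharacterModule.dual (LinearMap.single R (fun _ => M) j) y) := by
    refine DFunLike.ext _ _ fun s => ?_
    have h1 : f s = ∑ j : S, Pi.single j ((j : R) • s) := by
      have h2 := Finset.univ_sum_single (f s)
      rw [← h2]
      rfl
    have h3 : (∑ j : S, (j : R) • (CharacterModule.dual (LinearMap.single R (fun _ => M) j) y)) s =
        ∑ j : S, ((j : R) • (CharacterModule.dual (LinearMap.single R (fun _ => M) j) y)) s :=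
      AddMonoidHom.finset_sum_apply _ _ _
    rw [← hy' s, h1, h3, map_sum]
    rfl
  rw [hsum]
  exact Submodule.sum_mem _ fun j _ =>
    Submodule.smul_mem_smul (Ideal.subset_span j.2) Submodule.mem_top

end KE16
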