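import Mathlib

/-!
KE16, block A, row D2 (ONLY MATHLIB, MEDIUM). Characters of a subgroup of order 9 and exponent 3.

Plan: `W` is a `ZMod 3`-module (`AddCommGroup.zmodModule`) with 9 elements, so of dimension 2
(`Module.card_eq_pow_finrank` or `Module.natCard_eq_pow_finrank`), basis `w 0, w 1`. `ι` is the
additive map `ZMod 3 → ℚ/ℤ`, `i ↦ i/3` (`ZMod.lift 3`); injective; its image is the 3-torsion of
`AddCircle (1 : ℚ)` (`AddCircle.coe_eq_zero_iff`: `3 (q : ℚ/ℤ) = 0` gives `3 q = z ∈ ℤ`). For a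
character `x` of `M` put `c x i := ι⁻¹ (x (w i))` (`3 • x (w i) = x (3 • w i) = 0`). Additive since `ι` is
injective. `c x = 0` iff `x` vanishes on `w 0, w 1` iff on `W`. Surjective: for `a : Fin 2 → ZMod 3`
the character `w ↦ ι (a 0 * coord 0 w + a 1 * coord 1 w)` of `W` extends to `M`
(`CharacterModule.dual_surjective_of_injective` for `W.subtype` as a `ℤ`-linear map).
-/

namespace KE16

theorem exists_c {M : Type} [AddCommGroup M] (W : AddSubgroup M) (h3 : ∀ w ∈ W, 3 • w = 0)
    (hcard : Nat.card W = 9) :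
    ∃ (w : Fin 2 → M) (c : CharacterModule M →+ (Fin 2 → ZMod 3)) (ι : ZMod 3 →+ AddCircle (1 : ℚ)),
      (∀ i, w i ∈ W) ∧ Function.Surjective c ∧ (∀ x, c x = 0 ↔ ∀ s ∈ W, x s = 0) ∧
      Function.Injective ι ∧ ∀ x i, x (w i) = ι (c x i) := by
  have h3' : ∀ w : W, 3 • w = 0 := fun w => Subtype.ext (h3 w.1 w.2)
  let inst : Module (ZMod 3) W := AddCommGroup.zmodModule h3'
  have hf : Finite W := Nat.finite_of_card_ne_zero (by rw [hcard]; norm_num)
  have hfin : Module.Finite (ZMod 3) W := Module.Finite.of_finite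
  have hrank : Module.finrank (ZMod 3) W = 2 := by
    have h1 := Module.natCard_eq_pow_finrank (K := ZMod 3) (V := W)
    rw [hcard, Nat.card_zmod] at h1
    have h2 : (3 : ℕ) ^ 2 = 3 ^ Module.finrank (ZMod 3) W := by rw [← h1]; norm_num
    exact (Nat.pow_right_injective (le_refl 3 |> fun _ => by norm_num) h2).symm
  let b : Module.Basis (Fin 2) (ZMod 3) W := Module.finBasisOfFinrankEq (ZMod 3) W hrank
  -- the embedding
  have hthird : (3 : ℤ) • (((1 / 3 : ℚ) : AddCircle (1 : ℚ))) = 0 := by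
    rw [← AddCircle.coe_zsmul, AddCircle.coe_eq_zero_iff]
    exact ⟨1, by norm_num⟩
  let ι : ZMod 3 →+ AddCircle (1 : ℚ) :=
    ZMod.lift 3 ⟨zmultiplesHom _ ((1 / 3 : ℚ) : AddCircle (1 : ℚ)), by
      simpa using hthird⟩
  have hι : ∀ z : ℤ, ι (z : ZMod 3) = z • (((1 / 3 : ℚ) : AddCircle (1 : ℚ))) := by
    intro z
    show ZMod.lift 3 _ (z : ZMod 3) = _
    rw [ZMod.lift_coe]
    rfl
  have hιinj : Function.Injective ι := by
    rw [injective_iff_map_eq_zero]
    intro a ha
    obtain ⟨z, rfl⟩ := ZMod.intCast_surjective a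
    rw [hι, ← AddCircle.coe_zsmul, AddCircle.coe_eq_zero_iff] at ha
    obtain ⟨m, hm⟩ := ha
    rw [ZMod.intCast_zmod_eq_zero_iff_dvd]
    refine ⟨m, ?_⟩
    have h1 : (z : ℚ) = 3 * m := by
      simp only [zsmul_eq_mul, mul_one] at hm
      linarith
    exact_mod_cast h1
  have hιrange : ∀ y : AddCircle (1 : ℚ), 3 • y = 0 → ∃ a, ι a = y := by
    intro y hy
    obtain ⟨q, rfl⟩ := QuotientAddGroup.mk_surjective y
    have hy' : ((3 • q : ℚ) : AddCircle (1 : ℚ)) = 0 := hy
    rw [AddCircle.coe_eq_zero_iff] at hy'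
    obtain ⟨m, hm⟩ := hy'
    refine ⟨(m : ZMod 3), ?_⟩
    rw [hι, ← AddCircle.coe_zsmul]
    congr 1
    simp only [zsmul_eq_mul, mul_one, nsmul_eq_mul, Nat.cast_ofNat] at hm ⊢
    linarith
  have hex : ∀ (x : CharacterModule M) (i : Fin 2), ∃ a, ι a = x (b i : M) := by
    intro x i
    apply hιrange
    have : (3 : ℕ) • x ((b i : W) : M) = x ((3 : ℕ) • ((b i : W) : M)) := (map_nsmul x 3 _).symm
    rw [this, h3 _ (b i).2, map_zero]
  choose cf hcf using hex
  let c : CharacterModule M →+ (Fin 2 → ZMod 3) :=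
    { toFun := cf
      map_zero' := by
        funext i
        apply hιinj
        rw [hcf, Pi.zero_apply, map_zero]
        rfl
      map_add' := by
        intro x y
        funext i
        apply hιinj
        rw [hcf, Pi.add_apply, map_add, hcf, hcf]
        rfl }
  have hc : ∀ x i, ι (c x i) = x (b i : M) := hcf
  have hzero : ∀ x, c x = 0 ↔ ∀ s ∈ W, x s = 0 := by
    intro x
    constructor
    · intro hx s hs
      have h0 : ∀ i, x (b i : M) = 0 := by
        intro i
        rw [← hc x i, hx]; simp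
      let φ : W →+ AddCircle (1 : ℚ) := (x : M →+ AddCircle (1 : ℚ)).comp W.subtype
      have h1 : φ ⟨s, hs⟩ = 0 := by
        rw [← b.sum_repr ⟨s, hs⟩, map_sum]
        apply Finset.sum_eq_zero
        intro i _
        have h2 : (b.repr ⟨s, hs⟩ i) • b i = (b.repr ⟨s, hs⟩ i).val • b i := by
          conv_lhs => rw [← ZMod.natCast_zmod_val (b.repr ⟨s, hs⟩ i)]
          exact Nat.cast_smul_eq_nsmul _ _ _
        rw [h2, map_nsmul]
        have h3 : φ (b i) = 0 := h0 i
        rw [h3, smul_zero]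
      exact h1
    · intro hx
      funext i
      apply hιinj
      rw [hc, Pi.zero_apply, map_zero]
      exact hx _ (b i).2
  have hsurj : Function.Surjective c := by
    intro a
    let ψ : W →+ AddCircle (1 : ℚ) :=
      ι.comp ((b.constr (ZMod 3) a : W →ₗ[ZMod 3] ZMod 3).toAddMonoidHom)
    obtain ⟨x, hx⟩ := CharacterModule.dual_surjective_of_injective (R := ℤ)
      (W.subtype.toIntLinearMap) (by intro u v h; exact Subtype.ext h) (ψ : CharacterModule W)
    refine ⟨x, ?_⟩
    funext i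
    apply hιinj
    rw [hc]
    have h1 := congrArg (fun f : CharacterModule W => f (b i)) hx
    have h2 : x (b i : M) = ψ (b i) := h1
    rw [h2]
    show ι (b.constr (ZMod 3) a (b i)) = _
    rw [Module.Basis.constr_basis]
  exact ⟨fun i => (b i : M), c, ι, fun i => (b i).2, hsurj, hzero, hιinj, fun x i => (hc x i).symm⟩

end KE16
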