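import Pool.Agent.LibKE16.Defs

/-!
KE16, block A, row C1 (MEDIUM). The cyclotomic character of `GQ = Gal(Qbar/ℚ)` at level `N`.

Plan: `IsAlgClosed` + `CharZero` give a primitive `N`-th root of unity `ζ0` in `Qb`
(`HasEnoughRootsOfUnity` / `IsAlgClosed.exists_...`, `IsSepClosed`). Either use
`modularCyclotomicCharacter Qb` with `modularCyclotomicCharacter.spec` (for `ζ ^ N = 1`, `ζ` is a unit
of `Qb` in `rootsOfUnity N Qb`), or do it by hand: `g ζ0` is again a primitive root, so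
`g ζ0 = ζ0 ^ i` with `i` coprime to `N` (`IsPrimitiveRoot.isPrimitiveRoot_iff`), `a := ZMod.unitOfCoprime i`;
every `ζ` with `ζ ^ N = 1` is `ζ0 ^ j` (`IsPrimitiveRoot.eq_pow_of_pow_eq_one`); exponents of `ζ0` only
matter modulo `N` (`IsPrimitiveRoot.pow_eq_pow_iff_modEq`, `ZMod.natCast_eq_natCast_iff`).
-/

namespace KE16

private theorem C1_prim {N : ℕ} (hN : N ≠ 0) : ∃ ζ : Qb, IsPrimitiveRoot ζ N := by
  have : NeZero N := ⟨hN⟩
  exact HasEnoughRootsOfUnity.exists_primitiveRoot Qb N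

private theorem C1_mod {N : ℕ} {ζ : Qb} (h : ζ ^ N = 1) {i j : ℕ} (hij : i % N = j % N) :
    ζ ^ i = ζ ^ j := by
  rw [pow_eq_pow_mod i h, pow_eq_pow_mod j h, hij]

theorem cyc_exists {N : ℕ} (hN : N ≠ 0) (g : GQ) : ∃ a : (ZMod N)ˣ, CycAct N g a := by
  have : NeZero N := ⟨hN⟩
  obtain ⟨ζ0, h0⟩ := C1_prim hN
  have h1 : IsPrimitiveRoot (g ζ0) N := h0.map_of_injective g.injective
  obtain ⟨i, hi, hcop, he⟩ := h0.isPrimitiveRoot_iff.1 h1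
  refine ⟨ZMod.unitOfCoprime i hcop, fun ζ hζ => ?_⟩
  obtain ⟨j, hj, rfl⟩ := h0.eq_pow_of_pow_eq_one hζ
  rw [map_pow, ← he, ZMod.coe_unitOfCoprime, ZMod.val_natCast, ← pow_mul, ← pow_mul, mul_comm i j,
    pow_mul, pow_mul]
  exact C1_mod hζ (Nat.mod_mod _ _).symm

theorem cyc_unique {N : ℕ} (hN : N ≠ 0) {g : GQ} {a b : (ZMod N)ˣ} (ha : CycAct N g a)
    (hb : CycAct N g b) : a = b := by
  have : NeZero N := ⟨hN⟩
  obtain ⟨ζ0, h0⟩ := C1_prim hN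
  have h1 : ζ0 ^ (a : ZMod N).val = ζ0 ^ (b : ZMod N).val := by
    rw [← ha ζ0 h0.pow_eq_one, ← hb ζ0 h0.pow_eq_one]
  have h2 := h0.pow_inj (ZMod.val_lt _) (ZMod.val_lt _) h1
  exact Units.ext (ZMod.val_injective N h2)

theorem cyc_mul {N : ℕ} (hN : N ≠ 0) {g h : GQ} {a b : (ZMod N)ˣ} (ha : CycAct N g a)
    (hb : CycAct N h b) : CycAct N (g * h) (a * b) := by
  have : NeZero N := ⟨hN⟩
  intro ζ hζ
  change g (h ζ) = _
  rw [hb ζ hζ, map_pow, ha ζ hζ, ← pow_mul, Units.val_mul, ZMod.val_mul]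
  exact C1_mod hζ (Nat.mod_mod _ _).symm

theorem cyc_dvd {N N' : ℕ} (hN : N ≠ 0) (hd : N' ∣ N) {g : GQ} {a : (ZMod N)ˣ} (ha : CycAct N g a) :
    CycAct N' g (ZMod.unitsMap hd a) := by
  have : NeZero N := ⟨hN⟩
  have : NeZero N' := ⟨fun h => hN (Nat.eq_zero_of_zero_dvd (h ▸ hd))⟩
  intro ζ hζ
  have hζ' : ζ ^ N = 1 := by
    obtain ⟨c, rfl⟩ := hd
    rw [pow_mul, hζ, one_pow]
  rw [ha ζ hζ', ZMod.unitsMap_val, ZMod.cast_eq_val, ZMod.val_natCast]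
  exact C1_mod hζ (Nat.mod_mod _ _).symm

end KE16
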