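import Pool.Agent.LibKE16.CBase
import Pool.Agent.LibKE16.C1

/-!
KE16, block A, row C7 (MEDIUM). Compactness: an open subgroup which contains `Gal(Qbar/K_{m,∞})` contains
`Gal(Qbar/ℚ(μ_{m pⁿ}))` for some `n`.

Plan: `V` is open (it contains the open subgroup `L.fixingSubgroup`, `IntermediateField.fixingSubgroup_isOpen`,
`Subgroup.isOpen_mono`), so `Y n := {h | CycAct (m * p ^ n) h 1} \ V` is closed (`closed_eval`,
`ζ ^ (1 : ZMod N).val = ζ` when `ζ ^ N = 1`), decreasing in `n` (`cyc_dvd`), and `⋂ n, Y n = ∅`, because an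
element of all `{h | CycAct (m * p ^ n) h 1}` is in `Kmul p m`. If all `Y n` were non-empty, then
`IsCompact.nonempty_iInter_of_sequence_nonempty_isCompact_isClosed` (with `compactGQ`) would give a
contradiction.
-/

namespace KE16

private theorem C7_closed (N : ℕ) (a : (ZMod N)ˣ) : IsClosed {d : GQ | CycAct N d a} := by
  have h : {d : GQ | CycAct N d a} =
      ⋂ ζ : Qb, ⋂ _ : ζ ^ N = 1, {d : GQ | d ζ = ζ ^ (a : ZMod N).val} := by
    ext d
    simp only [Set.mem_setOf_eq, Set.mem_iInter, CycAct]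
  rw [h]
  exact isClosed_iInter fun ζ => isClosed_iInter fun _ => closed_eval _ _

private theorem C7_one {N : ℕ} {ζ : Qb} (h : ζ ^ N = 1) :
    ζ ^ (((1 : (ZMod N)ˣ) : ZMod N)).val = ζ := by
  rw [Units.val_one]
  rcases Nat.eq_zero_or_pos N with h0 | h0
  · subst h0
    have : (1 : ZMod 0).val = 1 := rfl
    rw [this, pow_one]
  · rw [ZMod.val_one_eq_one_mod, ← pow_eq_pow_mod 1 h, pow_one]

theorem level_of_open (p m : ℕ) [Fact p.Prime] (hm : m ≠ 0) (V : Subgroup GQ) (hK : Kmul p m ≤ V)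
    (L : IntermediateField ℚ Qb) (hL : FiniteDimensional ℚ L)
    (hLV : ∀ g : GQ, (∀ x ∈ L, g x = x) → g ∈ V) :
    ∃ n : ℕ, ∀ h : GQ, CycAct (m * p ^ n) h 1 → h ∈ V := by
  have hV : IsOpen (V : Set GQ) := by
    refine Subgroup.isOpen_mono (H₁ := L.fixingSubgroup) ?_ (IntermediateField.fixingSubgroup_isOpen L)
    intro g hg
    exact hLV g fun x hx => (IntermediateField.mem_fixingSubgroup_iff L g).1 hg x hx
  by_contra hcon
  push Not at hcon
  have h1 := IsCompact.nonempty_iInter_of_sequence_nonempty_isCompact_isClosed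
    (fun n : ℕ => {h : GQ | CycAct (m * p ^ n) h 1} ∩ (V : Set GQ)ᶜ) ?_ ?_ ?_ ?_
  · obtain ⟨h, hh⟩ := h1
    rw [Set.mem_iInter] at hh
    refine (hh 0).2 (hK ?_)
    intro n ζ hζ
    have h2 := (hh n).1 ζ hζ
    rw [C7_one hζ] at h2
    exact h2
  · rintro n h ⟨h2, h3⟩
    refine ⟨?_, h3⟩
    intro ζ hζ
    have hζ' : ζ ^ (m * p ^ (n + 1)) = 1 := by
      rw [pow_succ, ← mul_assoc, pow_mul, hζ, one_pow]
    have h4 := h2 ζ hζ'
    rw [C7_one hζ'] at h4
    rw [C7_one hζ]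
    exact h4
  · intro n
    obtain ⟨h, h2, h3⟩ := hcon n
    exact ⟨h, h2, h3⟩
  · exact ((C7_closed _ _).inter hV.isClosed_compl).isCompact
  · intro n
    exact (C7_closed _ _).inter hV.isClosed_compl

end KE16
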