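import Pool.Agent.LibKE16.Defs

/-!
KE16, block A, row C2 (MEDIUM). The cyclotomic character is surjective.

Plan: let `ζ0` be a primitive `N`-th root of unity of `Qb`; `ζ0 ^ a.val` is primitive too, and both have
the same minimal polynomial over `ℚ` (`Polynomial.cyclotomic_eq_minpoly_rat`, or
`IsPrimitiveRoot.minpoly_eq_pow..`), so there is `g : Qb ≃ₐ[ℚ] Qb` with `g ζ0 = ζ0 ^ a.val`
(`exists_algEquiv..`/`Normal.minpoly_eq_iff_mem_orbit`/`minpoly.algEquiv` + `AlgEquiv.liftNormal`;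
`Normal.minpoly_eq_iff_mem_orbit : minpoly F x = minpoly F y ↔ x ∈ MulAction.orbit Gal(E/F) y`
is the quickest). Every `ζ` with `ζ ^ N = 1` is a power of `ζ0`.
-/

namespace KE16

theorem cyc_surj {N : ℕ} (hN : N ≠ 0) (a : (ZMod N)ˣ) : ∃ g : GQ, CycAct N g a := by
  have : NeZero N := ⟨hN⟩
  have hpos : 0 < N := Nat.pos_of_ne_zero hN
  have hnorm : Normal ℚ Qb :=
    normal_iff.mpr fun x => ⟨(AlgebraicClosure.isAlgebraic ℚ).isIntegral.1 x, IsAlgClosed.splits _⟩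
  obtain ⟨ζ0, h0⟩ : ∃ ζ : Qb, IsPrimitiveRoot ζ N := HasEnoughRootsOfUnity.exists_primitiveRoot Qb N
  have hcop : ((a : ZMod N).val).Coprime N := ZMod.val_coe_unit_coprime a
  have h1 : IsPrimitiveRoot (ζ0 ^ (a : ZMod N).val) N := h0.pow_of_coprime _ hcop
  have h2 : minpoly ℚ (ζ0 ^ (a : ZMod N).val) = minpoly ℚ ζ0 := by
    rw [← Polynomial.cyclotomic_eq_minpoly_rat h1 hpos, ← Polynomial.cyclotomic_eq_minpoly_rat h0 hpos]
  obtain ⟨g, hg⟩ := (Normal.minpoly_eq_iff_mem_orbit (F := ℚ) (E := Qb)).1 h2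
  have hg' : g ζ0 = ζ0 ^ (a : ZMod N).val := hg
  refine ⟨g, fun ζ hζ => ?_⟩
  obtain ⟨j, hj, rfl⟩ := h0.eq_pow_of_pow_eq_one hζ
  have h3 : g (ζ0 ^ j) = (g ζ0) ^ j := map_pow g ζ0 j
  refine h3.trans ?_
  rw [hg', ← pow_mul, ← pow_mul, mul_comm]

end KE16
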