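import Pool.Agent.LibKE16.C1
import Pool.Agent.LibKE16.C2

/-! KE16, block A: the cyclotomic character `cy N` (complete, cites C1, C2). -/

namespace KE16

/-- the cyclotomic character at level `N` -/
noncomputable def cy (N : ℕ) [NeZero N] (g : GQ) : (ZMod N)ˣ := (cyc_exists (NeZero.ne N) g).choose

theorem cy_spec (N : ℕ) [NeZero N] (g : GQ) : CycAct N g (cy N g) :=
  (cyc_exists (NeZero.ne N) g).choose_spec

theorem cy_eq {N : ℕ} [NeZero N] {g : GQ} {a : (ZMod N)ˣ} (h : CycAct N g a) : cy N g = a :=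
  cyc_unique (NeZero.ne N) (cy_spec N g) h

theorem cyc_iff {N : ℕ} [NeZero N] {g : GQ} {a : (ZMod N)ˣ} : CycAct N g a ↔ cy N g = a :=
  ⟨cy_eq, fun h ↦ h ▸ cy_spec N g⟩

/-- the cyclotomic character as a homomorphism -/
noncomputable def cyH (N : ℕ) [NeZero N] : GQ →* (ZMod N)ˣ :=
  MonoidHom.mk' (cy N) fun g h ↦ cy_eq (cyc_mul (NeZero.ne N) (cy_spec N g) (cy_spec N h))

theorem cyH_apply (N : ℕ) [NeZero N] (g : GQ) : cyH N g = cy N g := rfl

theorem cy_mul (N : ℕ) [NeZero N] (g h : GQ) : cy N (g * h) = cy N g * cy N h := map_mul (cyH N) g h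

theorem cy_one (N : ℕ) [NeZero N] : cy N 1 = 1 := map_one (cyH N)

theorem cy_inv (N : ℕ) [NeZero N] (g : GQ) : cy N g⁻¹ = (cy N g)⁻¹ := map_inv (cyH N) g

theorem cy_pow (N : ℕ) [NeZero N] (g : GQ) (i : ℕ) : cy N (g ^ i) = cy N g ^ i := map_pow (cyH N) g i

theorem cy_surj (N : ℕ) [NeZero N] (a : (ZMod N)ˣ) : ∃ g, cy N g = a := by
  obtain ⟨g, hg⟩ := cyc_surj (NeZero.ne N) a
  exact ⟨g, cy_eq hg⟩

theorem cy_dvd {N N' : ℕ} [NeZero N] [NeZero N'] (hd : N' ∣ N) (g : GQ) :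
    ZMod.unitsMap hd (cy N g) = cy N' g :=
  (cy_eq (cyc_dvd (NeZero.ne N) hd (cy_spec N g))).symm

theorem cy_tr (p m n : ℕ) [NeZero (m * p ^ (n + 1))] [NeZero (m * p ^ n)] (g : GQ) :
    tr p m n (cy (m * p ^ (n + 1)) g) = cy (m * p ^ n) g := cy_dvd _ g

end KE16
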