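import Pool.Agent.LibKE16.Defs

/-!
KE16, block A, row S1 (SHORT/MEDIUM). `Gal(Qbar/K_{m,∞})` acts trivially on the Selmer group.

Plan: `s = cl W p m f` (`QuotientAddGroup.mk'_surjective`), `gS_cl`; we need
`cjS W p m g f - f ∈ B1` with `P = f.1.1 g`: for `g, σ ∈ Kmul p m`,
`g • f (g⁻¹ σ g) = g • (f g⁻¹ + g⁻¹ • (f σ + σ • f g)) = - f g + f σ + σ • f g`,
where `f g + g • f g⁻¹ = f 1 = 0`. `P` is killed by a power of `p` (second clause of `Z1`).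
`QuotientAddGroup.eq`/`QuotientAddGroup.eq_iff_sub_mem`, `AddSubgroup.mem_addSubgroupOf`; the proof
of `cj_B1` and `gS_mul` in Defs.lean shows how to handle the subtypes.
-/

open WeierstrassCurve

namespace KE16

theorem gS_Kmul (W : WeierstrassCurve ℚ) (p m : ℕ) (g : GQ) (hg : g ∈ Kmul p m) (s : Sel W p m) :
    gS W p m g s = s := by
  obtain ⟨f, hf⟩ : ∃ f : SelZ W p m, cl W p m f = s := QuotientAddGroup.mk'_surjective _ s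
  rw [← hf, gS_cl]
  refine (QuotientAddGroup.eq (s := ((B1 W p m).addSubgroupOf (Z1 W p m)).addSubgroupOf
    (SelZ W p m))).2 ?_
  obtain ⟨σ, hσ⟩ : ∃ σ : Kmul p m, (σ : GQ) = g := ⟨⟨g, hg⟩, rfl⟩
  subst hσ
  obtain ⟨hc, ht, -⟩ := f.1.2
  obtain ⟨k, hk⟩ := ht σ
  refine ⟨-(f.1.1 σ), ⟨k, by rw [neg_nsmul, hk, neg_zero]⟩, fun τ => ?_⟩
  have h1 := hc σ ⟨(σ : GQ)⁻¹ * (τ : GQ) * σ, Kmul_conj p m σ τ⟩
  have h2 := hc τ σ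
  have h3 : σ * ⟨(σ : GQ)⁻¹ * (τ : GQ) * σ, Kmul_conj p m σ τ⟩ = τ * σ := by
    apply Subtype.ext
    change (σ : GQ) * ((σ : GQ)⁻¹ * (τ : GQ) * σ) = (τ : GQ) * σ
    group
  rw [h3, h2] at h1
  change -(gal W σ (f.1.1 ⟨(σ : GQ)⁻¹ * (τ : GQ) * σ, Kmul_conj p m σ τ⟩)) + f.1.1 τ = _
  have h4 : gal W σ (f.1.1 ⟨(σ : GQ)⁻¹ * (τ : GQ) * σ, Kmul_conj p m σ τ⟩) =
      f.1.1 τ + gal W τ (f.1.1 σ) - f.1.1 σ := by
    rw [h1]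
    abel
  rw [h4, map_neg]
  abel

end KE16
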