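import Pool.Agent.LibKE16.S0
import Pool.Agent.LibKE16.S1
import Pool.Agent.LibKE16.C7
import Pool.Agent.LibKE16.CDef

/-!
KE16, block A, row S2 (SHORT/MEDIUM). Every class is smooth.

Plan: `s = cl W p m f`. `k`: by `range_finite` there is one `k` with `p ^ k • f σ = 0` for all `σ` (maximum over
the finite range; `p ^ k • P = 0` implies `p ^ l • P = 0` for `l ≥ k`), so `p ^ k • f = 0` and
`p ^ k • s = 0`. `n`: `V := {g | gS W p m g s = s}` is a subgroup (`gS_mul`, `gS_one`), contains `Kmul p m`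
(`gS_Kmul`) and the elements which fix `L'` (`exists_fix`, `gS_cl`); `level_of_open`. `g`: `cyc_surj`
(`m * p ^ n ≠ 0`), `choose`.
NOTE: in `Sel` the expression `3 • s` is elaborated through `AddGroup`, the `nsmul` lemmas use
`AddCommGroup`; `rw [nsmul_add]` can fail. Use `exact`, explicit arguments (`rw [nsmul_add s t 3]`), `change`,
or an auxiliary lemma for an abstract `[AddCommGroup M]` and `exact`.
-/

open WeierstrassCurve

namespace KE16

private theorem S2_le {M : Type} [AddCommGroup M] (p : ℕ) {k l : ℕ} (h : k ≤ l) {x : M}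
    (hx : p ^ k • x = 0) : p ^ l • x = 0 := by
  obtain ⟨c, rfl⟩ := Nat.exists_eq_add_of_le h
  rw [pow_add, mul_comm, mul_nsmul', hx, nsmul_zero]

private theorem S2_kill {M : Type} [AddCommGroup M] (p : ℕ) (S : Set M) (hS : S.Finite)
    (h : ∀ x ∈ S, ∃ k : ℕ, p ^ k • x = 0) : ∃ k : ℕ, ∀ x ∈ S, p ^ k • x = 0 := by
  induction S, hS using Set.Finite.induction_on with
  | empty => exact ⟨0, fun x hx => hx.elim⟩
  | insert _ _ ih =>
    rename_i y S _ _
    obtain ⟨k, hk⟩ := ih fun x hx => h x (Set.mem_insert_of_mem _ hx)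
    obtain ⟨l, hl⟩ := h y (Set.mem_insert _ _)
    refine ⟨max k l, fun x hx => ?_⟩
    rcases hx with hx | hx
    · rw [hx]
      exact S2_le p (le_max_right k l) hl
    · exact S2_le p (le_max_left k l) (hk x hx)

private noncomputable def S2_V (W : WeierstrassCurve ℚ) (p m : ℕ) (s : Sel W p m) : Subgroup GQ where
  carrier := {g | gS W p m g s = s}
  mul_mem' := by
    intro a b ha hb
    change gS W p m (a * b) s = s
    have ha' : gS W p m a s = s := ha
    have hb' : gS W p m b s = s := hb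
    rw [gS_mul, hb', ha']
  one_mem' := gS_one W p m s
  inv_mem' := by
    intro a ha
    change gS W p m a⁻¹ s = s
    have ha' : gS W p m a s = s := ha
    have h1 := gS_mul W p m a⁻¹ a s
    rw [inv_mul_cancel, gS_one, ha'] at h1
    exact h1.symm

theorem smooth (W : WeierstrassCurve ℚ) (p m : ℕ) [Fact p.Prime] (hm : m ≠ 0) (s : Sel W p m) :
    ∃ n k g, Adm W p m s n k g := by
  obtain ⟨f, hf⟩ : ∃ f : SelZ W p m, cl W p m f = s := QuotientAddGroup.mk'_surjective _ s
  obtain ⟨k, hk⟩ := S2_kill p (Set.range f.1.1) (range_finite W p m f.1.1 f.1.2) (by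
    rintro _ ⟨σ, rfl⟩
    exact f.1.2.2.1 σ)
  have hks : p ^ k • s = 0 := by
    have h1 : p ^ k • f = 0 := by
      apply Subtype.ext
      apply Subtype.ext
      funext σ
      exact hk _ ⟨σ, rfl⟩
    rw [← hf, ← map_nsmul, h1, map_zero]
  obtain ⟨L', hL', hfix⟩ := exists_fix W p m f.1.1 f.1.2
  obtain ⟨n, hn⟩ := level_of_open p m hm (S2_V W p m s) (fun g hg => gS_Kmul W p m g hg s) L' hL' (by
    intro g hg
    change gS W p m g s = s
    rw [← hf, gS_cl]
    congr 1
    apply Subtype.ext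
    apply Subtype.ext
    exact hfix g hg)
  have hN : m * p ^ n ≠ 0 := mul_ne_zero hm (pow_ne_zero _ (Fact.out : p.Prime).ne_zero)
  choose g hg using fun a : (ZMod (m * p ^ n))ˣ => cyc_surj hN a
  exact ⟨n, k, g, hks, fun h hh => hn h hh, hg⟩

end KE16
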