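import Pool.Agent.LibKE16.GDef
import Pool.Agent.LibKE16.S2

/-!
KE16, block A, row G1 (SHORT/MEDIUM, cites S2, CDef). The action of group-like elements, and of `ℛ` on the
fixed classes.

Plan: (`gl_smul`) by `smooth` take `Adm s n k a`; then also `Adm s n (k + 1) a`. `(hinst (gl g) s).2` gives
`gl g • s = Finsupp.sum (single (cy _ g) 1) ..` (`gl_apply`, `MonoidAlgebra.single` has `.coeff = Finsupp.single`,
`Finsupp.sum_single_index`; the zero coefficient: `PadicInt.appr 0 (k + 1) = 0`, or use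
`appr z (k+1) • t` for `z = 0`, with `3 ^ (k + 1) • t = 0`), `PadicInt.appr 1 (k + 1) = 1`, and
`gS (a (cy _ g))⁻¹ s = gS g⁻¹ s` since `g * (a (cy _ g))⁻¹` acts trivially on the roots of unity of order
dividing `193 * 3 ^ n` (`cyc_iff`, `cy_mul`, `cy_inv`).
(`act_W`) use the formula at level `3` with `k = 1` (`Adm s 3 1 a` for the section `a` from `cy_surj`; `s` is
fixed by everything): `r • s = Σ_a appr (r_3 a) 1 • s = (Σ_a appr (r_3 a) 1) • s`; and
`eps r = red3 (psi3 0 (r 3)) = Σ_a red3 (coef (r_3 a))`, `red3 (coef z) = (appr z 1 : ZMod 3)`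
(`PadicInt.toZModPow`, `PadicInt.zmod_cast_comp_toZModPow`, `PadicInt.toZModPow` and `appr`), for sums:
`MonoidAlgebra.induction_linear` or `Finsupp.sum`. A multiple of `s` only depends on the integer modulo 3.
NOTE: in `Sel` the expression `3 • s` is elaborated through `AddGroup`, the `nsmul` lemmas use
`AddCommGroup`; `rw [nsmul_add]` can fail. Use `exact`, explicit arguments (`rw [nsmul_add s t 3]`), `change`,
or an auxiliary lemma for an abstract `[AddCommGroup M]` and `exact`.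
-/

open WeierstrassCurve

namespace KE16

private theorem appr_zero (n : ℕ) : PadicInt.appr (0 : ℤ_[3]) n = 0 := by
  have h1 : ((PadicInt.appr (0 : ℤ_[3]) n : ℕ) : ZMod (3 ^ n)) = 0 := by
    have h : PadicInt.toZModPow n (0 : ℤ_[3]) = ((PadicInt.appr (0 : ℤ_[3]) n : ℕ) : ZMod (3 ^ n)) := rfl
    rw [← h, map_zero]
  rw [ZMod.natCast_eq_zero_iff] at h1
  exact Nat.eq_zero_of_dvd_of_lt h1 (PadicInt.appr_lt _ _)

private theorem appr_one (n : ℕ) : PadicInt.appr (1 : ℤ_[3]) (n + 1) = 1 := by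
  have h1 : ((PadicInt.appr (1 : ℤ_[3]) (n + 1) : ℕ) : ZMod (3 ^ (n + 1))) = ((1 : ℕ) : ZMod (3 ^ (n + 1))) := by
    have h : PadicInt.toZModPow (n + 1) (1 : ℤ_[3]) =
      ((PadicInt.appr (1 : ℤ_[3]) (n + 1) : ℕ) : ZMod (3 ^ (n + 1))) := rfl
    rw [← h, map_one, Nat.cast_one]
  rw [ZMod.natCast_eq_natCast_iff] at h1
  exact Nat.ModEq.eq_of_lt_of_lt h1 (PadicInt.appr_lt _ _) (Nat.one_lt_pow (by omega) (by norm_num))

private theorem gS_inv_of_cy {n : ℕ} {s : Sel E0 3 193}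
    (h : ∀ h : GQ, CycAct (193 * 3 ^ n) h 1 → gS E0 3 193 h s = s) {g g' : GQ}
    (hc : cy (193 * 3 ^ n) g = cy (193 * 3 ^ n) g') : gS E0 3 193 g⁻¹ s = gS E0 3 193 g'⁻¹ s := by
  have h1 : gS E0 3 193 (g' * g⁻¹) s = s := by
    apply h
    rw [cyc_iff, cy_mul, cy_inv, hc, mul_inv_cancel]
  have h2 : g⁻¹ = g'⁻¹ * (g' * g⁻¹) := by group
  rw [h2, gS_mul, h1]

theorem gl_smul (inst : Module (Iw 3 193) (Sel E0 3 193))
    (hinst : ∀ (r : Iw 3 193) (s : Sel E0 3 193), IsAct E0 3 193 r s (r • s)) (g : GQ)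
    (s : Sel E0 3 193) : gl g • s = gS E0 3 193 g⁻¹ s := by
  obtain ⟨n, k, a, ha1, ha2, ha3⟩ := smooth E0 3 193 (by norm_num) s
  have hA : Adm E0 3 193 s n (k + 1) a := by
    refine ⟨?_, ha2, ha3⟩
    have : ∀ {M : Type} [AddGroup M] (x : M), 3 ^ k • x = 0 → 3 ^ (k + 1) • x = 0 := by
      intro M _ x hx
      rw [pow_succ, mul_nsmul, hx, nsmul_zero]
    exact this s ha1
  have h1 := (hinst (gl g) s).2 n (k + 1) a hA
  rw [h1, gl_apply, MonoidAlgebra.coeff_single, Finsupp.sum_single_index, appr_one, one_nsmul]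
  · exact gS_inv_of_cy ha2 (cyc_iff.mp (ha3 _))
  · rw [appr_zero]; exact zero_nsmul _

private theorem red3_coef (z : ℤ_[3]) : red3 (coef z) = ((PadicInt.appr z 1 : ℕ) : ZMod 3) := by
  have h := PadicInt.zmod_cast_comp_toZModPow (p := 3) 1 3 (by norm_num)
  have h2 := RingHom.congr_fun h z
  have h3 : red3.comp (ZMod.castHom (by decide : 27 ∣ 3 ^ 3) (ZMod 27)) =
      ZMod.castHom (pow_dvd_pow 3 (by norm_num : 1 ≤ 3)) (ZMod (3 ^ 1)) := RingHom.ext_zmod _ _
  exact (RingHom.congr_fun h3 (PadicInt.toZModPow 3 z)).trans h2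

private theorem aux_val {M : Type} [AddCommGroup M] (s : M) (h3 : 3 • s = 0) (n : ℕ) :
    ((n : ZMod 3)).val • s = n • s := by
  rw [ZMod.val_natCast]
  conv_rhs => rw [← Nat.div_add_mod n 3, add_nsmul, mul_nsmul, h3, nsmul_zero, zero_add]

private theorem aux_add {M : Type} [AddCommGroup M] (s : M) (h3 : 3 • s = 0) (v w : ZMod 3) :
    (v + w).val • s = v.val • s + w.val • s := by
  rw [← add_nsmul, ← aux_val s h3 (v.val + w.val)]
  rw [Nat.cast_add, ZMod.natCast_zmod_val, ZMod.natCast_zmod_val]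

private theorem aux_appr {M : Type} [AddCommGroup M] (s : M) (h3 : 3 • s = 0) (z : ℤ_[3]) :
    PadicInt.appr z 1 • s = (red3 (coef z)).val • s := by
  rw [red3_coef, aux_val s h3]

private theorem chr_zero (a : Hn 3 193 3) : chr 0 a = 1 := by
  rw [chr_apply, zpow_zero, Units.val_one]

private theorem aux_sum {M : Type} [AddCommGroup M] (s : M) (h3 : 3 • s = 0)
    (x : MonoidAlgebra ℤ_[3] (Hn 3 193 3)) :
    x.coeff.sum (fun _ z => PadicInt.appr z 1 • s) = (red3 (psi3 0 x)).val • s := by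
  induction x using MonoidAlgebra.induction_linear with
  | zero => rw [map_zero, map_zero, ZMod.val_zero, zero_nsmul]; exact Finsupp.sum_zero_index
  | add x y hx hy =>
    rw [map_add, map_add, aux_add s h3, ← hx, ← hy]
    refine Finsupp.sum_add_index' (fun a => ?_) (fun a z w => ?_)
    · rw [appr_zero, zero_nsmul]
    · rw [aux_appr s h3, aux_appr s h3, aux_appr s h3, map_add, map_add, aux_add s h3]
  | single a z =>
    rw [MonoidAlgebra.coeff_single, Finsupp.sum_single_index, psi3_single, chr_zero, mul_one,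
      aux_appr s h3]
    rw [appr_zero, zero_nsmul]

theorem act_W (inst : Module (Iw 3 193) (Sel E0 3 193))
    (hinst : ∀ (r : Iw 3 193) (s : Sel E0 3 193), IsAct E0 3 193 r s (r • s)) (r : Iw 3 193)
    (s : Sel E0 3 193) (h3 : 3 • s = 0) (hs : ∀ g : GQ, gS E0 3 193 g s = s) :
    r • s = (eps r).val • s := by
  choose a ha using cy_surj (193 * 3 ^ 3)
  have hA : Adm E0 3 193 s 3 1 a := ⟨by rw [pow_one]; exact h3, fun h _ => hs h, fun x => cyc_iff.mpr (ha x)⟩
  have h1 := (hinst r s).2 3 1 a hA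
  rw [h1]
  simp only [hs]
  exact aux_sum s h3 _

end KE16
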