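import Pool.Agent.LibKE16.GDef

/-!
KE16, block A, row G2 (SHORT/MEDIUM, cites GDef). The values of `ψ_e` modulo 3 and at `[g1⁻¹] - 1`.

Plan: (`red_psi`) `red3 ∘ psi3 (2 * f)` and `red3 ∘ psi3 0` agree on `single a z`, hence everywhere
(`MonoidAlgebra.ringHom_ext`/`MonoidAlgebra.induction_linear`): `red3 (chr (2 * f) a) = 1` since for a unit
`u` of `ZMod 27`: `red3 (u ^ 2) = 1` (`decide` over `(ZMod 27)ˣ` or over `ZMod 3`: every unit of `ZMod 3` squares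
to 1; `Units.map`, `zpow_mul`).
(`T_values`) `psi_gl`, `cy_inv`; `c := cy 27 g1` satisfies `unitsMap c = cy 3 g1 = 1` (by `hg1`, `cy_dvd`,
`cyc_iff`) and `unitsMap c = cy 9 g1 ≠ 1` (by `hg9` and a primitive 9-th root of unity in `Qb`). Finite check
over `c : (ZMod 27)ˣ` (or over `ZMod 27`, with `c * c' = 1`) by `decide`: `c⁻¹ ^ 2 - 1 = 3 t1`,
`c ^ 2 - 1 = 3 t2`, `t1`, `t2`, `t1 - t2` units (`t1 ≡ -t2 mod 3`).
-/

open WeierstrassCurve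

namespace KE16

private theorem sq_one3 : ∀ w : (ZMod 3)ˣ, w ^ 2 = 1 := by decide

private theorem red_unit (u : (ZMod 27)ˣ) (f : ℤ) : red3 (((u ^ (2 * f) : (ZMod 27)ˣ)) : ZMod 27) = 1 := by
  have h : red3 (((u ^ (2 * f) : (ZMod 27)ˣ)) : ZMod 27) =
      ((Units.map (red3 : ZMod 27 →* ZMod 3) (u ^ (2 * f)) : (ZMod 3)ˣ) : ZMod 3) := rfl
  rw [h, map_zpow, zpow_mul]
  rw [show (Units.map (red3 : ZMod 27 →* ZMod 3) u) ^ (2 : ℤ) = 1 from sq_one3 _, one_zpow, Units.val_one]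

theorem red_psi (f : ℤ) (r : Iw 3 193) : red3 (psi (2 * f) r) = eps r := by
  have h : red3.comp (psi3 (2 * f)) = red3.comp (psi3 0) := by
    apply MonoidAlgebra.ringHom_ext
    · intro z
      rw [RingHom.comp_apply, RingHom.comp_apply, psi3_single, psi3_single, map_one, map_one]
    · intro a
      rw [RingHom.comp_apply, RingHom.comp_apply, psi3_single, psi3_single, chr_apply, chr_apply,
        map_mul, map_mul, red_unit, ← mul_zero (2 : ℤ), red_unit]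
  exact RingHom.congr_fun h _

private theorem check27 : ∀ c c' : ZMod 27, c * c' = 1 →
    (ZMod.castHom (by decide : 3 ∣ 27) (ZMod 3)) c = 1 →
    (ZMod.castHom (by decide : 9 ∣ 27) (ZMod 9)) c ≠ 1 →
    c' ^ 2 - 1 = 3 * (((c' ^ 2 - 1).val / 3 : ℕ) : ZMod 27) ∧
    c ^ 2 - 1 = 3 * (((c ^ 2 - 1).val / 3 : ℕ) : ZMod 27) ∧
    (((c' ^ 2 - 1).val / 3 : ℕ) : ZMod 27) ^ 18 = 1 ∧
    (((c ^ 2 - 1).val / 3 : ℕ) : ZMod 27) ^ 18 = 1 ∧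
    ((((c' ^ 2 - 1).val / 3 : ℕ) : ZMod 27) - (((c ^ 2 - 1).val / 3 : ℕ) : ZMod 27)) ^ 18 = 1 := by
  decide

theorem T_values (g1 : GQ) (hg1 : ∀ ζ : Qb, IsPrimitiveRoot ζ 3 → g1 ζ = ζ)
    (hg9 : ∀ ζ : Qb, IsPrimitiveRoot ζ 9 → g1 ζ ≠ ζ) :
    ∃ t1 t2 : ZMod 27, psi (2 * 0) (gl g1⁻¹ - 1) = 0 ∧ psi (2 * 1) (gl g1⁻¹ - 1) = 3 * t1 ∧
      psi (2 * (-1)) (gl g1⁻¹ - 1) = 3 * t2 ∧ IsUnit t1 ∧ IsUnit t2 ∧ IsUnit (t1 - t2) := by
  obtain ⟨c, hc⟩ : ∃ c, c = cy 27 g1 := ⟨_, rfl⟩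
  have h3 : ZMod.unitsMap (by decide : 3 ∣ 27) c = 1 := by
    rw [hc, cy_dvd]
    refine cyc_iff.mp fun ζ hζ => ?_
    have h1 : ζ ^ ((1 : (ZMod 3)ˣ) : ZMod 3).val = ζ := pow_one ζ
    rw [h1]
    by_cases hz : ζ = 1
    · rw [hz, map_one]
    · exact hg1 ζ ((orderOf_eq_prime hζ hz) ▸ IsPrimitiveRoot.orderOf ζ)
  have h9 : ZMod.unitsMap (by decide : 9 ∣ 27) c ≠ 1 := by
    rw [hc, cy_dvd]
    intro h
    have h1 : CycAct 9 g1 1 := cyc_iff.mpr h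
    have : NeZero ((9 : ℕ) : Qb) := ⟨by norm_num⟩
    obtain ⟨ζ, hζ⟩ := (inferInstance : HasEnoughRootsOfUnity Qb 9).prim
    exact hg9 ζ hζ ((h1 ζ hζ.pow_eq_one).trans (pow_one ζ))
  have hv : ∀ e : ℤ, psi e (gl g1⁻¹ - 1) = (((c⁻¹) ^ e : (ZMod 27)ˣ) : ZMod 27) - 1 := by
    intro e
    rw [map_sub, map_one, psi_gl, cy_inv, hc]
  have hk := check27 (c : ZMod 27) ((c⁻¹ : (ZMod 27)ˣ) : ZMod 27) (by simp)
    (by
      change ((ZMod.unitsMap (by decide : 3 ∣ 27) c : (ZMod 3)ˣ) : ZMod 3) = 1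
      rw [h3, Units.val_one])
    (by
      intro h
      exact h9 (Units.ext h))
  obtain ⟨e1, e2, u1, u2, u3⟩ := hk
  refine ⟨_, _, ?_, ?_, ?_, IsUnit.of_pow_eq_one u1 (by norm_num), IsUnit.of_pow_eq_one u2 (by norm_num),
    IsUnit.of_pow_eq_one u3 (by norm_num)⟩
  · rw [hv]; simp
  · rw [hv, ← e1]; rfl
  · rw [hv, ← e2]
    have : (c⁻¹ : (ZMod 27)ˣ) ^ (2 * (-1) : ℤ) = c ^ 2 := by
      rw [mul_comm, zpow_mul, zpow_neg_one, inv_inv]; rfl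
    rw [this, Units.val_pow_eq_pow_val]

end KE16
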