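import Mathlib

/-!
KE16, block A, row C3 (ONLY MATHLIB, SHORT/MEDIUM). Chinese remainder theorem for units.

Plan: `ZMod.unitsMap_def`/`ZMod.unitsMap_val`: the value is `ZMod.castHom`. Injectivity: `M` and `N` divide
`a.val - 1`, hence so does `M * N` (`Nat.Coprime.mul_dvd_of_dvd_of_dvd`). Surjectivity:
`ZMod.chineseRemainder`, `Units.mapEquiv`, or `Nat.chineseRemainder` and `ZMod.unitOfCoprime`.
-/

namespace KE16

private theorem c3_fst {M N : ℕ} (hc : M.Coprime N) (x : ZMod (M * N)) :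
    (ZMod.chineseRemainder hc x).1 = ZMod.castHom (Dvd.intro _ rfl : M ∣ M * N) (ZMod M) x := by
  have : (RingHom.fst (ZMod M) (ZMod N)).comp (ZMod.chineseRemainder hc).toRingHom =
      ZMod.castHom (Dvd.intro _ rfl : M ∣ M * N) (ZMod M) := Subsingleton.elim _ _
  exact congrArg (fun f : ZMod (M * N) →+* ZMod M => f x) this

private theorem c3_snd {M N : ℕ} (hc : M.Coprime N) (x : ZMod (M * N)) :
    (ZMod.chineseRemainder hc x).2 = ZMod.castHom (Dvd.intro_left _ rfl : N ∣ M * N) (ZMod N) x := by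
  have : (RingHom.snd (ZMod M) (ZMod N)).comp (ZMod.chineseRemainder hc).toRingHom =
      ZMod.castHom (Dvd.intro_left _ rfl : N ∣ M * N) (ZMod N) := Subsingleton.elim _ _
  exact congrArg (fun f : ZMod (M * N) →+* ZMod N => f x) this

theorem crt_inj {M N : ℕ} (hM : M ≠ 0) (hN : N ≠ 0) (hc : M.Coprime N) (a : (ZMod (M * N))ˣ)
    (h1 : ZMod.unitsMap (Dvd.intro _ rfl : M ∣ M * N) a = 1)
    (h2 : ZMod.unitsMap (Dvd.intro_left _ rfl : N ∣ M * N) a = 1) : a = 1 := by
  apply Units.ext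
  apply (ZMod.chineseRemainder hc).injective
  rw [Units.val_one, map_one]
  apply Prod.ext
  · rw [c3_fst hc]
    exact congrArg (fun u : (ZMod M)ˣ => (u : ZMod M)) h1
  · rw [c3_snd hc]
    exact congrArg (fun u : (ZMod N)ˣ => (u : ZMod N)) h2

theorem crt_surj {M N : ℕ} (hM : M ≠ 0) (hN : N ≠ 0) (hc : M.Coprime N) (b : (ZMod M)ˣ)
    (c : (ZMod N)ˣ) : ∃ a : (ZMod (M * N))ˣ,
      ZMod.unitsMap (Dvd.intro _ rfl : M ∣ M * N) a = b ∧
      ZMod.unitsMap (Dvd.intro_left _ rfl : N ∣ M * N) a = c := by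
  refine ⟨(Units.mapEquiv (ZMod.chineseRemainder hc).toMulEquiv).symm
    (MulEquiv.prodUnits.symm (b, c)), ?_, ?_⟩
  · apply Units.ext
    show ZMod.castHom (Dvd.intro _ rfl : M ∣ M * N) (ZMod M)
      ((ZMod.chineseRemainder hc).symm ((b : ZMod M), (c : ZMod N))) = b
    rw [← c3_fst hc, RingEquiv.apply_symm_apply]
  · apply Units.ext
    show ZMod.castHom (Dvd.intro_left _ rfl : N ∣ M * N) (ZMod N)
      ((ZMod.chineseRemainder hc).symm ((b : ZMod M), (c : ZMod N))) = c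
    rw [← c3_snd hc, RingEquiv.apply_symm_apply]

end KE16
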