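import Pool.Agent.LibKE16.JDef
import Pool.Agent.LibKE16.C3

/-!
KE16, block A, row J0 (MEDIUM, cites C3, CDef). The set `JS g1` is finite, and `ψ_{2f}` kills it.

Plan: for `IsP d`: at each level `n`, `cy (3 ^ n) d = 1 ∨ cy (3 ^ n) d = -1` (primitive root of unity of order
`3 ^ n` in `Qb`, `cyc_unique`), with the same sign for all `n ≥ 1` (reduce to level 3: `cy_dvd`, `1 ≠ -1` in
`(ZMod 3)ˣ`). So if `IsP d`, `IsP d'`, `cy 193 d = cy 193 d'`, `cy 3 d = cy 3 d'` then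
`cy (193 * 3 ^ n) d = cy (193 * 3 ^ n) d'` for all `n` (`crt_inj` for `d * d'⁻¹`) and `gl d = gl d'`: the map
`d ↦ gl d⁻¹ - 1` on `{d // IsP d}` factors through the finite set of the pairs `(cy 193 d, cy 3 d)`, so its
range is finite.
`psi_JS`: it is enough to check the generators: `psi (27) = 27 = 0`; with `psi (2 * f) (gl g1⁻¹ - 1) = 3 * t`
(because `red3` of it is `0`: `psi_gl`, squares of units are `1` mod 3), `9 * 3 t = 0`, `3 * (3 t)^2 = 0`,
`(3 t)^3 = 0`; for `IsP d`: `cy 27 d = ±1`, so `(cy 27 d⁻¹) ^ (2 * f) = 1`.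
-/

open WeierstrassCurve

namespace KE16

private theorem J0_prim (N : ℕ) [NeZero N] : ∃ ζ : Qb, IsPrimitiveRoot ζ N := by
  have hN : NeZero (N : Qb) := ⟨Nat.cast_ne_zero.mpr (NeZero.ne N)⟩
  obtain ⟨ζ, hζ⟩ := IsAlgClosed.exists_root (Polynomial.cyclotomic N Qb)
    (Polynomial.degree_cyclotomic_pos N Qb (NeZero.pos N)).ne'
  exact ⟨ζ, Polynomial.isRoot_cyclotomic_iff.mp hζ⟩

private theorem J0_pm {d : GQ} (hd : IsP d) (N n : ℕ) [NeZero N] (hN : N = 3 ^ n) :
    cy N d = 1 ∨ cy N d = -1 := by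
  obtain ⟨ζ, hζ⟩ := J0_prim N
  have hs := cy_spec N d ζ hζ.pow_eq_one
  have hζ0 : ζ ≠ 0 := hζ.ne_zero (NeZero.ne N)
  rcases hd n ζ (by rw [← hN]; exact hζ.pow_eq_one) with h | h
  · left
    rw [h] at hs
    apply Units.ext
    have hpos : 1 ≤ N := NeZero.pos N
    have h1 : ζ ^ ((cy N d : ZMod N).val + (N - 1)) = 1 := by
      rw [pow_add, ← hs, ← pow_succ', Nat.sub_add_cancel hpos, hζ.pow_eq_one]
    have h2 := (hζ.pow_eq_one_iff_dvd _).mp h1
    have h3 := (ZMod.natCast_eq_zero_iff _ _).mpr h2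
    rw [Nat.cast_add, ZMod.natCast_zmod_val, Nat.cast_sub hpos, ZMod.natCast_self, Nat.cast_one,
      zero_sub] at h3
    rw [Units.val_one]
    exact add_neg_eq_zero.mp h3
  · right
    rw [h] at hs
    apply Units.ext
    have h1 : ζ ^ ((cy N d : ZMod N).val + 1) = 1 := by
      rw [pow_succ, ← hs, inv_mul_cancel₀ hζ0]
    have h2 := (hζ.pow_eq_one_iff_dvd _).mp h1
    have h3 := (ZMod.natCast_eq_zero_iff _ _).mpr h2
    rw [Nat.cast_add, ZMod.natCast_zmod_val, Nat.cast_one] at h3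
    rw [Units.val_neg, Units.val_one]
    exact eq_neg_of_add_eq_zero_left h3

private theorem J0_three (n : ℕ) {d d' : GQ} (hd : IsP d) (hd' : IsP d')
    (h : cy 3 d = cy 3 d') : cy (3 ^ n) d = cy (3 ^ n) d' := by
  rcases Nat.eq_zero_or_pos n with rfl | hn
  · have : Subsingleton (ZMod (3 ^ 0))ˣ := by
      rw [pow_zero]
      infer_instance
    exact Subsingleton.elim _ _
  · have hdv : 3 ∣ 3 ^ n := dvd_pow_self 3 hn.ne'
    have e1 := cy_dvd hdv d
    have e2 := cy_dvd hdv d'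
    have hne : (1 : (ZMod 3)ˣ) ≠ -1 := by decide
    have hm : ZMod.unitsMap hdv (-1) = -1 := by
      apply Units.ext
      simp [ZMod.unitsMap_def]
    rcases J0_pm hd (3 ^ n) n rfl with a | a <;> rcases J0_pm hd' (3 ^ n) n rfl with b | b
    · rw [a, b]
    · rw [a, map_one] at e1
      rw [b, hm] at e2
      rw [← e1, ← e2] at h
      exact absurd h hne
    · rw [a, hm] at e1
      rw [b, map_one] at e2
      rw [← e1, ← e2] at h
      exact absurd h.symm hne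
    · rw [a, b]

private theorem J0_all (n : ℕ) {d d' : GQ} (hd : IsP d) (hd' : IsP d')
    (h : cy 3 d = cy 3 d') (h' : cy 193 d = cy 193 d') :
    cy (193 * 3 ^ n) d = cy (193 * 3 ^ n) d' := by
  have hc : Nat.Coprime 193 (3 ^ n) := Nat.Coprime.pow_right n (by norm_num)
  have h3 : (3 : ℕ) ^ n ≠ 0 := by positivity
  have key := crt_inj (by norm_num : (193 : ℕ) ≠ 0) h3 hc (cy (193 * 3 ^ n) (d * d'⁻¹)) (by
    rw [cy_dvd, cy_mul, cy_inv, h', mul_inv_cancel]) (by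
    rw [cy_dvd, cy_mul, cy_inv, J0_three n hd hd' h, mul_inv_cancel])
  rw [cy_mul, cy_inv] at key
  exact mul_inv_eq_one.mp key

private theorem J0_gl {d d' : GQ} (hd : IsP d) (hd' : IsP d')
    (h : cy 3 d = cy 3 d') (h' : cy 193 d = cy 193 d') : gl d⁻¹ = gl d'⁻¹ := by
  apply Subtype.ext
  funext n
  rw [gl_apply, gl_apply, cy_inv, cy_inv, J0_all n hd hd' h h']

theorem JS_finite (g1 : GQ) : (JS g1).Finite := by
  classical
  unfold JS
  refine Set.Finite.union (Set.toFinite _) ?_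
  let F : (ZMod 193)ˣ × (ZMod 3)ˣ → Iw 3 193 := fun ab =>
    if h : ∃ d : GQ, IsP d ∧ cy 193 d = ab.1 ∧ cy 3 d = ab.2 then gl h.choose⁻¹ - 1 else 0
  refine (Set.finite_range F).subset ?_
  rintro r ⟨d, hd, rfl⟩
  have hex : ∃ d' : GQ, IsP d' ∧ cy 193 d' = cy 193 d ∧ cy 3 d' = cy 3 d := ⟨d, hd, rfl, rfl⟩
  refine ⟨(cy 193 d, cy 3 d), ?_⟩
  have e : F (cy 193 d, cy 3 d) = gl hex.choose⁻¹ - 1 := dif_pos hex
  rw [e]
  obtain ⟨a, b, c⟩ := hex.choose_spec
  rw [J0_gl a hd c b]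

private theorem J0_div (x : ZMod 27) (h : red3 x = 0) : ∃ t : ZMod 27, x = 3 * t := by
  have h' : (x.cast : ZMod 3) = 0 := h
  clear h
  revert h'
  revert x
  decide

private theorem J0_sq (a : (ZMod 27)ˣ) (f : ℤ) :
    ∃ t : ZMod 27, ((a ^ (2 * f) : (ZMod 27)ˣ) : ZMod 27) - 1 = 3 * t := by
  apply J0_div
  have h2 : ∀ b : (ZMod 3)ˣ, b ^ 2 = 1 := by decide
  have e : red3 ((a ^ (2 * f) : (ZMod 27)ˣ) : ZMod 27) = 1 := by
    have e1 : red3 ((a ^ (2 * f) : (ZMod 27)ˣ) : ZMod 27) =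
        ((Units.map (red3 : ZMod 27 →* ZMod 3) (a ^ (2 * f)) : (ZMod 3)ˣ) : ZMod 3) := rfl
    rw [e1, map_zpow, zpow_mul]
    have e2 : (Units.map (red3 : ZMod 27 →* ZMod 3) a) ^ (2 : ℤ) = 1 := by
      have := h2 (Units.map (red3 : ZMod 27 →* ZMod 3) a)
      exact_mod_cast this
    rw [e2, one_zpow, Units.val_one]
  rw [map_sub, e, map_one, sub_self]

theorem psi_JS (g1 : GQ) (f : ℤ) (r : Iw 3 193) (hr : r ∈ Ideal.span (JS g1)) :
    psi (2 * f) r = 0 := by
  have h27 : (27 : ZMod 27) = 0 := by decide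
  have hle : Ideal.span (JS g1) ≤ RingHom.ker (psi (2 * f)) := by
    rw [Ideal.span_le]
    intro x hx
    rw [SetLike.mem_coe, RingHom.mem_ker]
    obtain ⟨t, ht⟩ := J0_sq (cy 27 g1⁻¹) f
    rcases hx with hx | ⟨d, hd, rfl⟩
    · simp only [Set.mem_insert_iff, Set.mem_singleton_iff] at hx
      rcases hx with rfl | rfl | rfl | rfl
      · rw [map_ofNat]
        exact h27
      · rw [map_mul, map_sub, map_one, psi_gl, ht, map_ofNat]
        have : (9 : ZMod 27) * (3 * t) = 27 * t := by ring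
        rw [this, h27, zero_mul]
      · rw [map_mul, map_pow, map_sub, map_one, psi_gl, ht, map_ofNat]
        have : (3 : ZMod 27) * (3 * t) ^ 2 = 27 * t ^ 2 := by ring
        rw [this, h27, zero_mul]
      · rw [map_pow, map_sub, map_one, psi_gl, ht]
        have : (3 * t : ZMod 27) ^ 3 = 27 * t ^ 3 := by ring
        rw [this, h27, zero_mul]
    · rw [map_sub, map_one, psi_gl, cy_inv]
      have h1 : ((cy 27 d)⁻¹ ^ (2 * f) : (ZMod 27)ˣ) = 1 := by
        rw [zpow_mul]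
        have h2 : (cy 27 d)⁻¹ ^ (2 : ℤ) = 1 := by
          rcases J0_pm hd 27 3 (by norm_num) with a | a <;> rw [a] <;> decide
        rw [h2, one_zpow]
      rw [h1, Units.val_one, sub_self]
  exact hle hr

end KE16
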