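import Mathlib

/-!
KE16, block A, row J1 (ONLY MATHLIB, SHORT/MEDIUM). The elements killed by `J`, abstract form.

Plan: from right to left clear (`hQ`; `27 • s = 9 • 3 • s`, `(9 * T) • s = 9 • T • s` ..). From left to right let `s`
be killed by all generators; `r • (t • s) = t • (r • s) = 0` for `r ∈ P`, `t : R` (commutativity), so all
multiples of `s` are killed by `P`. `9 • s`, `(3 * T) • s`, `T ^ 2 • s` are killed by `3` and `T`, so they satisfy
`Q` (`stage0`). Then `hstep` applies to `3 • s` (`Q (9 s)`, `27 s = 0`, `Q (T 3 s)`, `3 T 3 s = 9 T s = 0`), to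
`T • s` (`Q (3 T s)`, `9 T s = 0`, `Q (T T s)`, `3 T^2 s = 0`), giving `3 • 3 • s = 0`, `Q (3 s)`, `3 • T • s = 0`,
`Q (T s)`, and then to `s`. (`ofNat_smul_eq_nsmul`, `mul_smul`, `pow_succ`.)
-/

namespace KE16

theorem MJ_abs {R M : Type} [CommRing R] [AddCommGroup M] [Module R M] (T : R) (P : Set R)
    (Q : M → Prop)
    (stage0 : ∀ w : M, 3 • w = 0 → T • w = 0 → (∀ r ∈ P, r • w = 0) → Q w)
    (hstep : ∀ s : M, (∀ r ∈ P, r • s = 0) → Q (3 • s) → 3 • (3 • s) = 0 → Q (T • s) →
      3 • (T • s) = 0 → 3 • s = 0 ∧ Q s)
    (hQ : ∀ s, Q s → T • s = 0 ∧ ∀ r ∈ P, r • s = 0) (s : M) :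
    (∀ r ∈ ({27, 9 * T, 3 * T ^ 2, T ^ 3} ∪ P : Set R), r • s = 0) ↔ 3 • s = 0 ∧ Q s := by
  have n3 : ∀ w : M, (3 : ℕ) • w = (3 : R) • w := fun w => (ofNat_smul_eq_nsmul R 3 w).symm
  constructor
  · intro h
    have h27 : (27 : R) • s = 0 := h 27 (Or.inl (by simp))
    have h9 : (9 * T) • s = 0 := h (9 * T) (Or.inl (by simp))
    have h3 : (3 * T ^ 2) • s = 0 := h (3 * T ^ 2) (Or.inl (by simp))
    have h1 : (T ^ 3) • s = 0 := h (T ^ 3) (Or.inl (by simp))
    have hP : ∀ r ∈ P, r • s = 0 := fun r hr => h r (Or.inr hr)
    have hP' : ∀ t : R, ∀ r ∈ P, r • (t • s) = 0 := by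
      intro t r hr
      rw [smul_comm, hP r hr, smul_zero]
    have qa : Q ((9 : R) • s) := by
      refine stage0 _ ?_ ?_ (hP' 9)
      · simp only [n3, smul_smul]
        convert h27 using 2
        norm_num
      · simp only [smul_smul]
        convert h9 using 2
        ring
    have qb : Q ((3 * T) • s) := by
      refine stage0 _ ?_ ?_ (hP' _)
      · simp only [n3, smul_smul]
        convert h9 using 2
        ring
      · simp only [smul_smul]
        convert h3 using 2
        ring
    have qc : Q ((T ^ 2) • s) := by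
      refine stage0 _ ?_ ?_ (hP' _)
      · simp only [n3, smul_smul]
        exact h3
      · simp only [smul_smul]
        convert h1 using 2
        ring
    obtain ⟨d1, d2⟩ := hstep (3 • s) (by rw [n3]; exact hP' 3)
      (by
        have e : (3 : ℕ) • ((3 : ℕ) • s) = (9 : R) • s := by
          simp only [n3, smul_smul]
          congr 1
          norm_num
        rw [e]
        exact qa)
      (by
        simp only [n3, smul_smul]
        convert h27 using 2
        norm_num)
      (by
        have e : T • ((3 : ℕ) • s) = (3 * T) • s := by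
          simp only [n3, smul_smul]
          congr 1
          ring
        rw [e]
        exact qb)
      (by
        simp only [n3, smul_smul]
        convert h9 using 2
        ring)
    obtain ⟨e1, e2⟩ := hstep (T • s) (hP' T)
      (by
        have e : (3 : ℕ) • (T • s) = (3 * T) • s := by
          simp only [n3, smul_smul]
        rw [e]
        exact qb)
      (by
        simp only [n3, smul_smul]
        convert h9 using 2
        ring)
      (by
        have e : T • (T • s) = (T ^ 2) • s := by
          simp only [smul_smul]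
          congr 1
          ring
        rw [e]
        exact qc)
      (by
        simp only [n3, smul_smul]
        convert h3 using 2
        ring)
    exact hstep s hP d2 d1 e2 e1
  · rintro ⟨h3, hq⟩ r hr
    obtain ⟨hT, hP⟩ := hQ s hq
    rw [n3] at h3
    rcases hr with hr | hr
    · simp only [Set.mem_insert_iff, Set.mem_singleton_iff] at hr
      rcases hr with rfl | rfl | rfl | rfl
      · rw [show (27 : R) = 9 * 3 by norm_num, mul_smul, h3, smul_zero]
      · rw [mul_smul, hT, smul_zero]
      · rw [show (3 : R) * T ^ 2 = T ^ 2 * 3 by ring, mul_smul, h3, smul_zero]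
      · rw [show T ^ 3 = T ^ 2 * T by ring, mul_smul, hT, smul_zero]
    · exact hP r hr

end KE16
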