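import Mathlib

/-!
KE16, block A, row C4 (ONLY MATHLIB, MEDIUM). `(ℤ/3ⁿ)ˣ = ± ⟨c⟩` for `c ≡ 1 mod 3`, `c ≢ 1 mod 9`.

Plan: `c = 1 + 3 a` with `a` an integer not divisible by 3, so `orderOf c = 3 ^ n`
(`ZMod.orderOf_one_add_mul_prime`, Mathlib.RingTheory.ZMod.UnitsCyclic; `orderOf_units`). The group has
`2 * 3 ^ n` elements (`ZMod.card_units_eq_totient`, `Nat.totient_prime_pow`), `Subgroup.zpowers c` has index
2 and odd order, `-1` (order 2) is not in it; so every `κ` is in it or `-κ` is. Finite group: integer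
powers are natural powers (`mem_powers_iff_mem_zpowers`). For `n = 0` use directly: the units of
`ZMod 3` are `1`, `-1` (`decide`).
-/

namespace KE16

private theorem c4_zero (κ : (ZMod (3 ^ (0 + 1)))ˣ) : κ = 1 ∨ κ = -1 := by
  revert κ
  decide

theorem gen3 (n : ℕ) (c : (ZMod (3 ^ (n + 1)))ˣ)
    (h3 : ZMod.unitsMap (Dvd.intro_left _ (pow_succ 3 n).symm : 3 ∣ 3 ^ (n + 1)) c = 1)
    (h9 : ∀ h : 9 ∣ 3 ^ (n + 1), ZMod.unitsMap h c ≠ 1) (κ : (ZMod (3 ^ (n + 1)))ˣ) :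
    ∃ i : ℕ, κ = c ^ i ∨ κ = -c ^ i := by
  rcases Nat.eq_zero_or_pos n with rfl | hn
  · refine ⟨0, ?_⟩
    rw [pow_zero]
    exact c4_zero κ
  have h9d : 9 ∣ 3 ^ (n + 1) := by
    obtain ⟨m, rfl⟩ : ∃ m, n = m + 1 := ⟨n - 1, by omega⟩
    exact ⟨3 ^ m, by ring⟩
  set v : ℕ := (c : ZMod (3 ^ (n + 1))).val with hv
  have hcv : ((v : ℕ) : ZMod (3 ^ (n + 1))) = c := ZMod.natCast_zmod_val _
  have h3' : ((v : ℕ) : ZMod 3) = 1 := by
    have := congrArg (fun u : (ZMod 3)ˣ => (u : ZMod 3)) h3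
    have h2 : ZMod.castHom (Dvd.intro_left _ (pow_succ 3 n).symm : 3 ∣ 3 ^ (n + 1)) (ZMod 3)
      (c : ZMod (3 ^ (n + 1))) = 1 := this
    rw [← hcv, map_natCast] at h2
    exact h2
  have h9' : ((v : ℕ) : ZMod 9) ≠ 1 := by
    intro h
    apply h9 h9d
    apply Units.ext
    show ZMod.castHom h9d (ZMod 9) (c : ZMod (3 ^ (n + 1))) = 1
    rw [← hcv, map_natCast]
    exact h
  have m3 : v % 3 = 1 := by
    have : ((v : ℕ) : ZMod 3) = ((1 : ℕ) : ZMod 3) := by rw [h3']; norm_num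
    have h := (ZMod.natCast_eq_natCast_iff' v 1 3).1 this
    simpa using h
  have m9 : v % 9 ≠ 1 := by
    intro h
    apply h9'
    have : ((v : ℕ) : ZMod 9) = ((1 : ℕ) : ZMod 9) :=
      (ZMod.natCast_eq_natCast_iff' v 1 9).2 (by simpa using h)
    rw [this]; norm_num
  obtain ⟨a, ha⟩ : ∃ a : ℕ, v = 1 + 3 * a := ⟨v / 3, by omega⟩
  have ha3 : ¬ ((3 : ℕ) : ℤ) ∣ (a : ℤ) := by
    intro h
    have : 3 ∣ a := by exact_mod_cast h
    obtain ⟨b, rfl⟩ := this
    apply m9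
    rw [ha]; omega
  have hord : orderOf c = 3 ^ n := by
    rw [← orderOf_units, ← hcv, ha]
    have := ZMod.orderOf_one_add_mul_prime Nat.prime_three (by norm_num) (a : ℤ) ha3 n
    rw [← this]
    congr 1
    push_cast
    ring
  have hcard : Nat.card (ZMod (3 ^ (n + 1)))ˣ = 3 ^ n * 2 := by
    rw [Nat.card_eq_fintype_card, ZMod.card_units_eq_totient,
      Nat.totient_prime_pow_succ Nat.prime_three]
  have hidx : (Subgroup.zpowers c).index = 2 := by
    have h1 := (Subgroup.zpowers c).card_mul_index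
    rw [Nat.card_zpowers, hord, hcard] at h1
    exact Nat.eq_of_mul_eq_mul_left (pow_pos (by norm_num) n) h1
  have hneg : (-1 : (ZMod (3 ^ (n + 1)))ˣ) ∉ Subgroup.zpowers c := by
    intro h
    have h1 : orderOf (-1 : (ZMod (3 ^ (n + 1)))ˣ) ∣ 3 ^ n := by
      have h5 := Subgroup.orderOf_dvd_natCard (Subgroup.zpowers c) h
      rw [Nat.card_zpowers, hord] at h5
      exact h5
    have h2 : orderOf (-1 : (ZMod (3 ^ (n + 1)))ˣ) = 2 := by
      apply orderOf_eq_prime (by norm_num)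
      intro h0
      have h4 := congrArg (fun u : (ZMod (3 ^ (n + 1)))ˣ =>
        ZMod.castHom (Dvd.intro_left _ (pow_succ 3 n).symm : 3 ∣ 3 ^ (n + 1)) (ZMod 3)
          (u : ZMod (3 ^ (n + 1)))) h0
      simp only [Units.val_neg, Units.val_one, map_neg, map_one] at h4
      exact absurd h4 (by decide)
    rw [h2] at h1
    have := (Nat.Prime.dvd_of_dvd_pow Nat.prime_two h1)
    norm_num at this
  have hpow : ∀ x ∈ Subgroup.zpowers c, ∃ i : ℕ, c ^ i = x := by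
    intro x hx
    rw [← mem_powers_iff_mem_zpowers] at hx
    exact (Submonoid.mem_powers_iff _ _).1 hx
  by_cases hk : κ ∈ Subgroup.zpowers c
  · obtain ⟨i, hi⟩ := hpow κ hk
    exact ⟨i, Or.inl hi.symm⟩
  · have h1 : (-1) * κ ∈ Subgroup.zpowers c := by
      rw [Subgroup.mul_mem_iff_of_index_two hidx]
      exact ⟨fun h => absurd h hneg, fun h => absurd h hk⟩
    obtain ⟨i, hi⟩ := hpow _ h1
    refine ⟨i, Or.inr ?_⟩
    rw [hi, neg_one_mul, neg_neg]

end KE16
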