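import Pool.Agent.LibKE16.C5
import Pool.Agent.LibKE16.C4

/-!
KE16, block A, row C6 (MEDIUM). Every `g` is, at level `193 * 3 ^ n`, a product `g1 ^ i * d`, `d` acts on
`μ_{3^∞}` by a sign.

Plan: by `cyc_dvd` we may assume `n ≥ 1`, say `n = k + 1` (the statement at level `193 * 3 ^ (k + 1)` implies
the one at level `193 * 3 ^ k`). `c := cy (3 ^ (k+1)) g1` satisfies the hypotheses of `gen3`:
`unitsMap c = cy 3 g1 = 1` (by `hg1`: `CycAct 3 g1 1`; every `ζ` with `ζ ^ 3 = 1` is `1` or primitive) and,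
if `9 ∣ 3 ^ (k+1)`, `unitsMap c = cy 9 g1 ≠ 1` (by `hg9` and a primitive 9-th root of unity of `Qb`).
So `cy g = ± c ^ i`. Take `d` from `exists_d` with `u j = 1` (or `u j = -1`) for all `j` and
`b = cy 193 g * (cy 193 g1 ^ i)⁻¹`. Then `CycAct (3 ^ j) d (±1)` gives the first claim
(`((-1 : (ZMod (3 ^ j))ˣ) : ZMod (3 ^ j)).val = 3 ^ j - 1` for `j ≥ 1`; or: `CycAct N (d * d')`; or
`ζ ^ (a.val)` only depends on `a.val` mod `N`), and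
`cy (193 * 3 ^ (k+1)) (g⁻¹ * (g1 ^ i * d)) = 1` by `crt_inj`, `cy_dvd`, `cy_mul`, `cy_inv`, `cy_pow`.
-/

namespace KE16

private theorem pow_val_one {N : ℕ} (ζ : Qb) (hζ : ζ ^ N = 1) :
    ζ ^ ((1 : (ZMod N)ˣ) : ZMod N).val = ζ := by
  rcases eq_or_ne N 1 with rfl | hN
  · rw [pow_one] at hζ
    rw [hζ, one_pow]
  · rw [Units.val_one, ZMod.val_one'' hN, pow_one]

private theorem pow_val_neg {N : ℕ} [NeZero N] (ζ : Qb) (hζ : ζ ^ N = 1) :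
    ζ ^ ((-1 : (ZMod N)ˣ) : ZMod N).val = ζ⁻¹ := by
  have h1 : (((((-1 : (ZMod N)ˣ) : ZMod N).val + 1 : ℕ)) : ZMod N) = 0 := by
    rw [Nat.cast_add, ZMod.natCast_zmod_val]
    simp
  have h2 : N ∣ ((-1 : (ZMod N)ˣ) : ZMod N).val + 1 := (ZMod.natCast_eq_zero_iff _ _).1 h1
  obtain ⟨m, hm⟩ := h2
  have h3 : ζ ^ ((-1 : (ZMod N)ˣ) : ZMod N).val * ζ = 1 := by
    rw [← pow_succ, hm, pow_mul, hζ, one_pow]
  exact eq_inv_of_mul_eq_one_left h3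

private theorem prim3 (ζ : Qb) (h : ζ ^ 3 = 1) : ζ = 1 ∨ IsPrimitiveRoot ζ 3 := by
  by_cases h1 : ζ = 1
  · exact Or.inl h1
  · right
    have : Fact (Nat.Prime 3) := ⟨by norm_num⟩
    have h2 := orderOf_eq_prime h h1
    rw [← h2]
    exact IsPrimitiveRoot.orderOf ζ

private theorem prim9 : ∃ ζ : Qb, IsPrimitiveRoot ζ 9 := by
  have h : (Polynomial.cyclotomic 9 Qb).degree ≠ 0 := by
    rw [Polynomial.degree_cyclotomic]
    decide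
  obtain ⟨ζ, hζ⟩ := IsAlgClosed.exists_root _ h
  exact ⟨ζ, (Polynomial.isRoot_cyclotomic_iff).1 hζ⟩

theorem decomp (g1 : GQ) (hg1 : ∀ ζ : Qb, IsPrimitiveRoot ζ 3 → g1 ζ = ζ)
    (hg9 : ∀ ζ : Qb, IsPrimitiveRoot ζ 9 → g1 ζ ≠ ζ) (g : GQ) (n : ℕ) :
    ∃ (i : ℕ) (d : GQ), (∀ (n : ℕ) (ζ : Qb), ζ ^ 3 ^ n = 1 → d ζ = ζ ∨ d ζ = ζ⁻¹) ∧
      CycAct (193 * 3 ^ n) (g⁻¹ * (g1 ^ i * d)) 1 := by
  have h3 : ZMod.unitsMap (Dvd.intro_left _ (pow_succ 3 n).symm : 3 ∣ 3 ^ (n + 1))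
      (cy (3 ^ (n + 1)) g1) = 1 := by
    rw [cy_dvd]
    apply cy_eq
    intro ζ hζ
    rw [pow_val_one ζ hζ]
    rcases prim3 ζ hζ with rfl | h
    · exact map_one g1
    · exact hg1 ζ h
  have h9 : ∀ h : 9 ∣ 3 ^ (n + 1), ZMod.unitsMap h (cy (3 ^ (n + 1)) g1) ≠ 1 := by
    intro h hh
    rw [cy_dvd] at hh
    obtain ⟨ζ, hζ⟩ := prim9
    have h1 := cyc_iff.2 hh ζ hζ.pow_eq_one
    rw [pow_val_one ζ hζ.pow_eq_one] at h1
    exact hg9 ζ hζ h1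
  obtain ⟨i, hi⟩ := gen3 n (cy (3 ^ (n + 1)) g1) h3 h9 (cy (3 ^ (n + 1)) g)
  -- the family of signs
  obtain ⟨u, hu, hu', hκ⟩ : ∃ u : ∀ j : ℕ, (ZMod (3 ^ j))ˣ,
      (∀ j, ZMod.unitsMap (pow_dvd_pow 3 (Nat.le_succ j)) (u (j + 1)) = u j) ∧
      (∀ j, u j = 1 ∨ u j = -1) ∧ cy (3 ^ (n + 1)) g1 ^ i * u (n + 1) = cy (3 ^ (n + 1)) g := by
    rcases hi with hi | hi
    · refine ⟨fun _ => 1, fun j => map_one _, fun j => Or.inl rfl, ?_⟩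
      rw [mul_one, hi]
    · refine ⟨fun _ => -1, fun j => ?_, fun j => Or.inr rfl, ?_⟩
      · apply Units.ext
        rw [ZMod.unitsMap_def, Units.coe_map, Units.val_neg, Units.val_one, Units.val_neg,
          Units.val_one, MonoidHom.coe_coe, map_neg, map_one]
      · rw [mul_neg_one, hi]
  obtain ⟨d, hd, hd'⟩ := exists_d (cy 193 g * (cy 193 g1 ^ i)⁻¹) u hu
  refine ⟨i, d, ?_, ?_⟩
  · intro j ζ hζ
    have h1 := hd' j ζ hζ
    rcases hu' j with h2 | h2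
    · left
      rw [h1, h2, pow_val_one ζ hζ]
    · right
      rw [h1, h2, pow_val_neg ζ hζ]
  · have key : cy (193 * 3 ^ (n + 1)) (g⁻¹ * (g1 ^ i * d)) = 1 := by
      apply crt_inj (by norm_num) (pow_ne_zero _ (by norm_num))
        (Nat.Coprime.pow_right _ (by norm_num))
      · rw [cy_dvd, cy_mul, cy_mul, cy_inv, cy_pow, cy_eq hd]
        rw [mul_comm (cy 193 g), ← mul_assoc (cy 193 g1 ^ i), mul_inv_cancel, one_mul,
          inv_mul_cancel]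
      · rw [cy_dvd, cy_mul, cy_mul, cy_inv, cy_pow, cy_eq (hd' (n + 1)), hκ, inv_mul_cancel]
    have h5 := cyc_dvd (NeZero.ne _) (Nat.mul_dvd_mul_left 193 (pow_dvd_pow 3 (Nat.le_succ n)))
      (cyc_iff.2 key)
    rw [map_one] at h5
    exact h5

end KE16
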