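import Pool.Agent.LibKE16.JDef
import Pool.Agent.LibKE16.S2
import Pool.Agent.LibKE16.C6

/-!
KE16, block A, row J2 (SHORT, cites C6, S2). A class fixed by `g1` and by all `d` with `IsP d` is fixed by
everybody.

Plan: for `g` and the level `n` of `w` (`smooth`: `Adm w n k a`), `decomp` gives `i`, `d` with `IsP d` and
`g⁻¹ * (g1 ^ i * d)` trivial at level `n`: `w = gS (g⁻¹ * (g1 ^ i * d)) w = gS g⁻¹ (gS (g1 ^ i) (gS d w)) =
gS g⁻¹ w` (`gS_mul`, induction on `i`, `gS_one`), so `gS g w = w`.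
-/

open WeierstrassCurve

namespace KE16

theorem stage0 (g1 : GQ) (hg1 : ∀ ζ : Qb, IsPrimitiveRoot ζ 3 → g1 ζ = ζ)
    (hg9 : ∀ ζ : Qb, IsPrimitiveRoot ζ 9 → g1 ζ ≠ ζ) (w : Sel E0 3 193)
    (hw1 : gS E0 3 193 g1 w = w) (hwP : ∀ d, IsP d → gS E0 3 193 d w = w) (g : GQ) :
    gS E0 3 193 g w = w := by
  obtain ⟨n, k, a, -, h2, -⟩ := smooth E0 3 193 (by norm_num) w
  obtain ⟨i, d, hd, hc⟩ := decomp g1 hg1 hg9 g n
  have h3 := h2 _ hc
  have hpow : ∀ j : ℕ, gS E0 3 193 (g1 ^ j) w = w := by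
    intro j
    induction j with
    | zero => rw [pow_zero, gS_one]
    | succ j ih => rw [pow_succ, gS_mul, hw1, ih]
  rw [gS_mul, gS_mul, hwP d hd, hpow i] at h3
  have h4 := congrArg (gS E0 3 193 g) h3
  rw [← gS_mul, mul_inv_cancel, gS_one] at h4
  exact h4.symm

end KE16
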