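import Pool.Agent.LibKE16.Defs

/-!
# MP_3c6ab9: the curve `y² = x³ - x² - 3x - 1`, its 3-torsion, local Galois elements (common notation)
-/

open WeierstrassCurve

namespace KE16

instance fact193 : Fact (Nat.Prime 193) := ⟨by norm_num⟩

/-- the equation -/
def Eqn {F : Type} [Field F] (x y : F) : Prop := y ^ 2 = x ^ 3 - x ^ 2 - 3 * x - 1

/-- the field `F` is of characteristic zero, `(x,y)` is a nonsingular point of `E0` over `F` iff it
satisfies the equation -/
theorem nonsing_iff {F : Type} [Field F] [Algebra ℚ F] (x y : F) :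
    (E0⁄F).toAffine.Nonsingular x y ↔ Eqn x y := by
  have e : (E0⁄F).toAffine.Equation x y ↔ Eqn x y := by
    have h1 : (E0⁄F).toAffine.a₁ = 0 := by
      change algebraMap ℚ F 0 = 0; exact _root_.map_zero _
    have h2 : (E0⁄F).toAffine.a₂ = -1 := by
      change algebraMap ℚ F (-1) = -1; rw [_root_.map_neg, _root_.map_one]
    have h3 : (E0⁄F).toAffine.a₃ = 0 := by
      change algebraMap ℚ F 0 = 0; exact _root_.map_zero _
    have h4 : (E0⁄F).toAffine.a₄ = -3 := by
      change algebraMap ℚ F (-3) = -3; rw [_root_.map_neg, _root_.map_ofNat]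
    have h6 : (E0⁄F).toAffine.a₆ = -1 := by
      change algebraMap ℚ F (-1) = -1; rw [_root_.map_neg, _root_.map_one]
    rw [Affine.equation_iff, h1, h2, h3, h4, h6]
    unfold Eqn
    constructor <;> intro h <;> linear_combination h
  rw [← e]
  constructor
  · intro h; exact h.1
  · intro h
    have hd : (E0⁄F).Δ ≠ 0 := by
      have e1 : (E0⁄F).Δ = algebraMap ℚ F E0.Δ := WeierstrassCurve.map_Δ _ _
      rw [e1]
      have : E0.Δ = 512 := by
        simp only [WeierstrassCurve.Δ, b₂, b₄, b₆, b₈, E0]; norm_num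
      rw [this]
      intro h0
      have := (algebraMap ℚ F).injective (h0.trans (map_zero _).symm)
      norm_num at this
    exact (Affine.equation_iff_nonsingular_of_Δ_ne_zero hd).mp h

/-- the point with coordinates `x`, `y` -/
noncomputable def mk {F : Type} [Field F] [Algebra ℚ F] (x y : F) (h : Eqn x y) :
    (E0⁄F).toAffine.Point := .some x y ((nonsing_iff x y).mpr h)

/-- a frame: `s = √-2`, `u² = -2 - s`, `v² = s - 2`; then `F(E[3]) = F(u, v)` -/
structure Fr (F : Type) [Field F] where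
  s : F
  u : F
  v : F
  hs : s ^ 2 = -2
  hu : u ^ 2 = -2 - s
  hv : v ^ 2 = s - 2

/-- the image of a frame under a homomorphism of fields -/
def Fr.map {F F' : Type} [Field F] [Field F'] (φ : F →+* F') (r : Fr F) : Fr F' where
  s := φ r.s
  u := φ r.u
  v := φ r.v
  hs := by rw [← _root_.map_pow, r.hs, _root_.map_neg, _root_.map_ofNat]
  hu := by rw [← _root_.map_pow, r.hu, _root_.map_sub, _root_.map_neg, _root_.map_ofNat]
  hv := by rw [← _root_.map_pow, r.hv, _root_.map_sub, _root_.map_ofNat]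

theorem Fr.ne1 {F : Type} [Field F] [CharZero F] (r : Fr F) : 1 + r.s ≠ 0 := by
  intro h
  have h1 : r.s = -1 := by linear_combination h
  have := r.hs
  rw [h1] at this
  have h3 : (3 : F) = 0 := by linear_combination this
  norm_num at h3

theorem Fr.ne2 {F : Type} [Field F] [CharZero F] (r : Fr F) : 1 - r.s ≠ 0 := by
  intro h
  have h1 : r.s = 1 := by linear_combination -h
  have := r.hs
  rw [h1] at this
  have h3 : (3 : F) = 0 := by linear_combination this
  norm_num at h3

theorem Fr.eqA {F : Type} [Field F] [CharZero F] (r : Fr F) :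
    Eqn (-1 / (1 + r.s)) (2 * r.v / (1 + r.s) ^ 2) := by
  have h := r.ne1
  have hs := r.hs
  have hv := r.hv
  unfold Eqn
  field_simp
  have h4 : r.v ^ 2 = r.s - 2 := hv
  ring_nf
  rw [h4]
  have e3 : r.s ^ 3 = -2 * r.s := by linear_combination r.s * hs
  have e4 : r.s ^ 4 = 4 := by linear_combination (r.s ^ 2 - 2) * hs
  simp only [e3, e4, hs]
  ring_nf
  try simp only [e3, e4, hs]
  try ring

theorem Fr.eqB {F : Type} [Field F] [CharZero F] (r : Fr F) :
    Eqn (-1 / (1 - r.s)) (2 * r.u / (1 - r.s) ^ 2) := by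
  have := (Fr.mk (-r.s) r.v r.u (by rw [neg_sq]; exact r.hs) (by rw [r.hv]; ring)
    (by rw [r.hu]; ring)).eqA
  simpa only [← sub_eq_add_neg] using this

/-- the 3-torsion point `P_π` (`π = 1 + s`) -/
noncomputable def PA {F : Type} [Field F] [CharZero F] [Algebra ℚ F] (r : Fr F) :
    (E0⁄F).toAffine.Point := mk _ _ r.eqA

/-- the 3-torsion point `P_π̄` (`π̄ = 1 - s`) -/
noncomputable def PB {F : Type} [Field F] [CharZero F] [Algebra ℚ F] (r : Fr F) :
    (E0⁄F).toAffine.Point := mk _ _ r.eqB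

/-- the chosen frame in `Qb` -/
noncomputable def r0 : Fr Qb :=
  let s : Qb := (IsAlgClosed.exists_pow_nat_eq (-2 : Qb) (n := 2) (by norm_num)).choose
  have hs : s ^ 2 = -2 := (IsAlgClosed.exists_pow_nat_eq (-2 : Qb) (n := 2) (by norm_num)).choose_spec
  { s := s
    u := (IsAlgClosed.exists_pow_nat_eq (-2 - s) (n := 2) (by norm_num)).choose
    v := (IsAlgClosed.exists_pow_nat_eq (s - 2) (n := 2) (by norm_num)).choose
    hs := hs
    hu := (IsAlgClosed.exists_pow_nat_eq (-2 - s) (n := 2) (by norm_num)).choose_spec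
    hv := (IsAlgClosed.exists_pow_nat_eq (s - 2) (n := 2) (by norm_num)).choose_spec }

/-- the cube root of unity `(-1 + √-3)/2` with `√-3 = u v s / 2` -/
noncomputable def Fr.z {F : Type} [Field F] (r : Fr F) : F := (-1 + r.u * r.v * r.s / 2) / 2

/-- the local Galois group -/
abbrev GLq (q : ℕ) [Fact q.Prime] : Type := Cq q ≃ₐ[ℚ_[q]] Cq q

/-- `τ` is an inertia element: it acts trivially on the residue field -/
def IsIner {q : ℕ} [Fact q.Prime] (τ : GLq q) : Prop :=
  ∀ x : PadicAlgCl q, ‖x‖ ≤ 1 → ‖(τ x : PadicAlgCl q) - x‖ < 1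

/-- `g` is the restriction of `τ` under the embedding `ι` -/
def Restr {q : ℕ} [Fact q.Prime] (ι : Qb →ₐ[ℚ] Cq q) (τ : GLq q) (g : GQ) : Prop :=
  ∀ x : Qb, ι (g x) = τ (ι x)

/-- the norm of `Qbar_q`, written as a function (to avoid instance trouble) -/
noncomputable def nm (q : ℕ) [Fact q.Prime] (x : Cq q) : ℝ := ‖(x : PadicAlgCl q)‖

/-- `A = E[3^∞]` -/
def Tor (P : Pt E0) : Prop := ∃ k : ℕ, 3 ^ k • P = 0

/-- `N = Gal(Qbar / K_{193,∞})` -/
abbrev NN : Subgroup GQ := Kmul 3 193

end KE16
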