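import Mathlib

/-!
KE16, block A, row P1 (ONLY MATHLIB, MEDIUM). A `p`-primary group is a `ℤ_p`-module.

Plan: `z • s := PadicInt.appr z k • s` for any `k` with `p ^ k • s = 0` (choose one, `k s`). Independence of
`k`: for `k ≤ l`, `appr z l ≡ appr z k mod p ^ k` (`PadicInt.appr_mono`, `PadicInt.dvd_appr_sub_appr`, or
`PadicInt.appr_spec`), so the two multiples of `s` agree. Axioms: `appr (z + w) k ≡ appr z k + appr w k`,
`appr (z * w) k ≡ appr z k * appr w k mod p ^ k` (`PadicInt.toZModPow`, `ZMod.natCast_eq_natCast_iff`,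
`map_add`, `map_mul`), `appr 1 k ≡ 1`. For `s + t` use `k = k s + k t`.
-/

namespace KE16

section
variable {p : ℕ} [Fact p.Prime]

/-- `a` approximates `z` modulo `p ^ k` -/
private def p1R (k : ℕ) (z : ℤ_[p]) (a : ℕ) : Prop :=
  z - (a : ℤ_[p]) ∈ (Ideal.span {(p : ℤ_[p]) ^ k} : Ideal ℤ_[p])

private theorem p1R_appr (k : ℕ) (z : ℤ_[p]) : p1R k z (PadicInt.appr z k) :=
  PadicInt.appr_spec k z

private theorem p1R_mono {k l : ℕ} (h : k ≤ l) {z : ℤ_[p]} {a : ℕ} (ha : p1R l z a) : p1R k z a := by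
  have : (Ideal.span {(p : ℤ_[p]) ^ l} : Ideal ℤ_[p]) ≤ Ideal.span {(p : ℤ_[p]) ^ k} := by
    rw [Ideal.span_singleton_le_span_singleton]
    exact pow_dvd_pow _ h
  exact this ha

private theorem p1_smul_eq {M : Type} [AddCommGroup M] {k : ℕ} {z : ℤ_[p]} {a b : ℕ} {s : M}
    (hs : p ^ k • s = 0) (ha : p1R k z a) (hb : p1R k z b) : a • s = b • s := by
  have h1 : ((((a : ℤ) - b : ℤ)) : ℤ_[p]) ∈ (Ideal.span {(p : ℤ_[p]) ^ k} : Ideal ℤ_[p]) := by
    have : ((((a : ℤ) - b : ℤ)) : ℤ_[p]) = (z - b) - (z - a) := by push_cast; ring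
    rw [this]
    exact Ideal.sub_mem _ hb ha
  rw [← PadicInt.norm_le_pow_iff_mem_span_pow, PadicInt.norm_int_le_pow_iff_dvd] at h1
  obtain ⟨m, hm⟩ := h1
  have h2 : ((a : ℤ) - b) • s = 0 := by
    rw [hm, mul_comm, mul_zsmul]
    have : ((p : ℤ) ^ k) • s = 0 := by
      rw [← Nat.cast_pow, natCast_zsmul]
      exact hs
    rw [this, smul_zero]
  rw [sub_zsmul, add_neg_eq_zero, natCast_zsmul, natCast_zsmul] at h2
  exact h2

end

theorem padic_module (p : ℕ) [Fact p.Prime] {M : Type} [AddCommGroup M]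
    (h : ∀ s : M, ∃ k : ℕ, p ^ k • s = 0) :
    ∃ inst : Module ℤ_[p] M, ∀ (z : ℤ_[p]) (s : M) (k : ℕ), p ^ k • s = 0 →
      z • s = PadicInt.appr z k • s := by
  choose K hK using h
  have hmono : ∀ (s : M) (k l : ℕ), k ≤ l → p ^ k • s = 0 → p ^ l • s = 0 := by
    intro s k l hkl hs
    obtain ⟨m, rfl⟩ := Nat.exists_eq_add_of_le hkl
    rw [pow_add, mul_comm, mul_nsmul', hs, smul_zero]
  let f : ℤ_[p] → M → M := fun z s => PadicInt.appr z (K s) • s
  have hf : ∀ (z : ℤ_[p]) (s : M) (k a : ℕ), p ^ k • s = 0 → p1R k z a → f z s = a • s := by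
    intro z s k a hk ha
    rcases le_total k (K s) with h | h
    · exact p1_smul_eq hk (p1R_mono h (p1R_appr (K s) z)) ha
    · exact p1_smul_eq (hK s) (p1R_appr (K s) z) (p1R_mono h ha)
  let inst : Module ℤ_[p] M :=
    { smul := f
      one_smul := by
        intro s
        show f 1 s = s
        rw [hf 1 s (K s) 1 (hK s) (by
          show (1 : ℤ_[p]) - ((1 : ℕ) : ℤ_[p]) ∈ _
          rw [Nat.cast_one, sub_self]; exact Ideal.zero_mem _), one_smul]
      mul_smul := by
        intro z w s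
        show f (z * w) s = f z (f w s)
        have hw : f w s = PadicInt.appr w (K s) • s := rfl
        have h1 : p ^ (K s) • (PadicInt.appr w (K s) • s) = 0 := by
          rw [smul_comm, hK s, smul_zero]
        rw [hw, hf z _ (K s) (PadicInt.appr z (K s)) h1 (p1R_appr _ _), smul_smul]
        apply hf (z * w) s (K s) _ (hK s)
        show z * w - ((PadicInt.appr z (K s) * PadicInt.appr w (K s) : ℕ) : ℤ_[p]) ∈ _
        have : z * w - ((PadicInt.appr z (K s) * PadicInt.appr w (K s) : ℕ) : ℤ_[p]) =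
            (z - (PadicInt.appr z (K s) : ℤ_[p])) * w +
              (PadicInt.appr z (K s) : ℤ_[p]) * (w - (PadicInt.appr w (K s) : ℤ_[p])) := by
          push_cast; ring
        rw [this]
        exact Ideal.add_mem _ (Ideal.mul_mem_right _ _ (p1R_appr _ _))
          (Ideal.mul_mem_left _ _ (p1R_appr _ _))
      smul_zero := by
        intro z
        show PadicInt.appr z (K 0) • (0 : M) = 0
        exact smul_zero _
      smul_add := by
        intro z s t
        show f z (s + t) = f z s + f z t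
        have hs := hmono s (K s) (K s + K t) (Nat.le_add_right _ _) (hK s)
        have ht := hmono t (K t) (K s + K t) (Nat.le_add_left _ _) (hK t)
        have hst : p ^ (K s + K t) • (s + t) = 0 := by rw [smul_add, hs, ht, add_zero]
        rw [hf z _ _ _ hs (p1R_appr _ z), hf z _ _ _ ht (p1R_appr _ z),
          hf z _ _ _ hst (p1R_appr _ z), smul_add]
      add_smul := by
        intro z w s
        show f (z + w) s = f z s + f w s
        rw [hf z s _ _ (hK s) (p1R_appr _ z), hf w s _ _ (hK s) (p1R_appr _ w), ← add_smul]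
        apply hf (z + w) s (K s) _ (hK s)
        show z + w - ((PadicInt.appr z (K s) + PadicInt.appr w (K s) : ℕ) : ℤ_[p]) ∈ _
        have : z + w - ((PadicInt.appr z (K s) + PadicInt.appr w (K s) : ℕ) : ℤ_[p]) =
            (z - (PadicInt.appr z (K s) : ℤ_[p])) + (w - (PadicInt.appr w (K s) : ℤ_[p])) := by
          push_cast; ring
        rw [this]
        exact Ideal.add_mem _ (p1R_appr _ _) (p1R_appr _ _)
      zero_smul := by
        intro s
        show f 0 s = 0
        rw [hf 0 s (K s) 0 (hK s) (by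
          show (0 : ℤ_[p]) - ((0 : ℕ) : ℤ_[p]) ∈ _
          rw [Nat.cast_zero, sub_self]; exact Ideal.zero_mem _), zero_smul] }
  exact ⟨inst, fun z s k hk => hf z s k _ hk (p1R_appr k z)⟩

end KE16
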