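import Pool.Agent.LibKE16.M3
import Pool.Agent.LibKE16.P1
import Pool.Agent.LibKE16.S2
import Pool.Agent.LibKE16.Base

/-!
KE16, block A, row M4 (MEDIUM, cites M3, P1, S2, CDef). The Selmer group is a module over the Iwasawa algebra.

Plan: `obtain ⟨i1, h1⟩ := padic_module 3 (M := Sel E0 3 193) ..` (`smooth` gives `3 ^ k • s = 0`), `letI := i1`;
`ρ g := gS E0 3 193 g` is `IsRho` (`gS_one`, `gS_mul`; `gS g (z • s) = z • gS g s`: with `3 ^ k • s = 0` both
sides are `appr z k • gS g s`, `map_nsmul`). Apply `abs_module` with `A = ℤ_[3]`, `G = GQ`,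
`H n = Hn 3 193 n`, `t = tr 3 193`, `κ n = cyH (193 * 3 ^ n)` (`cy_surj`, `cy_tr`), `R = Iw 3 193`. `IsAct`: the
first part is `smooth`; for the second `Adm` gives the hypotheses of the formula (`cyc_iff`,
`cyH_apply`), and `z • gS .. s = appr z k • gS .. s` since `3 ^ k • gS (g a)⁻¹ s = gS .. (3 ^ k • s) = 0`
(`unfold lact`, `Finsupp.sum_congr`).
NOTE: in `Sel` the expression `3 • s` is elaborated through `AddGroup`, the `nsmul` lemmas use
`AddCommGroup`; `rw [nsmul_add]` can fail. Use `exact`, explicit arguments (`rw [nsmul_add s t 3]`), `change`,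
or an auxiliary lemma for an abstract `[AddCommGroup M]` and `exact`.
-/

open WeierstrassCurve

namespace KE16

private theorem torsion_map {M : Type} [AddCommGroup M] (φ : M →+ M) {s : M} {n : ℕ} (h : n • s = 0) :
    n • φ s = 0 := by
  rw [← map_nsmul, h, map_zero]

private theorem rho_smul {M : Type} [AddCommGroup M] [Module ℤ_[3] M]
    (h : ∀ (z : ℤ_[3]) (s : M) (k : ℕ), 3 ^ k • s = 0 → z • s = PadicInt.appr z k • s)
    (hk : ∀ s : M, ∃ k : ℕ, 3 ^ k • s = 0) (φ : M →+ M) (z : ℤ_[3]) (s : M) :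
    φ (z • s) = z • φ s := by
  obtain ⟨k, hk⟩ := hk s
  rw [h z s k hk, h z (φ s) k (torsion_map φ hk), map_nsmul]

private theorem sum_eq {M : Type} [AddCommGroup M] [Module ℤ_[3] M]
    (h : ∀ (z : ℤ_[3]) (s : M) (k : ℕ), 3 ^ k • s = 0 → z • s = PadicInt.appr z k • s)
    {n : ℕ} (ρ : GQ → M →+ M) (g : Hn 3 193 n → GQ) (r : MonoidAlgebra ℤ_[3] (Hn 3 193 n)) {s : M} {k : ℕ}
    (hk : 3 ^ k • s = 0) :
    lact ρ g r s = r.coeff.sum fun a z ↦ PadicInt.appr z k • ρ (g a)⁻¹ s := by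
  unfold lact
  refine Finsupp.sum_congr fun a _ => ?_
  exact h _ _ k (torsion_map _ hk)

theorem module_exists : ∃ inst : Module (Iw 3 193) (Sel E0 3 193),
    ∀ (r : Iw 3 193) (s : Sel E0 3 193), IsAct E0 3 193 r s (r • s) := by
  have htor : ∀ s : Sel E0 3 193, ∃ k : ℕ, 3 ^ k • s = 0 := fun s => by
    obtain ⟨n, k, g, h1, -, -⟩ := smooth E0 3 193 (by norm_num) s
    exact ⟨k, h1⟩
  obtain ⟨i1, h1⟩ := padic_module 3 (M := Sel E0 3 193) htor
  let := i1
  have hρ : IsRho (A := ℤ_[3]) (fun g : GQ => gS E0 3 193 g) :=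
    { one := fun s => gS_one E0 3 193 s
      mul := fun g h s => gS_mul E0 3 193 g h s
      smul := fun g z s => rho_smul h1 htor (gS E0 3 193 g) z s }
  obtain ⟨inst, h2⟩ := abs_module (A := ℤ_[3]) (G := GQ) (M := Sel E0 3 193) (fun n => Hn 3 193 n)
    (fun n => tr 3 193 n) (fun n => cyH (193 * 3 ^ n)) (fun n a => cy_surj (193 * 3 ^ n) a)
    (fun n g => cy_tr 3 193 n g) (fun g => gS E0 3 193 g) hρ
    (fun s => by
      obtain ⟨n, k, g, -, h2, -⟩ := smooth E0 3 193 (by norm_num) s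
      exact ⟨n, fun h hh => h2 h (cyc_iff.mpr hh)⟩)
    (Iw 3 193) (fun r hr => hr)
  refine ⟨inst, fun r s => ⟨smooth E0 3 193 (by norm_num) s, fun n k g hA => ?_⟩⟩
  obtain ⟨a1, a2, a3⟩ := hA
  rw [h2 r s n (fun h hh => a2 h (cyc_iff.mpr hh)) g (fun a => cyc_iff.mp (a3 a))]
  exact sum_eq h1 (fun g => gS E0 3 193 g) g _ a1

end KE16
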