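import Pool.Agent.LibKE16.F5
import Pool.Agent.LibKE16.D1
import Pool.Agent.LibKE16.D2
import Pool.Agent.LibKE16.G1
import Pool.Agent.LibKE16.G2
import Pool.Agent.LibKE16.J0
import Pool.Agent.LibKE16.J1
import Pool.Agent.LibKE16.J2
import Pool.Agent.LibKE16.M4

/-! KE16, block A: the assembly (complete, cites the rows). -/

open WeierstrassCurve

namespace KE16

/-- the subgroup of the fixed classes of order 3 -/
noncomputable def WW : AddSubgroup (Sel E0 3 193) where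
  carrier := {s | 3 • s = 0 ∧ ∀ g : GQ, gS E0 3 193 g s = s}
  add_mem' := by
    rintro a b ⟨ha, ha'⟩ ⟨hb, hb'⟩
    refine ⟨(nsmul_add a b 3).trans ?_, fun g ↦ by rw [map_add, ha', hb']⟩
    exact (congrArg₂ (· + ·) ha hb).trans (add_zero (0 : Sel E0 3 193))
  zero_mem' := ⟨nsmul_zero _, fun g ↦ map_zero _⟩
  neg_mem' := by
    rintro a ⟨ha, ha'⟩
    refine ⟨(neg_nsmul a 3).trans ?_, fun g ↦ by rw [map_neg, ha']⟩
    exact (congrArg (fun x : Sel E0 3 193 ↦ -x) ha).trans neg_zero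

theorem MJ (g1 : GQ) (hg1 : ∀ ζ : Qb, IsPrimitiveRoot ζ 3 → g1 ζ = ζ)
    (hg9 : ∀ ζ : Qb, IsPrimitiveRoot ζ 9 → g1 ζ ≠ ζ)
    (hstep : ∀ s : Sel E0 3 193,
      (∀ g : GQ, (∀ (n : ℕ) (ζ : Qb), ζ ^ 3 ^ n = 1 → g ζ = ζ ∨ g ζ = ζ⁻¹) → gS E0 3 193 g s = s) →
      (∀ g : GQ, gS E0 3 193 g (3 • s) = 3 • s) → 3 • (3 • s) = 0 →
      (∀ g : GQ, gS E0 3 193 g (gS E0 3 193 g1 s - s) = gS E0 3 193 g1 s - s) →
      3 • (gS E0 3 193 g1 s - s) = 0 →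
      3 • s = 0 ∧ ∀ g : GQ, gS E0 3 193 g s = s)
    (inst : Module (Iw 3 193) (Sel E0 3 193))
    (hinst : ∀ (r : Iw 3 193) (s : Sel E0 3 193), IsAct E0 3 193 r s (r • s)) (s : Sel E0 3 193) :
    (∀ r ∈ JS g1, r • s = 0) ↔ 3 • s = 0 ∧ ∀ g : GQ, gS E0 3 193 g s = s := by
  have hgl : ∀ (g : GQ) (s : Sel E0 3 193), (gl g⁻¹ - 1 : Iw 3 193) • s = gS E0 3 193 g s - s := by
    intro g s
    rw [sub_smul, one_smul, gl_smul inst hinst, inv_inv]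
  have hP : ∀ s : Sel E0 3 193, (∀ r ∈ {r : Iw 3 193 | ∃ d : GQ, IsP d ∧ r = gl d⁻¹ - 1}, r • s = 0) →
      ∀ d, IsP d → gS E0 3 193 d s = s := by
    intro s h d hd
    have := h _ ⟨d, hd, rfl⟩
    rw [hgl] at this
    exact sub_eq_zero.mp this
  refine MJ_abs (gl g1⁻¹ - 1) {r : Iw 3 193 | ∃ d : GQ, IsP d ∧ r = gl d⁻¹ - 1}
    (fun s ↦ ∀ g : GQ, gS E0 3 193 g s = s) ?_ ?_ ?_ s
  · intro w _ hT hw g
    rw [hgl] at hT
    exact stage0 g1 hg1 hg9 w (sub_eq_zero.mp hT) (hP w hw) g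
  · intro s hs h1 h2 h3 h4
    rw [hgl] at h3 h4
    exact hstep s (hP s hs) h1 h2 h3 h4
  · intro s hs
    refine ⟨by rw [hgl, hs, sub_self], ?_⟩
    rintro _ ⟨d, _, rfl⟩
    rw [hgl, hs, sub_self]

theorem main_A
    (hcard : Nat.card {s : Sel E0 3 193 // 3 • s = 0 ∧ ∀ g : GQ, gS E0 3 193 g s = s} = 9)
    (g1 : GQ) (hg1 : ∀ ζ : Qb, IsPrimitiveRoot ζ 3 → g1 ζ = ζ)
    (hg9 : ∀ ζ : Qb, IsPrimitiveRoot ζ 9 → g1 ζ ≠ ζ)
    (hstep : ∀ s : Sel E0 3 193,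
      (∀ g : GQ, (∀ (n : ℕ) (ζ : Qb), ζ ^ 3 ^ n = 1 → g ζ = ζ ∨ g ζ = ζ⁻¹) → gS E0 3 193 g s = s) →
      (∀ g : GQ, gS E0 3 193 g (3 • s) = 3 • s) → 3 • (3 • s) = 0 →
      (∀ g : GQ, gS E0 3 193 g (gS E0 3 193 g1 s - s) = gS E0 3 193 g1 s - s) →
      3 • (gS E0 3 193 g1 s - s) = 0 →
      3 • s = 0 ∧ ∀ g : GQ, gS E0 3 193 g s = s)
    (inst : Module (Iw 3 193) (Sel E0 3 193))
    (hinst : ∀ (r : Iw 3 193) (s : Sel E0 3 193), IsAct E0 3 193 r s (r • s))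
    (x y : Iw 3 193) :
    ¬ IsFitt (CharacterModule (Sel E0 3 193)) (Ideal.span {x, y}) := by
  have hMJ := MJ g1 hg1 hg9 hstep inst hinst
  have h3W : ∀ w ∈ WW, 3 • w = 0 := by
    intro w hw
    have hw' : 3 • w = 0 ∧ ∀ g : GQ, gS E0 3 193 g w = w := hw
    exact hw'.1
  have hcardW : Nat.card WW = 9 := hcard
  obtain ⟨w, c, ι, hwW, hc, hker, hι, hcw⟩ := exists_c (M := Sel E0 3 193) WW h3W hcardW
  have hsm : ∀ (r : Iw 3 193) (φ : CharacterModule (Sel E0 3 193)), c (r • φ) = eps r • c φ := by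
    intro r φ
    funext i
    apply hι
    have hw := hwW i
    have hw' : 3 • w i = 0 ∧ ∀ g : GQ, gS E0 3 193 g (w i) = w i := hw
    have e1 : (r • φ) (w i) = φ (r • w i) := rfl
    have e2 : φ (r • w i) = (eps r).val • φ (w i) := by
      rw [act_W inst hinst r (w i) hw'.1 hw'.2]
      exact map_nsmul φ _ _
    rw [← hcw, e1, e2, hcw, ← map_nsmul]
    congr 1
    change (eps r).val • c φ i = eps r * c φ i
    rw [nsmul_eq_mul, ZMod.natCast_val, ZMod.cast_id', id]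
  have hkerJ : ∀ φ : CharacterModule (Sel E0 3 193), c φ = 0 →
      φ ∈ Ideal.span (JS g1) • (⊤ : Submodule (Iw 3 193) (CharacterModule (Sel E0 3 193))) := by
    intro φ hφ
    refine dual_ker (JS g1) (JS_finite g1) φ ?_
    intro s hs
    exact (hker φ).mp hφ s ((hMJ s).mp hs)
  obtain ⟨t1, t2, h0, h1, h2, hu1, hu2, hu⟩ := T_values g1 hg1 hg9
  exact fit_main eps (Ideal.span (JS g1)) c hc hsm hkerJ
    ![psi (2 * 0), psi (2 * 1), psi (2 * (-1))]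
    (by
      intro j r
      fin_cases j
      · exact red_psi 0 r
      · exact red_psi 1 r
      · exact red_psi (-1) r)
    (by
      intro j r hr
      fin_cases j
      · exact psi_JS g1 0 r hr
      · exact psi_JS g1 1 r hr
      · exact psi_JS g1 (-1) r hr)
    (gl g1⁻¹ - 1) t1 t2 h0 h1 h2 hu1 hu2 hu x y

end KE16
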