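import Pool.Agent.LibKE16.SDefs

/-!
# MP_3c6ab9: the statement layer

For a Weierstrass curve `W` over `ℚ`, a prime `p` and `m ≥ 1`:
`Fix p m σ`   `σ` lies in `Gal(Qbar / K_{m,∞})`, `K_{m,∞} = ⋃ ℚ(μ_{m pⁿ})`;
`SelT W p m`  the `p^∞`-Selmer group of `W` over `K_{m,∞}` (continuous cocycles modulo coboundaries);
`IwT p m`     the ring `ℛ_m = lim ℤ_p[(ℤ/m pⁿ)ˣ] = ℤ_p[[Gal(K_{m,∞}/ℚ)]]`;
`IsFitt X I`  (in SDefs) the module `X` is finitely generated with zeroth Fitting ideal `I`.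
-/

open WeierstrassCurve

namespace KE16

/-- `σ` fixes all roots of unity of order dividing some `m pⁿ` -/
def Fix (p m : ℕ) (σ : GQ) : Prop := ∀ (n : ℕ) (ζ : Qb), ζ ^ (m * p ^ n) = 1 → σ ζ = ζ

/-- `f` is a continuous cocycle of `Gal(Qbar / K_{m,∞})` with values in `E[p^∞]`, extended by `0` to the
whole Galois group; a cocycle is continuous iff it vanishes on the elements which fix some finite set of
algebraic numbers -/
def IsCoc (W : WeierstrassCurve ℚ) (p m : ℕ) (f : GQ → Pt W) : Prop :=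
  (∀ σ, ¬ Fix p m σ → f σ = 0) ∧
  (∀ σ τ, Fix p m σ → Fix p m τ → f (σ * τ) = f σ + gal W σ (f τ)) ∧
  (∀ σ, ∃ k : ℕ, p ^ k • f σ = 0) ∧
  ∃ S : Finset Qb, ∀ σ, Fix p m σ → (∀ x ∈ S, σ x = x) → f σ = 0

/-- `f` is a coboundary -/
def IsCob (W : WeierstrassCurve ℚ) (p m : ℕ) (f : GQ → Pt W) : Prop :=
  (∀ σ, ¬ Fix p m σ → f σ = 0) ∧
  ∃ P : Pt W, (∃ k : ℕ, p ^ k • P = 0) ∧ ∀ σ, Fix p m σ → f σ = gal W σ P - P

/-- the local condition at a prime `q`: for every embedding `ι : Qbar → Qbar_q`, the restriction of the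
cocycle to `Gal(Qbar_q / ℚ_q · ι K_{m,∞})` becomes a coboundary in `E(Qbar_q)` -/
def IsLoc (W : WeierstrassCurve ℚ) (p m : ℕ) (f : GQ → Pt W) (q : ℕ) [Fact q.Prime] : Prop :=
  ∀ ι : Qb →ₐ[ℚ] Cq q, ∃ Q : (W⁄(Cq q)).toAffine.Point,
    ∀ (τ : Cq q ≃ₐ[ℚ_[q]] Cq q) (σ : GQ), Fix p m σ → (∀ x : Qb, ι (σ x) = τ (ι x)) →
      Affine.Point.map (W' := W) (S := ℚ) ι (f σ) =
        Affine.Point.map (W' := W) (S := ℚ) ((τ : Cq q →ₐ[ℚ_[q]] Cq q).restrictScalars ℚ) Q - Q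

/-- Selmer cocycles (for odd `p` there is no condition at the archimedean places) -/
def IsSel (W : WeierstrassCurve ℚ) (p m : ℕ) (f : GQ → Pt W) : Prop :=
  IsCoc W p m f ∧ ∀ (q : ℕ) [Fact q.Prime], IsLoc W p m f q

/-- functions on the Galois group with values in `E(Qbar)` -/
def Fn (W : WeierstrassCurve ℚ) : Type := GQ → Pt W

noncomputable instance instFn (W : WeierstrassCurve ℚ) : AddCommGroup (Fn W) :=
  (Pi.addCommGroup : AddCommGroup (GQ → Pt W))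

theorem sel_add (W : WeierstrassCurve ℚ) (p m : ℕ) (f g : Fn W) (hf : IsSel W p m f) (hg : IsSel W p m g) :
    IsSel W p m (f + g) := by
  classical
  have e : ∀ σ : GQ, (f + g : Fn W) σ = f σ + g σ := fun _ ↦ rfl
  obtain ⟨⟨a1, a2, a3, S, a4⟩, a5⟩ := hf
  obtain ⟨⟨b1, b2, b3, T, b4⟩, b5⟩ := hg
  refine ⟨⟨?_, ?_, ?_, S ∪ T, ?_⟩, ?_⟩
  · intro σ h
    rw [e, a1 σ h, b1 σ h, add_zero]
  · intro σ τ h h'
    rw [e, e, e, a2 σ τ h h', b2 σ τ h h', map_add]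
    abel
  · intro σ
    obtain ⟨k, hk⟩ := a3 σ
    obtain ⟨l, hl⟩ := b3 σ
    refine ⟨k + l, ?_⟩
    rw [e, nsmul_add, pow_add, mul_nsmul, hk, mul_comm (p ^ k), mul_nsmul, hl]
    simp
  · intro σ h h'
    rw [e, a4 σ h (fun x hx ↦ h' x (Finset.mem_union_left _ hx)),
      b4 σ h (fun x hx ↦ h' x (Finset.mem_union_right _ hx)), add_zero]
  · intro q _ ι
    obtain ⟨P, hP⟩ := a5 q ι
    obtain ⟨Q, hQ⟩ := b5 q ι
    refine ⟨P + Q, ?_⟩
    intro τ σ h h'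
    rw [e, map_add, hP τ σ h h', hQ τ σ h h', map_add]
    abel

theorem sel_zero (W : WeierstrassCurve ℚ) (p m : ℕ) : IsSel W p m (0 : Fn W) := by
  have e : ∀ σ : GQ, (0 : Fn W) σ = 0 := fun _ ↦ rfl
  refine ⟨⟨fun σ _ ↦ rfl, ?_, fun σ ↦ ⟨0, by rw [e]; simp⟩, ∅, fun σ _ _ ↦ rfl⟩, ?_⟩
  · intro σ τ _ _
    rw [e, e, e]; simp
  · intro q _ ι
    refine ⟨0, ?_⟩
    intro τ σ _ _
    rw [e]; simp

theorem sel_neg (W : WeierstrassCurve ℚ) (p m : ℕ) (f : Fn W) (hf : IsSel W p m f) :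
    IsSel W p m (-f) := by
  have e : ∀ σ : GQ, (-f : Fn W) σ = -f σ := fun _ ↦ rfl
  obtain ⟨⟨a1, a2, a3, S, a4⟩, a5⟩ := hf
  refine ⟨⟨?_, ?_, ?_, S, ?_⟩, ?_⟩
  · intro σ h
    rw [e, a1 σ h, neg_zero]
  · intro σ τ h h'
    rw [e, e, e, a2 σ τ h h', map_neg]
    abel
  · intro σ
    obtain ⟨k, hk⟩ := a3 σ
    exact ⟨k, by rw [e, neg_nsmul, hk, neg_zero]⟩
  · intro σ h h'
    rw [e, a4 σ h h', neg_zero]
  · intro q _ ι
    obtain ⟨P, hP⟩ := a5 q ι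
    refine ⟨-P, ?_⟩
    intro τ σ h h'
    rw [e, map_neg, hP τ σ h h', map_neg]
    abel

theorem cob_add (W : WeierstrassCurve ℚ) (p m : ℕ) (f g : Fn W) (hf : IsCob W p m f) (hg : IsCob W p m g) :
    IsCob W p m (f + g) := by
  have e : ∀ σ : GQ, (f + g : Fn W) σ = f σ + g σ := fun _ ↦ rfl
  obtain ⟨a1, P, ⟨k, hk⟩, a2⟩ := hf
  obtain ⟨b1, Q, ⟨l, hl⟩, b2⟩ := hg
  refine ⟨?_, P + Q, ⟨k + l, ?_⟩, ?_⟩
  · intro σ h
    rw [e, a1 σ h, b1 σ h, add_zero]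
  · rw [nsmul_add, pow_add, mul_nsmul, hk, mul_comm (p ^ k), mul_nsmul, hl]
    simp
  · intro σ h
    rw [e, a2 σ h, b2 σ h, map_add]
    abel

theorem cob_zero (W : WeierstrassCurve ℚ) (p m : ℕ) : IsCob W p m (0 : Fn W) := by
  have e : ∀ σ : GQ, (0 : Fn W) σ = 0 := fun _ ↦ rfl
  refine ⟨fun σ _ ↦ rfl, 0, ⟨0, by simp⟩, ?_⟩
  intro σ _
  rw [e]; simp

theorem cob_neg (W : WeierstrassCurve ℚ) (p m : ℕ) (f : Fn W) (hf : IsCob W p m f) :
    IsCob W p m (-f) := by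
  have e : ∀ σ : GQ, (-f : Fn W) σ = -f σ := fun _ ↦ rfl
  obtain ⟨a1, P, ⟨k, hk⟩, a2⟩ := hf
  refine ⟨?_, -P, ⟨k, by rw [neg_nsmul, hk, neg_zero]⟩, ?_⟩
  · intro σ h
    rw [e, a1 σ h, neg_zero]
  · intro σ h
    rw [e, a2 σ h, map_neg]
    abel

/-- the group of Selmer cocycles -/
noncomputable def SelG (W : WeierstrassCurve ℚ) (p m : ℕ) : AddSubgroup (Fn W) where
  carrier := {f | IsSel W p m f}
  add_mem' := fun {f g} ↦ sel_add W p m f g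
  zero_mem' := sel_zero W p m
  neg_mem' := fun {f} ↦ sel_neg W p m f

/-- the group of coboundaries -/
noncomputable def CobG (W : WeierstrassCurve ℚ) (p m : ℕ) : AddSubgroup (Fn W) where
  carrier := {f | IsCob W p m f}
  add_mem' := fun {f g} ↦ cob_add W p m f g
  zero_mem' := cob_zero W p m
  neg_mem' := fun {f} ↦ cob_neg W p m f

/-- the Selmer group `Sel_{p^∞}(E / K_{m,∞})` -/
def SelT (W : WeierstrassCurve ℚ) (p m : ℕ) : Type :=
  SelG W p m ⧸ (CobG W p m).addSubgroupOf (SelG W p m)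

noncomputable instance instSelT (W : WeierstrassCurve ℚ) (p m : ℕ) : AddCommGroup (SelT W p m) :=
  QuotientAddGroup.Quotient.addCommGroup ((CobG W p m).addSubgroupOf (SelG W p m))

/-- `s` is the class of the cocycle `f` -/
def IsCls (W : WeierstrassCurve ℚ) (p m : ℕ) (f : Fn W) (s : SelT W p m) : Prop :=
  ∃ h : f ∈ SelG W p m, s = QuotientAddGroup.mk (s := (CobG W p m).addSubgroupOf (SelG W p m)) ⟨f, h⟩

/-- `t = g s` for the action of the Galois group on the Selmer group, `(g f)(σ) = g (f (g⁻¹ σ g))` -/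
def IsCj (W : WeierstrassCurve ℚ) (p m : ℕ) (g : GQ) (s t : SelT W p m) : Prop :=
  ∃ f : Fn W, IsCls W p m f s ∧ IsCls W p m (fun σ ↦ gal W g (f (g⁻¹ * σ * g))) t

/-- the product of the rings `ℤ_p[(ℤ/m pⁿ)ˣ]` -/
def Lev (p m : ℕ) [Fact p.Prime] : Type := ∀ n : ℕ, MonoidAlgebra ℤ_[p] (Hn p m n)

noncomputable instance instLev (p m : ℕ) [Fact p.Prime] : CommRing (Lev p m) :=
  (Pi.commRing : CommRing (∀ n : ℕ, MonoidAlgebra ℤ_[p] (Hn p m n)))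

/-- compatible sequences -/
def IsComp (p m : ℕ) [Fact p.Prime] (r : Lev p m) : Prop :=
  ∀ n, MonoidAlgebra.mapDomainRingHom ℤ_[p] (tr p m n) (r (n + 1)) = r n

theorem comp_mul (p m : ℕ) [Fact p.Prime] (a b : Lev p m) (ha : IsComp p m a) (hb : IsComp p m b) :
    IsComp p m (a * b) := by
  intro n
  change MonoidAlgebra.mapDomainRingHom ℤ_[p] (tr p m n) (a (n + 1) * b (n + 1)) = a n * b n
  rw [map_mul, ha n, hb n]

theorem comp_one (p m : ℕ) [Fact p.Prime] : IsComp p m 1 := by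
  intro n
  change MonoidAlgebra.mapDomainRingHom ℤ_[p] (tr p m n) 1 = 1
  rw [map_one]

theorem comp_add (p m : ℕ) [Fact p.Prime] (a b : Lev p m) (ha : IsComp p m a) (hb : IsComp p m b) :
    IsComp p m (a + b) := by
  intro n
  change MonoidAlgebra.mapDomainRingHom ℤ_[p] (tr p m n) (a (n + 1) + b (n + 1)) = a n + b n
  rw [map_add, ha n, hb n]

theorem comp_zero (p m : ℕ) [Fact p.Prime] : IsComp p m 0 := by
  intro n
  change MonoidAlgebra.mapDomainRingHom ℤ_[p] (tr p m n) 0 = 0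
  rw [map_zero]

theorem comp_neg (p m : ℕ) [Fact p.Prime] (a : Lev p m) (ha : IsComp p m a) : IsComp p m (-a) := by
  intro n
  change MonoidAlgebra.mapDomainRingHom ℤ_[p] (tr p m n) (-(a (n + 1))) = -(a n)
  rw [map_neg, ha n]

/-- the Iwasawa algebra `ℛ_m = lim ℤ_p[(ℤ/m pⁿ)ˣ]`, as a subring -/
noncomputable def IwS (p m : ℕ) [Fact p.Prime] : Subring (Lev p m) where
  carrier := {r | IsComp p m r}
  mul_mem' := fun {a b} ↦ comp_mul p m a b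
  one_mem' := comp_one p m
  add_mem' := fun {a b} ↦ comp_add p m a b
  zero_mem' := comp_zero p m
  neg_mem' := fun {a} ↦ comp_neg p m a

/-- the Iwasawa algebra -/
def IwT (p m : ℕ) [Fact p.Prime] : Type := IwS p m

noncomputable instance instIwT (p m : ℕ) [Fact p.Prime] : CommRing (IwT p m) :=
  Subring.toCommRing (IwS p m)

/-- `n`, `k`, `c` are admissible for the class `s`: `s` is killed by `p^k` and fixed by
`Gal(Qbar/ℚ(μ_{m pⁿ}))`, and `c a = σ_a⁻¹ s`, `σ_a ∈ Gal(ℚ(μ_{m pⁿ})/ℚ)` -/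
def IsAdm (W : WeierstrassCurve ℚ) (p m : ℕ) (s : SelT W p m) (n k : ℕ) (c : Hn p m n → SelT W p m) :
    Prop :=
  p ^ k • s = 0 ∧ (∀ h : GQ, CycAct (m * p ^ n) h 1 → IsCj W p m h s s) ∧
    ∀ a, ∃ g : GQ, CycAct (m * p ^ n) g a ∧ IsCj W p m g⁻¹ s (c a)

/-- `ℛ_m` acts on the Selmer group: `r = (Σ_a r_n(a) σ_a)_n` maps a class `s`, which is killed by `p^k`
and fixed by `Gal(Qbar/ℚ(μ_{m pⁿ}))`, to `Σ_a (r_n(a) mod p^k) σ_a⁻¹ s` (so that `ℛ_m` acts on the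
Pontryagin dual in the usual way, `(σ x)(s) = x(σ⁻¹ s)`) -/
def IsActT (W : WeierstrassCurve ℚ) (p m : ℕ) [Fact p.Prime] (r : IwT p m) (s t : SelT W p m) : Prop :=
  (∃ n k c, IsAdm W p m s n k c) ∧ ∀ n k c, IsAdm W p m s n k c →
    t = ((Subtype.val r n : MonoidAlgebra ℤ_[p] (Hn p m n)).coeff).sum fun a z ↦ PadicInt.appr z k • c a

end KE16
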