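import Pool.Agent.LibKE16.Defs
import Pool.Agent.LibKE16.Stmt

/-! # Bridge between the statement layer and the working definitions -/

open WeierstrassCurve

namespace KE16

theorem br_cont1 (S : Finset Qb) : ∃ L : IntermediateField ℚ Qb, FiniteDimensional ℚ L ∧
    ∀ σ : GQ, (∀ x ∈ L, σ x = x) → ∀ x ∈ S, σ x = x := by
  refine ⟨IntermediateField.adjoin ℚ (S : Set Qb), ?_, ?_⟩
  · exact IntermediateField.finiteDimensional_adjoin
      (fun x _ ↦ ((AlgebraicClosure.isAlgebraic ℚ).isAlgebraic x).isIntegral)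
  · intro σ h x hx
    exact h x (IntermediateField.subset_adjoin ℚ (S : Set Qb) hx)

theorem br_cont2 (L : IntermediateField ℚ Qb) (hL : FiniteDimensional ℚ L) : ∃ S : Finset Qb,
    ∀ σ : GQ, (∀ x ∈ S, σ x = x) → ∀ x ∈ L, σ x = x := by
  classical
  let b := Module.finBasis ℚ L
  refine ⟨Finset.univ.image fun i ↦ ((b i : L) : Qb), ?_⟩
  intro σ h x hx
  have e := b.sum_repr ⟨x, hx⟩
  have e' : x = ∑ i, b.repr ⟨x, hx⟩ i • ((b i : L) : Qb) := by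
    have := congrArg L.val e
    rw [map_sum] at this
    refine this.symm.trans (Finset.sum_congr rfl fun i _ ↦ ?_)
    exact map_rat_smul L.val _ _
  rw [e', map_sum]
  refine Finset.sum_congr rfl fun i _ ↦ ?_
  rw [Algebra.smul_def, map_mul, AlgEquiv.commutes,
    h _ (Finset.mem_image_of_mem _ (Finset.mem_univ i))]

variable (W : WeierstrassCurve ℚ) (p m : ℕ)

/-- restriction of a Selmer cocycle -/
noncomputable def toZ : SelG W p m →+ SelZ W p m where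
  toFun f := ⟨⟨fun σ ↦ (f.1 : GQ → Pt W) σ, by
      obtain ⟨⟨a1, a2, a3, S, a4⟩, a5⟩ := f.2
      obtain ⟨L, hL, h⟩ := br_cont1 S
      exact ⟨fun σ τ ↦ a2 σ τ σ.2 τ.2, fun σ ↦ a3 σ, L, hL, fun σ hσ ↦ a4 σ σ.2 (h σ hσ)⟩⟩, by
      obtain ⟨⟨a1, a2, a3, S, a4⟩, a5⟩ := f.2
      intro q _ ι
      obtain ⟨Q, hQ⟩ := a5 q ι
      exact ⟨Q, fun τ σ h ↦ hQ τ σ σ.2 h⟩⟩
  map_zero' := rfl
  map_add' := fun _ _ ↦ rfl

theorem toZ_inj : Function.Injective (toZ W p m) := by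
  intro f g h
  apply Subtype.ext
  funext σ
  by_cases hσ : Fix p m σ
  · exact congrFun (congrArg (fun z : SelZ W p m ↦ (z.1.1 : Kmul p m → Pt W)) h) ⟨σ, hσ⟩
  · exact (f.2.1.1 σ hσ).trans (g.2.1.1 σ hσ).symm

theorem toZ_surj : Function.Surjective (toZ W p m) := by
  classical
  intro f
  let F : GQ → Pt W := fun σ ↦ if h : Fix p m σ then f.1.1 ⟨σ, h⟩ else 0
  have hF : ∀ (σ : GQ) (h : Fix p m σ), F σ = f.1.1 ⟨σ, h⟩ := fun σ h ↦ dif_pos h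
  have hF0 : ∀ (σ : GQ), ¬ Fix p m σ → F σ = 0 := fun σ h ↦ dif_neg h
  have hS : IsSel W p m F := by
    obtain ⟨a2, a3, L, hL, a4⟩ := f.1.2
    obtain ⟨S, hS⟩ := br_cont2 L hL
    refine ⟨⟨hF0, ?_, ?_, S, ?_⟩, ?_⟩
    · intro σ τ h h'
      rw [hF σ h, hF τ h', hF (σ * τ) ((Kmul p m).mul_mem h h')]
      exact a2 ⟨σ, h⟩ ⟨τ, h'⟩
    · intro σ
      by_cases h : Fix p m σ
      · rw [hF σ h]; exact a3 ⟨σ, h⟩
      · rw [hF0 σ h]; exact ⟨0, by simp⟩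
    · intro σ h h'
      rw [hF σ h]
      exact a4 ⟨σ, h⟩ (hS σ h')
    · intro q _ ι
      obtain ⟨Q, hQ⟩ := f.2 q ι
      refine ⟨Q, ?_⟩
      intro τ σ h h'
      rw [hF σ h]
      exact hQ τ ⟨σ, h⟩ h'
  refine ⟨⟨F, hS⟩, ?_⟩
  apply Subtype.ext; apply Subtype.ext
  funext σ
  exact hF σ σ.2

/-- Selmer cocycles -/
noncomputable def eZ : SelG W p m ≃+ SelZ W p m :=
  AddEquiv.ofBijective (toZ W p m) ⟨toZ_inj W p m, toZ_surj W p m⟩

theorem eZ_cob : ((CobG W p m).addSubgroupOf (SelG W p m)).map (eZ W p m : SelG W p m →+ SelZ W p m) =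
    ((B1 W p m).addSubgroupOf (Z1 W p m)).addSubgroupOf (SelZ W p m) := by
  ext f
  constructor
  · rintro ⟨g, ⟨hg1, P, hP, hg2⟩, rfl⟩
    exact ⟨P, hP, fun σ ↦ hg2 σ σ.2⟩
  · rintro ⟨P, hP, h⟩
    obtain ⟨g, rfl⟩ := (eZ W p m).surjective f
    refine ⟨g, ⟨g.2.1.1, P, hP, ?_⟩, rfl⟩
    intro σ hσ
    exact h ⟨σ, hσ⟩

/-- the two Selmer groups are the same -/
noncomputable def eS : SelT W p m ≃+ Sel W p m :=
  QuotientAddGroup.congr _ _ (eZ W p m) (eZ_cob W p m)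

theorem eS_mk (f : SelG W p m) :
    eS W p m (QuotientAddGroup.mk (s := (CobG W p m).addSubgroupOf (SelG W p m)) f) =
      cl W p m (toZ W p m f) := rfl

theorem cj_mem (g : GQ) (f : Fn W) (hf : f ∈ SelG W p m) :
    (fun σ ↦ gal W g (f (g⁻¹ * σ * g)) : Fn W) ∈ SelG W p m ∧
    ∀ (h : (fun σ ↦ gal W g (f (g⁻¹ * σ * g)) : Fn W) ∈ SelG W p m),
      toZ W p m ⟨_, h⟩ = cjS W p m g (toZ W p m ⟨f, hf⟩) := by
  obtain ⟨F, hF⟩ := toZ_surj W p m (cjS W p m g (toZ W p m ⟨f, hf⟩))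
  have key : (F.1 : Fn W) = fun σ ↦ gal W g (f (g⁻¹ * σ * g)) := by
    funext σ
    by_cases hσ : Fix p m σ
    · exact congrFun (congrArg (fun z : SelZ W p m ↦ (z.1.1 : Kmul p m → Pt W)) hF) ⟨σ, hσ⟩
    · rw [F.2.1.1 σ hσ]
      have h' : ¬ Fix p m (g⁻¹ * σ * g) := by
        intro h
        apply hσ
        have := Kmul_conj p m g⁻¹ ⟨g⁻¹ * σ * g, h⟩
        have e : g⁻¹⁻¹ * (g⁻¹ * σ * g) * g⁻¹ = σ := by group
        change g⁻¹⁻¹ * (g⁻¹ * σ * g) * g⁻¹ ∈ Kmul p m at this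
        rw [e] at this
        exact this
      rw [hf.1.1 _ h', map_zero]
  refine ⟨key ▸ F.2, ?_⟩
  intro h
  rw [← hF]
  congr 1
  exact Subtype.ext key.symm

theorem isCj_iff (g : GQ) (s t : SelT W p m) :
    IsCj W p m g s t ↔ gS W p m g (eS W p m s) = eS W p m t := by
  constructor
  · rintro ⟨f, ⟨h, rfl⟩, ⟨h', rfl⟩⟩
    rw [eS_mk, eS_mk, gS_cl, (cj_mem W p m g f h).2 h']
  · intro hg
    obtain ⟨f, rfl⟩ := QuotientAddGroup.mk_surjective s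
    have h := cj_mem W p m g f.1 f.2
    refine ⟨f.1, ⟨f.2, rfl⟩, h.1, ?_⟩
    apply (eS W p m).injective
    rw [← hg, eS_mk]
    refine (gS_cl W p m g (toZ W p m f)).trans ?_
    refine (congrArg (cl W p m) (h.2 h.1).symm).trans ?_
    exact (eS_mk W p m ⟨_, h.1⟩).symm

end KE16
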