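import Pool.Agent.LibKE16.Br1

/-! # Bridge, part 2: rings, action, Fitting ideals -/

open WeierstrassCurve

namespace KE16

section

variable (p m : ℕ) [Fact p.Prime]

/-- the two Iwasawa algebras are the same -/
noncomputable def rho : IwT p m ≃+* Iw p m where
  toFun r := ⟨fun n ↦ (Subtype.val r : Lev p m) n, fun n ↦ r.2 n⟩
  invFun r := (⟨fun n ↦ (r : ∀ n : ℕ, MonoidAlgebra ℤ_[p] (Hn p m n)) n, fun n ↦ r.2 n⟩ : IwS p m)
  left_inv _ := rfl
  right_inv _ := rfl
  map_mul' _ _ := rfl
  map_add' _ _ := rfl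

theorem rho_val (r : IwT p m) (n : ℕ) :
    (rho p m r : ∀ n : ℕ, MonoidAlgebra ℤ_[p] (Hn p m n)) n = Subtype.val r n := rfl

end

variable (W : WeierstrassCurve ℚ) (p m : ℕ)

theorem isAdm_iff (s : SelT W p m) (n k : ℕ) (c : Hn p m n → SelT W p m) :
    IsAdm W p m s n k c ↔ ∃ g : Hn p m n → GQ, Adm W p m (eS W p m s) n k g ∧
      ∀ a, gS W p m (g a)⁻¹ (eS W p m s) = eS W p m (c a) := by
  constructor
  · rintro ⟨h1, h2, h3⟩
    choose g hg using h3
    refine ⟨g, ⟨?_, fun h hh ↦ (isCj_iff W p m h s s).1 (h2 h hh), fun a ↦ (hg a).1⟩,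
      fun a ↦ (isCj_iff W p m _ s _).1 (hg a).2⟩
    rw [← map_nsmul, h1, map_zero]
  · rintro ⟨g, ⟨h1, h2, h3⟩, h4⟩
    refine ⟨?_, fun h hh ↦ (isCj_iff W p m h s s).2 (h2 h hh),
      fun a ↦ ⟨g a, h3 a, (isCj_iff W p m _ s _).2 (h4 a)⟩⟩
    apply (eS W p m).injective
    rw [map_nsmul, h1, map_zero]

theorem isActT_iff [Fact p.Prime] (r : IwT p m) (s t : SelT W p m) :
    IsActT W p m r s t ↔ IsAct W p m (rho p m r) (eS W p m s) (eS W p m t) := by
  constructor
  · rintro ⟨⟨n, k, c, h⟩, h'⟩
    obtain ⟨g, hg, _⟩ := (isAdm_iff W p m s n k c).1 h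
    refine ⟨⟨n, k, g, hg⟩, ?_⟩
    intro n k g hg
    rw [h' n k (fun a ↦ (eS W p m).symm (gS W p m (g a)⁻¹ (eS W p m s)))
      ((isAdm_iff W p m s n k _).2 ⟨g, hg, fun a ↦ ((eS W p m).apply_symm_apply _).symm⟩)]
    rw [rho_val, Finsupp.sum, Finsupp.sum, map_sum]
    refine Finset.sum_congr rfl fun a _ ↦ ?_
    rw [map_nsmul, AddEquiv.apply_symm_apply]
  · rintro ⟨⟨n, k, g, h⟩, h'⟩
    refine ⟨⟨n, k, fun a ↦ (eS W p m).symm (gS W p m (g a)⁻¹ (eS W p m s)),
      (isAdm_iff W p m s n k _).2 ⟨g, h, fun a ↦ ((eS W p m).apply_symm_apply _).symm⟩⟩, ?_⟩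
    intro n k c hc
    obtain ⟨g, hg, hgc⟩ := (isAdm_iff W p m s n k c).1 hc
    apply (eS W p m).injective
    rw [h' n k g hg]
    rw [rho_val, Finsupp.sum, Finsupp.sum, map_sum]
    refine Finset.sum_congr rfl fun a _ ↦ ?_
    rw [map_nsmul, hgc]

/-- transported module structure -/
@[reducible] def trMod {R R' A A' : Type} [CommRing R] [CommRing R'] [AddCommGroup A] [AddCommGroup A']
    (ρ : R' ≃+* R) (e : A' ≃+ A) (inst : Module R A) : Module R' A' where
  smul r s := e.symm (ρ r • e s)
  one_smul s := by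
    change e.symm (ρ 1 • e s) = s
    rw [map_one, one_smul, AddEquiv.symm_apply_apply]
  mul_smul r r' s := by
    change e.symm (ρ (r * r') • e s) = e.symm (ρ r • e (e.symm (ρ r' • e s)))
    rw [map_mul, mul_smul, AddEquiv.apply_symm_apply]
  smul_zero r := by
    change e.symm (ρ r • e 0) = 0
    rw [map_zero, smul_zero, map_zero]
  smul_add r s t := by
    change e.symm (ρ r • e (s + t)) = e.symm (ρ r • e s) + e.symm (ρ r • e t)
    rw [map_add, smul_add, map_add]
  add_smul r r' s := by
    change e.symm (ρ (r + r') • e s) = e.symm (ρ r • e s) + e.symm (ρ r' • e s)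
    rw [map_add, add_smul, map_add]
  zero_smul s := by
    change e.symm (ρ 0 • e s) = 0
    rw [map_zero, zero_smul, map_zero]

/-- the module structure on the Selmer group -/
@[reducible] noncomputable def brMod [Fact p.Prime] (inst : Module (Iw p m) (Sel W p m)) :
    Module (IwT p m) (SelT W p m) :=
  trMod (rho p m) (eS W p m) inst

theorem brMod_smul [Fact p.Prime] (inst : Module (Iw p m) (Sel W p m)) (r : IwT p m) (s : SelT W p m) :
    (brMod W p m inst).toDistribMulAction.toMulAction.toSemigroupAction.toSMul.smul r s =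
      (eS W p m).symm (rho p m r • eS W p m s) := rfl

/-- transport of the Fitting ideal -/
theorem fitt_tr {R R' : Type} [CommRing R] [CommRing R'] (ρ : R' ≃+* R) {X X' : Type}
    [AddCommGroup X] [Module R X] [AddCommGroup X'] [Module R' X'] (φ : X' ≃+ X)
    (hφ : ∀ (r : R') (x : X'), φ (r • x) = ρ r • φ x) (I : Ideal R') (h : IsFitt X' I) :
    IsFitt X (I.map (ρ : R' →+* R)) := by
  obtain ⟨n, e, he, rfl⟩ := h
  refine ⟨n, fun i ↦ φ (e i), ?_, ?_⟩
  · rw [eq_top_iff]
    intro x _
    have key : ∀ z : X', z ∈ Submodule.span R' (Set.range e) →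
        φ z ∈ Submodule.span R (Set.range fun i ↦ φ (e i)) := by
      intro z hz
      induction hz using Submodule.span_induction with
      | mem z hz =>
        obtain ⟨i, rfl⟩ := hz
        exact Submodule.subset_span ⟨i, rfl⟩
      | zero => rw [map_zero]; exact Submodule.zero_mem _
      | add a b _ _ ha hb => rw [map_add]; exact Submodule.add_mem _ ha hb
      | smul r a _ ha => rw [hφ]; exact Submodule.smul_mem _ _ ha
    have := key (φ.symm x) (by rw [he]; trivial)
    rwa [AddEquiv.apply_symm_apply] at this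
  · rw [Ideal.map_span]
    congr 1
    ext d
    constructor
    · rintro ⟨d, ⟨A, hA, rfl⟩, rfl⟩
      refine ⟨A.map ρ, ?_, ?_⟩
      · intro i
        have := congrArg φ (hA i)
        rw [map_sum, map_zero] at this
        rw [← this]
        refine Finset.sum_congr rfl fun j _ ↦ ?_
        rw [Matrix.map_apply, hφ]
      · rw [RingHom.map_det]
        rfl
    · rintro ⟨A, hA, rfl⟩
      refine ⟨(A.map ρ.symm).det, ⟨A.map ρ.symm, ?_, rfl⟩, ?_⟩
      · intro i
        apply φ.injective
        rw [map_sum, map_zero, ← hA i]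
        refine Finset.sum_congr rfl fun j _ ↦ ?_
        rw [hφ, Matrix.map_apply, RingEquiv.apply_symm_apply]
      · rw [RingHom.map_det]
        congr 1
        ext i j
        exact ρ.apply_symm_apply _

/-- transport of finite generation -/
theorem fin_tr {R R' : Type} [CommRing R] [CommRing R'] (ρ : R' ≃+* R) {X X' : Type}
    [AddCommGroup X] [Module R X] [AddCommGroup X'] [Module R' X'] (φ : X' ≃+ X)
    (hφ : ∀ (r : R') (x : X'), φ (r • x) = ρ r • φ x) (h : Module.Finite R X) : Module.Finite R' X' := by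
  obtain ⟨S, hS⟩ := h.fg_top
  classical
  refine ⟨⟨S.image φ.symm, ?_⟩⟩
  rw [eq_top_iff]
  intro x _
  have key : ∀ z : X, z ∈ Submodule.span R (S : Set X) →
      φ.symm z ∈ Submodule.span R' ((S.image φ.symm : Finset X') : Set X') := by
    intro z hz
    induction hz using Submodule.span_induction with
    | mem z hz => exact Submodule.subset_span (Finset.mem_coe.2 (Finset.mem_image_of_mem _ (Finset.mem_coe.1 hz)))
    | zero => rw [map_zero]; exact Submodule.zero_mem _
    | add a b _ _ ha hb => rw [map_add]; exact Submodule.add_mem _ ha hb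
    | smul r a _ ha =>
      have e : φ.symm (r • a) = ρ.symm r • φ.symm a := by
        apply φ.injective
        rw [hφ, AddEquiv.apply_symm_apply, AddEquiv.apply_symm_apply, RingEquiv.apply_symm_apply]
      rw [e]; exact Submodule.smul_mem _ _ ha
  have := key (φ x) (by rw [hS]; trivial)
  rwa [AddEquiv.symm_apply_apply] at this

/-- the two Pontryagin duals are the same -/
noncomputable def eX : CharacterModule (SelT W p m) ≃+ CharacterModule (Sel W p m) where
  toFun χ := AddMonoidHom.comp χ ((eS W p m).symm : Sel W p m →+ SelT W p m)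
  invFun χ := AddMonoidHom.comp χ ((eS W p m) : SelT W p m →+ Sel W p m)
  left_inv χ := by
    apply AddMonoidHom.ext
    intro x
    exact congrArg χ ((eS W p m).symm_apply_apply x)
  right_inv χ := by
    apply AddMonoidHom.ext
    intro x
    exact congrArg χ ((eS W p m).apply_symm_apply x)
  map_add' _ _ := rfl

theorem eX_smul [Fact p.Prime] (inst : Module (Iw p m) (Sel W p m)) (r : IwT p m)
    (χ : CharacterModule (SelT W p m)) :
    let _ := brMod W p m inst
    eX W p m (r • χ) = rho p m r • eX W p m χ := by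
  intro _
  apply AddMonoidHom.ext
  intro x
  change χ ((eS W p m).symm (rho p m r • eS W p m ((eS W p m).symm x))) =
    χ ((eS W p m).symm (rho p m r • x))
  rw [AddEquiv.apply_symm_apply]

end KE16
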