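import Pool.Agent.LibKE16.H01

/-!
# [KE16 H02] MEDIUM

Plan. T1: `H_psi`, `x = -1/(1+s)` is a root of `3x²+2x+1` (use r.hs), same for `-1/(1-s)`.
T4: `PA, PB ≠ 0`; reduce a, b mod 3 to {-1,0,1}; if e.g. PA = ±PB then equal x-coordinates
`-1/(1+s) = -1/(1-s)`, so s = 0, impossible.
T3: here by the explicit x-coordinates `x(PA ± PB) = 1 ± u v` of the roots of `x² - 2x - 5`.
-/

open WeierstrassCurve

namespace KE16

private theorem c1 (F : Type) [Field F] [Algebra ℚ F] : (E0⁄F).toAffine.a₁ = 0 := by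
  change algebraMap ℚ F 0 = 0; exact _root_.map_zero _
private theorem c2 (F : Type) [Field F] [Algebra ℚ F] : (E0⁄F).toAffine.a₂ = -1 := by
  change algebraMap ℚ F (-1) = -1; rw [_root_.map_neg, _root_.map_one]
private theorem c3 (F : Type) [Field F] [Algebra ℚ F] : (E0⁄F).toAffine.a₃ = 0 := by
  change algebraMap ℚ F 0 = 0; exact _root_.map_zero _

private theorem same_x {F : Type} [Field F] [DecidableEq F] [CharZero F] [Algebra ℚ F] {x x' y y' : F}
    (h : (E0⁄F).toAffine.Nonsingular x y) (h' : (E0⁄F).toAffine.Nonsingular x' y') (hx : x = x') :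
    (Affine.Point.some x y h : (E0⁄F).toAffine.Point) = .some x' y' h' ∨
      (Affine.Point.some x y h : (E0⁄F).toAffine.Point) = -.some x' y' h' := by
  subst hx
  have e1 := (nonsing_iff x y).mp h
  have e2 := (nonsing_iff x y').mp h'
  unfold Eqn at e1 e2
  have e3 : y ^ 2 = y' ^ 2 := e1.trans e2.symm
  rcases sq_eq_sq_iff_eq_or_eq_neg.mp e3 with h1 | h1
  · left; subst h1; rfl
  · right
    rw [Affine.Point.neg_some]
    have : (E0⁄F).toAffine.negY x y' = y := by
      rw [Affine.negY, c1, c3, h1]; ring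
    subst h1
    congr 1
    rw [Affine.negY, c1, c3]; ring

private theorem xne {F : Type} [Field F] [CharZero F] (r : Fr F) : -1 / (1 + r.s) ≠ -1 / (1 - r.s) := by
  intro h
  have h1 := r.ne1
  have h2 := r.ne2
  rw [div_eq_div_iff h1 h2] at h
  have h3 : r.s = 0 := by
    have : (2 : F) * r.s = 0 := by linear_combination h
    rcases mul_eq_zero.mp this with h4 | h4
    · norm_num at h4
    · exact h4
  have := r.hs
  rw [h3] at this
  have h5 : (2 : F) = 0 := by linear_combination this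
  norm_num at h5

private theorem PA_ne {F : Type} [Field F] [DecidableEq F] [CharZero F] [Algebra ℚ F] (r : Fr F) :
    PA r ≠ 0 := by
  unfold PA mk; exact Affine.Point.some_ne_zero _

private theorem PB_ne {F : Type} [Field F] [DecidableEq F] [CharZero F] [Algebra ℚ F] (r : Fr F) :
    PB r ≠ 0 := by
  unfold PB mk; exact Affine.Point.some_ne_zero _

private theorem PA_ne_PB {F : Type} [Field F] [DecidableEq F] [CharZero F] [Algebra ℚ F] (r : Fr F) :
    PA r ≠ PB r := by
  unfold PA PB mk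
  intro h
  rw [Affine.Point.some.injEq] at h
  exact xne r h.1

private theorem PA_ne_negPB {F : Type} [Field F] [DecidableEq F] [CharZero F] [Algebra ℚ F] (r : Fr F) :
    PA r ≠ -PB r := by
  unfold PA PB mk
  intro h
  rw [Affine.Point.neg_some, Affine.Point.some.injEq] at h
  exact xne r h.1

theorem H_T1 {F : Type} [Field F] [DecidableEq F] [CharZero F] [Algebra ℚ F] (r : Fr F) :
    3 • PA r = 0 ∧ 3 • PB r = 0 := by
  have h1 := r.ne1
  have h2 := r.ne2
  have hs := r.hs
  constructor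
  · unfold PA
    rw [H_psi]
    have : 3 * (-1 / (1 + r.s)) ^ 2 + 2 * (-1 / (1 + r.s)) + 1 = 0 := by
      field_simp
      linear_combination hs
    rw [this, mul_zero]
  · unfold PB
    rw [H_psi]
    have : 3 * (-1 / (1 - r.s)) ^ 2 + 2 * (-1 / (1 - r.s)) + 1 = 0 := by
      field_simp
      linear_combination hs
    rw [this, mul_zero]

private theorem red {A : Type} [AddCommGroup A] (P : A) (h : 3 • P = 0) (a : ℤ) :
    (3 ∣ a ∧ a • P = 0) ∨ (¬ 3 ∣ a ∧ (a • P = P ∨ a • P = -P)) := by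
  have h3 : (3 : ℤ) • P = 0 := by
    have : (3 : ℤ) • P = (3 : ℕ) • P := by
      have := natCast_zsmul P 3
      simpa using this
    rw [this, h]
  have key : a • P = (a % 3) • P := by
    conv_lhs => rw [← Int.emod_add_mul_ediv a 3]
    rw [add_zsmul, mul_comm, mul_zsmul, h3, zsmul_zero, add_zero]
  have hlt := Int.emod_lt_of_pos a (show (0 : ℤ) < 3 by norm_num)
  have hnn := Int.emod_nonneg a (show (3 : ℤ) ≠ 0 by norm_num)
  have hc : a % 3 = 0 ∨ a % 3 = 1 ∨ a % 3 = 2 := by omega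
  rcases hc with hc | hc | hc
  · left
    exact ⟨Int.dvd_of_emod_eq_zero hc, by rw [key, hc, zero_zsmul]⟩
  · right
    exact ⟨by omega, Or.inl (by rw [key, hc, one_zsmul])⟩
  · right
    refine ⟨by omega, Or.inr ?_⟩
    rw [key, hc]
    have : (2 : ℤ) • P = (3 : ℤ) • P - P := by
      rw [show (3 : ℤ) = 2 + 1 by norm_num, add_zsmul, one_zsmul]; abel
    rw [this, h3, zero_sub]

theorem H_T4 {F : Type} [Field F] [DecidableEq F] [CharZero F] [Algebra ℚ F] (r : Fr F) (a b : ℤ)
    (h : a • PA r + b • PB r = 0) : 3 ∣ a ∧ 3 ∣ b := by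
  obtain ⟨hA, hB⟩ := H_T1 r
  have nA := PA_ne r
  have nB := PB_ne r
  have n1 := PA_ne_PB r
  have n2 := PA_ne_negPB r
  rcases red (PA r) hA a with ⟨ha, ha'⟩ | ⟨ha, ha'⟩ <;> rcases red (PB r) hB b with ⟨hb, hb'⟩ | ⟨hb, hb'⟩
  · exact ⟨ha, hb⟩
  · exfalso
    rw [ha', zero_add] at h
    rcases hb' with e | e <;> rw [e] at h
    · exact nB h
    · exact nB (neg_eq_zero.mp h)
  · exfalso
    rw [hb', add_zero] at h
    rcases ha' with e | e <;> rw [e] at h
    · exact nA h
    · exact nA (neg_eq_zero.mp h)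
  · exfalso
    rcases ha' with e | e <;> rcases hb' with e' | e' <;> rw [e, e'] at h
    · exact n2 (eq_neg_of_add_eq_zero_left h)
    · exact n1 (by rw [← sub_eq_add_neg] at h; exact sub_eq_zero.mp h)
    · exact n1 (neg_add_eq_zero.mp h)
    · apply n2
      have := eq_neg_of_add_eq_zero_left h
      rw [neg_neg] at this
      rw [← this, neg_neg]

private theorem sumx {F : Type} [Field F] [DecidableEq F] [CharZero F] [Algebra ℚ F] (r : Fr F) :
    ∃ (y : F) (h : (E0⁄F).toAffine.Nonsingular (1 + r.u * r.v) y),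
      PA r + PB r = .some (1 + r.u * r.v) y h := by
  have hx := xne r
  have h1 := r.ne1
  have h2 := r.ne2
  have hs := r.hs
  have hu := r.hu
  have hv := r.hv
  have s0 : r.s ≠ 0 := by
    intro h
    rw [h] at hs
    have h5 : (2 : F) = 0 := by linear_combination hs
    norm_num at h5
  have xA : -1 / (1 + r.s) = -(1 - r.s) / 3 := by
    rw [div_eq_div_iff h1 (by norm_num)]
    linear_combination -hs
  have xB : -1 / (1 - r.s) = -(1 + r.s) / 3 := by
    rw [div_eq_div_iff h2 (by norm_num)]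
    linear_combination -hs
  have yA : 2 * r.v / (1 + r.s) ^ 2 = -2 * r.v * (1 + 2 * r.s) / 9 := by
    rw [div_eq_div_iff (pow_ne_zero 2 h1) (by norm_num)]
    linear_combination (2 * r.v * (2 * r.s + 5)) * hs
  have yB : 2 * r.u / (1 - r.s) ^ 2 = 2 * r.u * (2 * r.s - 1) / 9 := by
    rw [div_eq_div_iff (pow_ne_zero 2 h2) (by norm_num)]
    linear_combination (2 * r.u * (-2 * r.s + 5)) * hs
  have hl : (2 * r.v / (1 + r.s) ^ 2 - 2 * r.u / (1 - r.s) ^ 2) / (-1 / (1 + r.s) - -1 / (1 - r.s)) =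
      r.s * (r.v * (1 + 2 * r.s) + r.u * (2 * r.s - 1)) / 6 := by
    rw [xA, xB, yA, yB]
    have e : -(1 - r.s) / 3 - -(1 + r.s) / 3 = 2 * r.s / 3 := by ring
    rw [e, div_eq_div_iff (div_ne_zero (mul_ne_zero two_ne_zero s0) (by norm_num)) (by norm_num)]
    linear_combination (-(2 : F) / 3 * (r.v * (1 + 2 * r.s) + r.u * (2 * r.s - 1))) * hs
  have key : (E0⁄F).toAffine.addX (-1 / (1 + r.s)) (-1 / (1 - r.s))
      ((E0⁄F).toAffine.slope (-1 / (1 + r.s)) (-1 / (1 - r.s)) (2 * r.v / (1 + r.s) ^ 2)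
        (2 * r.u / (1 - r.s) ^ 2)) = 1 + r.u * r.v := by
    rw [Affine.slope_of_X_ne hx, Affine.addX, c1, c2, hl, xA, xB]
    have e1 : (r.s * (r.v * (1 + 2 * r.s) + r.u * (2 * r.s - 1)) / 6) ^ 2 = r.u * r.v - 2 / 3 := by
      have : (r.s * (r.v * (1 + 2 * r.s) + r.u * (2 * r.s - 1)) / 6) ^ 2 =
        r.s ^ 2 * (r.v ^ 2 * (1 + 2 * r.s) ^ 2 + r.u ^ 2 * (2 * r.s - 1) ^ 2 +
          2 * (r.u * r.v) * (4 * r.s ^ 2 - 1)) / 36 := by ring
      rw [this, hu, hv]
      have e4 : (1 + 2 * r.s) ^ 2 = 4 * r.s - 7 := by linear_combination 4 * hs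
      have e5 : (2 * r.s - 1) ^ 2 = -4 * r.s - 7 := by linear_combination 4 * hs
      rw [e4, e5, hs]
      linear_combination (-4 / 9 : F) * hs
    rw [e1]
    ring
  have hadd := Affine.Point.add_of_X_ne (W := (E0⁄F).toAffine) (h₁ := (nonsing_iff _ _).mpr r.eqA)
    (h₂ := (nonsing_iff _ _).mpr r.eqB) hx
  refine ⟨(E0⁄F).toAffine.addY (-1 / (1 + r.s)) (-1 / (1 - r.s)) (2 * r.v / (1 + r.s) ^ 2)
      ((E0⁄F).toAffine.slope (-1 / (1 + r.s)) (-1 / (1 - r.s)) (2 * r.v / (1 + r.s) ^ 2)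
        (2 * r.u / (1 - r.s) ^ 2)), ?_, ?_⟩
  · rw [← key]
    exact Affine.nonsingular_add ((nonsing_iff _ _).mpr r.eqA) ((nonsing_iff _ _).mpr r.eqB)
      (fun hh ↦ hx hh.1)
  · unfold PA PB mk
    rw [hadd, Affine.Point.some.injEq]
    exact ⟨key, rfl⟩

theorem H_T3 {F : Type} [Field F] [DecidableEq F] [CharZero F] [Algebra ℚ F] (r : Fr F)
    (P : (E0⁄F).toAffine.Point) (h : 3 • P = 0) : ∃ a b : ℤ, P = a • PA r + b • PB r := by
  have h1 := r.ne1
  have h2 := r.ne2
  have hs := r.hs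
  have hu := r.hu
  have hv := r.hv
  rcases P with _ | ⟨x, y, hP⟩
  · exact ⟨0, 0, by simp; rfl⟩
  · have hE := (nonsing_iff x y).mp hP
    have h' : 3 • mk x y hE = 0 := h
    rw [H_psi] at h'
    rcases mul_eq_zero.mp h' with h6 | h6
    · have h7 : (x - 1) ^ 2 = (r.u * r.v) ^ 2 := by
        rw [mul_pow, hu, hv]
        linear_combination h6 + hs
      rcases sq_eq_sq_iff_eq_or_eq_neg.mp h7 with h8 | h8
      · obtain ⟨y', h9, h10⟩ := sumx r
        rcases same_x hP h9 (by linear_combination h8) with e | e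
        · exact ⟨1, 1, by rw [one_zsmul, one_zsmul, h10]; exact e⟩
        · exact ⟨-1, -1, by rw [neg_one_zsmul, neg_one_zsmul, ← neg_add, h10]; exact e⟩
      · let r' : Fr F := ⟨r.s, -r.u, r.v, r.hs, by rw [neg_sq]; exact r.hu, r.hv⟩
        have eA : PA r' = PA r := rfl
        have eB : PB r' = -PB r := by
          unfold PB mk
          rw [Affine.Point.neg_some, Affine.Point.some.injEq]
          refine ⟨rfl, ?_⟩
          rw [Affine.negY, c1, c3]
          change 2 * (-r.u) / (1 - r.s) ^ 2 = _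
          ring
        obtain ⟨y', h9, h10⟩ := sumx r'
        rw [eA, eB] at h10
        rcases same_x hP h9 (by change x = 1 + -r.u * r.v; linear_combination h8) with e | e
        · exact ⟨1, -1, by rw [one_zsmul, neg_one_zsmul, h10]; exact e⟩
        · exact ⟨-1, 1, by
            have : (-1 : ℤ) • PA r + (1 : ℤ) • PB r = -(PA r + -PB r) := by
              rw [neg_one_zsmul, one_zsmul]; abel
            rw [this, h10]; exact e⟩
    · have h7 : (x - -1 / (1 + r.s)) * (x - -1 / (1 - r.s)) = 0 := by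
        field_simp
        linear_combination h6 - x ^ 2 * hs
      rcases mul_eq_zero.mp h7 with h8 | h8
      · rcases same_x hP ((nonsing_iff _ _).mpr r.eqA) (sub_eq_zero.mp h8) with e | e
        · exact ⟨1, 0, by rw [one_zsmul, zero_zsmul, add_zero]; exact e⟩
        · exact ⟨-1, 0, by rw [neg_one_zsmul, zero_zsmul, add_zero]; exact e⟩
      · rcases same_x hP ((nonsing_iff _ _).mpr r.eqB) (sub_eq_zero.mp h8) with e | e
        · exact ⟨0, 1, by rw [one_zsmul, zero_zsmul, zero_add]; exact e⟩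
        · exact ⟨0, -1, by rw [neg_one_zsmul, zero_zsmul, zero_add]; exact e⟩

end KE16
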