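import Pool.Agent.LibKE16.HDefs

/-!
# [KE16 H03] MEDIUM (easy, many small lemmas)

Plan. H_fr: s'^2 = s^2 so s' = ±s; if s' = s then u'^2 = u^2, v'^2 = v^2; if s' = -s then u'^2 = -2+s = v^2,
v'^2 = -s-2 = u^2 (`sq_eq_sq_iff_eq_or_eq_neg`), signs = `(1 : ℤˣ)` or `-1`.
H_P1, H_P2: `Int.units_eq_one_or`, unfold PA PB mk; -(x,y) = (x, -y) (`Affine.Point.neg_some`, negY with a1 = a3 = 0).
H_map: `Affine.Point.map_some`, the coordinates are mapped (map_div₀ ...).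
H_act: H_fr for `r0` and `r0.map g`, H_map, H_P1, H_P2; z = (-1 + w)/2, w = u v s/2, w² = -3, so z⁻¹ = z² = (-1-w)/2.
H_z: z² + z + 1 = 0, z ≠ 1. H_rt: w⁴+4w²+6 = (w²-u²)(w²-v²), since u²+v² = -4, u²v² = 6.
-/

open WeierstrassCurve

namespace KE16

private theorem sq_u {F : Type} [Field F] {x y : F} (h : x ^ 2 = y ^ 2) :
    ∃ ε : ℤˣ, x = ((ε : ℤ) : F) * y := by
  rcases sq_eq_sq_iff_eq_or_eq_neg.mp h with h | h
  · exact ⟨1, by rw [h]; simp⟩
  · exact ⟨-1, by rw [h]; simp⟩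

/-- any two frames of a field differ by one of 8 substitutions -/
theorem H_fr {F : Type} [Field F] (r r' : Fr F) :
    (r'.s = r.s ∧ ∃ ε δ : ℤˣ, r'.u = ((ε : ℤ) : F) * r.u ∧ r'.v = ((δ : ℤ) : F) * r.v) ∨
    (r'.s = -r.s ∧ ∃ ε δ : ℤˣ, r'.u = ((ε : ℤ) : F) * r.v ∧ r'.v = ((δ : ℤ) : F) * r.u) := by
  have h : r'.s ^ 2 = r.s ^ 2 := by rw [r'.hs, r.hs]
  rcases sq_eq_sq_iff_eq_or_eq_neg.mp h with h | h
  · left
    obtain ⟨ε, hε⟩ := sq_u (x := r'.u) (y := r.u) (by rw [r'.hu, r.hu, h])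
    obtain ⟨δ, hδ⟩ := sq_u (x := r'.v) (y := r.v) (by rw [r'.hv, r.hv, h])
    exact ⟨h, ε, δ, hε, hδ⟩
  · right
    obtain ⟨ε, hε⟩ := sq_u (x := r'.u) (y := r.v) (by rw [r'.hu, r.hv, h]; ring)
    obtain ⟨δ, hδ⟩ := sq_u (x := r'.v) (y := r.u) (by rw [r'.hv, r.hu, h]; ring)
    exact ⟨h, ε, δ, hε, hδ⟩

private theorem mk_congr {F : Type} [Field F] [Algebra ℚ F] {x x' y y' : F}
    (h : Eqn x y) (h' : Eqn x' y') (hx : x = x') (hy : y = y') : mk x y h = mk x' y' h' := by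
  subst hx; subst hy; rfl

private theorem mk_neg {F : Type} [Field F] [Algebra ℚ F] {x y : F}
    (h : Eqn x y) (h' : Eqn x (-y)) : -mk x y h = mk x (-y) h' := by
  have h1 : (E0⁄F).toAffine.a₁ = 0 := by
    change algebraMap ℚ F 0 = 0; exact _root_.map_zero _
  have h3 : (E0⁄F).toAffine.a₃ = 0 := by
    change algebraMap ℚ F 0 = 0; exact _root_.map_zero _
  unfold mk
  rw [Affine.Point.neg_some]
  have e : (E0⁄F).toAffine.negY x y = -y := by
    rw [Affine.negY, h1, h3]; ring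
  simp only [e]

private theorem mk_zs {F : Type} [Field F] [DecidableEq F] [Algebra ℚ F] {x y y' : F}
    (h : Eqn x y) (δ : ℤˣ) (h' : Eqn x y') (e : y' = ((δ : ℤ) : F) * y) :
    mk x y' h' = (δ : ℤ) • mk x y h := by
  rcases Int.units_eq_one_or δ with rfl | rfl
  · rw [Units.val_one, one_zsmul]
    exact mk_congr _ _ rfl (by rw [e]; simp)
  · have e1 : y' = -y := by rw [e]; simp
    subst e1
    rw [Units.val_neg, Units.val_one, neg_zsmul, one_zsmul]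
    exact (mk_neg h h').symm

theorem H_P1 {F : Type} [Field F] [DecidableEq F] [CharZero F] [Algebra ℚ F] (r r' : Fr F)
    (ε δ : ℤˣ) (hs : r'.s = r.s) (hu : r'.u = ((ε : ℤ) : F) * r.u)
    (hv : r'.v = ((δ : ℤ) : F) * r.v) : PA r' = (δ : ℤ) • PA r ∧ PB r' = (ε : ℤ) • PB r := by
  constructor
  · have e : PA r' = mk (-1 / (1 + r.s)) (((δ : ℤ) : F) * (2 * r.v / (1 + r.s) ^ 2)) (by
        have := r'.eqA
        rw [hs, hv] at this
        convert this using 1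
        ring) := by
      unfold PA
      exact mk_congr _ _ (by rw [hs]) (by rw [hs, hv]; ring)
    rw [e]
    exact mk_zs _ δ _ rfl
  · have e : PB r' = mk (-1 / (1 - r.s)) (((ε : ℤ) : F) * (2 * r.u / (1 - r.s) ^ 2)) (by
        have := r'.eqB
        rw [hs, hu] at this
        convert this using 1
        ring) := by
      unfold PB
      exact mk_congr _ _ (by rw [hs]) (by rw [hs, hu]; ring)
    rw [e]
    exact mk_zs _ ε _ rfl

theorem H_P2 {F : Type} [Field F] [DecidableEq F] [CharZero F] [Algebra ℚ F] (r r' : Fr F)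
    (ε δ : ℤˣ) (hs : r'.s = -r.s) (hu : r'.u = ((ε : ℤ) : F) * r.v)
    (hv : r'.v = ((δ : ℤ) : F) * r.u) : PA r' = (δ : ℤ) • PB r ∧ PB r' = (ε : ℤ) • PA r := by
  constructor
  · have e : PA r' = mk (-1 / (1 - r.s)) (((δ : ℤ) : F) * (2 * r.u / (1 - r.s) ^ 2)) (by
        have := r'.eqA
        rw [hs, hv, ← sub_eq_add_neg] at this
        convert this using 1
        ring) := by
      unfold PA
      exact mk_congr _ _ (by rw [hs, ← sub_eq_add_neg]) (by rw [hs, hv, ← sub_eq_add_neg]; ring)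
    rw [e]
    exact mk_zs _ δ _ rfl
  · have e : PB r' = mk (-1 / (1 + r.s)) (((ε : ℤ) : F) * (2 * r.v / (1 + r.s) ^ 2)) (by
        have := r'.eqB
        rw [hs, hu, sub_neg_eq_add] at this
        convert this using 1
        ring) := by
      unfold PB
      exact mk_congr _ _ (by rw [hs, sub_neg_eq_add]) (by rw [hs, hu, sub_neg_eq_add]; ring)
    rw [e]
    exact mk_zs _ ε _ rfl

theorem H_map {F K : Type} [Field F] [DecidableEq F] [CharZero F] [Algebra ℚ F] [Field K]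
    [DecidableEq K] [CharZero K] [Algebra ℚ K] (φ : F →ₐ[ℚ] K) (r : Fr F) :
    Affine.Point.map (W' := E0) (S := ℚ) φ (PA r) = PA (r.map (φ : F →+* K)) ∧
    Affine.Point.map (W' := E0) (S := ℚ) φ (PB r) = PB (r.map (φ : F →+* K)) := by
  constructor
  · unfold PA mk
    rw [Affine.Point.map_some]
    congr 1
    · simp [Fr.map]
    · simp [Fr.map, map_ofNat φ 2]
  · unfold PB mk
    rw [Affine.Point.map_some]
    congr 1
    · simp [Fr.map]
    · simp [Fr.map, map_ofNat φ 2]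

private theorem w_sq {F : Type} [Field F] [CharZero F] (r : Fr F) :
    (r.u * r.v * r.s / 2) ^ 2 = -3 := by
  have e : (r.u * r.v * r.s / 2) ^ 2 = r.u ^ 2 * r.v ^ 2 * r.s ^ 2 / 4 := by ring
  rw [e, r.hu, r.hv]
  have hs := r.hs
  linear_combination (-(r.s ^ 2 - 6) / 4) * hs

private theorem z_pm {F : Type} [Field F] [CharZero F] (r : Fr F) (η : ℤˣ) :
    (-1 + ((η : ℤ) : F) * (r.u * r.v * r.s / 2)) / 2 = r.z ^ (η : ℤ) := by
  have hw := w_sq r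
  rcases Int.units_eq_one_or η with rfl | rfl
  · unfold Fr.z
    simp
  · have e : (((-1 : ℤˣ) : ℤ) : F) = -1 := by simp
    have e' : ((-1 : ℤˣ) : ℤ) = -1 := rfl
    rw [e, e', zpow_neg_one]
    apply eq_inv_of_mul_eq_one_left
    unfold Fr.z
    linear_combination -(1 / 4 : F) * hw

/-- the action of `g` on the basis `P_π, P_π̄` of `E[3]` -/
theorem H_act (g : GQ) :
    (g r0.s = r0.s ∧ ∃ ε δ : ℤˣ, g r0.u = ((ε : ℤ) : Qb) * r0.u ∧ g r0.v = ((δ : ℤ) : Qb) * r0.v ∧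
      gal E0 g (PA r0) = (δ : ℤ) • PA r0 ∧ gal E0 g (PB r0) = (ε : ℤ) • PB r0 ∧
      g r0.z = r0.z ^ ((ε * δ : ℤˣ) : ℤ)) ∨
    (g r0.s = -r0.s ∧ ∃ ε δ : ℤˣ, g r0.u = ((ε : ℤ) : Qb) * r0.v ∧ g r0.v = ((δ : ℤ) : Qb) * r0.u ∧
      gal E0 g (PA r0) = (δ : ℤ) • PB r0 ∧ gal E0 g (PB r0) = (ε : ℤ) • PA r0 ∧
      g r0.z = r0.z ^ (-((ε * δ : ℤˣ) : ℤ))) := by
  have hA : gal E0 g (PA r0) = PA (r0.map ((g : Qb →ₐ[ℚ] Qb) : Qb →+* Qb)) :=
    (H_map (g : Qb →ₐ[ℚ] Qb) r0).1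
  have hB : gal E0 g (PB r0) = PB (r0.map ((g : Qb →ₐ[ℚ] Qb) : Qb →+* Qb)) :=
    (H_map (g : Qb →ₐ[ℚ] Qb) r0).2
  have hz : g r0.z = (-1 + g r0.u * g r0.v * g r0.s / 2) / 2 := by
    unfold Fr.z
    rw [map_div₀, _root_.map_add, _root_.map_neg, _root_.map_one, map_div₀, _root_.map_mul,
      _root_.map_mul, _root_.map_ofNat]
  rcases H_fr r0 (r0.map ((g : Qb →ₐ[ℚ] Qb) : Qb →+* Qb)) with ⟨hs, ε, δ, hu, hv⟩ | ⟨hs, ε, δ, hu, hv⟩
  · left
    have h12 := H_P1 _ _ ε δ hs hu hv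
    have hs' : g r0.s = r0.s := hs
    have hu' : g r0.u = ((ε : ℤ) : Qb) * r0.u := hu
    have hv' : g r0.v = ((δ : ℤ) : Qb) * r0.v := hv
    refine ⟨hs', ε, δ, hu', hv', by rw [hA, h12.1], by rw [hB, h12.2], ?_⟩
    rw [hz, hs', hu', hv', ← z_pm r0 (ε * δ), Units.val_mul, Int.cast_mul]
    ring
  · right
    have h12 := H_P2 _ _ ε δ hs hu hv
    have hs' : g r0.s = -r0.s := hs
    have hu' : g r0.u = ((ε : ℤ) : Qb) * r0.v := hu
    have hv' : g r0.v = ((δ : ℤ) : Qb) * r0.u := hv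
    refine ⟨hs', ε, δ, hu', hv', by rw [hA, h12.1], by rw [hB, h12.2], ?_⟩
    have e : -((ε * δ : ℤˣ) : ℤ) = ((-(ε * δ) : ℤˣ) : ℤ) := by rw [Units.val_neg]
    rw [hz, hs', hu', hv', e, ← z_pm r0 (-(ε * δ)), Units.val_neg, Units.val_mul, Int.cast_neg,
      Int.cast_mul]
    ring

theorem H_z {F : Type} [Field F] [CharZero F] (r : Fr F) : IsPrimitiveRoot r.z 3 := by
  have hw := w_sq r
  have h1 : r.z ^ 2 + r.z + 1 = 0 := by
    unfold Fr.z
    linear_combination (1 / 4 : F) * hw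
  have h3 : r.z ^ 3 = 1 := by linear_combination (r.z - 1) * h1
  have h2 : r.z ≠ 1 := by
    intro h
    rw [h] at h1
    norm_num at h1
  have h4 := IsPrimitiveRoot.orderOf r.z
  rwa [orderOf_eq_prime h3 h2] at h4

/-- the roots of `X⁴ + 4X² + 6` -/
theorem H_rt {F : Type} [Field F] (r : Fr F) (w : F) :
    Rt w ↔ (w = r.u ∨ w = -r.u ∨ w = r.v ∨ w = -r.v) := by
  have e : w ^ 4 + 4 * w ^ 2 + 6 = (w ^ 2 - r.u ^ 2) * (w ^ 2 - r.v ^ 2) := by
    rw [r.hu, r.hv]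
    linear_combination r.hs
  unfold Rt
  rw [e, mul_eq_zero, sub_eq_zero, sub_eq_zero, sq_eq_sq_iff_eq_or_eq_neg,
    sq_eq_sq_iff_eq_or_eq_neg, or_assoc]

end KE16
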