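import Pool.Agent.LibKE16.FDefs
import Pool.Agent.LibKE16.H02
import Pool.Agent.LibKE16.H03

/-!
# [KE16 FG07] SHORT/MEDIUM. `E[3]` (cites H_T1, H_T3, H_act as stated).

Plan. FG_triv: `P = a PA + b PB` (H_T3); H_act: `g s = s` because `s = -2 - u²` (so the second case gives `s = 0`, impossible), and
`ε = δ = 1` because `u, v ≠ 0`. See `H12_act` in H12.lean for a very similar argument. FG_E3: the set is contained in the image of
`(Fin 3 × Fin 3)`: `a • PA` only depends on `a mod 3` (`3 • PA = 0`, H_T1).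
-/

open WeierstrassCurve

namespace KE16

private theorem FG07_mod {M : Type} [AddCommGroup M] (P : M) (h : 3 • P = 0) (a : ℤ) :
    ∃ i : Fin 3, a • P = (((i : ℕ) : ℤ)) • P := by
  have h0 : 0 ≤ a % 3 := Int.emod_nonneg a (by norm_num)
  have h1 : a % 3 < 3 := Int.emod_lt_of_pos a (by norm_num)
  refine ⟨⟨(a % 3).toNat, by omega⟩, ?_⟩
  have h2 : (((a % 3).toNat : ℕ) : ℤ) = a % 3 := Int.toNat_of_nonneg h0
  change a • P = (((a % 3).toNat : ℕ) : ℤ) • P
  rw [h2]
  have h3 : (3 : ℤ) • P = 0 := by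
    have h5 := natCast_zsmul P 3
    rw [h] at h5
    exact_mod_cast h5
  have h4 : a = (a / 3) * 3 + a % 3 := (Int.ediv_mul_add_emod a 3).symm
  conv_lhs => rw [h4, add_zsmul, mul_smul, h3, zsmul_zero, zero_add]

theorem FG_triv (g : GQ) (hu : g r0.u = r0.u) (hv : g r0.v = r0.v) (P : Pt E0) (h3 : 3 • P = 0) :
    gal E0 g P = P := by
  obtain ⟨a, b, rfl⟩ := H_T3 r0 P h3
  have hs : g r0.s = r0.s := by
    have e : r0.s = -2 - r0.u ^ 2 := by rw [r0.hu]; ring
    rw [e, map_sub, map_neg, map_pow, hu, map_ofNat]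
  have hu0 : r0.u ≠ 0 := by
    intro h0
    have h1 := r0.hu
    have h2 := r0.hs
    rw [h0] at h1
    have h3 : r0.s = -2 := by linear_combination h1
    rw [h3] at h2
    norm_num at h2
  have hv0 : r0.v ≠ 0 := by
    intro h0
    have h1 := r0.hv
    have h2 := r0.hs
    rw [h0] at h1
    have h3 : r0.s = 2 := by linear_combination -h1
    rw [h3] at h2
    norm_num at h2
  have hs0 : r0.s ≠ 0 := by
    intro h0
    have h2 := r0.hs
    rw [h0] at h2
    norm_num at h2
  rcases H_act g with ⟨-, ε, δ, h1, h2, h3, h4, -⟩ | ⟨h0, -⟩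
  · have hε : ε = 1 := by
      rcases Int.units_eq_one_or ε with h | h
      · exact h
      · exfalso
        rw [hu, h] at h1
        apply hu0
        have : (2 : Qb) * r0.u = 0 := by
          push_cast at h1; linear_combination h1
        exact (mul_eq_zero.mp this).resolve_left (by norm_num)
    have hδ : δ = 1 := by
      rcases Int.units_eq_one_or δ with h | h
      · exact h
      · exfalso
        rw [hv, h] at h2
        apply hv0
        have : (2 : Qb) * r0.v = 0 := by
          push_cast at h2; linear_combination h2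
        exact (mul_eq_zero.mp this).resolve_left (by norm_num)
    rw [map_add, map_zsmul, map_zsmul, h3, h4, hε, hδ]
    simp
  · exfalso
    rw [hs] at h0
    apply hs0
    have : (2 : Qb) * r0.s = 0 := by linear_combination h0
    exact (mul_eq_zero.mp this).resolve_left (by norm_num)

theorem FG_E3 : {P : Pt E0 | 3 • P = 0}.Finite := by
  refine (Set.finite_range (fun x : Fin 3 × Fin 3 =>
    (((x.1 : ℕ) : ℤ)) • PA r0 + (((x.2 : ℕ) : ℤ)) • PB r0)).subset ?_
  intro P hP
  obtain ⟨a, b, rfl⟩ := H_T3 r0 P hP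
  obtain ⟨i, hi⟩ := FG07_mod (PA r0) (H_T1 r0).1 a
  obtain ⟨j, hj⟩ := FG07_mod (PB r0) (H_T1 r0).2 b
  exact ⟨(i, j), by rw [hi, hj]⟩

end KE16
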