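import Pool.Agent.LibKE16.HDefs

/-!
# [KE16 H11] MEDIUM/STRONG (look into the libraries first)

Plan. Lagrange resolvent by hand: c(g σ) = c(g) for σ ∈ Gal(Qb/L0) fixing L. Choose finitely many representatives g_i of
Gal(Qb/L0) modulo U = {σ ∈ Gal(Qb/L0) fixing L'} where L' ⊇ L is finite NORMAL over ℚ and contains the values c(g) (finitely many).
The maps g_i|L' are distinct characters of L'; by independence of characters (`linearIndependent_monoidHom`) some a ∈ L' has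
θ' := Σ c(g_i) g_i(a) ≠ 0; for g: g θ' = Σ g(c(g_i)) g g_i(a) = c(g)⁻¹ Σ c(g g_i) (g g_i)(a) = c(g)⁻¹ θ'. θ := θ'⁻¹.
Or reduce to Mathlib's finite Hilbert 90 (`groupCohomology.isMulCoboundary₁_of_isMulCocycle₁_of_aut_to_units`).
-/

open WeierstrassCurve

namespace KE16

/-- Hilbert 90 for continuous cocycles of `Gal(Qb/L₀)` -/
theorem H_90 (L0 : IntermediateField ℚ Qb) (c : GQ → Qb)
    (hc : ∀ g ∈ L0.fixingSubgroup, ∀ g' ∈ L0.fixingSubgroup, c (g * g') = c g * g (c g'))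
    (h0 : ∀ g ∈ L0.fixingSubgroup, c g ≠ 0)
    (L : IntermediateField ℚ Qb) (hL : FiniteDimensional ℚ L)
    (hLc : ∀ g ∈ L0.fixingSubgroup, (∀ x ∈ L, g x = x) → c g = 1) :
    ∃ θ : Qb, θ ≠ 0 ∧ ∀ g ∈ L0.fixingSubgroup, g θ = c g * θ := by
  classical
  have := hL
  have : Fintype (L →ₐ[ℚ] Qb) := Fintype.ofFinite _
  obtain ⟨res, hres⟩ : ∃ res : GQ → (L →ₐ[ℚ] Qb), ∀ g (x : L), res g x = g x :=
    ⟨fun g => (g : Qb →ₐ[ℚ] Qb).comp L.val, fun g x => rfl⟩
  have hcr : ∀ g ∈ L0.fixingSubgroup, ∀ g' ∈ L0.fixingSubgroup, res g = res g' → c g = c g' := by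
    intro g hg g' hg' he
    have h1 : c (g⁻¹ * g') = 1 := by
      refine hLc _ (L0.fixingSubgroup.mul_mem (L0.fixingSubgroup.inv_mem hg) hg') fun x hx => ?_
      have h2 : g' x = g x := by
        rw [← hres g ⟨x, hx⟩, ← hres g' ⟨x, hx⟩, he]
      change g⁻¹ (g' x) = x
      rw [h2]
      exact AlgEquiv.symm_apply_apply g x
    have h2 := hc g hg (g⁻¹ * g') (L0.fixingSubgroup.mul_mem (L0.fixingSubgroup.inv_mem hg) hg')
    rw [mul_inv_cancel_left, h1, map_one, mul_one] at h2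
    exact h2.symm
  obtain ⟨C, hC1, hC0⟩ : ∃ C : (L →ₐ[ℚ] Qb) → Qb, (∀ g ∈ L0.fixingSubgroup, C (res g) = c g) ∧
      ∀ φ, (¬ ∃ g ∈ L0.fixingSubgroup, res g = φ) → C φ = 0 := by
    refine ⟨fun φ => if h : ∃ g ∈ L0.fixingSubgroup, res g = φ then c h.choose else 0,
      fun g hg => ?_, fun φ h => dif_neg h⟩
    have h : ∃ g' ∈ L0.fixingSubgroup, res g' = res g := ⟨g, hg, rfl⟩
    dsimp only
    rw [dif_pos h]
    exact hcr _ h.choose_spec.1 g hg h.choose_spec.2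
  obtain ⟨a, ha⟩ : ∃ a : L, ∑ φ, C φ * φ a ≠ 0 := by
    by_contra hcon
    push Not at hcon
    have h1 := Fintype.linearIndependent_iff.1 (linearIndependent_algHom_toLinearMap ℚ L Qb) C (by
      ext a
      rw [LinearMap.sum_apply, LinearMap.zero_apply, ← hcon a]
      rfl) (res 1)
    rw [hC1 1 (Subgroup.one_mem _)] at h1
    exact h0 1 (Subgroup.one_mem _) h1
  refine ⟨(∑ φ, C φ * φ a)⁻¹, inv_ne_zero ha, fun g hg => ?_⟩
  have hg' : g⁻¹ ∈ L0.fixingSubgroup := L0.fixingSubgroup.inv_mem hg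
  let e : (L →ₐ[ℚ] Qb) ≃ (L →ₐ[ℚ] Qb) :=
    { toFun := fun φ => (g : Qb →ₐ[ℚ] Qb).comp φ
      invFun := fun φ => ((g⁻¹ : GQ) : Qb →ₐ[ℚ] Qb).comp φ
      left_inv := fun φ => by
        ext x
        exact AlgEquiv.symm_apply_apply g (φ x)
      right_inv := fun φ => by
        ext x
        exact AlgEquiv.apply_symm_apply g (φ x) }
  have he : ∀ φ x, e φ x = g (φ x) := fun φ x => rfl
  have hes : ∀ φ x, e.symm φ x = g⁻¹ (φ x) := fun φ x => rfl
  have hCe : ∀ φ, C (e φ) = c g * g (C φ) := by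
    intro φ
    by_cases h : ∃ g' ∈ L0.fixingSubgroup, res g' = φ
    · obtain ⟨g', hgm, rfl⟩ := h
      have h1 : e (res g') = res (g * g') := by
        ext x
        rw [he, hres, hres]
        rfl
      rw [h1, hC1 _ (L0.fixingSubgroup.mul_mem hg hgm), hC1 _ hgm, hc g hg g' hgm]
    · rw [hC0 φ h, map_zero, mul_zero]
      refine hC0 _ fun h' => h ?_
      obtain ⟨g', hgm, hg2⟩ := h'
      refine ⟨g⁻¹ * g', L0.fixingSubgroup.mul_mem hg' hgm, ?_⟩
      rw [← e.symm_apply_apply φ, ← hg2]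
      ext x
      rw [hres, hes, hres]
      rfl
  have h2 : c g * g (∑ φ, C φ * φ a) = ∑ φ, C φ * φ a := by
    rw [map_sum, Finset.mul_sum, ← Equiv.sum_comp e (fun φ => C φ * φ a)]
    refine Finset.sum_congr rfl fun φ _ => ?_
    rw [hCe, he, map_mul, mul_assoc]
  rw [map_inv₀]
  have h3 : g (∑ φ, C φ * φ a) ≠ 0 := fun h => ha ((map_eq_zero g).1 h)
  have h4 : ∀ X S d : Qb, X ≠ 0 → d ≠ 0 → d * X = S → X⁻¹ = d * S⁻¹ := by
    intro X S d hX hd he
    rw [← he, mul_inv, mul_inv_cancel_left₀ hd]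
  exact h4 _ _ _ h3 (h0 g hg) h2

end KE16
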