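import Pool.Agent.LibKE16.FG06
import Pool.Agent.LibKE16.FG07
import Pool.Agent.LibKE16.H11

/-!
# [KE16 FG08] MEDIUM. Kummer theory over `F` (cites FG06, FG07, H_90, H_T1, H_T3, H_T4, H_z as stated).

Plan. On `GF` `h` is additive: `h (g g') = h g + h g'` (FG_triv). For `g ∈ GF` choose `a g, b g : ℤ` with `h g = a g PA + b g PB` (H_T3); they are
unique modulo 3 (H_T4). `c g := r0.z ^ (a g)`: `c (g g') = c g * c g'` (a (g g') ≡ a g + a g' mod 3, `r0.z ^ 3 = 1`, H_z), and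
`g (c g') = c g'` since `g` fixes `r0.z` (FF_z, GF_iff). Write `GF = FF.fixingSubgroup` (GF_iff,
`IntermediateField.mem_fixingSubgroup_iff`) and apply H_90 with `L0 = FF`, `L` from `hL` (`h g = 0` gives `3 ∣ a g`, `c g = 1`): `θ`. Same with
`b`: `θ'`. `θ^3 ∈ FF`: FF_fix, `g (θ^3) = c g ^ 3 θ^3 = θ^3`. For other `a b` with `h g = a PA + b PB`: `a ≡ a g mod 3`.
-/

open WeierstrassCurve

namespace KE16

private theorem FG08_zpow (a b : ℤ) (h : 3 ∣ a - b) : r0.z ^ a = r0.z ^ b := by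
  have hz := H_z r0
  have hz0 : r0.z ≠ 0 := hz.ne_zero (by norm_num)
  obtain ⟨c, hc⟩ := h
  have : a = b + 3 * c := by linarith
  rw [this, zpow_add₀ hz0, zpow_mul]
  have : r0.z ^ (3 : ℤ) = 1 := by
    have := hz.pow_eq_one
    exact_mod_cast this
  rw [this, one_zpow, mul_one]

private theorem FG08_uniq (a b a' b' : ℤ) (h : a • PA r0 + b • PB r0 = a' • PA r0 + b' • PB r0) :
    3 ∣ a - a' ∧ 3 ∣ b - b' := by
  apply H_T4 r0
  have : (a - a') • PA r0 + (b - b') • PB r0 = (a • PA r0 + b • PB r0) - (a' • PA r0 + b' • PB r0) := by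
    rw [sub_smul, sub_smul]; abel
  rw [this, h, sub_self]

private theorem FG08_comp (A : GQ → ℤ) (hA : ∀ g ∈ GF, ∀ g' ∈ GF, 3 ∣ A (g * g') - (A g + A g'))
    (hL : ∃ L : IntermediateField ℚ Qb, FiniteDimensional ℚ L ∧
      ∀ g ∈ GF, (∀ x ∈ L, g x = x) → 3 ∣ A g) :
    ∃ θ : Qb, θ ≠ 0 ∧ θ ^ 3 ∈ FF ∧ ∀ g ∈ GF, ∀ a : ℤ, 3 ∣ a - A g → g θ = r0.z ^ a * θ := by
  have hz := H_z r0
  have hz0 : r0.z ≠ 0 := hz.ne_zero (by norm_num)
  obtain ⟨L, hLf, hLc⟩ := hL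
  have hfix : ∀ g : GQ, g ∈ FF.fixingSubgroup ↔ g ∈ GF := by
    intro g
    rw [IntermediateField.mem_fixingSubgroup_iff, GF_iff]
  have hgz : ∀ g ∈ GF, g r0.z = r0.z := fun g hg => (GF_iff g).1 hg _ FF_z
  obtain ⟨θ, h0, hθ⟩ := H_90 FF (fun g => r0.z ^ A g) (by
      intro g hg g' hg'
      have hg1 := (hfix g).1 hg
      have hg1' := (hfix g').1 hg'
      change r0.z ^ A (g * g') = r0.z ^ A g * g (r0.z ^ A g')
      rw [map_zpow₀, hgz g hg1, ← zpow_add₀ hz0]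
      exact FG08_zpow _ _ (hA g hg1 g' hg1'))
    (fun g _ => zpow_ne_zero _ hz0) L hLf (by
      intro g hg hgL
      have h1 := hLc g ((hfix g).1 hg) hgL
      change r0.z ^ A g = 1
      rw [FG08_zpow (A g) 0 (by rw [sub_zero]; exact h1), zpow_zero])
  have hθ' : ∀ g ∈ GF, ∀ a : ℤ, 3 ∣ a - A g → g θ = r0.z ^ a * θ := by
    intro g hg a ha
    rw [hθ g ((hfix g).2 hg), FG08_zpow a (A g) ha]
  refine ⟨θ, h0, ?_, hθ'⟩
  apply FF_fix
  intro g hg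
  have h1 := hθ' g hg (A g) (by rw [sub_self]; exact dvd_zero 3)
  rw [map_pow, h1, mul_pow]
  have h2 : (r0.z ^ A g) ^ 3 = 1 := by
    rw [← zpow_natCast, ← zpow_mul, mul_comm, zpow_mul]
    have h3 : r0.z ^ ((3 : ℕ) : ℤ) = 1 := by
      have := hz.pow_eq_one
      exact_mod_cast this
    rw [h3, one_zpow]
  rw [h2, one_mul]

theorem FG_kum (h : GQ → Pt E0)
    (hc : ∀ g ∈ GF, ∀ g' ∈ GF, h (g * g') = h g + gal E0 g (h g'))
    (h3 : ∀ g ∈ GF, 3 • h g = 0)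
    (hL : ∃ L : IntermediateField ℚ Qb, FiniteDimensional ℚ L ∧
      ∀ g ∈ GF, (∀ x ∈ L, g x = x) → h g = 0) : ∃ θ θ' : Qb, Kum h θ θ' := by
  choose! A B hAB using fun (g : GQ) (hg : g ∈ GF) => H_T3 r0 (h g) (h3 g hg)
  have hadd : ∀ g ∈ GF, ∀ g' ∈ GF, 3 ∣ A (g * g') - (A g + A g') ∧ 3 ∣ B (g * g') - (B g + B g') := by
    intro g hg g' hg'
    apply FG08_uniq
    obtain ⟨hu, hv, -⟩ := (mem_GF g).1 hg
    rw [← hAB (g * g') (GF.mul_mem hg hg'), hc g hg g' hg', FG_triv g hu hv _ (h3 g' hg')]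
    nth_rewrite 1 [hAB g hg]
    nth_rewrite 1 [hAB g' hg']
    rw [add_smul, add_smul]
    abel
  have hzero : ∀ g ∈ GF, h g = 0 → 3 ∣ A g ∧ 3 ∣ B g := by
    intro g hg h0
    apply H_T4 r0
    rw [← hAB g hg, h0]
  obtain ⟨L, hLf, hLc⟩ := hL
  obtain ⟨θ, h0, hF, hθ⟩ := FG08_comp A (fun g hg g' hg' => (hadd g hg g' hg').1)
    ⟨L, hLf, fun g hg hgL => (hzero g hg (hLc g hg hgL)).1⟩
  obtain ⟨θ', h0', hF', hθ'⟩ := FG08_comp B (fun g hg g' hg' => (hadd g hg g' hg').2)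
    ⟨L, hLf, fun g hg hgL => (hzero g hg (hLc g hg hgL)).2⟩
  refine ⟨θ, θ', h0, h0', hF, hF', fun g hg a b hab => ?_⟩
  have h1 := FG08_uniq a b (A g) (B g) (by rw [← hab, ← hAB g hg])
  exact ⟨hθ g hg a h1.1, hθ' g hg b h1.2⟩

end KE16
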