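import Pool.Agent.LibKE16.Base
import Pool.Agent.LibKuQ.C5

/-! The local fact `L_eps` (helper21), from the rows of LibKuQ. -/

open WeierstrassCurve

namespace KE16

/-- `ε₀ᵏ` is a cube in `ℚ_3(u,v)`, `|s - 1| < 1`, only if `3 ∣ k` -/
theorem L_eps (r : Fr (Cq 3)) (hr : nm 3 (r.s - 1) < 1) (k : ℤ) (x : Cq 3)
    (hx : x ^ 3 = (5 + 2 * r.u + 2 * r.u ^ 2) ^ k)
    (hf : ∀ τ : GLq 3, τ r.u = r.u → τ r.v = r.v → τ x = x) : 3 ∣ k := by
  have hLF : KuQ.LF (r.u : PadicAlgCl 3) (r.v : PadicAlgCl 3) := by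
    have h1 := r.hs
    have h2 := r.hu
    have h3 := r.hv
    refine ⟨?_, ?_, ?_⟩
    · change r.u ^ 4 + 4 * r.u ^ 2 + 6 = 0
      linear_combination (r.u ^ 2 + 2 - r.s) * h2 + h1
    · change r.v ^ 2 = - 4 - r.u ^ 2
      rw [h2, h3]; ring
    · have e : (3 + r.u ^ 2 : Cq 3) = -(r.s - 1) := by rw [h2]; ring
      change ‖((3 + r.u ^ 2 : Cq 3) : PadicAlgCl 3)‖ < 1
      rw [e]
      rw [norm_neg]
      exact hr
  have hmem : ∀ y : Cq 3, (∀ τ : GLq 3, τ r.u = r.u → τ r.v = r.v → τ y = y) →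
      y ∈ IntermediateField.adjoin ℚ_[3] {r.u, r.v} := by
    intro y hy
    have : y ∈ IntermediateField.fixedField
        (IntermediateField.adjoin ℚ_[3] {r.u, r.v}).fixingSubgroup := by
      rw [IntermediateField.mem_fixedField_iff]
      intro τ hτ
      have hτ' := (IntermediateField.mem_fixingSubgroup_iff _ τ).mp hτ
      exact hy τ (hτ' _ (IntermediateField.subset_adjoin _ _ (by simp)))
        (hτ' _ (IntermediateField.subset_adjoin _ _ (by simp)))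
    rwa [InfiniteGalois.fixedField_fixingSubgroup] at this
  by_contra hk
  have hx' : x ∈ IntermediateField.adjoin ℚ_[3] {r.u, r.v} := hmem x hf
  obtain ⟨n, rfl | rfl⟩ := k.eq_nat_or_neg
  · refine hLF.e0_pow_ne_cube x hx' n (fun h => hk (by exact_mod_cast h)) ?_
    rw [zpow_natCast] at hx
    exact hx
  · have hx2 : (x⁻¹) ∈ IntermediateField.adjoin ℚ_[3] {r.u, r.v} :=
      inv_mem hx'
    refine hLF.e0_pow_ne_cube (x⁻¹) hx2 n (fun h => hk ?_) ?_
    · rw [dvd_neg]; exact_mod_cast h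
    · change x⁻¹ ^ 3 = (5 + 2 * r.u + 2 * r.u ^ 2) ^ n
      rw [inv_pow, hx, zpow_neg, inv_inv, zpow_natCast]

end KE16
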