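import Pool.Agent.LibKE16.Base
import Pool.Agent.LibKE16.LEps
import Pool.Agent.LibKL60.R8
import Pool.Agent.LibKL60.V4
import Pool.Agent.LibKL60.Q1
import Pool.Agent.LibKL60.U1
import Pool.Agent.LibKL60.P4
import Pool.Agent.LibKL60.P6
import Pool.Agent.LibKL60.P7
import Pool.Agent.LibKL60.T2
import Pool.Agent.LibKL60.T3
import Pool.Agent.LibKL60.T4
import Pool.Agent.LibKL60.T8
import Pool.Agent.LibKL60.T9
import Pool.Agent.LibKL60.T10
import Pool.Agent.LibKL60.T11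
import Pool.Agent.LibKL60.G1

/-! The local block (helper60). -/

open WeierstrassCurve

namespace KE16

theorem L_nm {q : ℕ} [Fact q.Prime] (τ : GLq q) (x : Cq q) : nm q (τ x) = nm q x :=
  KL60.norm_aut τ x

/-- commutators are inertia elements (the residue field is algebraic over `𝔽_q`) -/
theorem L_comm {q : ℕ} [Fact q.Prime] (φ σ : GLq q) : IsIner (φ * σ * φ⁻¹ * σ⁻¹) :=
  fun x hx ↦ KL60.comm_iner φ σ x hx

/-- inertia elements fix the roots of unity of order prime to `q` -/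
theorem L_root {q : ℕ} [Fact q.Prime] (τ : GLq q) (hτ : IsIner τ) (n : ℕ) (hn : ¬ q ∣ n) (ζ : Cq q)
    (hζ : ζ ^ n = 1) : τ ζ = ζ := by
  have hn0 : n ≠ 0 := by
    rintro rfl
    exact hn (dvd_zero q)
  have hz0 : ζ ≠ 0 := by
    rintro rfl
    rw [zero_pow hn0] at hζ
    exact zero_ne_one hζ
  have hnorm : ‖(ζ : PadicAlgCl q)‖ = 1 := by
    have h1 : ‖(ζ : PadicAlgCl q)‖ ^ n = 1 := by rw [← norm_pow, hζ, norm_one]
    exact (pow_eq_one_iff_of_nonneg (norm_nonneg _) hn0).mp h1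
  have key : ((τ ζ / ζ : Cq q) : PadicAlgCl q) = 1 := by
    apply KL60.root_one (L := PadicAlgCl q) n (KL60.norm_nat_eq n hn)
    · rw [div_pow, ← map_pow, hζ, map_one, div_one]
    · have h2 : (τ ζ / ζ - 1 : PadicAlgCl q) = (τ ζ - ζ) / ζ := by
        field_simp
      rw [h2, norm_div, hnorm, div_one]
      exact hτ ζ hnorm.le
  exact (div_eq_one_iff_eq hz0).mp key

theorem Fr.quart_u {F : Type} [Field F] (r : Fr F) : r.u ^ 4 + 4 * r.u ^ 2 + 6 = 0 := by
  have hs := r.hs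
  have hu := r.hu
  linear_combination (r.u ^ 2 + 2 - r.s) * hu + hs

theorem Fr.quart_v {F : Type} [Field F] (r : Fr F) : r.v ^ 4 + 4 * r.v ^ 2 + 6 = 0 := by
  have hs := r.hs
  have hv := r.hv
  linear_combination (r.v ^ 2 + 2 + r.s) * hv + hs

theorem map_quart {F F' : Type} [Field F] [Field F'] (φ : F →+* F') {a : F}
    (ha : a ^ 4 + 4 * a ^ 2 + 6 = 0) : (φ a) ^ 4 + 4 * (φ a) ^ 2 + 6 = 0 := by
  have h4 : φ 4 = 4 := _root_.map_ofNat φ 4
  have h6 : φ 6 = 6 := _root_.map_ofNat φ 6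
  rw [← _root_.map_pow, ← _root_.map_pow, ← h4, ← h6, ← _root_.map_mul, ← _root_.map_add, ← _root_.map_add, ha,
    _root_.map_zero]

theorem map_eqn {F F' : Type} [Field F] [Field F'] (φ : F →+* F') {x y : F}
    (h : Eqn x y) : Eqn (φ x) (φ y) := by
  have h3 : φ 3 = 3 := _root_.map_ofNat φ 3
  unfold Eqn at h ⊢
  rw [← _root_.map_pow, h, _root_.map_sub, _root_.map_sub, _root_.map_sub, _root_.map_mul, _root_.map_pow, _root_.map_pow,
    h3, _root_.map_one]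

theorem unit2 {q : ℕ} [Fact q.Prime] (h2 : q ≠ 2) : ‖(2 : PadicAlgCl q)‖ = 1 := by
  have := KL60.norm_nat_eq (q := q) 2 (by
    intro h
    exact h2 ((Nat.prime_dvd_prime_iff_eq Fact.out Nat.prime_two).mp h))
  simpa using this

theorem unit3 {q : ℕ} [Fact q.Prime] (h3 : q ≠ 3) : ‖(3 : PadicAlgCl q)‖ = 1 := by
  have := KL60.norm_nat_eq (q := q) 3 (by
    intro h
    exact h3 ((Nat.prime_dvd_prime_iff_eq Fact.out Nat.prime_three).mp h))
  simpa using this

theorem quart_fix {q : ℕ} [Fact q.Prime] (h2 : q ≠ 2) (h3 : q ≠ 3) (τ : GLq q) (hτ : IsIner τ)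
    (a : Cq q) (ha : a ^ 4 + 4 * a ^ 2 + 6 = 0) : τ a = a := by
  by_contra hne
  have hb : (τ a) ^ 4 + 4 * (τ a) ^ 2 + 6 = 0 := map_quart (τ : Cq q →+* Cq q) ha
  have h1 := KL60.quart_unit (L := PadicAlgCl q) (unit2 h2) (unit3 h3) (τ a) a hb ha
  have h4 := KL60.quart_unit (L := PadicAlgCl q) (unit2 h2) (unit3 h3) a a ha ha
  have := hτ a h4.1.le
  rw [h1.2 hne] at this
  exact lt_irrefl _ this

/-- `E[3]` is unramified outside `6` -/
theorem L_frame {q : ℕ} [Fact q.Prime] (h2 : q ≠ 2) (h3 : q ≠ 3) (τ : GLq q) (hτ : IsIner τ)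
    (r : Fr (Cq q)) : τ r.u = r.u ∧ τ r.v = r.v :=
  ⟨quart_fix h2 h3 τ hτ r.u r.quart_u, quart_fix h2 h3 τ hτ r.v r.quart_v⟩

theorem isE0 {F : Type} [Field F] [Algebra ℚ F] : KL60.IsE (E0⁄F).toAffine where
  a1 := by change algebraMap ℚ F 0 = 0; exact _root_.map_zero _
  a2 := by change algebraMap ℚ F (-1) = -1; rw [_root_.map_neg, _root_.map_one]
  a3 := by change algebraMap ℚ F 0 = 0; exact _root_.map_zero _
  a4 := by change algebraMap ℚ F (-3) = -3; rw [_root_.map_neg, _root_.map_ofNat]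
  a6 := by change algebraMap ℚ F (-1) = -1; rw [_root_.map_neg, _root_.map_one]

/-- the local Galois action on points -/
noncomputable abbrev mapL {q : ℕ} [Fact q.Prime] (τ : GLq q) :
    (E0⁄(Cq q)).toAffine.Point →+ (E0⁄(Cq q)).toAffine.Point :=
  Affine.Point.map (W' := E0) (S := ℚ) ((τ : Cq q →ₐ[ℚ_[q]] Cq q).restrictScalars ℚ)

/-- an inertia element changes a point by an element of the kernel of reduction -/
theorem move_e1 {q : ℕ} [Fact q.Prime] (h2 : q ≠ 2) (τ : GLq q) (hτ : IsIner τ)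
    (Q : (E0⁄(Cq q)).toAffine.Point) :
    ¬ KL60.IntP (L := PadicAlgCl q) (mapL τ Q - Q) := by
  by_cases hQ : KL60.IntP (L := PadicAlgCl q) Q
  · cases Q with
    | zero => exact absurd hQ KL60.intP_zero
    | some x y h =>
      have hx : ‖(x : PadicAlgCl q)‖ ≤ 1 := hQ
      have hE := KL60.eqE isE0 h
      have hy : ‖(y : PadicAlgCl q)‖ ≤ 1 := KL60.coord_int (L := PadicAlgCl q) x y hE hx
      have h' : (E0⁄(Cq q)).toAffine.Nonsingular (τ x) (τ y) := by
        rw [nonsing_iff]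
        exact map_eqn (τ : Cq q →+* Cq q) hE
      exact KL60.red_eq (L := PadicAlgCl q) isE0 (unit2 h2) h h' hx (hτ x hx) (hτ y hy)
  · refine KL60.e1_sub (L := PadicAlgCl q) isE0 _ _ ?_ hQ
    intro h
    apply hQ
    cases Q with
    | zero => exact h
    | some x y hxy =>
      have h1 : ‖((τ x : Cq q) : PadicAlgCl q)‖ ≤ 1 := h
      rw [KL60.norm_aut] at h1
      exact h1

theorem two_ne {q : ℕ} [Fact q.Prime] : (2 : Cq q) ≠ 0 := by
  have : CharZero (Cq q) := inferInstanceAs (CharZero (PadicAlgCl q))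
  norm_num

/-- good reduction outside `2`, `3`: a Selmer cocycle vanishes on inertia -/
theorem L_red {q : ℕ} [Fact q.Prime] (h2 : q ≠ 2) (h3 : q ≠ 3) (f : SelZ E0 3 193)
    (ι : Qb →ₐ[ℚ] Cq q) (τ : GLq q) (hτ : IsIner τ) (g : NN) (hg : Restr ι τ g) : f.1.1 g = 0 := by
  obtain ⟨Q, hQ⟩ := f.2 q ι
  have h := hQ τ g hg
  obtain ⟨k, hk⟩ := f.1.2.2.1 g
  apply Affine.Point.map_injective (W' := E0) ι
  rw [h, map_zero]
  refine KL60.e1_tor (L := PadicAlgCl q) isE0 two_ne (unit3 h3) _ (move_e1 h2 τ hτ Q) k ?_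
  have h5 : 3 ^ k • Affine.Point.map (W' := E0) (S := ℚ) ι (f.1.1 g) = 0 := by
    rw [← map_nsmul, hk, map_zero]
  rw [h] at h5
  exact h5

theorem map_restr {q : ℕ} [Fact q.Prime] (ι : Qb →ₐ[ℚ] Cq q) (τ : GLq q) (g : GQ)
    (hg : Restr ι τ g) (P : Pt E0) :
    Affine.Point.map (W' := E0) (S := ℚ) ι (gal E0 g P) =
      mapL τ (Affine.Point.map (W' := E0) (S := ℚ) ι P) := by
  cases P with
  | zero => rfl
  | some x y h =>
    have hx : ι (g x) = τ (ι x) := hg x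
    have hy : ι (g y) = τ (ι y) := hg y
    unfold gal mapL
    simp only [Affine.Point.map_some]
    congr 1

/-- good reduction outside `2`, `3`: inertia acts trivially on `E[3^∞]` -/
theorem L_tor {q : ℕ} [Fact q.Prime] (h2 : q ≠ 2) (h3 : q ≠ 3) (ι : Qb →ₐ[ℚ] Cq q) (τ : GLq q)
    (hτ : IsIner τ) (g : GQ) (hg : Restr ι τ g) (P : Pt E0) (hP : Tor P) : gal E0 g P = P := by
  obtain ⟨k, hk⟩ := hP
  rw [← sub_eq_zero]
  apply Affine.Point.map_injective (W' := E0) ι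
  rw [map_sub, map_restr ι τ g hg, map_zero]
  refine KL60.e1_tor (L := PadicAlgCl q) isE0 two_ne (unit3 h3) _ (move_e1 h2 τ hτ _) k ?_
  have h5 : 3 ^ k • (mapL τ (Affine.Point.map (W' := E0) (S := ℚ) ι P) -
      Affine.Point.map (W' := E0) (S := ℚ) ι P) = 0 := by
    rw [nsmul_sub, ← map_nsmul, ← map_nsmul, hk, map_zero, map_zero, sub_zero]
  exact h5

/-- the place `3`: on inertia, a Selmer cocycle with values in `E[3]` has values in the kernel of
reduction, which is generated by `P_π̄` when `|s - 1| < 1` -/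
theorem L_red3 (f : SelZ E0 3 193) (ι : Qb →ₐ[ℚ] Cq 3) (hι : nm 3 (ι (r0.s) - 1) < 1) (τ : GLq 3)
    (hτ : IsIner τ) (g : NN) (hg : Restr ι τ g) (h3 : 3 • f.1.1 g = 0) :
    f.1.1 g = 0 ∨ f.1.1 g = PB r0 ∨ f.1.1 g = -PB r0 := by
  obtain ⟨Q, hQ⟩ := f.2 3 ι
  have h := hQ τ g hg
  have hE1 := move_e1 (q := 3) (by norm_num) τ hτ Q
  change ¬ KL60.IntP (L := PadicAlgCl 3) (mapL τ Q - Q) at hE1
  rw [show mapL τ Q - Q = Affine.Point.map (W' := E0) (S := ℚ) ι (f.1.1 g) from h.symm] at hE1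
  generalize f.1.1 g = P at h3 hE1
  cases P with
  | zero => left; rfl
  | some x y hxy =>
    right
    have hx1 : 1 < ‖((ι x : Cq 3) : PadicAlgCl 3)‖ := by
      by_contra hle
      exact hE1 (not_lt.mp hle)
    have hns : (E0⁄(Cq 3)).toAffine.Nonsingular (ι x) (ι y) := by
      rw [nonsing_iff]
      exact map_eqn (ι : Qb →+* Cq 3) (KL60.eqE isE0 hxy)
    have h33 : 3 • (.some (ι x) (ι y) hns : (E0⁄(Cq 3)).toAffine.Point) = 0 := by
      have := congrArg (Affine.Point.map (W' := E0) (S := ℚ) ι) h3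
      rw [map_nsmul, map_zero] at this
      exact this
    have hcz : CharZero (Cq 3) := inferInstanceAs (CharZero (PadicAlgCl 3))
    have hx : ι x = -1 / (1 - ι r0.s) := by
      refine KL60.e1_three (L := PadicAlgCl 3) isE0 (unit2 (by norm_num)) (ι r0.s) ?_ hι hns hx1 h33
      rw [← map_pow, r0.hs, map_neg, map_ofNat]
    have hx' : x = -1 / (1 - r0.s) := by
      apply ι.injective
      change ι x = ι (-1 / (1 - r0.s))
      rw [hx, map_div₀, map_neg, map_one, map_sub, map_one]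
    have hxe : (.some x y hxy : Pt E0) = PB r0 ∨ (.some x y hxy : Pt E0) = -PB r0 := by
      apply (Affine.Point.X_eq_iff (W := (E0⁄Qb).toAffine)).mp
      exact hx'
    exact hxe

/-- the unit lemma -/
theorem L_unit {q : ℕ} [Fact q.Prime] (h3 : q ≠ 3) (τ : GLq q)
    (hτ : ∀ (k : ℕ) (ζ : Cq q), ζ ^ 3 ^ k = 1 → τ ζ = ζ) (w : Cq q) (hw : nm q w = 1)
    (h : τ (w ^ 3) = w ^ 3) : τ w = w :=
  KL60.unit_fix h3 τ hτ w hw h

/-- an inertia element which moves the cube roots of `q` -/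
theorem L_tame {q : ℕ} [Fact q.Prime] (h3 : q ≠ 3) :
    ∃ τ : GLq q, IsIner τ ∧ ∀ c : Cq q, c ^ 3 = (q : Cq q) → τ c ≠ c := by
  obtain ⟨c0, hc0⟩ := IsAlgClosed.exists_pow_nat_eq ((q : Cq q)) (n := 3) (by norm_num)
  obtain ⟨τ, hτ, hm⟩ := KL60.tame_move (q := q) c0 hc0
  refine ⟨τ, hτ, ?_⟩
  intro c hc hfix
  apply hm
  have hq0 : (q : Cq q) ≠ 0 := by
    have : CharZero (Cq q) := inferInstanceAs (CharZero (PadicAlgCl q))
    exact_mod_cast (Fact.out : q.Prime).ne_zero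
  have hc0' : c ≠ 0 := by
    rintro rfl
    rw [zero_pow (by norm_num)] at hc
    exact hq0 hc.symm
  have hr : (c0 / c) ^ 3 = 1 := by rw [div_pow, hc0, hc, div_self hq0]
  have h4 := L_root τ hτ 3 (by
    intro h
    exact h3 ((Nat.prime_dvd_prime_iff_eq Fact.out Nat.prime_three).mp h)) (c0 / c) hr
  rw [map_div₀, hfix] at h4
  exact (div_left_inj' hc0').mp h4

/-- an element of the decomposition group of `193` which moves the primitive 9-th roots of unity -/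
theorem L_frob : ∃ φ : GLq 193, ∀ ζ : Cq 193, IsPrimitiveRoot ζ 9 → φ ζ ≠ ζ :=
  KL60.nine_move

/-- `193` splits completely in `ℚ(E[3])` -/
theorem L_split (τ : GLq 193) (r : Fr (Cq 193)) : τ r.u = r.u ∧ τ r.v = r.v :=
  ⟨KL60.split193 τ r.u r.quart_u, KL60.split193 τ r.v r.quart_v⟩

/-- the place `π̄` above `3`: `s ∈ ℚ_3`, and some element changes the sign of `v` -/
theorem L_three (r : Fr (Cq 3)) (hr : nm 3 (r.s - 1) < 1) :
    ∃ φ : GLq 3, φ r.s = r.s ∧ φ r.v = -r.v :=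
  KL60.v_move r.s r.v r.hs r.hv hr

/-- cube roots near `1` at the place `3` -/
theorem L_cube3 (y : Cq 3) (hy : nm 3 y ≤ 1 / 9) :
    ∃ w : Cq 3, w ^ 3 = 1 + y ∧ ∀ τ : GLq 3, τ y = y → τ w = w :=
  KL60.cube3 y hy

/-- `1 - ζ_193` is a uniformiser of `ℚ_193(ζ_193)` -/
theorem L_lam (ζ : Cq 193) (hζ : IsPrimitiveRoot ζ 193) : nm 193 (1 - ζ) ^ 192 = 1 / 193 := by
  have := KL60.lam_norm (l := 193) ζ hζ
  norm_num at this ⊢
  exact this

/-- at `2` and `3`, `u` and `-u` are conjugate over `ℚ_q(s)` -/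
theorem L_conj {q : ℕ} [Fact q.Prime] (hq : q = 2 ∨ q = 3) (r : Fr (Cq q)) :
    ∃ τ : GLq q, τ r.s = r.s ∧ τ r.u = -r.u := by
  rcases hq with rfl | rfl
  · exact KL60.u_move2 r.s r.u r.hs r.hu
  · exact KL60.u_move3 r.s r.u r.hs r.hu

/-- the value group of `ℚ(u)` at `q ∤ 6` -/
theorem L_val {q : ℕ} [Fact q.Prime] (h2 : q ≠ 2) (h3 : q ≠ 3) (ι : Qb →ₐ[ℚ] Cq q) (z : Qb)
    (hz : z ∈ IntermediateField.adjoin ℚ {r0.u}) (h0 : z ≠ 0) :
    ∃ a : ℤ, nm q (ι z) = (q : ℝ) ^ a := by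
  have hq : (ι r0.u) ^ 4 + 4 * (ι r0.u) ^ 2 + 6 = 0 := map_quart (ι : Qb →+* Cq q) r0.quart_u
  refine KL60.val_unr (q := q) (ι r0.u) ?_ ?_ (ι z) ?_ ?_
  · exact (KL60.quart_unit (L := PadicAlgCl q) (unit2 h2) (unit3 h3) _ _ hq hq).1.le
  · intro τ hne
    have hb : (τ (ι r0.u)) ^ 4 + 4 * (τ (ι r0.u)) ^ 2 + 6 = 0 := map_quart (τ : Cq q →+* Cq q) hq
    exact (KL60.quart_unit (L := PadicAlgCl q) (unit2 h2) (unit3 h3) _ _ hb hq).2 hne
  · have hle : IntermediateField.adjoin ℚ {r0.u} ≤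
        ((IntermediateField.adjoin ℚ_[q] {ι r0.u}).restrictScalars ℚ).comap ι := by
      rw [IntermediateField.adjoin_le_iff]
      intro y hy
      rw [Set.mem_singleton_iff] at hy
      subst hy
      exact IntermediateField.subset_adjoin ℚ_[q] {ι r0.u} (Set.mem_singleton _)
    exact hle hz
  · intro h
    apply h0
    apply ι.injective
    rw [map_zero]
    exact h

end KE16
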