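import Pool.Agent.LibKE16.FDefs
import Pool.Agent.LibKE16.IfaceL

/-!
# [KE16 FG09] Inertia.
-/

open WeierstrassCurve

namespace KE16

theorem FG_good {q : ℕ} [Fact q.Prime] (h2 : q ≠ 2) (h3 : q ≠ 3) (h193 : q ≠ 193) (f : SelZ E0 3 193)
    (h : GQ → Pt E0) (hh : IsHat f.1.1 GP h) (θ : Qb) (hθ : ∀ g ∈ GF, h g = 0 → g θ = θ)
    (ι : Qb →ₐ[ℚ] Cq q) (τ : GLq q) (hτ : IsIner τ) : τ (ι θ) = ι θ := by
  obtain ⟨g, hg⟩ := L_restr ι τ
  have hq : q.Prime := Fact.out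
  have hNN : g ∈ NN := by
    intro n ζ hζ
    apply ι.injective
    change ι (g ζ) = ι ζ
    rw [hg ζ]
    refine L_root τ hτ (193 * 3 ^ n) ?_ (ι ζ) (by rw [← map_pow, hζ, map_one])
    intro hd
    rcases (Nat.Prime.dvd_mul hq).mp hd with hd | hd
    · exact h193 ((Nat.prime_dvd_prime_iff_eq hq (by norm_num)).mp hd)
    · exact h3 ((Nat.prime_dvd_prime_iff_eq hq Nat.prime_three).mp (hq.dvd_of_dvd_pow hd))
  have h0 : h g = 0 := by
    have h1 := hh.2.2.2.1 ⟨g, hNN⟩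
    change h g = f.1.1 ⟨g, hNN⟩ at h1
    rw [h1]
    exact L_red h2 h3 f ι τ hτ ⟨g, hNN⟩ hg
  have hfr := L_frame h2 h3 τ hτ (r0.map (ι : Qb →+* Cq q))
  have hgu : g r0.u = r0.u := by
    apply ι.injective
    change ι (g r0.u) = ι r0.u
    rw [hg]
    exact hfr.1
  have hgv : g r0.v = r0.v := by
    apply ι.injective
    change ι (g r0.v) = ι r0.v
    rw [hg]
    exact hfr.2
  have hgz : g z193 = z193 := by
    refine hNN 0 z193 ?_
    rw [pow_zero, mul_one]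
    exact z193_spec.pow_eq_one
  have hGF : g ∈ GF := ⟨hgu, hgv, hgz⟩
  rw [← hg θ, hθ g hGF h0]

end KE16
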