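import Pool.Agent.LibKE16.Base

/-!
# [KE16 FG10] MEDIUM. A nonzero algebraic number is a unit at almost all places.

Plan. `nm q x = ‖(x : PadicAlgCl q)‖`. Lemma: if `x : Qb` is integral over `ℤ` then `nm q (ι x) ≤ 1` for all `q`, `ι`
(`ι x` is integral over `ℤ`, see `KuQ.norm_le_one_of_isIntegral` in Pool/Agent/LibKuQ/B2.lean or A6.lean, or
`spectralNorm`; direct: if `‖y‖ > 1` the leading term dominates in `y^n + … + c_0 = 0`, `‖c_i‖ ≤ 1`). For `β ≠ 0` algebraic over `ℚ` there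
is an integer `d ≠ 0` with `d β` and `d β⁻¹` integral over `ℤ` (`exists_integral_multiple`, `IsIntegral.exists_multiple_integral_of_isLocalization`;
take the product of the two denominators). For `q ∤ d`: `nm q d = 1` (`KL60.norm_nat_eq`-like: norm of an integer prime to `q` in `PadicAlgCl q`
is 1: `PadicAlgCl.norm_extends`, `Padic.norm_intCast_eq_one_iff`/`padicNormE.norm_int_lt_one_iff_dvd`), so `nm(β) ≤ 1` and
`nm(β⁻¹) ≤ 1`. `S := d.natAbs.primeFactors` (or `Finset.range (|d| + 1)`). The type `Cq q` is `AlgebraicClosure ℚ_[q]`, `PadicAlgCl q` is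
the same type with a norm; unfold `nm` and use `show`/`change` or `(x : PadicAlgCl q)`.
(CAUTION: `Algebra ℚ Qb` from `DivisionRing.toRatAlgebra` and from `AlgebraicClosure`: `Subsingleton.elim`; `IsAlgebraic ℚ x`
can be transported by `∀ i : Algebra ℚ Qb, ...`. `import Pool.Agent.LibKE16.CBase` gives `Algebra.IsAlgebraic ℚ Qb`.)
-/

open WeierstrassCurve

namespace KE16

private theorem FG10_norm {q : ℕ} [Fact q.Prime] (x : PadicAlgCl q)
    (hx : IsIntegral ℤ x) : ‖x‖ ≤ 1 := by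
  have hx' : IsIntegral (Valued.v : Valuation (PadicAlgCl q) NNReal).integer x := hx.tower_top
  have h : x ∈ (Valued.v : Valuation (PadicAlgCl q) NNReal).integer :=
    (Valuation.integer.integers _).mem_of_integral hx'
  have h2 : Valued.v x ≤ (1 : NNReal) := h
  rw [← PadicAlgCl.valuation_coe]
  exact_mod_cast h2

private theorem FG10_int {q : ℕ} [Fact q.Prime] (d : ℤ) (h : ¬ q ∣ d.natAbs) :
    ‖(d : PadicAlgCl q)‖ = 1 := by
  have e : ((d : ℚ_[q]) : PadicAlgCl q) = (d : PadicAlgCl q) :=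
    map_intCast (algebraMap ℚ_[q] (PadicAlgCl q)) d
  rw [← e, PadicAlgCl.norm_extends, Padic.norm_intCast_eq_one_iff]
  have hq : q.Prime := Fact.out
  rw [Int.isCoprime_iff_gcd_eq_one, Int.gcd_comm, ← Int.isCoprime_iff_gcd_eq_one]
  refine (Prime.coprime_iff_not_dvd (Nat.prime_iff_prime_int.1 hq)).2 ?_
  rw [Int.natCast_dvd]
  exact h

private theorem FG10_alg (β : Qb) : ∃ y : ℤ, y ≠ 0 ∧ IsIntegral ℤ ((y : Qb) * β) := by
  have h1 : IsAlgebraic ℚ β := (AlgebraicClosure.isAlgebraic ℚ).isAlgebraic β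
  have h2 : IsAlgebraic ℤ β := (IsFractionRing.isAlgebraic_iff ℤ ℚ Qb).2 h1
  obtain ⟨y, hy, hi⟩ := h2.exists_integral_multiple
  refine ⟨y, hy, ?_⟩
  rwa [zsmul_eq_mul] at hi

theorem FG_int {q : ℕ} [Fact q.Prime] (ι : Qb →ₐ[ℚ] Cq q) (x : Qb) (hx : IsIntegral ℤ x) :
    nm q (ι x) ≤ 1 := by
  have h1 : IsIntegral ℤ ((ι : Qb →+* Cq q) x) := map_isIntegral_int (ι : Qb →+* Cq q) hx
  exact FG10_norm (q := q) (ι x) h1

theorem FG_unit (β : Qb) (hβ : β ≠ 0) : ∃ S : Finset ℕ, ∀ (q : ℕ) [Fact q.Prime], q ∉ S →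
    ∀ ι : Qb →ₐ[ℚ] Cq q, nm q (ι β) = 1 := by
  obtain ⟨y1, hy1, hi1⟩ := FG10_alg β
  obtain ⟨y2, hy2, hi2⟩ := FG10_alg β⁻¹
  refine ⟨(y1 * y2).natAbs.primeFactors, fun q _ hq ι => ?_⟩
  have hqp : q.Prime := Fact.out
  have hnd : ¬ q ∣ (y1 * y2).natAbs := by
    intro h
    exact hq (Nat.mem_primeFactors.2 ⟨hqp, h, Int.natAbs_ne_zero.2 (mul_ne_zero hy1 hy2)⟩)
  rw [Int.natAbs_mul] at hnd
  have hn1 := FG10_int (q := q) y1 (fun h => hnd (Dvd.dvd.mul_right h _))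
  have hn2 := FG10_int (q := q) y2 (fun h => hnd (Dvd.dvd.mul_left h _))
  obtain ⟨φ, hφ⟩ : ∃ φ : Qb →+* PadicAlgCl q, ∀ x, nm q (ι x) = ‖φ x‖ :=
    ⟨(ι : Qb →+* Cq q), fun x => rfl⟩
  have h1 : ‖φ β‖ ≤ 1 := by
    have h3 := FG_int ι _ hi1
    rw [hφ, map_mul, map_intCast, norm_mul, hn1, one_mul] at h3
    exact h3
  have h2 : ‖φ β‖⁻¹ ≤ 1 := by
    have h3 := FG_int ι _ hi2
    rw [hφ, map_mul, map_intCast, norm_mul, hn2, one_mul, map_inv₀, norm_inv] at h3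
    exact h3
  have h0 : 0 < ‖φ β‖ := by
    rw [norm_pos_iff]
    exact (map_ne_zero φ).2 hβ
  rw [hφ]
  apply le_antisymm h1
  exact (inv_le_one₀ h0).1 h2

end KE16
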