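import Pool.Agent.LibKE16.FG06
import Pool.Agent.LibKE16.FG10
import Pool.Agent.LibKE16.IfaceL
import Pool.Agent.LibKL60.V2

/-!
# [KE16 FG11] MEDIUM. Almost all primes are unramified in `F` (cites FG06, FG10, L_restr, L_val_unr as stated).

Plan. `FF` is finite over `ℚ` (FF_fin), so `FF = ℚ(α)` (`Field.exists_primitive_element` for `FF`, or
`IntermediateField.exists_primitive_element..`): there is `α : Qb` with `FF = IntermediateField.adjoin ℚ {α}`. `D := {g α - α | g : GQ, g α ≠ α}`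
is a finite set of nonzero elements (`g α` is a root of `minpoly ℚ α`, finitely many). Take `S` = the union of the sets of FG_unit for
`α` (if `α ≠ 0`) and for all `d ∈ D` (choose; a finite union of Finsets, or induction over the finite set). For `q ∉ S`: `a := ι α` has
`‖a‖ ≤ 1`; for `τ : GLq q` with `τ a ≠ a` take `g` with `Restr ι τ g` (L_restr): `τ a - a = ι (g α - α)`, `g α ≠ α`, norm 1. So L_val_unr
applies to all `x ∈ adjoin ℚ_[q] {a}`; and `ι z ∈ adjoin ℚ_[q] {a}` for `z ∈ adjoin ℚ {α}` (`IntermediateField.adjoin_induction`, or by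
`mem_adjoin_simple_iff`: `z = p(α)/r(α)`).
-/

open WeierstrassCurve

namespace KE16

/-- `KL60.val_unr` -/
theorem L_val_unr {q : ℕ} [Fact q.Prime] (a : PadicAlgCl q) (ha : ‖a‖ ≤ 1)
    (h : ∀ τ : PadicAlgCl q ≃ₐ[ℚ_[q]] PadicAlgCl q, τ a ≠ a → ‖τ a - a‖ = 1)
    (x : PadicAlgCl q) (hx : x ∈ IntermediateField.adjoin ℚ_[q] {a}) (h0 : x ≠ 0) :
    ∃ k : ℤ, ‖x‖ = (q : ℝ) ^ k :=
  KL60.val_unr a ha h x hx h0

private theorem FG11_prim {K L : Type} [Field K] [CharZero K] [Field L] [Algebra K L]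
    (S : IntermediateField K L) (hS : FiniteDimensional K S) :
    ∃ α : L, ∀ z ∈ S, z ∈ IntermediateField.adjoin K ({α} : Set L) := by
  obtain ⟨α0, hα0⟩ := Field.exists_primitive_element K S
  refine ⟨(α0 : L), ?_⟩
  intro z hz
  have h1 : (⟨z, hz⟩ : S) ∈ IntermediateField.adjoin K ({α0} : Set S) := by
    rw [hα0]
    exact IntermediateField.mem_top
  have h2 : S.val ⟨z, hz⟩ ∈ (IntermediateField.adjoin K ({α0} : Set S)).map S.val :=
    ⟨⟨z, hz⟩, h1, rfl⟩
  rw [IntermediateField.adjoin_map, Set.image_singleton] at h2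
  exact h2

theorem FG_val : ∃ S : Finset ℕ, ∀ (q : ℕ) [Fact q.Prime], q ∉ S →
    ∀ (ι : Qb →ₐ[ℚ] Cq q) (z : Qb), z ∈ FF → z ≠ 0 → ∃ a : ℤ, nm q (ι z) = (q : ℝ) ^ a := by
  classical
  obtain ⟨α, hFF⟩ := FG11_prim FF FF_fin
  have hunit : ∀ β : Qb, ∃ S : Finset ℕ, β ≠ 0 → ∀ (q : ℕ) [Fact q.Prime], q ∉ S →
      ∀ ι : Qb →ₐ[ℚ] Cq q, nm q (ι β) = 1 := by
    intro β
    by_cases hβ : β = 0
    · exact ⟨∅, fun h => absurd hβ h⟩
    · obtain ⟨S, hS⟩ := FG_unit β hβ
      exact ⟨S, fun _ => hS⟩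
  choose Sf hSf using hunit
  let Rt' : Finset Qb := ((minpoly ℚ α).aroots Qb).toFinset.image fun r => r - α
  refine ⟨(insert α Rt').biUnion Sf, ?_⟩
  intro q _ hq ι z hz hz0
  have hS1 : ∀ β ∈ insert α Rt', β ≠ 0 → nm q (ι β) = 1 := by
    intro β hβ hβ0
    refine hSf β hβ0 q (fun h => hq ?_) ι
    exact Finset.mem_biUnion.2 ⟨β, hβ, h⟩
  have hint : IsIntegral ℚ α := Algebra.IsIntegral.isIntegral α
  have hα1 : ‖(ι α : PadicAlgCl q)‖ ≤ 1 := by
    by_cases h0 : α = 0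
    · rw [h0, map_zero]
      have h1 : ‖(0 : PadicAlgCl q)‖ = 0 := norm_zero
      exact h1.le.trans zero_le_one
    · exact (hS1 α (Finset.mem_insert_self _ _) h0).le
  have hτ : ∀ τ : PadicAlgCl q ≃ₐ[ℚ_[q]] PadicAlgCl q, τ (ι α) ≠ ι α →
      ‖τ (ι α) - (ι α : PadicAlgCl q)‖ = 1 := by
    intro τ hne
    obtain ⟨g, hg⟩ := L_restr ι τ
    have h1 : τ (ι α) = ι (g α) := (hg α).symm
    have h2 : g α - α ≠ 0 := by
      intro h3
      apply hne
      rw [h1, sub_eq_zero.1 h3]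
    have h4 : g α - α ∈ insert α Rt' := by
      refine Finset.mem_insert_of_mem (Finset.mem_image.2 ⟨g α, ?_, rfl⟩)
      rw [Multiset.mem_toFinset, Polynomial.mem_aroots]
      refine ⟨minpoly.ne_zero hint, ?_⟩
      have h5 : Polynomial.aeval (g α) (minpoly ℚ α) = g (Polynomial.aeval α (minpoly ℚ α)) :=
        Polynomial.aeval_algHom_apply (g : Qb →ₐ[ℚ] Qb) α (minpoly ℚ α)
      rw [h5, minpoly.aeval, map_zero]
    have h6 := hS1 _ h4 h2
    have h7 : (ι (g α - α) : Cq q) = ι (g α) - ι α := map_sub ι _ _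
    rw [h7] at h6
    rw [h1]
    exact h6
  have hmem : (ι z : PadicAlgCl q) ∈ IntermediateField.adjoin ℚ_[q] {(ι α : PadicAlgCl q)} := by
    have h1 := hFF z hz
    clear hz0 hz
    induction h1 using IntermediateField.adjoin_induction with
    | mem x hx =>
      rw [Set.mem_singleton_iff] at hx
      rw [hx]
      exact IntermediateField.subset_adjoin _ _ (Set.mem_singleton _)
    | algebraMap r =>
      have h2 : (ι (algebraMap ℚ Qb r) : Cq q) = ((r : ℚ) : Cq q) := by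
        rw [ι.commutes, eq_ratCast]
      rw [h2]
      exact SubfieldClass.ratCast_mem _ r
    | add x y hx hy ihx ihy =>
      rw [map_add]
      exact add_mem ihx ihy
    | inv x hx ihx =>
      rw [map_inv₀]
      exact inv_mem ihx
    | mul x y hx hy ihx ihy =>
      rw [map_mul]
      exact mul_mem ihx ihy
  have hne : (ι z : PadicAlgCl q) ≠ 0 := by
    intro h
    exact hz0 ((map_eq_zero ι).1 h)
  exact L_val_unr (ι α : PadicAlgCl q) hα1 hτ (ι z) hmem hne

end KE16
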