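import Pool.Agent.LibKE16.IfaceL

/-!
# [KE16 FG12] SHORT/MEDIUM (cites L_root, L_unit of IfaceL as stated; same proof as H_vgood in KE16_H14.lean in the store).

Plan. Claim `3 ∣ a`: choose `c` with `c³ = q`; `nm c = q^(-1/3)`. `w := ι θ · c^a` has `nm w ^ 3 = 1`, so `nm w = 1`, and `w³ = ι(θ³) q^a` is fixed
by `τ` (`τ (ι θ) = ι θ`, `q` is in the base field). `τ` fixes all roots of unity of order `3^k` (L_root, `q ≠ 3`), so L_unit gives
`τ w = w`, hence `τ(c^a) = c^a`; `τ c = ω c`, `ω³ = 1`, `ω ≠ 1`; `ω^a = 1` gives `3 ∣ a`. `c := (q : Qb)^(-a/3)`, rational: `c ∈ FF`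
(or any intermediate field: `algebraMap_mem`, `zpow_mem`, `natCast_mem`), `nm q (ι q) = 1/q`.
-/

open WeierstrassCurve

namespace KE16

private theorem nm_mul {q : ℕ} [Fact q.Prime] (x y : Cq q) : nm q (x * y) = nm q x * nm q y :=
  norm_mul (α := PadicAlgCl q) x y

private theorem nm_pow {q : ℕ} [Fact q.Prime] (x : Cq q) (n : ℕ) : nm q (x ^ n) = nm q x ^ n :=
  norm_pow (α := PadicAlgCl q) x n

private theorem nm_zpow {q : ℕ} [Fact q.Prime] (x : Cq q) (n : ℤ) : nm q (x ^ n) = nm q x ^ n :=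
  norm_zpow (α := PadicAlgCl q) x n

private theorem nm_q {q : ℕ} [Fact q.Prime] : nm q (q : Cq q) = (q : ℝ)⁻¹ := by
  have h1 : ((q : Cq q) : PadicAlgCl q) = algebraMap ℚ_[q] (PadicAlgCl q) (q : ℚ_[q]) := by
    rw [map_natCast]
  change ‖((q : Cq q) : PadicAlgCl q)‖ = _
  rw [h1]
  have := PadicAlgCl.norm_extends q (q : ℚ_[q])
  rw [← Padic.norm_p (p := q)]
  exact this

theorem FG_vgood {q : ℕ} [Fact q.Prime] (h3 : q ≠ 3) (ι : Qb →ₐ[ℚ] Cq q) (τ : GLq q)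
    (hτ : IsIner τ) (hmove : ∀ c : Cq q, c ^ 3 = (q : Cq q) → τ c ≠ c) (θ : Qb) (h0 : θ ≠ 0)
    (hval : ∃ a : ℤ, nm q (ι (θ ^ 3)) = (q : ℝ) ^ a) (hfix : τ (ι θ) = ι θ)
    (L : IntermediateField ℚ Qb) : ∃ c ∈ L, c ≠ 0 ∧ nm q (ι (θ ^ 3)) = nm q (ι c) ^ 3 := by
  have hqp : (0 : ℝ) < q := by exact_mod_cast (Fact.out : q.Prime).pos
  have hq0 : (q : Cq q) ≠ 0 := by
    exact_mod_cast (Fact.out : q.Prime).ne_zero
  obtain ⟨a, ha⟩ := hval
  obtain ⟨c, hc⟩ := IsAlgClosed.exists_pow_nat_eq (q : Cq q) (n := 3) (by norm_num)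
  have hc0 : c ≠ 0 := by
    rintro rfl
    apply hq0; rw [← hc]; norm_num
  have hmc := hmove c hc
  have hcn : nm q c ^ 3 = (q : ℝ)⁻¹ := by rw [← nm_pow, hc, nm_q]
  have hιθ : ι θ ≠ 0 := by rwa [Ne, map_eq_zero]
  have hw3 : (ι θ * c ^ a) ^ 3 = ι (θ ^ 3) * (q : Cq q) ^ a := by
    rw [mul_pow, map_pow, ← hc]
    congr 1
    rw [← zpow_natCast (c ^ a) 3, ← zpow_natCast c 3, ← zpow_mul, ← zpow_mul, mul_comm]
  have hwn : nm q (ι θ * c ^ a) = 1 := by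
    have h1 : nm q (ι θ * c ^ a) ^ 3 = 1 := by
      rw [← nm_pow, hw3, nm_mul, ha, nm_zpow, nm_q, inv_zpow, mul_inv_cancel₀]
      exact zpow_ne_zero _ hqp.ne'
    have h2 : 0 ≤ nm q (ι θ * c ^ a) := norm_nonneg (E := PadicAlgCl q) _
    exact (pow_eq_one_iff_of_nonneg h2 (by norm_num)).mp h1
  have hroot : ∀ (k : ℕ) (ζ : Cq q), ζ ^ 3 ^ k = 1 → τ ζ = ζ := by
    intro k ζ hζ
    refine L_root τ hτ (3 ^ k) ?_ ζ hζ
    intro hd
    exact h3 ((Nat.prime_dvd_prime_iff_eq Fact.out Nat.prime_three).mp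
      ((Fact.out : q.Prime).dvd_of_dvd_pow hd))
  have hτw := L_unit h3 τ hroot (ι θ * c ^ a) hwn (by
    rw [hw3, map_mul, map_pow, map_pow, hfix, map_zpow₀, map_natCast])
  rw [map_mul, hfix, map_zpow₀] at hτw
  have hca : τ c ^ a = c ^ a := mul_left_cancel₀ hιθ hτw
  have hω1 : (τ c / c) ^ a = 1 := by
    rw [div_zpow, hca, div_self (zpow_ne_zero _ hc0)]
  have hω3 : (τ c / c) ^ 3 = 1 := by
    rw [div_pow, ← map_pow, hc, map_natCast, div_self hq0]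
  have hωne : τ c / c ≠ 1 := by
    intro h; exact hmc ((div_eq_one_iff_eq hc0).mp h)
  have h3a : (3 : ℤ) ∣ a := by
    have hω0 : τ c / c ≠ 0 := div_ne_zero (by rwa [Ne, map_eq_zero]) hc0
    have hord : orderOf (Units.mk0 _ hω0) = 3 :=
      orderOf_eq_prime (Units.ext (by simpa using hω3)) (fun h => hωne (by
        simpa using congrArg Units.val h))
    have := (orderOf_dvd_iff_zpow_eq_one (x := Units.mk0 _ hω0) (i := a)).mpr
      (Units.ext (by simpa using hω1))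
    rwa [hord] at this
  obtain ⟨b, rfl⟩ := h3a
  have hqb : (q : Qb) ≠ 0 := by
    exact_mod_cast (Fact.out : q.Prime).ne_zero
  refine ⟨(q : Qb) ^ (-b), ?_, zpow_ne_zero _ hqb, ?_⟩
  · exact zpow_mem (natCast_mem _ q) _
  · rw [ha, map_zpow₀, map_natCast, nm_zpow, nm_q, inv_zpow, zpow_neg, inv_inv, ← zpow_natCast,
      ← zpow_mul, mul_comm]
    norm_num

end KE16
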