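import Pool.Agent.LibKE16.FG13
import Pool.Agent.LibKL60.N2

/-!
# [KE16 FG14] The group `M(S,3)` is finite modulo cubes.
-/

open NumberField IsDedekindDomain

namespace KE16

theorem FG_cubeE (M : Type*) [Field M] [NumberField M] :
    ∃ R : Set M, R.Finite ∧ ∀ z : M, z ≠ 0 →
      (∀ v : HeightOneSpectrum (𝓞 M), ∃ y : M, y ≠ 0 ∧ v.valuation M z = v.valuation M y ^ 3) →
      ∃ r ∈ R, r ≠ 0 ∧ ∃ β : M, z = r * β ^ 3 := by
  obtain ⟨Z, hZ⟩ := KL60.val_cov M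
  refine ⟨(Z : Set M), Z.finite_toSet, ?_⟩
  intro z hz h
  obtain ⟨y, hy, β, hβ⟩ := hZ z ⟨hz, h⟩
  refine ⟨y, hy, ?_, β, hβ⟩
  rintro rfl
  rw [zero_mul] at hβ
  exact hz hβ

theorem FG_cubeS (M : Type*) [Field M] [NumberField M] (S : Set (HeightOneSpectrum (𝓞 M)))
    (hS : S.Finite) :
    ∃ R : Set M, R.Finite ∧ ∀ z : M, z ≠ 0 →
      (∀ v : HeightOneSpectrum (𝓞 M), v ∉ S →
        ∃ y : M, y ≠ 0 ∧ v.valuation M z = v.valuation M y ^ 3) →
      ∃ r ∈ R, r ≠ 0 ∧ ∃ β : M, z = r * β ^ 3 := by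
  classical
  have : Finite S := hS
  let f : M → (S → ZMod 3) := fun z v ↦ ((WithZero.log (v.1.valuation M z) : ℤ) : ZMod 3)
  have hcov : KL60.CovFin {z : M | z ≠ 0 ∧ ∀ v : HeightOneSpectrum (𝓞 M), v ∉ S →
      ∃ y : M, y ≠ 0 ∧ v.valuation M z = v.valuation M y ^ 3} := by
    refine KL60.cov_of_map _ _ (fun z hz ↦ hz.1) f ?_ (KL60.val_cov M)
    intro z hz z' hz' hff
    have hz0 : z ≠ 0 := hz.1
    have hz0' : z' ≠ 0 := hz'.1
    refine ⟨div_ne_zero hz0 hz0', ?_⟩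
    intro v
    by_cases hv : v ∈ S
    · have h1 := congrFun hff ⟨v, hv⟩
      change ((WithZero.log (v.valuation M z) : ℤ) : ZMod 3) =
        ((WithZero.log (v.valuation M z') : ℤ) : ZMod 3) at h1
      have h2 : ((WithZero.log (v.valuation M z) - WithZero.log (v.valuation M z') : ℤ) : ZMod 3) = 0 := by
        push_cast
        rw [h1, sub_self]
      rw [ZMod.intCast_zmod_eq_zero_iff_dvd] at h2
      obtain ⟨m, hm⟩ := h2
      obtain ⟨π, hπ⟩ := v.valuation_exists_uniformizer M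
      have hπ0 : π ≠ 0 := by
        rintro rfl
        rw [map_zero] at hπ
        exact WithZero.exp_ne_zero hπ.symm
      refine ⟨π ^ (-m), zpow_ne_zero _ hπ0, ?_⟩
      have hvz : v.valuation M z ≠ 0 := (Valuation.ne_zero_iff _).mpr hz0
      have hvz' : v.valuation M z' ≠ 0 := (Valuation.ne_zero_iff _).mpr hz0'
      rw [map_div₀, map_zpow₀, hπ, ← WithZero.exp_log hvz, ← WithZero.exp_log hvz',
        ← WithZero.exp_sub, hm]
      rw [← WithZero.exp_zsmul, ← WithZero.exp_nsmul]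
      congr 1
      simp
    · obtain ⟨y, hy, hvy⟩ := hz.2 v hv
      obtain ⟨y', hy', hvy'⟩ := hz'.2 v hv
      refine ⟨y / y', div_ne_zero hy hy', ?_⟩
      rw [map_div₀, map_div₀, hvy, hvy', div_pow]
  obtain ⟨Z, hZ⟩ := hcov
  refine ⟨(Z : Set M), Z.finite_toSet, ?_⟩
  intro z hz h
  obtain ⟨y, hy, β, hβ⟩ := hZ z ⟨hz, h⟩
  refine ⟨y, hy, ?_, β, hβ⟩
  rintro rfl
  rw [zero_mul] at hβ
  exact hz hβ

end KE16
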