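import Pool.Agent.LibKE16.FG06
import Pool.Agent.LibKE16.FG14
import Pool.Agent.LibKuQ.B1
import Pool.Agent.LibKuQ.B2

/-! # [KE16 FG15] assembly: `F(S,3)` modulo cubes is finite, with embeddings (helper21) -/

open WeierstrassCurve NumberField IsDedekindDomain

namespace KE16

theorem FG15_prime {M : Type*} [Field M] [NumberField M] (P : Ideal (𝓞 M)) [hP : P.IsPrime]
    (h0 : P ≠ ⊥) : ∃ q : ℕ, q.Prime ∧ (q : 𝓞 M) ∈ P := by
  have hN : Ideal.absNorm P ≠ 0 := by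
    rw [Ne, Ideal.absNorm_eq_zero_iff]; exact h0
  have hmem : ((Ideal.absNorm P : ℕ) : 𝓞 M) ∈ P := Ideal.absNorm_mem P
  have key : ∀ n : ℕ, n ≠ 0 → ((n : ℕ) : 𝓞 M) ∈ P → ∃ q : ℕ, q.Prime ∧ (q : 𝓞 M) ∈ P := by
    intro n
    induction n using Nat.recOnMul with
    | zero => intro h; exact absurd rfl h
    | one => intro _ h; exact absurd (by simpa using h) ((Ideal.ne_top_iff_one P).mp hP.ne_top)
    | prime q hq => intro _ h; exact ⟨q, hq, h⟩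
    | mul a b iha ihb =>
      intro hab h
      rw [Nat.cast_mul] at h
      rcases hP.mem_or_mem h with h | h
      · exact iha (fun h => hab (by simp [h])) h
      · exact ihb (fun h => hab (by simp [h])) h
  exact key _ hN hmem

theorem FG15_abs {M : Type} [Field M] [NumberField M] (j : M →+* AlgebraicClosure ℚ)
    (S : Finset ℕ) :
    ∃ R : Set M, R.Finite ∧ ∀ z : M, z ≠ 0 →
      (∀ (q : ℕ) [Fact q.Prime], q ∉ S → ∀ ι : AlgebraicClosure ℚ →+* PadicAlgCl q,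
        ∃ y : M, y ≠ 0 ∧ ‖ι (j z)‖ = ‖ι (j y)‖ ^ 3) →
      ∃ r ∈ R, r ≠ 0 ∧ ∃ β : M, z = r * β ^ 3 := by
  obtain ⟨R, hR, hR'⟩ := FG_cubeS M
    {v : HeightOneSpectrum (𝓞 M) | ∃ q ∈ S, q.Prime ∧ (q : 𝓞 M) ∈ v.asIdeal} (by
      have hsub : {v : HeightOneSpectrum (𝓞 M) | ∃ q ∈ S, q.Prime ∧ (q : 𝓞 M) ∈ v.asIdeal} ⊆
          ⋃ q ∈ {q | q ∈ S ∧ q.Prime}, {v : HeightOneSpectrum (𝓞 M) |
            v.asIdeal ∣ Ideal.span {(q : 𝓞 M)}} := by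
        rintro v ⟨q, hq, hqp, hqv⟩
        rw [Set.mem_iUnion₂]
        refine ⟨q, ⟨hq, hqp⟩, ?_⟩
        rw [Set.mem_setOf_eq, Ideal.dvd_span_singleton]
        exact hqv
      refine Set.Finite.subset (Set.Finite.biUnion ?_ ?_) hsub
      · exact S.finite_toSet.subset fun q hq => hq.1
      · rintro q ⟨_, hqp⟩
        refine Ideal.finite_factors ?_
        rw [Ne, Ideal.zero_eq_bot, Ideal.span_singleton_eq_bot]
        exact_mod_cast hqp.ne_zero)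
  refine ⟨R, hR, fun z hz hloc => hR' z hz ?_⟩
  intro v hv
  have := v.isPrime
  obtain ⟨q, hq, hqv⟩ := FG15_prime v.asIdeal v.ne_bot
  have : Fact q.Prime := ⟨hq⟩
  have hqS : q ∉ S := fun h => hv ⟨q, h, hq, hqv⟩
  obtain ⟨ι, hι⟩ := KuQ.exists_embedding j v.asIdeal q hqv
  obtain ⟨y, hy0, hy⟩ := hloc q hqS ι
  refine ⟨y, hy0, ?_⟩
  have h1 : v.valuation M (z / y ^ 3) = 1 := by
    refine KuQ.valuation_eq_one v (ι.comp j) hι _ ?_
    have hy' : ‖ι (j y)‖ ≠ 0 := by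
      rw [Ne, norm_eq_zero, map_eq_zero, map_eq_zero]; exact hy0
    rw [RingHom.comp_apply, map_div₀, map_div₀, map_pow, map_pow, norm_div, norm_pow, hy]
    exact div_self (pow_ne_zero _ hy')
  rw [map_div₀, map_pow] at h1
  have hv0 : v.valuation M y ^ 3 ≠ 0 := pow_ne_zero _ ((Valuation.ne_zero_iff _).mpr hy0)
  rwa [div_eq_one_iff_eq hv0] at h1

theorem FG_Kfin (S : Finset ℕ) : ∃ R : Set Qb, R.Finite ∧ ∀ t ∈ FF, t ≠ 0 →
    (∀ (q : ℕ) [Fact q.Prime], q ∉ S → ∀ ι : Qb →ₐ[ℚ] Cq q,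
      ∃ c ∈ FF, c ≠ 0 ∧ nm q (ι t) = nm q (ι c) ^ 3) →
    ∃ r ∈ R, r ≠ 0 ∧ ∃ β ∈ FF, t = r * β ^ 3 := by
  have hfin : FiniteDimensional ℚ FF := FF_fin
  have hnf : NumberField FF := { to_charZero := inferInstance, to_finiteDimensional := hfin }
  obtain ⟨R, hR, hR'⟩ := FG15_abs (algebraMap FF Qb) S
  refine ⟨Subtype.val '' R, hR.image _, ?_⟩
  intro t ht h0 hloc
  obtain ⟨r, hr, hr0, β, hβ⟩ := hR' ⟨t, ht⟩ (fun h => h0 (congrArg Subtype.val h)) (by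
    intro q _ hq ι
    obtain ⟨c, hc, hc0, hc'⟩ := hloc q hq (ι.toRatAlgHom : Qb →ₐ[ℚ] Cq q)
    exact ⟨⟨c, hc⟩, fun h => hc0 (congrArg Subtype.val h), hc'⟩)
  refine ⟨r, ⟨r, hr, rfl⟩, fun h => hr0 (Subtype.ext h), β, β.2, ?_⟩
  exact congrArg Subtype.val hβ

end KE16
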