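import Pool.Agent.LibKE16.FG06
import Pool.Agent.LibKE16.H02
import Pool.Agent.LibKE16.H03

/-!
# [KE16 FG16] MEDIUM. The Kummer data modulo cubes determine the homomorphism (cites FG06, H_T3, H_T4, H_z as stated).

Plan. Let `h1 g = a1 PA + b1 PB`, `h2 g = a2 PA + b2 PB` (H_T3). `r ≠ 0` as `θ1³ = r β1³ ≠ 0`; `β1, β2 ≠ 0`; `(θ1 β2 / (θ2 β1))³ = 1`, so
`θ1 β2 = r0.z^j θ2 β1` for some `j` (`IsPrimitiveRoot.eq_pow_of_pow_eq_one`, H_z). Apply `g` (fixes `β1, β2 ∈ FF`, `r0.z ∈ FF`, GF_iff, FF_z):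
`z^{a1} θ1 β2 = z^j z^{a2} θ2 β1`, so `z^{a1} = z^{a2}`, `a1 ≡ a2 mod 3` (`IsPrimitiveRoot.zpow_eq_one_iff_dvd`), so `a1 PA = a2 PA` (H_T1).
Same for `b`.
-/

open WeierstrassCurve

namespace KE16

private theorem fg16_exp (g : GQ) (hg : g ∈ GF) (θ1 θ2 r β1 β2 : Qb) (a1 a2 : ℤ) (h1 : θ1 ≠ 0)
    (h2 : θ2 ≠ 0) (hβ1 : β1 ∈ FF) (hβ2 : β2 ∈ FF) (e1 : θ1 ^ 3 = r * β1 ^ 3)
    (e2 : θ2 ^ 3 = r * β2 ^ 3) (g1 : g θ1 = r0.z ^ a1 * θ1) (g2 : g θ2 = r0.z ^ a2 * θ2) :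
    (3 : ℤ) ∣ a1 - a2 := by
  have hz : IsPrimitiveRoot r0.z 3 := H_z r0
  have hz0 : r0.z ≠ 0 := hz.ne_zero (by norm_num)
  have hfix : ∀ x ∈ FF, g x = x := (GF_iff g).mp hg
  have hβ10 : β1 ≠ 0 := by
    rintro rfl
    exact pow_ne_zero 3 h1 (by rw [e1]; ring)
  have hβ20 : β2 ≠ 0 := by
    rintro rfl
    exact pow_ne_zero 3 h2 (by rw [e2]; ring)
  have hA : θ1 * β2 ≠ 0 := mul_ne_zero h1 hβ20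
  have hB : θ2 * β1 ≠ 0 := mul_ne_zero h2 hβ10
  have hcube : (θ1 * β2 / (θ2 * β1)) ^ 3 = 1 := by
    rw [div_pow, mul_pow, mul_pow, e1, e2]
    have hr : r ≠ 0 := by
      rintro rfl
      exact pow_ne_zero 3 h1 (by rw [e1]; ring)
    field_simp
  obtain ⟨j, -, hj⟩ := hz.eq_pow_of_pow_eq_one hcube
  have hj' : θ1 * β2 = r0.z ^ j * (θ2 * β1) := by
    rw [hj, div_mul_cancel₀ _ hB]
  have hg1 : g (θ1 * β2) = r0.z ^ a1 * (θ1 * β2) := by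
    rw [map_mul, g1, hfix β2 hβ2]
    ring
  have hg2 : g (r0.z ^ j * (θ2 * β1)) = r0.z ^ a2 * (r0.z ^ j * (θ2 * β1)) := by
    rw [map_mul, map_mul, map_pow, g2, hfix β1 hβ1, hfix r0.z FF_z]
    ring
  rw [← hj', hg1] at hg2
  have h3 : r0.z ^ a1 = r0.z ^ a2 := mul_right_cancel₀ hA hg2
  have h4 : r0.z ^ (a1 - a2) = 1 := by
    rw [zpow_sub₀ hz0, h3, div_self (zpow_ne_zero _ hz0)]
  exact_mod_cast (hz.zpow_eq_one_iff_dvd (a1 - a2)).mp h4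

private theorem fg16_smul (P : Pt E0) (hP : 3 • P = 0) (a1 a2 : ℤ) (h : (3 : ℤ) ∣ a1 - a2) :
    a1 • P = a2 • P := by
  obtain ⟨c, hc⟩ := h
  have h1 : a1 = a2 + c * 3 := by linarith
  have h2 : (3 : ℤ) • P = 0 := by
    rw [← hP]
    exact natCast_zsmul P 3
  rw [h1, add_zsmul, mul_zsmul, h2, zsmul_zero, add_zero]

theorem FG_det (h1 h2 : GQ → Pt E0) (h13 : ∀ g ∈ GF, 3 • h1 g = 0) (h23 : ∀ g ∈ GF, 3 • h2 g = 0)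
    (θ1 θ1' θ2 θ2' : Qb) (k1 : Kum h1 θ1 θ1') (k2 : Kum h2 θ2 θ2') (r r' β1 β1' β2 β2' : Qb)
    (hβ1 : β1 ∈ FF) (hβ1' : β1' ∈ FF) (hβ2 : β2 ∈ FF) (hβ2' : β2' ∈ FF)
    (e1 : θ1 ^ 3 = r * β1 ^ 3) (e1' : θ1' ^ 3 = r' * β1' ^ 3)
    (e2 : θ2 ^ 3 = r * β2 ^ 3) (e2' : θ2' ^ 3 = r' * β2' ^ 3) : ∀ g ∈ GF, h1 g = h2 g := by
  intro g hg
  obtain ⟨a1, b1, hh1⟩ := H_T3 r0 (h1 g) (h13 g hg)
  obtain ⟨a2, b2, hh2⟩ := H_T3 r0 (h2 g) (h23 g hg)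
  obtain ⟨n1, n1', -, -, q1⟩ := k1
  obtain ⟨n2, n2', -, -, q2⟩ := k2
  obtain ⟨g1, g1'⟩ := q1 g hg a1 b1 hh1
  obtain ⟨g2, g2'⟩ := q2 g hg a2 b2 hh2
  have ha := fg16_exp g hg θ1 θ2 r β1 β2 a1 a2 n1 n2 hβ1 hβ2 e1 e2 g1 g2
  have hb := fg16_exp g hg θ1' θ2' r' β1' β2' b1 b2 n1' n2' hβ1' hβ2' e1' e2' g1' g2'
  rw [hh1, hh2, fg16_smul _ (H_T1 r0).1 a1 a2 ha, fg16_smul _ (H_T1 r0).2 b1 b2 hb]

end KE16
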