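import Pool.Agent.LibKE16.H05

/-!
# [KE16 H07] STRONG

Plan. For g ∈ S choose P_g (Tor) with (g f)(τ) - f(τ) = gal τ P_g - P_g for all τ ∈ NN, (g f)(τ) = g f(g⁻¹τg); it is UNIQUE by H_A0.
Put h g := P_g. Cocycle: (gg')f - f = g(g'f - f) + (g f - f), and g(∂P)(τ) = gal g (gal (g⁻¹τg) P - P) = ∂(gal g P)(τ): so
P_{gg'} = gal g P_{g'} + P_g by uniqueness. For σ ∈ NN: (σf)(τ) - f(τ) = gal τ (f σ) - f σ (from the cocycle relation:
f(τσ) = f(σ·σ⁻¹τσ)), so h σ = f σ. Continuity: f vanishes on the elements of NN fixing a finite L; values of f: finitely many?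
Take L' = normal closure of L together with the coordinates of ... simpler: let L' ⊇ L be finite and NORMAL over ℚ (IntermediateField
normal closure). For g fixing L' and τ ∈ NN: g⁻¹τgτ⁻¹ ∈ NN fixes L' (commutator with g ∈ Gal(Qb/L'), normal), so
f(g⁻¹τg) = f(c τ) = f(c) + c f(τ) = c f(τ), c = g⁻¹τgτ⁻¹. So (g f)(τ) = g c f(τ), and g, c fix L'. Enlarge L' so that it contains the
coordinates of all values of f: f has finitely many values because f(τσ) = f(τ) for σ fixing L and [NN : NN ∩ Gal(Qb/L)] is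
finite (NN/(NN∩Gal(L')) embeds into the finite group L' ≃ₐ L'). Then g f = f and P_g = 0.
-/

open WeierstrassCurve

namespace KE16

private theorem h07_tor_add {P Q : Pt E0} (hP : Tor P) (hQ : Tor Q) : Tor (P + Q) := by
  obtain ⟨k, hk⟩ := hP
  obtain ⟨l, hl⟩ := hQ
  refine ⟨k + l, ?_⟩
  rw [nsmul_add, pow_add, mul_nsmul, hk, mul_comm (3 ^ k), mul_nsmul, hl]
  simp

private theorem h07_tor_neg {P : Pt E0} (hP : Tor P) : Tor (-P) := by
  obtain ⟨k, hk⟩ := hP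
  exact ⟨k, by rw [neg_nsmul, hk, neg_zero]⟩

private theorem h07_tor_gal {P : Pt E0} (hP : Tor P) (g : GQ) : Tor (gal E0 g P) := by
  obtain ⟨k, hk⟩ := hP
  exact ⟨k, by rw [← map_nsmul, hk, map_zero]⟩

private theorem h07_uniq {P Q : Pt E0} (hP : Tor P) (hQ : Tor Q)
    (h : ∀ σ : NN, gal E0 σ P - P = gal E0 σ Q - Q) : P = Q := by
  have h0 : P - Q = 0 := by
    apply H_A0
    · rw [sub_eq_add_neg]
      exact h07_tor_add hP (h07_tor_neg hQ)
    · intro σ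
      have := h σ
      rw [map_sub]
      have e : gal E0 (σ : GQ) P = gal E0 σ Q - Q + P := by rw [← this]; abel
      rw [e]; abel
  exact sub_eq_zero.mp h0

private theorem h07_normal : Normal ℚ Qb := by
  have hal : Algebra.IsAlgebraic ℚ Qb := AlgebraicClosure.isAlgebraic ℚ
  have : IsAlgClosure ℚ Qb := ⟨inferInstance, hal⟩
  exact IsAlgClosure.normal ℚ Qb

/-- a point is fixed by the elements which fix a suitable finite extension -/
private theorem h07_coord (P : Pt E0) : ∃ L : IntermediateField ℚ Qb, FiniteDimensional ℚ L ∧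
    ∀ g : GQ, (∀ x ∈ L, g x = x) → gal E0 g P = P := by
  cases P with
  | zero => exact ⟨⊥, inferInstance, fun g _ ↦ map_zero _⟩
  | some x y hxy =>
    have hal : Algebra.IsAlgebraic ℚ Qb := AlgebraicClosure.isAlgebraic ℚ
    have hx : IsIntegral ℚ x := (hal.isAlgebraic x).isIntegral
    have hy : IsIntegral ℚ y := (hal.isAlgebraic y).isIntegral
    refine ⟨IntermediateField.adjoin ℚ {x} ⊔ IntermediateField.adjoin ℚ {y}, ?_, ?_⟩
    · have := IntermediateField.adjoin.finiteDimensional hx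
      have := IntermediateField.adjoin.finiteDimensional hy
      exact IntermediateField.finiteDimensional_sup _ _
    · intro g hg
      have gx : g x = x := hg x ((le_sup_left : IntermediateField.adjoin ℚ {x} ≤ _)
        (IntermediateField.mem_adjoin_simple_self ℚ x))
      have gy : g y = y := hg y ((le_sup_right : IntermediateField.adjoin ℚ {y} ≤ _)
        (IntermediateField.mem_adjoin_simple_self ℚ y))
      change Affine.Point.map (W' := E0) (S := ℚ) (g : Qb →ₐ[ℚ] Qb) (.some x y hxy) = _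
      rw [Affine.Point.map_some]
      congr 1

/-- the values of a cocycle are finite in number -/
private theorem h07_fin (f : Kmul 3 193 → Pt E0) (hf : f ∈ Z1 E0 3 193) : (Set.range f).Finite := by
  obtain ⟨h1, h2, L, hL, h3⟩ := hf
  have : Finite (L →ₐ[ℚ] Qb) := inferInstance
  -- `f` factors through restriction to `L`
  have key : ∀ σ τ : NN, ((σ : GQ) : Qb →ₐ[ℚ] Qb).comp L.val = ((τ : GQ) : Qb →ₐ[ℚ] Qb).comp L.val →
      f σ = f τ := by
    intro σ τ h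
    have e : τ = σ * (σ⁻¹ * τ) := by group
    rw [e, h1, h3 (σ⁻¹ * τ), map_zero, add_zero]
    intro x hx
    change (σ : GQ)⁻¹ ((τ : GQ) x) = x
    have := DFunLike.congr_fun h ⟨x, hx⟩
    have e2 : (σ : GQ) x = (τ : GQ) x := this
    rw [← e2]
    exact AlgEquiv.symm_apply_apply _ _
  classical
  let F : (L →ₐ[ℚ] Qb) → Pt E0 := fun φ ↦
    if h : ∃ σ : NN, ((σ : GQ) : Qb →ₐ[ℚ] Qb).comp L.val = φ then f h.choose else 0
  refine (Set.toFinite (Set.range F)).subset ?_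
  rintro _ ⟨σ, rfl⟩
  refine ⟨((σ : GQ) : Qb →ₐ[ℚ] Qb).comp L.val, ?_⟩
  have hex : ∃ σ' : NN, ((σ' : GQ) : Qb →ₐ[ℚ] Qb).comp L.val =
    ((σ : GQ) : Qb →ₐ[ℚ] Qb).comp L.val := ⟨σ, rfl⟩
  exact (dif_pos hex).trans (key _ _ hex.choose_spec)

/-- a finite normal extension such that `f` vanishes on, and the values of `f` are fixed by, its group -/
private theorem h07_level (f : Kmul 3 193 → Pt E0) (hf : f ∈ Z1 E0 3 193) :
    ∃ L : IntermediateField ℚ Qb, FiniteDimensional ℚ L ∧ Normal ℚ L ∧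
      (∀ σ : NN, (∀ x ∈ L, (σ : GQ) x = x) → f σ = 0) ∧
      ∀ g : GQ, (∀ x ∈ L, g x = x) → ∀ σ : NN, gal E0 g (f σ) = f σ := by
  have hfin := h07_fin f hf
  obtain ⟨h1, h2, L, hL, h3⟩ := hf
  have := hfin.to_subtype
  choose Lc hLc hLf using h07_coord
  let L1 : IntermediateField ℚ Qb := ⨆ P : Set.range f, Lc P.1
  have : ∀ P : Set.range f, FiniteDimensional ℚ (Lc P.1) := fun P ↦ hLc P.1
  have hL1 : FiniteDimensional ℚ L1 := IntermediateField.finiteDimensional_iSup_of_finite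
  have hnor := h07_normal
  have hL2 : FiniteDimensional ℚ (L ⊔ L1 : IntermediateField ℚ Qb) :=
    IntermediateField.finiteDimensional_sup L L1
  have hle : L ⊔ L1 ≤ IntermediateField.normalClosure ℚ (L ⊔ L1 : IntermediateField ℚ Qb) Qb :=
    IntermediateField.le_normalClosure _
  refine ⟨IntermediateField.normalClosure ℚ (L ⊔ L1 : IntermediateField ℚ Qb) Qb,
    normalClosure.is_finiteDimensional ℚ _ Qb, normalClosure.normal ℚ _ Qb, ?_, ?_⟩
  · intro σ hσ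
    exact h3 σ fun x hx ↦ hσ x (hle ((le_sup_left : L ≤ L ⊔ L1) hx))
  · intro g hg σ
    refine hLf (f σ) g fun x hx ↦ hg x (hle ((le_sup_right : L1 ≤ L ⊔ L1) ?_))
    exact (le_iSup (fun P : Set.range f ↦ Lc P.1) ⟨f σ, σ, rfl⟩) hx

/-- inflation-restriction by hand: a cocycle class fixed by `S` extends to `S` -/
theorem H_hat (f : Kmul 3 193 → Pt E0) (hf : f ∈ Z1 E0 3 193) (S : Subgroup GQ) (hS : NN ≤ S)
    (h : ∀ g ∈ S, cj E0 3 193 g f - f ∈ B1 E0 3 193) : ∃ h : GQ → Pt E0, IsHat f S h := by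
  classical
  have hf' := hf
  obtain ⟨h1, h2, -⟩ := hf'
  have h1' : ∀ σ τ : NN, f (σ * τ) = f σ + gal E0 σ (f τ) := h1
  -- the choice
  have hex : ∀ g : S, ∃ P : Pt E0, Tor P ∧ ∀ τ : NN, cj E0 3 193 g f τ = f τ + (gal E0 τ P - P) := by
    intro g
    obtain ⟨P, hP, hP'⟩ := h g g.2
    refine ⟨P, hP, fun τ ↦ ?_⟩
    have := hP' τ
    rw [Pi.sub_apply] at this
    rw [← this]; abel
  choose Pg hTor hEq using hex
  let hh : GQ → Pt E0 := fun g ↦ if hg : g ∈ S then Pg ⟨g, hg⟩ else 0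
  have hhS : ∀ (g : GQ) (hg : g ∈ S), hh g = Pg ⟨g, hg⟩ := fun g hg ↦ dif_pos hg
  have hT : ∀ g ∈ S, Tor (hh g) := by
    intro g hg; rw [hhS g hg]; exact hTor _
  have hE : ∀ g ∈ S, ∀ τ : NN, cj E0 3 193 g f τ = f τ + (gal E0 τ (hh g) - hh g) := by
    intro g hg τ; rw [hhS g hg]; exact hEq ⟨g, hg⟩ τ
  -- characterisation
  have hU : ∀ g ∈ S, ∀ P : Pt E0, Tor P → (∀ τ : NN, cj E0 3 193 g f τ = f τ + (gal E0 τ P - P)) →
      hh g = P := by
    intro g hg P hP hP'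
    refine h07_uniq (hT g hg) hP fun σ ↦ ?_
    have e1 := hE g hg σ
    have e2 := hP' σ
    rw [e1] at e2
    exact add_left_cancel e2
  refine ⟨hh, hS, hT, ?_, ?_, ?_⟩
  · intro g hg g' hg'
    refine hU (g * g') (S.mul_mem hg hg') _ (h07_tor_add (hT g hg) (h07_tor_gal (hT g' hg') g)) ?_
    intro τ
    have ea : cj E0 3 193 (g * g') f τ =
        gal E0 g (cj E0 3 193 g' f ⟨g⁻¹ * (τ : GQ) * g, Kmul_conj 3 193 g τ⟩) := by
      change gal E0 (g * g') (f _) = gal E0 g (gal E0 g' (f _))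
      rw [gal_mul]
      congr 3
    have eb : gal E0 g (f ⟨g⁻¹ * (τ : GQ) * g, Kmul_conj 3 193 g τ⟩) = cj E0 3 193 g f τ := rfl
    have ec : gal E0 g (gal E0 (g⁻¹ * (τ : GQ) * g) (hh g')) = gal E0 τ (gal E0 g (hh g')) := by
      rw [← gal_mul, ← gal_mul]
      congr 2
      group
    rw [ea, hE g' hg', map_add, map_sub, eb, hE g hg]
    change f τ + (gal E0 τ (hh g) - hh g) +
      (gal E0 g (gal E0 (g⁻¹ * (τ : GQ) * g) (hh g')) - gal E0 g (hh g')) = _
    rw [ec, map_add]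
    abel
  · intro σ
    refine hU σ (hS σ.2) _ (h2 σ) ?_
    intro τ
    have e1 := h1' σ ⟨(σ : GQ)⁻¹ * (τ : GQ) * (σ : GQ), Kmul_conj 3 193 σ τ⟩
    have e2 : σ * ⟨(σ : GQ)⁻¹ * (τ : GQ) * (σ : GQ), Kmul_conj 3 193 σ τ⟩ = τ * σ := by
      apply Subtype.ext
      change (σ : GQ) * ((σ : GQ)⁻¹ * (τ : GQ) * (σ : GQ)) = (τ : GQ) * (σ : GQ)
      group
    rw [e2, h1'] at e1
    change gal E0 σ (f _) = _
    have e3 : gal E0 σ (f ⟨(σ : GQ)⁻¹ * (τ : GQ) * (σ : GQ), Kmul_conj 3 193 σ τ⟩) =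
        f τ + gal E0 τ (f σ) - f σ := by
      rw [e1]; abel
    rw [e3]; abel
  · obtain ⟨L, hL, hN, hv, hfix⟩ := h07_level f hf
    refine ⟨L, hL, ?_⟩
    intro g hg hgL
    refine hU g hg 0 ⟨0, by simp⟩ ?_
    intro τ
    rw [map_zero, sub_zero, add_zero]
    -- `L` is stable
    have hst : ∀ (ρ : GQ) (x : Qb), x ∈ L → ρ x ∈ L := by
      intro ρ x hx
      have hnor := h07_normal
      have := (IntermediateField.normal_iff_forall_map_le (K := L)).mp hN (ρ : Qb →ₐ[ℚ] Qb)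
      exact this ⟨x, hx, rfl⟩
    have hcN : g⁻¹ * (τ : GQ) * g * (τ : GQ)⁻¹ ∈ NN :=
      NN.mul_mem (Kmul_conj 3 193 g τ) (NN.inv_mem τ.2)
    have hcL : ∀ x ∈ L, (g⁻¹ * (τ : GQ) * g * (τ : GQ)⁻¹) x = x := by
      intro x hx
      change g⁻¹ ((τ : GQ) (g ((τ : GQ)⁻¹ x))) = x
      rw [hgL _ (hst (τ : GQ)⁻¹ x hx)]
      have e1 : (τ : GQ) ((τ : GQ)⁻¹ x) = x := AlgEquiv.apply_symm_apply _ _
      rw [e1]
      conv_lhs => rw [← hgL x hx]
      exact AlgEquiv.symm_apply_apply _ _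
    have e1 : (⟨g⁻¹ * (τ : GQ) * g, Kmul_conj 3 193 g τ⟩ : NN) =
        ⟨g⁻¹ * (τ : GQ) * g * (τ : GQ)⁻¹, hcN⟩ * τ := by
      apply Subtype.ext
      change g⁻¹ * (τ : GQ) * g = g⁻¹ * (τ : GQ) * g * (τ : GQ)⁻¹ * (τ : GQ)
      group
    change gal E0 g (f ⟨g⁻¹ * (τ : GQ) * g, Kmul_conj 3 193 g τ⟩) = f τ
    rw [e1, h1', hv ⟨_, hcN⟩ hcL, zero_add]
    change gal E0 g (gal E0 (g⁻¹ * (τ : GQ) * g * (τ : GQ)⁻¹) (f τ)) = f τ
    rw [hfix _ hcL, hfix g hgL]

end KE16
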