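import Pool.Agent.LibKE16.H05

/-!
# [KE16 H08] MEDIUM

Plan. H_rel: σ g = g (g⁻¹σg) in S (NN ≤ S): h(σ g) = f σ + gal σ (h g) and h(g·g⁻¹σg) = h g + gal g (f(g⁻¹σg)).
H_hat3: multiply H_rel by 3: gal σ (3 h g) = 3 h g for all σ ∈ NN, Tor, so 3 h g = 0 by H_A0.
H_uniq: D g := h' g - h g - (gal g P - P) is a cocycle on S vanishing on NN; H_rel for it: gal σ (D g) = D g; H_A0 (Tor is closed
under +, -, gal). H_lin: direct; continuity with L ⊔ L'. H_fix: gS_cl, difference cjS f - f is in B1 by H_rel with P = h g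
(QuotientAddGroup.eq). H_fix': the converse, unfold the quotient (QuotientAddGroup.eq, AddSubgroup.mem_addSubgroupOf).
-/

open WeierstrassCurve

namespace KE16

private theorem H08_tadd {P Q : Pt E0} (hP : Tor P) (hQ : Tor Q) : Tor (P + Q) := by
  obtain ⟨k, hk⟩ := hP
  obtain ⟨l, hl⟩ := hQ
  refine ⟨k + l, ?_⟩
  rw [nsmul_add, pow_add, mul_nsmul, hk, mul_comm (3 ^ k), mul_nsmul, hl]
  simp

private theorem H08_tneg {P : Pt E0} (hP : Tor P) : Tor (-P) := by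
  obtain ⟨k, hk⟩ := hP
  exact ⟨k, by rw [neg_nsmul, hk, neg_zero]⟩

private theorem H08_tsub {P Q : Pt E0} (hP : Tor P) (hQ : Tor Q) : Tor (P - Q) := by
  rw [sub_eq_add_neg]
  exact H08_tadd hP (H08_tneg hQ)

private theorem H08_tgal {P : Pt E0} (g : GQ) (hP : Tor P) : Tor (gal E0 g P) := by
  obtain ⟨k, hk⟩ := hP
  exact ⟨k, by rw [← map_nsmul, hk, map_zero]⟩

private theorem H08_tz {P : Pt E0} (a : ℤ) (hP : Tor P) : Tor (a • P) := by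
  obtain ⟨k, hk⟩ := hP
  exact ⟨k, by rw [smul_comm, hk, zsmul_zero]⟩

private theorem H08_rel (f : NN → Pt E0) (S : Subgroup GQ) (h : GQ → Pt E0) (hS : NN ≤ S)
    (hc : ∀ g ∈ S, ∀ g' ∈ S, h (g * g') = h g + gal E0 g (h g')) (hf : ∀ σ : NN, h σ = f σ)
    (g : GQ) (hg : g ∈ S) (σ : NN) :
    gal E0 g (f ⟨g⁻¹ * (σ : GQ) * g, Kmul_conj 3 193 g σ⟩) - f σ = gal E0 σ (h g) - h g := by
  have h1 := hc σ (hS σ.2) g hg
  have h2 := hc g hg (g⁻¹ * (σ : GQ) * g) (hS (Kmul_conj 3 193 g σ))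
  have h3 : g * (g⁻¹ * (σ : GQ) * g) = (σ : GQ) * g := by group
  have h4 := hf ⟨g⁻¹ * (σ : GQ) * g, Kmul_conj 3 193 g σ⟩
  have h4' : h (g⁻¹ * (σ : GQ) * g) = f ⟨g⁻¹ * (σ : GQ) * g, Kmul_conj 3 193 g σ⟩ := h4
  rw [h3, h1, h4', hf σ] at h2
  have h5 : gal E0 g (f ⟨g⁻¹ * (σ : GQ) * g, Kmul_conj 3 193 g σ⟩) =
      f σ + gal E0 σ (h g) - h g := by
    rw [h2]
    abel
  rw [h5]
  abel

/-- the relation between `h g` and `f` -/
theorem H_rel (f : NN → Pt E0) (S : Subgroup GQ) (h : GQ → Pt E0) (hh : IsHat f S h) (g : GQ)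
    (hg : g ∈ S) (σ : NN) :
    gal E0 g (f ⟨g⁻¹ * (σ : GQ) * g, Kmul_conj 3 193 g σ⟩) - f σ = gal E0 σ (h g) - h g := by
  obtain ⟨hS, -, hc, hf, -⟩ := hh
  exact H08_rel f S h hS hc hf g hg σ

theorem H_hat3 (f : NN → Pt E0) (S : Subgroup GQ) (h : GQ → Pt E0) (hh : IsHat f S h)
    (h3 : ∀ σ, 3 • f σ = 0) : ∀ g ∈ S, 3 • h g = 0 := by
  intro g hg
  refine H_A0 _ ?_ ?_
  · obtain ⟨k, hk⟩ := hh.2.1 g hg
    exact ⟨k, by rw [smul_comm, hk, nsmul_zero]⟩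
  · intro σ
    have h1 := H_rel f S h hh g hg σ
    have h2 := congrArg (fun P => 3 • P) h1
    simp only [nsmul_sub] at h2
    rw [← map_nsmul, h3, h3, map_zero, sub_zero, ← map_nsmul] at h2
    exact (sub_eq_zero.1 h2.symm)

/-- uniqueness -/
theorem H_uniq (f f' : NN → Pt E0) (S : Subgroup GQ) (h h' : GQ → Pt E0) (hh : IsHat f S h)
    (hh' : IsHat f' S h') (P : Pt E0) (hP : Tor P)
    (hf : ∀ σ : NN, f' σ = f σ + (gal E0 σ P - P)) : ∀ g ∈ S, h' g = h g + (gal E0 g P - P) := by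
  intro g hg
  obtain ⟨hS, ht, hc, hff, -⟩ := hh
  obtain ⟨-, ht', hc', hff', -⟩ := hh'
  have hD : ∀ g ∈ S, ∀ g' ∈ S, (fun g => h' g - h g - (gal E0 g P - P)) (g * g') =
      (fun g => h' g - h g - (gal E0 g P - P)) g +
        gal E0 g ((fun g => h' g - h g - (gal E0 g P - P)) g') := by
    intro g hg g' hg'
    simp only [map_sub]
    rw [hc g hg g' hg', hc' g hg g' hg', gal_mul]
    abel
  have h1 : ∀ σ : NN, gal E0 σ (h' g - h g - (gal E0 g P - P)) = h' g - h g - (gal E0 g P - P) := by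
    intro σ
    have h2 := H08_rel (fun _ => 0) S (fun g => h' g - h g - (gal E0 g P - P)) hS hD (by
      intro σ
      rw [hff σ, hff' σ, hf σ]
      abel) g hg σ
    simp only [map_zero, sub_zero] at h2
    exact (sub_eq_zero.1 h2.symm)
  have h3 := H_A0 _ (H08_tsub (H08_tsub (ht' g hg) (ht g hg)) (H08_tsub (H08_tgal g hP) hP)) h1
  have h4 : h' g = (h' g - h g - (gal E0 g P - P)) + (h g + (gal E0 g P - P)) := by abel
  rw [h4, h3, zero_add]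

theorem H_lin (f f' : NN → Pt E0) (S : Subgroup GQ) (h h' : GQ → Pt E0) (hh : IsHat f S h)
    (hh' : IsHat f' S h') (a b : ℤ) : IsHat (a • f + b • f') S (a • h + b • h') := by
  obtain ⟨hS, ht, hc, hff, L, hL, hLf⟩ := hh
  obtain ⟨-, ht', hc', hff', L', hL', hLf'⟩ := hh'
  refine ⟨hS, ?_, ?_, ?_, L ⊔ L', ?_, ?_⟩
  · intro g hg
    exact H08_tadd (H08_tz a (ht g hg)) (H08_tz b (ht' g hg))
  · intro g hg g' hg'
    simp only [Pi.add_apply, Pi.smul_apply]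
    rw [hc g hg g' hg', hc' g hg g' hg', map_add, map_zsmul, map_zsmul, zsmul_add, zsmul_add]
    abel
  · intro σ
    simp only [Pi.add_apply, Pi.smul_apply]
    rw [hff σ, hff' σ]
  · exact IntermediateField.finiteDimensional_sup L L'
  · intro g hg hx
    simp only [Pi.add_apply, Pi.smul_apply]
    rw [hLf g hg (fun x hxL => hx x ((le_sup_left : L ≤ L ⊔ L') hxL)),
      hLf' g hg (fun x hxL => hx x ((le_sup_right : L' ≤ L ⊔ L') hxL)), zsmul_zero, zsmul_zero,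
      add_zero]

/-- the class of `f` is fixed by `S` if `f` extends to `S` -/
theorem H_fix (f : SelZ E0 3 193) (S : Subgroup GQ) (h : GQ → Pt E0) (hh : IsHat f.1.1 S h) (g : GQ)
    (hg : g ∈ S) : gS E0 3 193 g (cl E0 3 193 f) = cl E0 3 193 f := by
  rw [gS_cl]
  refine (QuotientAddGroup.eq (s := ((B1 E0 3 193).addSubgroupOf (Z1 E0 3 193)).addSubgroupOf
    (SelZ E0 3 193))).2 ?_
  obtain ⟨k, hk⟩ := hh.2.1 g hg
  refine ⟨-(h g), ⟨k, by rw [neg_nsmul, hk, neg_zero]⟩, fun σ => ?_⟩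
  have h1 := H_rel f.1.1 S h hh g hg σ
  change -(gal E0 g (f.1.1 ⟨g⁻¹ * (σ : GQ) * g, Kmul_conj 3 193 g σ⟩)) + f.1.1 σ = _
  rw [map_neg]
  have h2 : -(gal E0 g (f.1.1 ⟨g⁻¹ * (σ : GQ) * g, Kmul_conj 3 193 g σ⟩)) + f.1.1 σ =
      -(gal E0 g (f.1.1 ⟨g⁻¹ * (σ : GQ) * g, Kmul_conj 3 193 g σ⟩) - f.1.1 σ) := by abel
  rw [h2, h1]
  abel

/-- a class fixed by `S` extends to `S` -/
theorem H_fix' (f : SelZ E0 3 193) (g : GQ)
    (h : gS E0 3 193 g (cl E0 3 193 f) = cl E0 3 193 f) :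
    cj E0 3 193 g f.1.1 - f.1.1 ∈ B1 E0 3 193 := by
  rw [gS_cl] at h
  have h1 := (QuotientAddGroup.eq (s := ((B1 E0 3 193).addSubgroupOf (Z1 E0 3 193)).addSubgroupOf
    (SelZ E0 3 193))).1 h
  obtain ⟨P, ⟨k, hk⟩, hP⟩ := h1
  refine ⟨-P, ⟨k, by rw [neg_nsmul, hk, neg_zero]⟩, fun σ => ?_⟩
  have h2 : -(cj E0 3 193 g f.1.1 σ) + f.1.1 σ = gal E0 σ P - P := hP σ
  rw [Pi.sub_apply, map_neg]
  have h3 : cj E0 3 193 g f.1.1 σ - f.1.1 σ = -(-(cj E0 3 193 g f.1.1 σ) + f.1.1 σ) := by abel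
  rw [h3, h2]
  abel

end KE16
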