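import Pool.Agent.LibKE16.H06
import Pool.Agent.LibKE16.H08

/-!
# [KE16 H09] MEDIUM

Plan. H_B1Z: σ ↦ gal σ P - P is a continuous cocycle (L = ℚ(coordinates of P)), torsion, and satisfies LocAt with Q = ι P:
map ι (gal σ P) = map τ (map ι P) (cases P). H_cl0: unfold quotient / B1. H_rep3: s = cl f0, 3 • f0 ∈ B1: 3 f0 = ∂P; by H_div
P = 3 P' with P' again Tor; f := f0 - ∂P' (H_B1Z).
-/

open WeierstrassCurve

namespace KE16

private theorem H09_loc (P : Pt E0) (q : ℕ) [Fact q.Prime] (ι : Qb →ₐ[ℚ] Cq q)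
    (τ : Cq q ≃ₐ[ℚ_[q]] Cq q) (σ : GQ) (h : ∀ x : Qb, ι (σ x) = τ (ι x)) :
    Affine.Point.map (W' := E0) (S := ℚ) ι (gal E0 σ P) =
      Affine.Point.map (W' := E0) (S := ℚ) ((τ : Cq q →ₐ[ℚ_[q]] Cq q).restrictScalars ℚ)
        (Affine.Point.map (W' := E0) (S := ℚ) ι P) := by
  cases P with
  | zero => rfl
  | some x y hxy =>
    change Affine.Point.some (ι (σ x)) (ι (σ y)) _ = Affine.Point.some (τ (ι x)) (τ (ι y)) _
    congr 1
    · exact h x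
    · exact h y

private theorem H09_cont (P : Pt E0) : ∃ L : IntermediateField ℚ Qb, FiniteDimensional ℚ L ∧
    ∀ g : GQ, (∀ x ∈ L, g x = x) → gal E0 g P = P := by
  cases P with
  | zero => exact ⟨⊥, inferInstance, fun g _ => rfl⟩
  | some x y hxy =>
    refine ⟨IntermediateField.adjoin ℚ {x, y}, ?_, fun g hg => ?_⟩
    · refine IntermediateField.finiteDimensional_adjoin ?_
      intro z _
      exact ((AlgebraicClosure.isAlgebraic ℚ).isAlgebraic z).isIntegral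
    · have hx : g x = x := hg x (IntermediateField.subset_adjoin ℚ _ (by simp))
      have hy : g y = y := hg y (IntermediateField.subset_adjoin ℚ _ (by simp))
      change Affine.Point.some (g x) (g y) _ = Affine.Point.some x y _
      congr 1

theorem H_B1Z (P : Pt E0) (hP : Tor P) : ∃ f : SelZ E0 3 193, (∀ σ : NN, f.1.1 σ = gal E0 σ P - P) ∧
    cl E0 3 193 f = 0 := by
  have hZ : (fun σ : NN => gal E0 σ P - P) ∈ Z1 E0 3 193 := by
    obtain ⟨L, hL, hLP⟩ := H09_cont P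
    refine ⟨fun σ τ => ?_, fun σ => ?_, L, hL, fun σ hσ => ?_⟩
    · change gal E0 ((σ : GQ) * (τ : GQ)) P - P = (gal E0 σ P - P) + gal E0 σ (gal E0 τ P - P)
      rw [gal_mul, map_sub]
      abel
    · obtain ⟨k, hk⟩ := hP
      exact ⟨k, by rw [nsmul_sub, ← map_nsmul, hk, map_zero, sub_zero]⟩
    · change gal E0 σ P - P = 0
      rw [hLP σ hσ, sub_self]
  have hS : (⟨fun σ : NN => gal E0 σ P - P, hZ⟩ : Z1 E0 3 193) ∈ SelZ E0 3 193 := by
    intro q _ ι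
    refine ⟨Affine.Point.map (W' := E0) (S := ℚ) ι P, fun τ σ h => ?_⟩
    change Affine.Point.map (W' := E0) (S := ℚ) ι (gal E0 σ P - P) = _
    rw [map_sub, H09_loc P q ι τ σ h]
  refine ⟨⟨_, hS⟩, fun σ => rfl, ?_⟩
  refine (QuotientAddGroup.eq_zero_iff (N := ((B1 E0 3 193).addSubgroupOf
    (Z1 E0 3 193)).addSubgroupOf (SelZ E0 3 193)) _).2 ?_
  exact ⟨P, hP, fun σ => rfl⟩

theorem H_cl0 (f : SelZ E0 3 193) (h : cl E0 3 193 f = 0) :
    ∃ P : Pt E0, Tor P ∧ ∀ σ : NN, f.1.1 σ = gal E0 σ P - P := by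
  have h1 := (QuotientAddGroup.eq_zero_iff (N := ((B1 E0 3 193).addSubgroupOf
    (Z1 E0 3 193)).addSubgroupOf (SelZ E0 3 193)) f).1 h
  obtain ⟨P, hk, hP⟩ := h1
  exact ⟨P, hk, hP⟩

theorem H_cl0' (f : SelZ E0 3 193) (P : Pt E0) (hP : Tor P)
    (h : ∀ σ : NN, f.1.1 σ = gal E0 σ P - P) : cl E0 3 193 f = 0 := by
  refine (QuotientAddGroup.eq_zero_iff (N := ((B1 E0 3 193).addSubgroupOf
    (Z1 E0 3 193)).addSubgroupOf (SelZ E0 3 193)) f).2 ?_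
  exact ⟨P, hP, h⟩

theorem H_rep3 (s : Sel E0 3 193) (h : 3 • s = 0) :
    ∃ f : SelZ E0 3 193, cl E0 3 193 f = s ∧ ∀ σ, 3 • f.1.1 σ = 0 := by
  obtain ⟨f0, hf0⟩ : ∃ f0 : SelZ E0 3 193, cl E0 3 193 f0 = s :=
    QuotientAddGroup.mk'_surjective _ s
  have h1 : cl E0 3 193 (3 • f0) = 0 := by rw [map_nsmul, hf0, h]
  obtain ⟨P, hP, hP'⟩ := H_cl0 _ h1
  obtain ⟨Q, hQ⟩ := H_div P hP
  have hQt : Tor Q := by
    obtain ⟨k, hk⟩ := hP
    refine ⟨k + 1, ?_⟩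
    rw [pow_succ', mul_nsmul, hQ, hk]
  obtain ⟨g, hg, hg0⟩ := H_B1Z Q hQt
  refine ⟨f0 - g, by rw [map_sub, hf0, hg0, sub_zero], fun σ => ?_⟩
  have h2 : (f0 - g).1.1 σ = f0.1.1 σ - g.1.1 σ := rfl
  have h3 : 3 • f0.1.1 σ = gal E0 σ P - P := hP' σ
  rw [h2, nsmul_sub, h3, hg σ, nsmul_sub, ← map_nsmul, hQ, sub_self]

end KE16
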