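import Pool.Agent.LibKE16.FG05
import Pool.Agent.LibKE16.FG08
import Pool.Agent.LibKE16.FG09
import Pool.Agent.LibKE16.FG11
import Pool.Agent.LibKE16.FG12
import Pool.Agent.LibKE16.FG15
import Pool.Agent.LibKE16.FG16
import Pool.Agent.LibKE16.H09
import Pool.Agent.LibKE16.H07
import Pool.Agent.LibKE16.H08

/-! # [KE16 FG17] assembly: `X` is finitely generated (helper21) -/

open WeierstrassCurve

namespace KE16

theorem FG_data (s : Sel E0 3 193) (hs : InS s) : ∃ f : SelZ E0 3 193, cl E0 3 193 f = s ∧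
    ∃ h : GQ → Pt E0, IsHat f.1.1 GP h ∧ (∀ g ∈ GP, 3 • h g = 0) ∧ ∃ θ θ' : Qb, Kum h θ θ' := by
  obtain ⟨f, hf, h3⟩ := H_rep3 s hs.1
  obtain ⟨h, hh⟩ := H_hat f.1.1 f.1.2 GP NN_le_GP (by
    intro g hg
    exact H_fix' f g (by rw [hf]; exact hs.2 g hg))
  have h3' := H_hat3 f.1.1 GP h hh h3
  obtain ⟨-, h2, h4, h5, L, hL, hL'⟩ := id hh
  obtain ⟨θ, θ', hK⟩ := FG_kum h (fun g hg g' hg' => h4 g (GF_le hg) g' (GF_le hg'))
    (fun g hg => h3' g (GF_le hg)) ⟨L, hL, fun g hg => hL' g (GF_le hg)⟩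
  exact ⟨f, hf, h, hh, h3', θ, θ', hK⟩

theorem FG_fin : {s : Sel E0 3 193 | InS s}.Finite := by
  classical
  obtain ⟨S, hS⟩ := FG_val
  obtain ⟨R, hRf, hR⟩ := FG_Kfin (S ∪ {2, 3, 193})
  obtain ⟨T, hTf, hT1, hT2⟩ := FF_rep
  have hE := FG_E3
  have main : ∀ (f : SelZ E0 3 193) (h : GQ → Pt E0), IsHat f.1.1 GP h → ∀ θ : Qb, θ ≠ 0 →
      θ ^ 3 ∈ FF → (∀ g ∈ GF, h g = 0 → g θ = θ) → ∃ r ∈ R, r ≠ 0 ∧ ∃ β ∈ FF, θ ^ 3 = r * β ^ 3 := by
    intro f h hh θ h0 hθ3 hθ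
    refine hR (θ ^ 3) hθ3 (pow_ne_zero 3 h0) ?_
    intro q _ hq ι
    have hqS : q ∉ S := fun h => hq (Finset.mem_union_left _ h)
    have h2 : q ≠ 2 := by rintro rfl; exact hq (Finset.mem_union_right _ (by simp))
    have h3 : q ≠ 3 := by rintro rfl; exact hq (Finset.mem_union_right _ (by simp))
    have h193 : q ≠ 193 := by rintro rfl; exact hq (Finset.mem_union_right _ (by simp))
    obtain ⟨τ, hτ, hmove⟩ := L_tame (q := q) h3
    exact FG_vgood h3 ι τ hτ hmove θ h0 (hS q hqS ι (θ ^ 3) hθ3 (pow_ne_zero 3 h0))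
      (FG_good h2 h3 h193 f h hh θ hθ ι τ hτ) FF
  have key : ∀ s : {s : Sel E0 3 193 // InS s}, ∃ (f : SelZ E0 3 193) (h : GQ → Pt E0)
      (θ θ' r r' β β' : Qb), cl E0 3 193 f = s ∧ IsHat f.1.1 GP h ∧ (∀ g ∈ GP, 3 • h g = 0) ∧
      Kum h θ θ' ∧ r ∈ R ∧ r' ∈ R ∧ β ∈ FF ∧ β' ∈ FF ∧ θ ^ 3 = r * β ^ 3 ∧ θ' ^ 3 = r' * β' ^ 3 := by
    rintro ⟨s, hs⟩
    obtain ⟨f, hf, h, hh, h3, θ, θ', hK⟩ := FG_data s hs
    obtain ⟨h0, h0', hθ, hθ', hK'⟩ := id hK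
    obtain ⟨r, hr, -, β, hβ, e⟩ := main f h hh θ h0 hθ (fun g hg hg0 => by
      have := (hK' g hg 0 0 (by rw [hg0]; simp)).1
      simpa using this)
    obtain ⟨r', hr', -, β', hβ', e'⟩ := main f h hh θ' h0' hθ' (fun g hg hg0 => by
      have := (hK' g hg 0 0 (by rw [hg0]; simp)).2
      simpa using this)
    exact ⟨f, h, θ, θ', r, r', β, β', hf, hh, h3, hK, hr, hr', hβ, hβ', e, e'⟩
  choose f h θ θ' r r' β β' hf hh h3 hK hr hr' hβ hβ' e e' using key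
  have : Finite R := hRf
  have : Finite T := hTf
  have : Finite {P : Pt E0 | 3 • P = 0} := hE
  let Φ : {s : Sel E0 3 193 // InS s} → R × R × (T → {P : Pt E0 | 3 • P = 0}) := fun s =>
    (⟨r s, hr s⟩, ⟨r' s, hr' s⟩, fun g => ⟨h s g, h3 s g (hT1 g g.2)⟩)
  have hinj : Function.Injective Φ := by
    intro s t hst
    have hr1 : r s = r t := congrArg (fun x => (x.1 : Qb)) hst
    have hr2 : r' s = r' t := congrArg (fun x => (x.2.1 : Qb)) hst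
    have hT' : ∀ g ∈ T, h s g = h t g := by
      intro g hg
      have := congrArg (fun x => ((x.2.2 ⟨g, hg⟩ : {P : Pt E0 | 3 • P = 0}) : Pt E0)) hst
      exact this
    have hdet := FG_det (h s) (h t) (fun g hg => h3 s g (GF_le hg)) (fun g hg => h3 t g (GF_le hg))
      (θ s) (θ' s) (θ t) (θ' t) (hK s) (hK t) (r s) (r' s) (β s) (β' s) (β t) (β' t) (hβ s) (hβ' s)
      (hβ t) (hβ' t) (e s) (e' s) (by rw [e t, hr1]) (by rw [e' t, hr2])
    have hGP : ∀ g ∈ GP, h s g = h t g := by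
      intro g hg
      obtain ⟨g0, hg0, σ, hσ, rfl⟩ := hT2 g hg
      rw [(hh s).2.2.1 g0 (hT1 g0 hg0) σ (GF_le hσ), (hh t).2.2.1 g0 (hT1 g0 hg0) σ (GF_le hσ),
        hT' g0 hg0, hdet σ hσ]
    have hff : f s = f t := by
      apply Subtype.ext
      apply Subtype.ext
      funext σ
      rw [← (hh s).2.2.2.1 σ, ← (hh t).2.2.2.1 σ]
      exact hGP σ (NN_le_GP σ.2)
    apply Subtype.ext
    rw [← hf s, ← hf t, hff]
  exact Set.finite_coe_iff.mp (Finite.of_injective Φ hinj)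

/-- `X` is finitely generated -/
theorem FG_main (inst : Module (Iw 3 193) (Sel E0 3 193))
    (hinst : ∀ (r : Iw 3 193) (s : Sel E0 3 193), IsAct E0 3 193 r s (r • s)) :
    Module.Finite (Iw 3 193) (CharacterModule (Sel E0 3 193)) :=
  FG_red inst hinst FG_fin

end KE16
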