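import Pool.Agent.LibKE16.HDefs

/-!
# [KE16 H04] MEDIUM

Plan. The elements fixed by all automorphisms which fix `s` are `a + b s` with rational `a, b`;
`u`, `v` and `u v` are not of this form (`6` is not a square in `ℚ(s)`, norms), so the homomorphism
`g ↦ (g u / u, g v / v)` on the stabiliser of `s` is onto `{±1}²`.
-/

open WeierstrassCurve

namespace KE16

private theorem galQb : IsGalois ℚ Qb := by
  have h0 : IsAlgClosure ℚ Qb :=
    @id (@IsAlgClosure ℚ (AlgebraicClosure ℚ) _ _ (AlgebraicClosure.instAlgebra ℚ) _) inferInstance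
  have h1 : Algebra.IsAlgebraic ℚ Qb := h0.isAlgebraic
  have h2 : Normal ℚ Qb := IsAlgClosure.normal ℚ Qb
  exact ⟨⟩

private theorem rat_of_fixed (x : Qb) (h : ∀ g : GQ, g x = x) : ∃ a : ℚ, x = (a : Qb) := by
  have := galQb
  have := (InfiniteGalois.mem_bot_iff_fixed (k := ℚ) (K := Qb) x).mpr h
  obtain ⟨a, ha⟩ := IntermediateField.mem_bot.mp this
  exact ⟨a, by rw [← ha]; simp⟩

private theorem nosq (q : ℚ) (n : ℕ) (hn : ¬ IsSquare n) (h : q ^ 2 = n) : False := by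
  apply hn
  rw [← Rat.isSquare_natCast_iff]
  exact ⟨q, by rw [← h]; ring⟩

private theorem s_irr (a : ℚ) : r0.s ≠ (a : Qb) := by
  intro h
  have h1 := r0.hs
  rw [h] at h1
  have h2 : a ^ 2 = -2 := by
    have : ((a ^ 2 : ℚ) : Qb) = ((-2 : ℚ) : Qb) := by push_cast; exact h1
    exact_mod_cast this
  nlinarith [sq_nonneg a]

theorem H_g3 : ∃ g : GQ, g r0.s = -r0.s := by
  by_contra hcon
  push Not at hcon
  obtain ⟨a, ha⟩ := rat_of_fixed r0.s (by
    intro g
    have h1 : (g r0.s) ^ 2 = r0.s ^ 2 := by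
      rw [← map_pow, r0.hs, map_neg, map_ofNat]
    rcases sq_eq_sq_iff_eq_or_eq_neg.mp h1 with h | h
    · exact h
    · exact absurd h (hcon g))
  exact s_irr a ha

private theorem s_ne : r0.s ≠ 0 := by
  intro h
  have := s_irr 0
  apply this
  rw [h]; simp

private theorem indep (a b : ℚ) (h : (a : Qb) + (b : Qb) * r0.s = 0) : a = 0 ∧ b = 0 := by
  by_cases hb : b = 0
  · subst hb
    simp only [Rat.cast_zero, zero_mul, add_zero] at h
    exact ⟨by exact_mod_cast h, rfl⟩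
  · exfalso
    have hb' : (b : Qb) ≠ 0 := by exact_mod_cast hb
    apply s_irr (-a / b)
    push_cast
    field_simp
    linear_combination h

private theorem fixK (x : Qb) (h : ∀ g : GQ, g r0.s = r0.s → g x = x) :
    ∃ a b : ℚ, x = (a : Qb) + (b : Qb) * r0.s := by
  obtain ⟨t, ht⟩ := H_g3
  have ht' : t⁻¹ r0.s = -r0.s := by
    have : t⁻¹ (t r0.s) = r0.s := AlgEquiv.symm_apply_apply t _
    rw [ht, map_neg] at this
    linear_combination -this
  have hs2 : ∀ g : GQ, g r0.s = r0.s ∨ g r0.s = -r0.s := by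
    intro g
    have h1 : (g r0.s) ^ 2 = r0.s ^ 2 := by
      rw [← map_pow, r0.hs, map_neg, map_ofNat]
    exact sq_eq_sq_iff_eq_or_eq_neg.mp h1
  -- action on x and t x
  have A : ∀ g : GQ, g r0.s = r0.s → g (t x) = t x := by
    intro g hg
    have h1 := h (t⁻¹ * g * t) (by
      change t⁻¹ (g (t r0.s)) = r0.s
      rw [ht, map_neg, hg, map_neg, ht', neg_neg])
    have h2 : t ((t⁻¹ * g * t) x) = t x := by rw [h1]
    change t (t⁻¹ (g (t x))) = t x at h2
    rwa [show t (t⁻¹ (g (t x))) = g (t x) from AlgEquiv.apply_symm_apply t _] at h2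
  have B : ∀ g : GQ, g r0.s = -r0.s → g x = t x ∧ g (t x) = x := by
    intro g hg
    constructor
    · have h1 := h (t⁻¹ * g) (by
        change t⁻¹ (g r0.s) = r0.s
        rw [hg, map_neg, ht', neg_neg])
      have h2 : t ((t⁻¹ * g) x) = t x := by rw [h1]
      change t (t⁻¹ (g x)) = t x at h2
      rwa [show t (t⁻¹ (g x)) = g x from AlgEquiv.apply_symm_apply t _] at h2
    · exact h (g * t) (by
        change g (t r0.s) = r0.s
        rw [ht, map_neg, hg, neg_neg])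
  obtain ⟨a, ha⟩ := rat_of_fixed (x + t x) (by
    intro g
    rcases hs2 g with hg | hg
    · rw [map_add, h g hg, A g hg]
    · rw [map_add, (B g hg).1, (B g hg).2, add_comm])
  obtain ⟨b, hb⟩ := rat_of_fixed ((x - t x) / r0.s) (by
    intro g
    rcases hs2 g with hg | hg
    · rw [map_div₀, map_sub, h g hg, A g hg, hg]
    · rw [map_div₀, map_sub, (B g hg).1, (B g hg).2, hg, div_neg, ← neg_div]
      ring)
  refine ⟨a / 2, b / 2, ?_⟩
  have hb' : x - t x = b * r0.s := by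
    rw [← hb]; field_simp [s_ne]
  push_cast
  linear_combination ha / 2 + hb' / 2

private theorem six : ¬ IsSquare 6 := by
  rintro ⟨r, hr⟩
  have h1 : r ≤ 2 := by nlinarith
  interval_cases r <;> omega

private theorem u_not (h : ∀ g : GQ, g r0.s = r0.s → g r0.u = r0.u) : False := by
  obtain ⟨a, b, hab⟩ := fixK _ h
  have h1 := r0.hu
  rw [hab] at h1
  have h2 : ((a ^ 2 - 2 * b ^ 2 + 2 : ℚ) : Qb) + ((2 * a * b + 1 : ℚ) : Qb) * r0.s = 0 := by
    push_cast
    linear_combination h1 - (b : Qb) ^ 2 * r0.hs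
  obtain ⟨e1, e2⟩ := indep _ _ h2
  apply nosq (a ^ 2 + 2 * b ^ 2) 6 six
  push_cast
  linear_combination (a ^ 2 - 2 * b ^ 2 - 2) * e1 + (2 * (2 * a * b - 1)) * e2

private theorem v_not (h : ∀ g : GQ, g r0.s = r0.s → g r0.v = r0.v) : False := by
  obtain ⟨a, b, hab⟩ := fixK _ h
  have h1 := r0.hv
  rw [hab] at h1
  have h2 : ((a ^ 2 - 2 * b ^ 2 + 2 : ℚ) : Qb) + ((2 * a * b - 1 : ℚ) : Qb) * r0.s = 0 := by
    push_cast
    linear_combination h1 - (b : Qb) ^ 2 * r0.hs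
  obtain ⟨e1, e2⟩ := indep _ _ h2
  apply nosq (a ^ 2 + 2 * b ^ 2) 6 six
  push_cast
  linear_combination (a ^ 2 - 2 * b ^ 2 - 2) * e1 + (2 * (2 * a * b + 1)) * e2

private theorem uv_not (h : ∀ g : GQ, g r0.s = r0.s → g (r0.u * r0.v) = r0.u * r0.v) : False := by
  obtain ⟨a, b, hab⟩ := fixK _ h
  have h1 : (r0.u * r0.v) ^ 2 = 6 := by
    rw [mul_pow, r0.hu, r0.hv]
    linear_combination -r0.hs
  rw [hab] at h1
  have h2 : ((a ^ 2 - 2 * b ^ 2 - 6 : ℚ) : Qb) + ((2 * a * b : ℚ) : Qb) * r0.s = 0 := by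
    push_cast
    linear_combination h1 - (b : Qb) ^ 2 * r0.hs
  obtain ⟨e1, e2⟩ := indep _ _ h2
  have h3 : a = 0 ∨ b = 0 := by
    rcases mul_eq_zero.mp e2 with h4 | h4
    · left
      rcases mul_eq_zero.mp h4 with h5 | h5
      · norm_num at h5
      · exact h5
    · right; exact h4
  rcases h3 with h3 | h3
  · rw [h3] at e1
    nlinarith [sq_nonneg b]
  · rw [h3] at e1
    apply nosq a 6 six
    push_cast
    linear_combination e1

private theorem sg (g : GQ) (hg : g r0.s = r0.s) :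
    (g r0.u = r0.u ∨ g r0.u = -r0.u) ∧ (g r0.v = r0.v ∨ g r0.v = -r0.v) := by
  constructor
  · apply sq_eq_sq_iff_eq_or_eq_neg.mp
    rw [← map_pow, r0.hu, map_sub, hg, map_neg, map_ofNat]
  · apply sq_eq_sq_iff_eq_or_eq_neg.mp
    rw [← map_pow, r0.hv, map_sub, hg, map_ofNat]

private theorem ex1 : ∃ g : GQ, g r0.s = r0.s ∧ g r0.u = -r0.u := by
  by_contra hcon
  push Not at hcon
  apply u_not
  intro g hg
  rcases (sg g hg).1 with h | h
  · exact h
  · exact absurd h (hcon g hg)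

private theorem ex2 : ∃ g : GQ, g r0.s = r0.s ∧ g r0.v = -r0.v := by
  by_contra hcon
  push Not at hcon
  apply v_not
  intro g hg
  rcases (sg g hg).2 with h | h
  · exact h
  · exact absurd h (hcon g hg)

private theorem ex3 : ∃ g : GQ, g r0.s = r0.s ∧ ((g r0.u = -r0.u ∧ g r0.v = r0.v) ∨
    (g r0.u = r0.u ∧ g r0.v = -r0.v)) := by
  by_contra hcon
  push Not at hcon
  apply uv_not
  intro g hg
  obtain ⟨h1, h2⟩ := hcon g hg
  rcases (sg g hg).1 with hu | hu <;> rcases (sg g hg).2 with hv | hv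
  · rw [map_mul, hu, hv]
  · exact absurd hv (h2 hu)
  · exact absurd hv (h1 hu)
  · rw [map_mul, hu, hv]; ring

private theorem both : (∃ g : GQ, g r0.s = r0.s ∧ g r0.u = -r0.u ∧ g r0.v = r0.v) ∧
    (∃ g : GQ, g r0.s = r0.s ∧ g r0.u = r0.u ∧ g r0.v = -r0.v) := by
  obtain ⟨a, as, au⟩ := ex1
  obtain ⟨b, bs, bv⟩ := ex2
  obtain ⟨c, cs, hc⟩ := ex3
  have mul : ∀ g h : GQ, g r0.s = r0.s → h r0.s = r0.s → (g * h) r0.s = r0.s := by
    intro g h hg hh
    change g (h r0.s) = _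
    rw [hh, hg]
  rcases hc with ⟨cu, cv⟩ | ⟨cu, cv⟩
  · refine ⟨⟨c, cs, cu, cv⟩, ?_⟩
    rcases (sg b bs).1 with bu | bu
    · exact ⟨b, bs, bu, bv⟩
    · refine ⟨b * c, mul b c bs cs, ?_, ?_⟩
      · change b (c r0.u) = _
        rw [cu, map_neg, bu, neg_neg]
      · change b (c r0.v) = _
        rw [cv, bv]
  · refine ⟨?_, ⟨c, cs, cu, cv⟩⟩
    rcases (sg a as).2 with av | av
    · exact ⟨a, as, au, av⟩
    · refine ⟨a * c, mul a c as cs, ?_, ?_⟩
      · change a (c r0.u) = _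
        rw [cu, au]
      · change a (c r0.v) = _
        rw [cv, map_neg, av, neg_neg]

/-- the Galois group of `ℚ(u,v)` is big enough -/
theorem H_g1 : ∃ g : GQ, g r0.s = r0.s ∧ g r0.u = -r0.u ∧ g r0.v = r0.v := both.1

theorem H_g2 : ∃ g : GQ, g r0.s = r0.s ∧ g r0.u = r0.u ∧ g r0.v = -r0.v := both.2

end KE16
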