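import Pool.Agent.LibKE16.H02
import Pool.Agent.LibKE16.H03
import Pool.Agent.LibKE16.H04

/-!
# [KE16 H30] MEDIUM

Plan. By `H_T3` `P = a PA + b PB`. If `3 ∣ a` (then `3 ∤ b`) or `3 ∣ b`: take `η` of `H_g3` (`η s = -s`),
`H_act`: `η PB = ±PA`, `η PA = ±PB`, so `η P = ± P` contradicts `H_T4`. If `3 ∤ a`, `3 ∤ b`: take `g1` of `H_g1`
(`ε = -1`, `δ = 1`): `g1 P = a PA - b PB`, not `±P` by `H_T4`.
-/

open WeierstrassCurve

namespace KE16

/-- `E[3]` is irreducible: no line is stable under the Galois group -/
theorem H_irr (P : Pt E0) (h3 : 3 • P = 0) (h0 : P ≠ 0) :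
    ∃ g : GQ, gal E0 g P ≠ P ∧ gal E0 g P ≠ -P := by
  obtain ⟨a, b, rfl⟩ := H_T3 r0 P h3
  have hA := (H_T1 r0).1
  have hB := (H_T1 r0).2
  have zA : ∀ c : ℤ, 3 ∣ c → c • PA r0 = 0 := by
    rintro c ⟨k, rfl⟩
    rw [mul_comm, mul_smul]
    have : (3 : ℤ) • PA r0 = 0 := by exact_mod_cast hA
    rw [this, smul_zero]
  have zB : ∀ c : ℤ, 3 ∣ c → c • PB r0 = 0 := by
    rintro c ⟨k, rfl⟩
    rw [mul_comm, mul_smul]
    have : (3 : ℤ) • PB r0 = 0 := by exact_mod_cast hB
    rw [this, smul_zero]
  have hsu : r0.s ≠ -r0.s := by
    intro h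
    have h1 : r0.s = 0 := by
      have : (2 : Qb) * r0.s = 0 := by linear_combination h
      simpa using this
    have := r0.hs
    rw [h1] at this
    norm_num at this
  by_cases ha : (3 : ℤ) ∣ a
  · have hb : ¬ (3 : ℤ) ∣ b := by
      intro hb; exact h0 (by rw [zA a ha, zB b hb, add_zero])
    obtain ⟨g, hg⟩ := H_g3
    rcases H_act g with ⟨hs, _⟩ | ⟨hs, ε, δ, hu, hv, gA, gB, _⟩
    · exact absurd (hs.symm.trans hg) hsu
    refine ⟨g, ?_, ?_⟩
    · intro h
      rw [map_add, map_zsmul, map_zsmul, gA, gB, zA a ha, zero_add] at h
      have h' : (b * (ε : ℤ)) • PA r0 + (a * (δ : ℤ) - b) • PB r0 = 0 := by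
        rw [sub_smul, mul_smul, mul_smul, ← sub_eq_zero.mpr h]
        abel
      have := (H_T4 r0 _ _ h').1
      rcases Int.units_eq_one_or ε with rfl | rfl
      · exact hb (by simpa using this)
      · exact hb (by simpa using this)
    · intro h
      rw [map_add, map_zsmul, map_zsmul, gA, gB, zA a ha, zero_add] at h
      have h' : (b * (ε : ℤ)) • PA r0 + (a * (δ : ℤ) + b) • PB r0 = 0 := by
        rw [add_smul, mul_smul, mul_smul, ← sub_eq_zero.mpr h]
        abel
      have := (H_T4 r0 _ _ h').1
      rcases Int.units_eq_one_or ε with rfl | rfl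
      · exact hb (by simpa using this)
      · exact hb (by simpa using this)
  · by_cases hb : (3 : ℤ) ∣ b
    · obtain ⟨g, hg⟩ := H_g3
      rcases H_act g with ⟨hs, _⟩ | ⟨hs, ε, δ, hu, hv, gA, gB, _⟩
      · exact absurd (hs.symm.trans hg) hsu
      refine ⟨g, ?_, ?_⟩
      · intro h
        rw [map_add, map_zsmul, map_zsmul, gA, gB, zB b hb, add_zero] at h
        have h' : (b * (ε : ℤ) - a) • PA r0 + (a * (δ : ℤ)) • PB r0 = 0 := by
          rw [sub_smul, mul_smul, mul_smul, ← sub_eq_zero.mpr h]
          abel
        have := (H_T4 r0 _ _ h').2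
        rcases Int.units_eq_one_or δ with rfl | rfl
        · exact ha (by simpa using this)
        · exact ha (by simpa using this)
      · intro h
        rw [map_add, map_zsmul, map_zsmul, gA, gB, zB b hb, add_zero] at h
        have h' : (b * (ε : ℤ) + a) • PA r0 + (a * (δ : ℤ)) • PB r0 = 0 := by
          rw [add_smul, mul_smul, mul_smul, ← sub_eq_zero.mpr h]
          abel
        have := (H_T4 r0 _ _ h').2
        rcases Int.units_eq_one_or δ with rfl | rfl
        · exact ha (by simpa using this)
        · exact ha (by simpa using this)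
    · obtain ⟨g, hgs, hgu, hgv⟩ := H_g1
      have hu0 : r0.u ≠ 0 := by
        intro h
        have h1 := r0.hu
        rw [h] at h1
        have h2 : r0.s = -2 := by linear_combination h1
        have h3 := r0.hs
        rw [h2] at h3
        norm_num at h3
      have hv0 : r0.v ≠ 0 := by
        intro h
        have h1 := r0.hv
        rw [h] at h1
        have h2 : r0.s = 2 := by linear_combination -h1
        have h3 := r0.hs
        rw [h2] at h3
        norm_num at h3
      rcases H_act g with ⟨hs, ε, δ, hu, hv, gA, gB, _⟩ | ⟨hs, _⟩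
      · have hε : ε = -1 := by
          rcases Int.units_eq_one_or ε with rfl | rfl
          · exfalso
            rw [hgu] at hu
            have : (2 : Qb) * r0.u = 0 := by
              push_cast at hu
              simp at hu
              linear_combination -hu
            simp [hu0] at this
          · rfl
        have hδ : δ = 1 := by
          rcases Int.units_eq_one_or δ with rfl | rfl
          · rfl
          · exfalso
            rw [hgv] at hv
            have : (2 : Qb) * r0.v = 0 := by
              push_cast at hv
              simp at hv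
              linear_combination hv
            simp [hv0] at this
        subst hε hδ
        have gA' : gal E0 g (PA r0) = PA r0 := by
          rw [gA]; exact one_smul ℤ _
        have gB' : gal E0 g (PB r0) = -PB r0 := by
          rw [gB]; exact neg_one_smul ℤ _
        refine ⟨g, ?_, ?_⟩
        · intro h
          rw [map_add, map_zsmul, map_zsmul, gA', gB', zsmul_neg] at h
          have h' : (0 : ℤ) • PA r0 + (-(2 * b)) • PB r0 = 0 := by
            have := sub_eq_zero.mpr h
            rw [← this]
            simp only [neg_smul, zero_smul, mul_smul, two_smul]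
            abel
          have := (H_T4 r0 _ _ h').2
          omega
        · intro h
          rw [map_add, map_zsmul, map_zsmul, gA', gB', zsmul_neg] at h
          have h' : (2 * a) • PA r0 + (0 : ℤ) • PB r0 = 0 := by
            have := sub_eq_zero.mpr h
            rw [← this]
            simp only [neg_smul, zero_smul, mul_smul, two_smul]
            abel
          have := (H_T4 r0 _ _ h').1
          omega
      · exact absurd (hgs.symm.trans hs) hsu

end KE16
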