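import Pool.Agent.LibKE16.H29
import Pool.Agent.LibKE16.H30
import Pool.Agent.LibKE16.FG17
import Pool.Agent.LibKE16.Br2

/-! # The main theorem in terms of the statement layer -/

open WeierstrassCurve

namespace KE16

theorem br_main : ∃ _ : Module (IwT 3 193) (SelT E0 3 193),
    (∀ (r : IwT 3 193) (s : SelT E0 3 193), IsActT E0 3 193 r s (r • s)) ∧
    Module.Finite (IwT 3 193) (CharacterModule (SelT E0 3 193)) ∧
    ∀ x y : IwT 3 193, ¬ IsFitt (CharacterModule (SelT E0 3 193)) (Ideal.span {x, y}) := by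
  obtain ⟨inst, hinst⟩ := A_module
  have hsm := fun (r : IwT 3 193) (χ : CharacterModule (SelT E0 3 193)) ↦ eX_smul E0 3 193 inst r χ
  refine ⟨brMod E0 3 193 inst, ?_, ?_, ?_⟩
  · intro r s
    rw [isActT_iff]
    have h := hinst (rho 3 193 r) (eS E0 3 193 s)
    have e : eS E0 3 193 ((eS E0 3 193).symm (rho 3 193 r • eS E0 3 193 s)) =
        rho 3 193 r • eS E0 3 193 s := AddEquiv.apply_symm_apply _ _
    rw [← e] at h
    exact h
  · exact @fin_tr _ _ _ _ (rho 3 193) _ _ _ _ _
      (@CharacterModule.instModule _ _ _ _ (brMod E0 3 193 inst)) (eX E0 3 193) hsm (FG_main inst hinst)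
  · intro x y h
    have h' := @fitt_tr _ _ _ _ (rho 3 193) _ _ _ _ _
      (@CharacterModule.instModule _ _ _ _ (brMod E0 3 193 inst)) (eX E0 3 193) hsm _ h
    rw [Ideal.map_span, Set.image_pair] at h'
    exact H_final inst hinst _ _ h'

end KE16
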