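import Pool.Agent.LibKE16.CBase
import Pool.Agent.LibKE16.CDef
import Pool.Agent.LibKE16.C3

/-!
KE16, block A, row C5 (MEDIUM). An element of `GQ` with prescribed action on `μ_{3^∞}` and `μ_193`.

Plan: `X j := {d : GQ | CycAct 193 d b ∧ CycAct (3 ^ j) d (u j)}` is closed (`closed_eval`,
`isClosed_iInter`, written as an intersection over `ζ`), non-empty (`crt_surj` with `M = 193`,
`N = 3 ^ j`, `cyc_surj`, `cyc_dvd`), decreasing (`cyc_dvd` and `hu`: `CycAct (3 ^ (j+1)) d (u (j+1))` implies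
`CycAct (3 ^ j) d (u j)`). `IsCompact.nonempty_iInter_of_directed_nonempty_isCompact_isClosed`
or `IsCompact.nonempty_iInter_of_sequence_nonempty_isCompact_isClosed` with `compactGQ`.
-/

namespace KE16

private theorem C5_closed (N : ℕ) (a : (ZMod N)ˣ) : IsClosed {d : GQ | CycAct N d a} := by
  have h : {d : GQ | CycAct N d a} =
      ⋂ ζ : Qb, ⋂ _ : ζ ^ N = 1, {d : GQ | d ζ = ζ ^ (a : ZMod N).val} := by
    ext d
    simp only [Set.mem_setOf_eq, Set.mem_iInter, CycAct]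
  rw [h]
  exact isClosed_iInter fun ζ => isClosed_iInter fun _ => closed_eval _ _

theorem exists_d (b : (ZMod 193)ˣ) (u : ∀ j : ℕ, (ZMod (3 ^ j))ˣ)
    (hu : ∀ j, ZMod.unitsMap (pow_dvd_pow 3 (Nat.le_succ j)) (u (j + 1)) = u j) :
    ∃ d : GQ, CycAct 193 d b ∧ ∀ j, CycAct (3 ^ j) d (u j) := by
  have h1 := IsCompact.nonempty_iInter_of_sequence_nonempty_isCompact_isClosed
    (fun j : ℕ => {d : GQ | CycAct 193 d b} ∩ {d : GQ | CycAct (3 ^ j) d (u j)}) ?_ ?_ ?_ ?_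
  · obtain ⟨d, hd⟩ := h1
    rw [Set.mem_iInter] at hd
    exact ⟨d, (hd 0).1, fun j => (hd j).2⟩
  · rintro j d ⟨hd1, hd2⟩
    refine ⟨hd1, ?_⟩
    have h2 := cyc_dvd (pow_ne_zero _ (by norm_num)) (pow_dvd_pow 3 (Nat.le_succ j)) hd2
    rw [hu j] at h2
    exact h2
  · intro j
    have h3 : (3 ^ j : ℕ) ≠ 0 := pow_ne_zero _ (by norm_num)
    obtain ⟨a, ha1, ha2⟩ := crt_surj (M := 193) (N := 3 ^ j) (by norm_num) h3
      (Nat.Coprime.pow_right j (by norm_num)) b (u j)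
    obtain ⟨g, hg⟩ := cyc_surj (mul_ne_zero (by norm_num) h3) a
    refine ⟨g, ?_, ?_⟩
    · have h4 := cyc_dvd (mul_ne_zero (by norm_num) h3) (Dvd.intro _ rfl : 193 ∣ 193 * 3 ^ j) hg
      rw [ha1] at h4
      exact h4
    · have h4 := cyc_dvd (mul_ne_zero (by norm_num) h3) (Dvd.intro_left _ rfl : 3 ^ j ∣ 193 * 3 ^ j) hg
      rw [ha2] at h4
      exact h4
  · exact ((C5_closed _ _).inter (C5_closed _ _)).isCompact
  · intro j
    exact (C5_closed _ _).inter (C5_closed _ _)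

end KE16
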