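import Pool.Agent.LibKE16.Defs

/-! KE16, block A: `Qbar/ℚ` is algebraic, normal, Galois; `GQ` is compact (complete). Note: the instances
`Algebra.IsAlgebraic ℚ Qb`, `Normal ℚ Qb`, `IsGalois ℚ Qb` are NOT found by instance search without these. -/

namespace KE16

instance algQb : Algebra.IsAlgebraic ℚ Qb := AlgebraicClosure.isAlgebraic ℚ

instance normQb : Normal ℚ Qb :=
  normal_iff.mpr fun x => ⟨(AlgebraicClosure.isAlgebraic ℚ).isIntegral.1 x, IsAlgClosed.splits _⟩

instance galQb : IsGalois ℚ Qb where
  to_isSeparable := Algebra.IsAlgebraic.isSeparable_of_perfectField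
  to_normal := normQb

instance compactGQ : CompactSpace GQ := (inferInstance : CompactSpace (Gal(Qb/ℚ)))

theorem closed_eval (x y : Qb) : IsClosed {d : GQ | d x = y} := by
  by_cases h : ∃ d0 : GQ, d0 x = y
  · obtain ⟨d0, hd0⟩ := h
    have hfix : IsClosed ((MulAction.stabilizer GQ x : Subgroup GQ) : Set GQ) :=
      Subgroup.isClosed_of_isOpen _ (stabilizer_isOpen_of_isIntegral (K := ℚ) (L := Qb) x)
    have e : {d : GQ | d x = y} =
        (fun d => d0⁻¹ * d) ⁻¹' ((MulAction.stabilizer GQ x : Subgroup GQ) : Set GQ) := by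
      ext d
      constructor
      · intro h
        change d0⁻¹ (d x) = x
        have h' : d x = y := h
        rw [h', ← hd0]; exact AlgEquiv.symm_apply_apply d0 x
      · intro h
        have h' : d0⁻¹ (d x) = x := h
        have h2 : d0 (d0⁻¹ (d x)) = d0 x := by rw [h']
        change d x = y
        rw [← hd0, ← h2]
        exact (AlgEquiv.apply_symm_apply d0 (d x)).symm
    rw [e]
    exact hfix.preimage (continuous_const_mul _)
  · have e : {d : GQ | d x = y} = ∅ := by
      ext d; constructor
      · intro hd; exact (h ⟨d, hd⟩).elim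
      · intro hd; exact hd.elim
    rw [e]; exact isClosed_empty

end KE16
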