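import Pool.Agent.LibKE16.SDefs

/-!
# MP_3c6ab9: definitions (general part)

For a Weierstrass curve `W` over `ℚ`, a prime `p` and `m ≥ 1`:
`Kmul p m`   the group `Gal(Qbar / K_{m,∞})`, `K_{m,∞} = ⋃ ℚ(μ_{m pⁿ})`;
`Sel W p m`  the `p^∞`-Selmer group of `W` over `K_{m,∞}` (continuous cocycles modulo coboundaries);
`Iw p m`     the ring `ℛ_m = lim ℤ_p[(ℤ/m pⁿ)ˣ] = ℤ_p[[Gal(K_{m,∞}/ℚ)]]`;
`IsFitt X I` the module `X` is finitely generated with zeroth Fitting ideal `I`.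
-/

open WeierstrassCurve

namespace KE16

/-- the group `Gal(Qbar / K_{m,∞})`: automorphisms which fix all roots of unity of order dividing
some `m pⁿ` -/
def Kmul (p m : ℕ) : Subgroup GQ where
  carrier := {σ | ∀ (n : ℕ) (ζ : Qb), ζ ^ (m * p ^ n) = 1 → σ ζ = ζ}
  mul_mem' := by
    intro a b ha hb n ζ h
    rw [AlgEquiv.mul_apply, hb n ζ h, ha n ζ h]
  one_mem' := by intro n ζ _; rfl
  inv_mem' := by
    intro a ha n ζ h
    have := ha n ζ h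
    calc a⁻¹ ζ = a⁻¹ (a ζ) := by rw [this]
      _ = ζ := AlgEquiv.symm_apply_apply a ζ

/-- continuous cocycles of `Gal(Qbar / K_{m,∞})` with values in `E[p^∞]` (a cocycle is continuous iff
it vanishes on the elements which fix some finite extension of `ℚ`) -/
noncomputable def Z1 (W : WeierstrassCurve ℚ) (p m : ℕ) : AddSubgroup (Kmul p m → Pt W) where
  carrier := {f | (∀ σ τ, f (σ * τ) = f σ + gal W σ (f τ)) ∧ (∀ σ, ∃ k : ℕ, p ^ k • f σ = 0) ∧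
    ∃ L : IntermediateField ℚ Qb, FiniteDimensional ℚ L ∧
      ∀ σ : Kmul p m, (∀ x ∈ L, (σ : GQ) x = x) → f σ = 0}
  add_mem' := by
    rintro a b ⟨ha, ha', L, hL, hLa⟩ ⟨hb, hb', L', hL', hLb⟩
    refine ⟨?_, ?_, L ⊔ L', ?_, ?_⟩
    · intro σ τ
      simp only [Pi.add_apply, ha σ τ, hb σ τ, map_add]
      abel
    · intro σ
      obtain ⟨k, hk⟩ := ha' σ
      obtain ⟨l, hl⟩ := hb' σ
      refine ⟨k + l, ?_⟩
      rw [Pi.add_apply, nsmul_add, pow_add, mul_nsmul, hk, mul_comm (p ^ k), mul_nsmul, hl]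
      simp
    · exact IntermediateField.finiteDimensional_sup L L'
    · intro σ h
      rw [Pi.add_apply, hLa σ (fun x hx ↦ h x ((le_sup_left : L ≤ L ⊔ L') hx)),
        hLb σ (fun x hx ↦ h x ((le_sup_right : L' ≤ L ⊔ L') hx)), add_zero]
  zero_mem' := by
    refine ⟨?_, ?_, ⊥, inferInstance, ?_⟩
    · intro σ τ; simp
    · intro σ; exact ⟨0, by simp⟩
    · intro σ _; rfl
  neg_mem' := by
    rintro a ⟨ha, ha', L, hL, hLa⟩
    refine ⟨?_, ?_, L, hL, ?_⟩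
    · intro σ τ
      simp only [Pi.neg_apply, ha σ τ, map_neg]
      abel
    · intro σ
      obtain ⟨k, hk⟩ := ha' σ
      exact ⟨k, by rw [Pi.neg_apply, neg_nsmul, hk, neg_zero]⟩
    · intro σ h
      rw [Pi.neg_apply, hLa σ h, neg_zero]

/-- coboundaries -/
noncomputable def B1 (W : WeierstrassCurve ℚ) (p m : ℕ) : AddSubgroup (Kmul p m → Pt W) where
  carrier := {f | ∃ P : Pt W, (∃ k : ℕ, p ^ k • P = 0) ∧ ∀ σ, f σ = gal W σ P - P}
  add_mem' := by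
    rintro a b ⟨P, ⟨k, hk⟩, hP⟩ ⟨Q, ⟨l, hl⟩, hQ⟩
    refine ⟨P + Q, ⟨k + l, ?_⟩, ?_⟩
    · rw [nsmul_add, pow_add, mul_nsmul, hk, mul_comm (p ^ k), mul_nsmul, hl]
      simp
    · intro σ
      rw [Pi.add_apply, hP, hQ, map_add]
      abel
  zero_mem' := ⟨0, ⟨0, by simp⟩, fun σ ↦ by simp⟩
  neg_mem' := by
    rintro a ⟨P, ⟨k, hk⟩, hP⟩
    refine ⟨-P, ⟨k, by rw [neg_nsmul, hk, neg_zero]⟩, ?_⟩
    intro σ
    rw [Pi.neg_apply, hP, map_neg]
    abel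

/-- the local condition at a prime `q`: for every embedding `ι : Qbar → Qbar_q`, the restriction of the
cocycle to `Gal(Qbar_q / ℚ_q · ι K_{m,∞})` becomes a coboundary in `E(Qbar_q)` -/
def LocAt (W : WeierstrassCurve ℚ) (p m : ℕ) (f : Kmul p m → Pt W) (q : ℕ) [Fact q.Prime] : Prop :=
  ∀ ι : Qb →ₐ[ℚ] Cq q, ∃ Q : (W⁄(Cq q)).toAffine.Point,
    ∀ (τ : Cq q ≃ₐ[ℚ_[q]] Cq q) (σ : Kmul p m), (∀ x : Qb, ι ((σ : GQ) x) = τ (ι x)) →
      Affine.Point.map (W' := W) (S := ℚ) ι (f σ) =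
        Affine.Point.map (W' := W) (S := ℚ) ((τ : Cq q →ₐ[ℚ_[q]] Cq q).restrictScalars ℚ) Q - Q

/-- Selmer cocycles (for odd `p` there is no condition at the archimedean places) -/
noncomputable def SelZ (W : WeierstrassCurve ℚ) (p m : ℕ) : AddSubgroup (Z1 W p m) where
  carrier := {f | ∀ (q : ℕ) [Fact q.Prime], LocAt W p m f.1 q}
  add_mem' := by
    intro a b ha hb q _ ι
    obtain ⟨P, hP⟩ := ha q ι
    obtain ⟨Q, hQ⟩ := hb q ι
    refine ⟨P + Q, ?_⟩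
    intro τ σ h
    have e : ((a + b : Z1 W p m) : Kmul p m → Pt W) σ = (a : Kmul p m → Pt W) σ + (b : Kmul p m → Pt W) σ := rfl
    rw [e, map_add, hP τ σ h, hQ τ σ h, map_add]
    abel
  zero_mem' := by
    intro q _ ι
    refine ⟨0, ?_⟩
    intro τ σ _
    simp
  neg_mem' := by
    intro a ha q _ ι
    obtain ⟨P, hP⟩ := ha q ι
    refine ⟨-P, ?_⟩
    intro τ σ h
    have e : ((-a : Z1 W p m) : Kmul p m → Pt W) σ = -(a : Kmul p m → Pt W) σ := rfl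
    rw [e, map_neg, hP τ σ h, map_neg]
    abel

/-- the Selmer group `Sel_{p^∞}(E / K_{m,∞})` -/
abbrev Sel (W : WeierstrassCurve ℚ) (p m : ℕ) : Type :=
  SelZ W p m ⧸ (((B1 W p m).addSubgroupOf (Z1 W p m)).addSubgroupOf (SelZ W p m))

/-- the Iwasawa algebra `ℛ_m = lim ℤ_p[(ℤ/m pⁿ)ˣ]` -/
noncomputable def Iw (p m : ℕ) [Fact p.Prime] :
    Subring (∀ n : ℕ, MonoidAlgebra ℤ_[p] (Hn p m n)) where
  carrier := {r | ∀ n, MonoidAlgebra.mapDomainRingHom ℤ_[p] (tr p m n) (r (n + 1)) = r n}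
  mul_mem' := by intro a b ha hb n; rw [Pi.mul_apply, map_mul, ha n, hb n]; rfl
  one_mem' := by intro n; rw [Pi.one_apply, map_one]; rfl
  add_mem' := by intro a b ha hb n; rw [Pi.add_apply, map_add, ha n, hb n]; rfl
  zero_mem' := by intro n; rw [Pi.zero_apply, map_zero]; rfl
  neg_mem' := by intro a ha n; rw [Pi.neg_apply, map_neg, ha n]; rfl

/-- `Gal(Qbar / K_{m,∞})` is normal -/
theorem Kmul_conj (p m : ℕ) (g : GQ) (σ : Kmul p m) : g⁻¹ * (σ : GQ) * g ∈ Kmul p m := by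
  intro n ζ h
  have h1 : (g ζ) ^ (m * p ^ n) = 1 := by rw [← map_pow, h, map_one]
  have h2 := σ.2 n (g ζ) h1
  change g⁻¹ ((σ : GQ) (g ζ)) = ζ
  rw [h2]
  exact AlgEquiv.symm_apply_apply g ζ

/-- conjugation: `(g f)(σ) = g (f (g⁻¹ σ g))` -/
noncomputable def cj (W : WeierstrassCurve ℚ) (p m : ℕ) (g : GQ) :
    (Kmul p m → Pt W) →+ (Kmul p m → Pt W) where
  toFun f := fun σ ↦ gal W g (f ⟨g⁻¹ * (σ : GQ) * g, Kmul_conj p m g σ⟩)
  map_zero' := by funext σ; simp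
  map_add' := by intro a b; funext σ; simp

theorem gal_mul (W : WeierstrassCurve ℚ) (g h : GQ) (P : Pt W) : gal W (g * h) P = gal W g (gal W h P) := by
  cases P <;> rfl

theorem gal_one (W : WeierstrassCurve ℚ) (P : Pt W) : gal W 1 P = P := by
  cases P <;> rfl

theorem cj_Z1 (W : WeierstrassCurve ℚ) (p m : ℕ) (g : GQ) (f : Kmul p m → Pt W) (hf : f ∈ Z1 W p m) :
    cj W p m g f ∈ Z1 W p m := by
  obtain ⟨h1, h2, L, hL, h3⟩ := hf
  refine ⟨?_, ?_, L.map (g : Qb →ₐ[ℚ] Qb), ?_, ?_⟩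
  · intro σ τ
    have e : (⟨g⁻¹ * ((σ * τ : Kmul p m) : GQ) * g, Kmul_conj p m g (σ * τ)⟩ : Kmul p m) =
        ⟨g⁻¹ * (σ : GQ) * g, Kmul_conj p m g σ⟩ * ⟨g⁻¹ * (τ : GQ) * g, Kmul_conj p m g τ⟩ := by
      apply Subtype.ext
      change g⁻¹ * ((σ : GQ) * (τ : GQ)) * g = (g⁻¹ * (σ : GQ) * g) * (g⁻¹ * (τ : GQ) * g)
      group
    change gal W g (f _) = gal W g (f _) + gal W σ (gal W g (f _))
    rw [e, h1, map_add, ← gal_mul, ← gal_mul]
    congr 2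
    refine congrArg (gal W) ?_
    change g * (g⁻¹ * (σ : GQ) * g) = (σ : GQ) * g
    group
  · intro σ
    obtain ⟨k, hk⟩ := h2 ⟨g⁻¹ * (σ : GQ) * g, Kmul_conj p m g σ⟩
    refine ⟨k, ?_⟩
    change p ^ k • gal W g (f _) = 0
    rw [← map_nsmul, hk, map_zero]
  · exact IntermediateField.finiteDimensional_map (g : Qb →ₐ[ℚ] Qb)
  · intro σ hσ
    change gal W g (f _) = 0
    rw [h3, map_zero]
    intro x hx
    change g⁻¹ ((σ : GQ) (g x)) = x
    rw [hσ (g x) (by exact ⟨x, hx, rfl⟩)]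
    exact AlgEquiv.symm_apply_apply g x

theorem cj_B1 (W : WeierstrassCurve ℚ) (p m : ℕ) (g : GQ) (f : Kmul p m → Pt W) (hf : f ∈ B1 W p m) :
    cj W p m g f ∈ B1 W p m := by
  obtain ⟨P, ⟨k, hk⟩, hP⟩ := hf
  refine ⟨gal W g P, ⟨k, by rw [← map_nsmul, hk, map_zero]⟩, ?_⟩
  intro σ
  change gal W g (f _) = _
  rw [hP, map_sub, ← gal_mul, ← gal_mul]
  congr 2
  refine congrArg (gal W) ?_
  change g * (g⁻¹ * (σ : GQ) * g) = (σ : GQ) * g
  group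

theorem cj_Loc (W : WeierstrassCurve ℚ) (p m : ℕ) (g : GQ) (f : Kmul p m → Pt W) (q : ℕ) [Fact q.Prime]
    (hf : LocAt W p m f q) : LocAt W p m (cj W p m g f) q := by
  intro ι
  obtain ⟨Q, hQ⟩ := hf (ι.comp (g : Qb →ₐ[ℚ] Qb))
  refine ⟨Q, ?_⟩
  intro τ σ h
  have := hQ τ ⟨g⁻¹ * (σ : GQ) * g, Kmul_conj p m g σ⟩ (by
    intro x
    change ι (g (g⁻¹ ((σ : GQ) (g x)))) = τ (ι (g x))
    rw [← h (g x)]
    congr 1
    exact AlgEquiv.apply_symm_apply g _)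
  rw [← this]
  change Affine.Point.map ι (gal W g (f _)) = _
  cases f ⟨g⁻¹ * (σ : GQ) * g, Kmul_conj p m g σ⟩ <;> rfl

/-- the action of `g` on the Selmer cocycles -/
noncomputable def cjS (W : WeierstrassCurve ℚ) (p m : ℕ) (g : GQ) : SelZ W p m →+ SelZ W p m where
  toFun f := ⟨⟨cj W p m g f.1.1, cj_Z1 W p m g f.1.1 f.1.2⟩, fun q _ ↦ cj_Loc W p m g f.1.1 q (f.2 q)⟩
  map_zero' := by
    apply Subtype.ext; apply Subtype.ext
    exact map_zero (cj W p m g)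
  map_add' := by
    intro a b
    apply Subtype.ext; apply Subtype.ext
    exact map_add (cj W p m g) a.1.1 b.1.1

/-- the action of `g` on the Selmer group -/
noncomputable def gS (W : WeierstrassCurve ℚ) (p m : ℕ) (g : GQ) : Sel W p m →+ Sel W p m :=
  QuotientAddGroup.map _ _ (cjS W p m g) (by
    intro f hf
    exact cj_B1 W p m g f.1.1 hf)

/-- the class of a Selmer cocycle -/
noncomputable def cl (W : WeierstrassCurve ℚ) (p m : ℕ) : SelZ W p m →+ Sel W p m :=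
  QuotientAddGroup.mk' _

theorem gS_cl (W : WeierstrassCurve ℚ) (p m : ℕ) (g : GQ) (f : SelZ W p m) :
    gS W p m g (cl W p m f) = cl W p m (cjS W p m g f) := rfl

theorem gS_mul (W : WeierstrassCurve ℚ) (p m : ℕ) (g h : GQ) (s : Sel W p m) :
    gS W p m (g * h) s = gS W p m g (gS W p m h s) := by
  obtain ⟨f, rfl⟩ := QuotientAddGroup.mk'_surjective _ s
  change cl W p m _ = cl W p m _
  congr 1
  apply Subtype.ext; apply Subtype.ext
  funext σ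
  change gal W (g * h) (f.1.1 _) = gal W g (gal W h (f.1.1 _))
  rw [← gal_mul]
  congr 3

theorem gS_one (W : WeierstrassCurve ℚ) (p m : ℕ) (s : Sel W p m) : gS W p m 1 s = s := by
  obtain ⟨f, rfl⟩ := QuotientAddGroup.mk'_surjective _ s
  change cl W p m _ = cl W p m _
  congr 1
  apply Subtype.ext; apply Subtype.ext
  funext σ
  change gal W 1 (f.1.1 _) = f.1.1 _
  rw [gal_one]
  congr 1

/-- `n`, `k`, `g` are admissible for the class `s`: `s` is killed by `p^k` and fixed by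
`Gal(Qbar/ℚ(μ_{m pⁿ}))`, and `g a` is a lift of `σ_a ∈ Gal(ℚ(μ_{m pⁿ})/ℚ)` -/
def Adm (W : WeierstrassCurve ℚ) (p m : ℕ) (s : Sel W p m) (n k : ℕ) (g : Hn p m n → GQ) : Prop :=
  p ^ k • s = 0 ∧ (∀ h : GQ, CycAct (m * p ^ n) h 1 → gS W p m h s = s) ∧
    ∀ a, CycAct (m * p ^ n) (g a) a

/-- `ℛ_m` acts on the Selmer group: `r = (Σ_a r_n(a) σ_a)_n` maps a class `s`, which is killed by `p^k`
and fixed by `Gal(Qbar/ℚ(μ_{m pⁿ}))`, to `Σ_a (r_n(a) mod p^k) σ_a⁻¹ s` (so that `ℛ_m` acts on the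
Pontryagin dual in the usual way, `(σ x)(s) = x(σ⁻¹ s)`) -/
def IsAct (W : WeierstrassCurve ℚ) (p m : ℕ) [Fact p.Prime] (r : Iw p m) (s t : Sel W p m) : Prop :=
  (∃ n k g, Adm W p m s n k g) ∧ ∀ n k g, Adm W p m s n k g →
    t = (((r : ∀ n : ℕ, MonoidAlgebra ℤ_[p] (Hn p m n)) n).coeff).sum
      fun a z ↦ PadicInt.appr z k • gS W p m (g a)⁻¹ s

end KE16
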