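import Mathlib

/-!
KE16, block A, row F1 (ONLY MATHLIB, MEDIUM). A determinant modulo 27.

Plan: `P := ((1 : Matrix ..).updateCol i1 c1).updateCol i2 c2`. `B * P` has the columns `i1`, `i2`
equal to `B.mulVec c1`, `B.mulVec c2` (both `3 * something`) and the other columns those of `B`.
Hence `(B * P).det = 9 * ..` (`Matrix.det_updateCol_smul`, twice), and
`P.det = c1 i1 * c2 i2 - c1 i2 * c2 i1` is a unit (expand with `Matrix.det_succ_column`, or
`P = 1 + L * E` with `L : Matrix n (Fin 2)`, columns `c1 - e_i1`, `c2 - e_i2`, `E : Matrix (Fin 2) n`,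
and `Matrix.det_one_add_mul_comm`, `Matrix.det_fin_two`).
-/

namespace KE16

theorem det_two_cols {n : ℕ} (B : Matrix (Fin n) (Fin n) (ZMod 27)) (c1 c2 : Fin n → ZMod 27)
    (i1 i2 : Fin n) (h : i1 ≠ i2) (hu : IsUnit (c1 i1 * c2 i2 - c1 i2 * c2 i1))
    (h1 : ∀ i, ∃ z, (B.mulVec c1) i = 3 * z) (h2 : ∀ i, ∃ z, (B.mulVec c2) i = 3 * z) :
    ∃ z, B.det = 9 * z := by
  choose z1 hz1 using h1
  choose z2 hz2 using h2
  let L : Matrix (Fin n) (Fin 2) (ZMod 27) := Matrix.of fun i k =>
    if k = 0 then c1 i - (if i = i1 then 1 else 0) else c2 i - (if i = i2 then 1 else 0)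
  let E : Matrix (Fin 2) (Fin n) (ZMod 27) := Matrix.of fun k j =>
    if k = 0 then (if j = i1 then 1 else 0) else (if j = i2 then 1 else 0)
  have hL0 : ∀ i, (B * L) i 0 = 3 * z1 i - B i i1 := by
    intro i
    rw [← hz1 i]
    simp only [Matrix.mul_apply, L, Matrix.of_apply, if_true, mul_sub, Finset.sum_sub_distrib,
      mul_ite, mul_one, mul_zero, Finset.sum_ite_eq', Finset.mem_univ, Matrix.mulVec,
      dotProduct]
  have hL1 : ∀ i, (B * L) i 1 = 3 * z2 i - B i i2 := by
    intro i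
    rw [← hz2 i]
    simp only [Matrix.mul_apply, L, Matrix.of_apply, mul_sub, Finset.sum_sub_distrib,
      mul_ite, mul_one, mul_zero, Finset.sum_ite_eq', Finset.mem_univ, Matrix.mulVec,
      dotProduct, one_ne_zero, if_false, if_true]
  have hBP : B * (1 + L * E) =
      (B.updateCol i1 ((3 : ZMod 27) • z1)).updateCol i2 ((3 : ZMod 27) • z2) := by
    ext i j
    rw [mul_add, mul_one, ← Matrix.mul_assoc, Matrix.add_apply, Matrix.mul_apply, Fin.sum_univ_two, hL0,
      hL1]
    by_cases hj2 : j = i2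
    · subst hj2
      simp [E, Matrix.updateCol_self, h.symm]
    · rw [Matrix.updateCol_ne hj2]
      by_cases hj1 : j = i1
      · subst hj1
        simp [E, Matrix.updateCol_self, hj2]
      · rw [Matrix.updateCol_ne hj1]
        simp [E, hj1, hj2]
  have hP : (1 + L * E).det = c1 i1 * c2 i2 - c1 i2 * c2 i1 := by
    rw [Matrix.det_one_add_mul_comm, Matrix.det_fin_two]
    simp [L, E, Matrix.mul_apply, h, h.symm]
    ring
  have hd : B.det * (c1 i1 * c2 i2 - c1 i2 * c2 i1) =
      9 * ((B.updateCol i1 z1).updateCol i2 z2).det := by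
    rw [← hP, ← Matrix.det_mul, hBP, Matrix.det_updateCol_smul, Matrix.updateCol_comm _ h,
      Matrix.det_updateCol_smul, Matrix.updateCol_comm _ h.symm, ← mul_assoc]
    norm_num
  obtain ⟨u, hu⟩ := hu
  refine ⟨((B.updateCol i1 z1).updateCol i2 z2).det * ↑u⁻¹, ?_⟩
  rw [← mul_assoc, ← hd, ← hu, mul_assoc, Units.mul_inv, mul_one]

end KE16
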