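import Mathlib

/-!
KE16, block A, row F2 (ONLY MATHLIB, MEDIUM). The determinant of a relation matrix modulo an ideal.

Plan: in `R ⧸ J` the matrix `A` is `Δ * U`, `Δ = diagonal` (entries `α` at `i1`, `β` at `i2`, else `1`),
`U = 1 - L * E`, `L : Matrix (Fin n) (Fin 2)` with `L i 0 = l i 0`, `L i 1 = l i 1` for `i ≠ i1, i2` and
`0` for `i = i1, i2`, and `E : Matrix (Fin 2) (Fin n)` with rows `e_i1`, `e_i2`; `E * L = 0`, so
`det U = det (1 - E * L) = 1` (`Matrix.det_one_add_mul_comm`, `Matrix.det_one_sub_mul_comm`).
`(Ideal.Quotient.mk J)` commutes with `det` (`RingHom.map_det`), `Ideal.Quotient.eq_zero_iff_mem`.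
-/

namespace KE16

theorem det_rel {R : Type} [CommRing R] {n : ℕ} (J : Ideal R) (A : Matrix (Fin n) (Fin n) R)
    (i1 i2 : Fin n) (hne : i1 ≠ i2) (α β : R) (l : Fin n → Fin 2 → R)
    (h : ∀ i, i ≠ i1 → i ≠ i2 → ∀ j, A i j - ((if j = i then 1 else 0) -
      (if j = i1 then l i 0 else 0) - (if j = i2 then l i 1 else 0)) ∈ J)
    (h1 : ∀ j, A i1 j - (if j = i1 then α else 0) ∈ J)
    (h2 : ∀ j, A i2 j - (if j = i2 then β else 0) ∈ J) : A.det - α * β ∈ J := by
  have hp1 : ∀ x y : R, x - y ∈ J → Ideal.Quotient.mk J x = Ideal.Quotient.mk J y := fun x y hxy =>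
    (Ideal.Quotient.eq).2 hxy
  set π := Ideal.Quotient.mk J with hπ
  let L : Matrix (Fin n) (Fin 2) (R ⧸ J) := fun i a => if i = i1 ∨ i = i2 then 0 else π (l i a)
  let E : Matrix (Fin 2) (Fin n) (R ⧸ J) := fun a j => if j = (if a = 0 then i1 else i2) then 1 else 0
  let d : Fin n → R ⧸ J := fun i => if i = i1 then π α else if i = i2 then π β else 1
  have hB : A.map π = Matrix.diagonal d * (1 - L * E) := by
    ext i j
    rw [Matrix.map_apply, Matrix.diagonal_mul, Matrix.sub_apply, Matrix.one_apply, Matrix.mul_apply,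
      Fin.sum_univ_two]
    by_cases hi1 : i = i1
    · subst hi1
      rw [hp1 _ _ (h1 j)]
      by_cases hj : j = i
      · subst hj
        simp [d, L]
      · have hj' : i ≠ j := fun h => hj h.symm
        simp [L, hj, hj']
    · by_cases hi2 : i = i2
      · subst hi2
        rw [hp1 _ _ (h2 j)]
        by_cases hj : j = i
        · subst hj
          simp [d, L, hi1]
        · have hj' : i ≠ j := fun h => hj h.symm
          simp [L, hj, hj']
      · rw [hp1 _ _ (h i hi1 hi2 j)]
        have e1 : (if i = j then (1 : R ⧸ J) else 0) = π (if j = i then 1 else 0) := by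
          by_cases hj : j = i
          · subst hj; simp
          · have hj' : i ≠ j := fun h => hj h.symm
            simp [hj, hj']
        rw [e1]
        have e2 : L i 0 * E 0 j = π (if j = i1 then l i 0 else 0) := by
          by_cases hj : j = i1
          · simp [L, E, hi1, hi2, hj]
          · simp [E, hj]
        have e3 : L i 1 * E 1 j = π (if j = i2 then l i 1 else 0) := by
          by_cases hj : j = i2
          · simp [L, E, hi1, hi2, hj]
          · simp [E, hj]
        rw [e2, e3]
        have e4 : d i = 1 := by simp [d, hi1, hi2]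
        rw [e4, one_mul, map_sub, map_sub]
        ring
  have hEL : E * L = 0 := by
    ext a b
    rw [Matrix.mul_apply, Matrix.zero_apply]
    apply Finset.sum_eq_zero
    intro j _
    by_cases hj : j = i1 ∨ j = i2
    · simp [L, hj]
    · have h3 : E a j = 0 := by
        show (if j = (if a = 0 then i1 else i2) then (1 : R ⧸ J) else 0) = 0
        rw [if_neg]
        intro h4
        apply hj
        by_cases ha : a = 0
        · rw [if_pos ha] at h4; exact Or.inl h4
        · rw [if_neg ha] at h4; exact Or.inr h4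
      rw [h3, zero_mul]
  have hdet : (A.map π).det = π α * π β := by
    rw [hB, Matrix.det_mul, Matrix.det_diagonal, Matrix.det_one_sub_mul_comm, hEL, sub_zero,
      Matrix.det_one, mul_one, Fintype.prod_eq_mul i1 i2 hne]
    · simp [d, hne.symm]
    · intro x hx
      simp [d, hx.1, hx.2]
  have h5 : π A.det = π (α * β) := by
    rw [map_mul, ← hdet, RingHom.map_det]
    rfl
  exact (Ideal.Quotient.eq).1 h5

end KE16
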