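import Pool.Agent.LibKE16.F1
import Pool.Agent.LibKE16.F2
import Pool.Agent.LibKE16.Defs

/-!
KE16, block A, row F3 (SHORT/MEDIUM, cites F1). Relation matrices have determinant in `9 ℤ/27`.

Plan: the vectors `c (e j)` span `F_3^2` (`c` is surjective, `e` spans `X`, `c (r • x) = ε r • c x`), so
two of them, `i1` and `i2`, are linearly independent over `ZMod 3` (a family in `Fin 2 → ZMod 3`
all of whose 2 x 2 minors vanish does not span): the minor `c(e i1) 0 * c(e i2) 1 - c(e i2) 0 * c(e i1) 1`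
is not zero. For (i) apply `c` to `∑ j, A i j • e j = 0`: `∑ j, ε (A i j) * c (e j) l = 0`. Lift
`c (e j) l` to `ZMod 27` (`c1 j`, `c2 j`; `ZMod.castHom` is surjective) and use `det_two_cols` for the
matrix `ψ (A i j)`: `castHom (∑ ..) = 0` gives `∃ z, .. = 3 * z`; an element of `ZMod 27` whose image
in `ZMod 3` is not zero is a unit (`decide` on `ZMod 27`). (ii): every `c (e i)` is a combination of
`c (e i1)`, `c (e i2)`: Cramer.
-/

namespace KE16

private theorem F3_surj : ∀ y : ZMod 3, ∃ x : ZMod 27,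
    (ZMod.castHom (by decide : 3 ∣ 27) (ZMod 3)) x = y := by
  decide

private theorem F3_three : ∀ x : ZMod 27,
    (ZMod.castHom (by decide : 3 ∣ 27) (ZMod 3)) x = 0 → ∃ z, x = 3 * z := by
  decide

private theorem F3_unit' : ∀ x : ZMod 27,
    (ZMod.castHom (by decide : 3 ∣ 27) (ZMod 3)) x ≠ 0 → ∃ y, x * y = 1 := by
  decide

private theorem F3_unit (x : ZMod 27)
    (h : (ZMod.castHom (by decide : 3 ∣ 27) (ZMod 3)) x ≠ 0) : IsUnit x := by
  obtain ⟨y, hy⟩ := F3_unit' x h
  exact IsUnit.of_mul_eq_one y hy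

theorem fitA {R : Type} [CommRing R] {X : Type} [AddCommGroup X] [Module R X] (ε : R →+* ZMod 3)
    (c : X →+ (Fin 2 → ZMod 3)) (hc : Function.Surjective c)
    (hsm : ∀ (r : R) (x : X), c (r • x) = ε r • c x) {n : ℕ} (e : Fin n → X)
    (he : Submodule.span R (Set.range e) = ⊤) :
    (∀ (ψ : R →+* ZMod 27), (∀ r, (ZMod.castHom (by decide : 3 ∣ 27) (ZMod 3)) (ψ r) = ε r) →
      ∀ A : Matrix (Fin n) (Fin n) R, (∀ i, ∑ j, A i j • e j = 0) → ∃ z, ψ A.det = 9 * z) ∧
    ∃ i1 i2 : Fin n, i1 ≠ i2 ∧ ∀ x : X, ∃ a b : ZMod 3, c x = a • c (e i1) + b • c (e i2) := by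
  classical
  have : Fact (Nat.Prime 3) := ⟨Nat.prime_three⟩
  have hspan : ∀ v : Fin 2 → ZMod 3, ∃ a : Fin n → ZMod 3, v = ∑ j, a j • c (e j) := by
    intro v
    obtain ⟨x, rfl⟩ := hc v
    have hx : x ∈ Submodule.span R (Set.range e) := by rw [he]; trivial
    obtain ⟨r, rfl⟩ := (Submodule.mem_span_range_iff_exists_fun R).1 hx
    refine ⟨fun j => ε (r j), ?_⟩
    rw [map_sum]
    exact Finset.sum_congr rfl fun j _ => hsm _ _
  obtain ⟨i1, i2, hD⟩ : ∃ i1 i2 : Fin n,
      c (e i1) 0 * c (e i2) 1 - c (e i2) 0 * c (e i1) 1 ≠ 0 := by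
    by_contra hcon
    push Not at hcon
    obtain ⟨a, ha⟩ := hspan ![1, 0]
    obtain ⟨b, hb⟩ := hspan ![0, 1]
    have a0 : (1 : ZMod 3) = ∑ j, a j * c (e j) 0 := by
      have := congrFun ha 0
      simpa [Finset.sum_apply] using this
    have a1 : (0 : ZMod 3) = ∑ j, a j * c (e j) 1 := by
      have := congrFun ha 1
      simpa [Finset.sum_apply] using this
    have b0 : (0 : ZMod 3) = ∑ j, b j * c (e j) 0 := by
      have := congrFun hb 0
      simpa [Finset.sum_apply] using this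
    have b1 : (1 : ZMod 3) = ∑ j, b j * c (e j) 1 := by
      have := congrFun hb 1
      simpa [Finset.sum_apply] using this
    have h1 : (1 : ZMod 3) * 1 - 0 * 0 = 0 := by
      calc (1 : ZMod 3) * 1 - 0 * 0
          = (∑ j, a j * c (e j) 0) * (∑ j, b j * c (e j) 1) -
            (∑ j, a j * c (e j) 1) * (∑ j, b j * c (e j) 0) := by
              rw [← a0, ← a1, ← b0, ← b1]
        _ = ∑ i, ∑ j, a i * b j * (c (e i) 0 * c (e j) 1 - c (e j) 0 * c (e i) 1) := by
              rw [Finset.sum_mul_sum, Finset.sum_mul_sum, ← Finset.sum_sub_distrib]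
              refine Finset.sum_congr rfl fun i _ => ?_
              rw [← Finset.sum_sub_distrib]
              refine Finset.sum_congr rfl fun j _ => ?_
              ring
        _ = 0 := by
              refine Finset.sum_eq_zero fun i _ => Finset.sum_eq_zero fun j _ => ?_
              rw [hcon i j, mul_zero]
    rw [mul_one, mul_zero, sub_zero] at h1
    exact one_ne_zero h1
  have hne : i1 ≠ i2 := by
    rintro rfl
    exact hD (sub_self _)
  refine ⟨?_, i1, i2, hne, ?_⟩
  · intro ψ hψ A hA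
    choose c1 hc1 using fun j => F3_surj (c (e j) 0)
    choose c2 hc2 using fun j => F3_surj (c (e j) 1)
    have hrel : ∀ (i : Fin n) (l : Fin 2), ∑ j, ε (A i j) * c (e j) l = 0 := by
      intro i l
      have h1 := congrArg c (hA i)
      rw [map_sum, map_zero] at h1
      have h2 := congrFun h1 l
      rw [Finset.sum_apply] at h2
      rw [← (show (0 : Fin 2 → ZMod 3) l = 0 from rfl), ← h2]
      refine Finset.sum_congr rfl fun j _ => ?_
      rw [hsm]
      rfl
    have hmul : ∀ (l : Fin 2) (d : Fin n → ZMod 27),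
        (∀ j, (ZMod.castHom (by decide : 3 ∣ 27) (ZMod 3)) (d j) = c (e j) l) →
        ∀ i, ∃ z, ((A.map ψ).mulVec d) i = 3 * z := by
      intro l d hd i
      apply F3_three
      have h1 : ((A.map ψ).mulVec d) i = ∑ j, ψ (A i j) * d j := rfl
      rw [h1, map_sum, ← hrel i l]
      refine Finset.sum_congr rfl fun j _ => ?_
      rw [map_mul, hψ, hd]
    have hdet : ψ A.det = (A.map ψ).det := by
      rw [RingHom.map_det]
      rfl
    rw [hdet]
    refine det_two_cols (A.map ψ) c1 c2 i1 i2 hne ?_ (hmul 0 c1 hc1) (hmul 1 c2 hc2)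
    apply F3_unit
    rw [map_sub, map_mul, map_mul, hc1, hc2, hc1, hc2]
    exact hD
  · intro x
    set D : ZMod 3 := c (e i1) 0 * c (e i2) 1 - c (e i2) 0 * c (e i1) 1 with hDdef
    refine ⟨(c x 0 * c (e i2) 1 - c (e i2) 0 * c x 1) / D,
      (c (e i1) 0 * c x 1 - c x 0 * c (e i1) 1) / D, ?_⟩
    funext l
    rw [Pi.add_apply, Pi.smul_apply, Pi.smul_apply, smul_eq_mul, smul_eq_mul]
    fin_cases l
    · change c x 0 = (c x 0 * c (e i2) 1 - c (e i2) 0 * c x 1) / D * c (e i1) 0 +
        (c (e i1) 0 * c x 1 - c x 0 * c (e i1) 1) / D * c (e i2) 0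
      field_simp
      rw [hDdef]
      ring
    · change c x 1 = (c x 0 * c (e i2) 1 - c (e i2) 0 * c x 1) / D * c (e i1) 1 +
        (c (e i1) 0 * c x 1 - c x 0 * c (e i1) 1) / D * c (e i2) 1
      field_simp
      rw [hDdef]
      ring

end KE16
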