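import Pool.Agent.LibKE16.F3

/-!
KE16, block A, row F4 (MEDIUM, cites F2). Relation matrices with prescribed determinant modulo `J`.

Plan: for `i ≠ i1, i2` choose `l i 0, l i 1 : R` with `ε (l i 0) = a_i`, `ε (l i 1) = b_i`
(`ε` is surjective: images of integers), `c (e i - l i 0 • e i1 - l i 1 • e i2) = 0`, so this element
is in `J • ⊤`; every element of `J • ⊤` is `∑ j, q j • e j` with all `q j ∈ J`
(`Submodule.span`/`Submodule.mem_ideal_smul_span_iff_exists_sum` or `Submodule.smul_induction_on` with
`he`). Likewise `α • e i1` and `β • e i2` are in `J • ⊤` because `ε α = ε β = 0`. The matrix with the rows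
(expected row) - q is a relation matrix; `det_rel`.
-/

namespace KE16

theorem fitB {R : Type} [CommRing R] {X : Type} [AddCommGroup X] [Module R X] (ε : R →+* ZMod 3)
    (J : Ideal R) (c : X →+ (Fin 2 → ZMod 3))
    (hsm : ∀ (r : R) (x : X), c (r • x) = ε r • c x)
    (hker : ∀ x, c x = 0 → x ∈ J • (⊤ : Submodule R X)) {n : ℕ} (e : Fin n → X)
    (he : Submodule.span R (Set.range e) = ⊤) (i1 i2 : Fin n) (hne : i1 ≠ i2)
    (hb : ∀ x : X, ∃ a b : ZMod 3, c x = a • c (e i1) + b • c (e i2)) (α β : R) (hα : ε α = 0)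
    (hβ : ε β = 0) :
    ∃ A : Matrix (Fin n) (Fin n) R, (∀ i, ∑ j, A i j • e j = 0) ∧ A.det - α * β ∈ J := by
  have hsurj : ∀ a : ZMod 3, ∃ r : R, ε r = a := fun a =>
    ⟨((a.val : ℕ) : R), by rw [map_natCast, ZMod.natCast_zmod_val]⟩
  choose a b hab using fun i : Fin n => hb (e i)
  choose la hla using fun i : Fin n => hsurj (a i)
  choose lb hlb using fun i : Fin n => hsurj (b i)
  obtain ⟨l, hl⟩ : ∃ l : Fin n → Fin 2 → R, l = fun i => ![la i, lb i] := ⟨_, rfl⟩
  have hl0 : ∀ i, ε (l i 0) = a i := by
    intro i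
    rw [hl]
    exact hla i
  have hl1 : ∀ i, ε (l i 1) = b i := by
    intro i
    rw [hl]
    exact hlb i
  obtain ⟨v, hv⟩ : ∃ v : Fin n → Fin n → R, v = fun i j => if i = i1 then (if j = i1 then α else 0)
      else if i = i2 then (if j = i2 then β else 0)
      else ((if j = i then 1 else 0) - (if j = i1 then l i 0 else 0) - (if j = i2 then l i 1 else 0)) := ⟨_, rfl⟩
  have hsum : ∀ (i0 : Fin n) (r : R), ∑ j, (if j = i0 then r else 0) • e j = r • e i0 := by
    intro i0 r
    rw [Finset.sum_eq_single i0]
    · rw [if_pos rfl]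
    · intro j _ hj
      rw [if_neg hj, zero_smul]
    · intro h
      exact absurd (Finset.mem_univ _) h
  have hrow : ∀ i, ∑ j, v i j • e j ∈ J • (⊤ : Submodule R X) := by
    intro i
    apply hker
    by_cases hi1 : i = i1
    · have h1 : ∑ j, v i j • e j = α • e i1 := by
        rw [← hsum i1 α]
        refine Finset.sum_congr rfl fun j _ => ?_
        rw [hv]
        simp only [hi1, if_true]
      rw [h1, hsm, hα, zero_smul]
    by_cases hi2 : i = i2
    · have h1 : ∑ j, v i j • e j = β • e i2 := by
        rw [← hsum i2 β]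
        refine Finset.sum_congr rfl fun j _ => ?_
        rw [hv]
        simp only [if_neg hi1, hi2, if_true, if_neg hne.symm]
      rw [h1, hsm, hβ, zero_smul]
    · have h1 : ∑ j, v i j • e j = e i - l i 0 • e i1 - l i 1 • e i2 := by
        rw [← one_smul R (e i), ← hsum i 1, ← hsum i1 (l i 0), ← hsum i2 (l i 1), ← Finset.sum_sub_distrib,
          ← Finset.sum_sub_distrib]
        refine Finset.sum_congr rfl fun j _ => ?_
        rw [hv]
        simp only [if_neg hi1, if_neg hi2]
        rw [sub_smul, sub_smul]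
      rw [h1, map_sub, map_sub, hsm, hsm, hl0, hl1, hab i]
      abel
  have hq : ∀ i, ∃ q : Fin n → R, (∀ j, q j ∈ J) ∧ ∑ j, q j • e j = ∑ j, v i j • e j := by
    intro i
    have h1 := hrow i
    rw [← he, Submodule.mem_ideal_smul_span_iff_exists_sum] at h1
    obtain ⟨q, hq, hqs⟩ := h1
    refine ⟨q, hq, ?_⟩
    rw [← hqs]
    exact (Finsupp.sum_fintype q (fun i c => c • e i) fun j => zero_smul _ _).symm
  choose q hqJ hqs using hq
  refine ⟨Matrix.of fun i j => v i j - q i j, ?_, ?_⟩
  · intro i
    have h1 : ∑ j, (Matrix.of fun i j => v i j - q i j) i j • e j = ∑ j, v i j • e j - ∑ j, q i j • e j := by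
      rw [← Finset.sum_sub_distrib]
      exact Finset.sum_congr rfl fun j _ => sub_smul _ _ _
    rw [h1, hqs, sub_self]
  · have hA : ∀ i j, (Matrix.of fun i j => v i j - q i j) i j - v i j ∈ J := by
      intro i j
      have h1 : (Matrix.of fun i j => v i j - q i j) i j - v i j = -q i j := by
        change v i j - q i j - v i j = -q i j
        ring
      rw [h1]
      exact J.neg_mem (hqJ i j)
    refine det_rel J _ i1 i2 hne α β l ?_ ?_ ?_
    · intro i h1 h2 j
      have h3 : v i j = (if j = i then 1 else 0) - (if j = i1 then l i 0 else 0) - (if j = i2 then l i 1 else 0) := by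
        rw [hv]
        simp only [if_neg h1, if_neg h2]
      rw [← h3]
      exact hA i j
    · intro j
      have h3 : v i1 j = if j = i1 then α else 0 := by
        rw [hv]
        simp only [if_true]
      rw [← h3]
      exact hA i1 j
    · intro j
      have h3 : v i2 j = if j = i2 then β else 0 := by
        rw [hv]
        simp only [if_neg hne.symm, if_true]
      rw [← h3]
      exact hA i2 j

end KE16
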