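import Pool.Agent.LibKE16.F4

/-!
KE16, block A, row F5 (MEDIUM, cites F3, F4). The Fitting ideal is not generated by two elements.

Plan: suppose `IsFitt X (span {x, y})` with generators `e`. `x`, `y` are in the ideal spanned by the
determinants, so by `fitA` (and linearity: the set of `r` with `∀ j, ∃ z, ψ j r = 9 * z` is an ideal)
`ψ j x = 9 * X j`, `ψ j y = 9 * Y j`. By `fitB` with `(α, β) = (3, 3), (3, T), (T, T)` there are
determinants `f1, f2, f3` with `ψ j f = ψ j α * ψ j β`: values at `j = 0, 1, 2`: `9 * (1,1,1)`,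
`9 * (0,t1,t2)`, `9 * (0, t1^2, t2^2)`. They are in `span {x, y}` (`Ideal.mem_span_pair`):
`f i = a i * x + b i * y`, `ψ j (f i) = 9 * (ψ j (a i) * X j + ψ j (b i) * Y j)`. `9 * s = 9 * t` in
`ZMod 27` iff the images in `ZMod 3` agree (`decide`). So over `ZMod 3` the 3 x 3 matrix with rows
`(1,1,1), (0,t1,t2), (0,t1^2,t2^2)` is `(3 x 2) * (2 x 3)` with `ε (a i), ε (b i)` and `X j, Y j`:
its determinant `t1 t2 (t2 - t1)` vanishes (write the 3 x 3 determinant as a polynomial identity,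
`ring`/`linear_combination`, or decide over the finitely many values), a contradiction.
-/

namespace KE16

private theorem F5_nine : ∀ s t : ZMod 27, 9 * s = 9 * t →
    (ZMod.castHom (by decide : 3 ∣ 27) (ZMod 3)) s = (ZMod.castHom (by decide : 3 ∣ 27) (ZMod 3)) t := by
  decide

private theorem F5_det {F : Type} [CommRing F] (a b : Fin 3 → F) (X Y : Fin 3 → F) (m : Fin 3 → Fin 3 → F)
    (h : ∀ i j, m i j = a i * X j + b i * Y j) :
    m 0 0 * (m 1 1 * m 2 2 - m 1 2 * m 2 1) - m 0 1 * (m 1 0 * m 2 2 - m 1 2 * m 2 0) +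
      m 0 2 * (m 1 0 * m 2 1 - m 1 1 * m 2 0) = 0 := by
  simp only [h]
  ring

theorem fit_main {R : Type} [CommRing R] {X : Type} [AddCommGroup X] [Module R X] (ε : R →+* ZMod 3)
    (J : Ideal R) (c : X →+ (Fin 2 → ZMod 3)) (hc : Function.Surjective c)
    (hsm : ∀ (r : R) (x : X), c (r • x) = ε r • c x)
    (hker : ∀ x, c x = 0 → x ∈ J • (⊤ : Submodule R X)) (ψ : Fin 3 → R →+* ZMod 27)
    (hψ : ∀ j r, (ZMod.castHom (by decide : 3 ∣ 27) (ZMod 3)) (ψ j r) = ε r)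
    (hJ : ∀ j, ∀ r ∈ J, ψ j r = 0) (T : R) (t1 t2 : ZMod 27) (h0 : ψ 0 T = 0)
    (h1 : ψ 1 T = 3 * t1) (h2 : ψ 2 T = 3 * t2) (hu1 : IsUnit t1) (hu2 : IsUnit t2)
    (hu : IsUnit (t1 - t2)) (x y : R) : ¬ IsFitt X (Ideal.span {x, y}) := by
  rintro ⟨n, e, he, hI⟩
  obtain ⟨hA, i1, i2, hne, hb⟩ := fitA ε c hc hsm e he
  have hle : ∀ j, Ideal.span {d | ∃ A : Matrix (Fin n) (Fin n) R, (∀ i, ∑ j, A i j • e j = 0) ∧ d = A.det} ≤
      (Ideal.span {(9 : ZMod 27)}).comap (ψ j) := by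
    intro j
    rw [Ideal.span_le]
    rintro _ ⟨A, hA0, rfl⟩
    obtain ⟨z, hz⟩ := hA (ψ j) (hψ j) A hA0
    change ψ j A.det ∈ Ideal.span {(9 : ZMod 27)}
    rw [Ideal.mem_span_singleton]
    exact ⟨z, hz⟩
  have hdiv : ∀ j r, r ∈ Ideal.span {x, y} → ∃ z, ψ j r = 9 * z := by
    intro j r hr
    rw [hI] at hr
    have h1 := hle j hr
    rw [Ideal.mem_comap, Ideal.mem_span_singleton] at h1
    exact h1
  choose Xj hXj using fun j => hdiv j x (Ideal.subset_span (Or.inl rfl))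
  choose Yj hYj using fun j => hdiv j y (Ideal.subset_span (Or.inr rfl))
  have hε3 : ε 3 = 0 := by
    rw [map_ofNat]
    decide
  have hεT : ε T = 0 := by
    rw [← hψ 0, h0, map_zero]
  have key : ∀ α β : R, ε α = 0 → ε β = 0 → ∃ a b : R, ∀ j,
      ψ j α * ψ j β = 9 * (ψ j a * Xj j + ψ j b * Yj j) := by
    intro α β hα hβ
    obtain ⟨A, hA0, hAJ⟩ := fitB ε J c hsm hker e he i1 i2 hne hb α β hα hβ
    have hmem : A.det ∈ Ideal.span {x, y} := by
      rw [hI]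
      exact Ideal.subset_span ⟨A, hA0, rfl⟩
    obtain ⟨a, b, hab⟩ := Ideal.mem_span_pair.1 hmem
    refine ⟨a, b, fun j => ?_⟩
    have h1 := hJ j _ hAJ
    rw [map_sub, sub_eq_zero, map_mul] at h1
    rw [← h1, ← hab, map_add, map_mul, map_mul, hXj, hYj]
    ring
  obtain ⟨π, hπ⟩ : ∃ π : ZMod 27 →+* ZMod 3, π = ZMod.castHom (by decide : 3 ∣ 27) (ZMod 3) := ⟨_, rfl⟩
  have hnine : ∀ s t : ZMod 27, 9 * s = 9 * t → π s = π t := by
    intro s t hst
    rw [hπ]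
    exact F5_nine s t hst
  have hψ' : ∀ j r, π (ψ j r) = ε r := by
    intro j r
    rw [hπ]
    exact hψ j r
  obtain ⟨a1, b1, k1⟩ := key 3 3 hε3 hε3
  obtain ⟨a2, b2, k2⟩ := key 3 T hε3 hεT
  obtain ⟨a3, b3, k3⟩ := key T T hεT hεT
  obtain ⟨t, ht⟩ : ∃ t : Fin 3 → ZMod 27, t = ![0, t1, t2] := ⟨_, rfl⟩
  have hT : ∀ j, ψ j T = 3 * t j := by
    intro j
    rw [ht]
    fin_cases j
    · change ψ 0 T = 3 * 0
      rw [h0, mul_zero]
    · exact h1
    · exact h2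
  have e1 : ∀ j, (1 : ZMod 3) = ε a1 * π (Xj j) + ε b1 * π (Yj j) := by
    intro j
    have h3 := k1 j
    rw [map_ofNat] at h3
    have h4 : (9 : ZMod 27) * 1 = 9 * (ψ j a1 * Xj j + ψ j b1 * Yj j) := by
      rw [← h3]
      decide
    have h5 := hnine _ _ h4
    rw [map_one, map_add, map_mul, map_mul, hψ', hψ'] at h5
    exact h5
  have e2 : ∀ j, π (t j) = ε a2 * π (Xj j) + ε b2 * π (Yj j) := by
    intro j
    have h3 := k2 j
    rw [map_ofNat, hT] at h3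
    have h4 : (9 : ZMod 27) * t j = 9 * (ψ j a2 * Xj j + ψ j b2 * Yj j) := by
      rw [← h3]
      ring
    have h5 := hnine _ _ h4
    rw [map_add, map_mul, map_mul, hψ', hψ'] at h5
    exact h5
  have e3 : ∀ j, π (t j) ^ 2 = ε a3 * π (Xj j) + ε b3 * π (Yj j) := by
    intro j
    have h3 := k3 j
    rw [hT] at h3
    have h4 : (9 : ZMod 27) * (t j ^ 2) = 9 * (ψ j a3 * Xj j + ψ j b3 * Yj j) := by
      rw [← h3]
      ring
    have h5 := hnine _ _ h4
    rw [map_pow, map_add, map_mul, map_mul, hψ', hψ'] at h5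
    exact h5
  have hdet := F5_det ![ε a1, ε a2, ε a3] ![ε b1, ε b2, ε b3] (fun j => π (Xj j)) (fun j => π (Yj j))
    (fun i j => ![1, π (t j), π (t j) ^ 2] i) (by
      intro i j
      fin_cases i
      · exact e1 j
      · exact e2 j
      · exact e3 j)
  have hd2 : π t1 * π t2 * (π t1 - π t2) = 0 := by
    have h3 : (1 : ZMod 3) * (π (t 1) * π (t 2) ^ 2 - π (t 2) * π (t 1) ^ 2) -
        1 * (π (t 0) * π (t 2) ^ 2 - π (t 2) * π (t 0) ^ 2) +
        1 * (π (t 0) * π (t 1) ^ 2 - π (t 1) * π (t 0) ^ 2) = 0 := hdet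
    have h4 : t 0 = 0 := by rw [ht]; rfl
    have h5 : t 1 = t1 := by rw [ht]; rfl
    have h6 : t 2 = t2 := by rw [ht]; rfl
    rw [h4, h5, h6, map_zero] at h3
    linear_combination -h3
  have hn1 : π t1 ≠ 0 := (hu1.map π).ne_zero
  have hn2 : π t2 ≠ 0 := (hu2.map π).ne_zero
  have hn3 : π t1 - π t2 ≠ 0 := by
    rw [← map_sub]
    exact (hu.map π).ne_zero
  exact mul_ne_zero (mul_ne_zero hn1 hn2) hn3 hd2

end KE16
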