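import Pool.Agent.LibKE16.HDefs

/-! # MP_3c6ab9, block FG (X is finitely generated): definitions (complete, helper21) -/

open WeierstrassCurve

namespace KE16

theorem ex_z193 : ∃ ζ : Qb, IsPrimitiveRoot ζ 193 :=
  HasEnoughRootsOfUnity.exists_primitiveRoot Qb 193

/-- a primitive `193`-rd root of unity -/
noncomputable def z193 : Qb := ex_z193.choose

theorem z193_spec : IsPrimitiveRoot z193 193 := ex_z193.choose_spec

/-- the automorphisms which fix the roots of unity of order dividing `193 · 3` -/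
def GP : Subgroup GQ where
  carrier := {g | ∀ ζ : Qb, ζ ^ (193 * 3) = 1 → g ζ = ζ}
  mul_mem' := by
    intro a b ha hb ζ h
    rw [AlgEquiv.mul_apply, hb ζ h, ha ζ h]
  one_mem' := by intro ζ _; rfl
  inv_mem' := by
    intro a ha ζ h
    have := ha ζ h
    calc a⁻¹ ζ = a⁻¹ (a ζ) := by rw [this]
      _ = ζ := AlgEquiv.symm_apply_apply a ζ

theorem mem_GP (g : GQ) : g ∈ GP ↔ ∀ ζ : Qb, ζ ^ (193 * 3) = 1 → g ζ = ζ := Iff.rfl

theorem NN_le_GP : NN ≤ GP := by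
  intro g hg ζ h
  exact hg 1 ζ (by rwa [pow_one])

/-- the field `ℚ(u, v, ζ_193)`; it contains `E[3]` and `ζ_3` -/
noncomputable abbrev FF : IntermediateField ℚ Qb :=
  IntermediateField.adjoin ℚ {r0.u, r0.v, z193}

/-- `Gal(Qbar/F)`, `F = ℚ(u, v, ζ_193)` -/
def GF : Subgroup GQ where
  carrier := {g | g r0.u = r0.u ∧ g r0.v = r0.v ∧ g z193 = z193}
  mul_mem' := by
    rintro a b ⟨h1, h2, h3⟩ ⟨h4, h5, h6⟩
    exact ⟨by rw [AlgEquiv.mul_apply, h4, h1], by rw [AlgEquiv.mul_apply, h5, h2],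
      by rw [AlgEquiv.mul_apply, h6, h3]⟩
  one_mem' := ⟨rfl, rfl, rfl⟩
  inv_mem' := by
    rintro a ⟨h1, h2, h3⟩
    exact ⟨by nth_rw 1 [← h1]; exact AlgEquiv.symm_apply_apply a _,
      by nth_rw 1 [← h2]; exact AlgEquiv.symm_apply_apply a _,
      by nth_rw 1 [← h3]; exact AlgEquiv.symm_apply_apply a _⟩

theorem mem_GF (g : GQ) : g ∈ GF ↔ g r0.u = r0.u ∧ g r0.v = r0.v ∧ g z193 = z193 := Iff.rfl

/-- the classes killed by `3` and fixed by `GP` -/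
def InS (s : Sel E0 3 193) : Prop := 3 • s = 0 ∧ ∀ g ∈ GP, gS E0 3 193 g s = s

/-- the Kummer data of a homomorphism `h : GF → E[3]` -/
def Kum (h : GQ → Pt E0) (θ θ' : Qb) : Prop :=
  θ ≠ 0 ∧ θ' ≠ 0 ∧ θ ^ 3 ∈ FF ∧ θ' ^ 3 ∈ FF ∧
    ∀ g ∈ GF, ∀ a b : ℤ, h g = a • PA r0 + b • PB r0 → g θ = r0.z ^ a * θ ∧ g θ' = r0.z ^ b * θ'

end KE16
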