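import Mathlib

/-!
# [KE16 FG01] MEDIUM, only Mathlib. Finite duality.

Plan. `F^ := CharacterModule F = F →+ AddCircle (1 : ℚ)`. (1) For a finite abelian group `A`: `A^` is finite and
`Nat.card (CharacterModule A) ≤ Nat.card A`: embed `AddCircle (1 : ℚ)` into `Circle` or `ℂ` (x ↦ exp(2πi x), e.g. through
`AddCircle (1 : ℝ)`, `AddCircle.toCircle`, or through any injective additive map from the torsion), so `A^` injects into
`AddChar A ℂ`, whose cardinality is at most `card A` (`AddChar.card_addChar_le`, or `AddChar.linearIndependent` and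
`LinearIndependent.fintype_card_le_finrank` in `A → ℂ`). Or use `CommGroup.monoidHom_mulEquiv_of_hasEnoughRootsOfUnity`, or
prove it by induction. (2) Let `Y ≤ F^`: the map `F → Y^`, `s ↦ (y ↦ y s)` is injective by the hypothesis, so
`card F ≤ card Y^ ≤ card Y ≤ card F^ ≤ card F`. So `card Y = card F^` and `Y = ⊤` (`AddSubgroup.eq_top_of_card_eq` or
`Set.eq_of_subset_of_ncard_le`).
-/

namespace KE16

/-- the embedding of `ℚ/ℤ` into `ℝ/ℤ` -/
private noncomputable def FG01_iota : AddCircle (1 : ℚ) →+ AddCircle (1 : ℝ) :=
  QuotientAddGroup.map (AddSubgroup.zmultiples (1 : ℚ)) (AddSubgroup.zmultiples (1 : ℝ))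
    (Rat.castHom ℝ).toAddMonoidHom (by
      rw [AddSubgroup.zmultiples_le]
      exact ⟨1, by simp⟩)

private theorem FG01_iota_inj : Function.Injective FG01_iota := by
  rw [injective_iff_map_eq_zero]
  intro x hx
  obtain ⟨q, rfl⟩ := QuotientAddGroup.mk_surjective x
  have h1 : ((q : ℝ) : AddCircle (1 : ℝ)) = 0 := hx
  obtain ⟨n, hn⟩ := (QuotientAddGroup.eq_zero_iff _).1 h1
  refine (QuotientAddGroup.eq_zero_iff _).2 ⟨n, ?_⟩
  have h2 : n • (1 : ℝ) = (q : ℝ) := hn
  simp only [zsmul_eq_mul, mul_one] at h2 ⊢
  exact_mod_cast h2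

/-- a character as an additive character with values in `ℂ` -/
private noncomputable def FG01_f (A : Type) [AddCommGroup A] (y : CharacterModule A) :
    AddChar A ℂ where
  toFun a := (AddCircle.toCircle (FG01_iota (y a)) : ℂ)
  map_zero_eq_one' := by rw [map_zero, map_zero, AddCircle.toCircle_zero, Circle.coe_one]
  map_add_eq_mul' a b := by
    rw [map_add, map_add, AddCircle.toCircle_add, Circle.coe_mul]

private theorem FG01_f_inj (A : Type) [AddCommGroup A] : Function.Injective (FG01_f A) := by
  intro y y' h
  apply DFunLike.ext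
  intro a
  have h1 : (AddCircle.toCircle (FG01_iota (y a)) : ℂ) = AddCircle.toCircle (FG01_iota (y' a)) :=
    DFunLike.congr_fun h a
  exact FG01_iota_inj (AddCircle.injective_toCircle one_ne_zero (Circle.ext h1))

private theorem FG01_fin (A : Type) [AddCommGroup A] [Finite A] : Finite (CharacterModule A) :=
  Finite.of_injective _ (FG01_f_inj A)

private theorem FG01_card (A : Type) [AddCommGroup A] [Finite A] :
    Nat.card (CharacterModule A) ≤ Nat.card A := by
  have := Fintype.ofFinite A
  refine (Nat.card_le_card_of_injective _ (FG01_f_inj A)).trans ?_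
  rw [Nat.card_eq_fintype_card, Nat.card_eq_fintype_card]
  exact AddChar.card_addChar_le A ℂ

/-- a group of characters without common zeros is everything -/
theorem FG_dual {F : Type} [AddCommGroup F] [Finite F] (Y : AddSubgroup (CharacterModule F))
    (h : ∀ s : F, (∀ y ∈ Y, y s = 0) → s = 0) : Y = ⊤ := by
  have hfin : Finite (CharacterModule F) := FG01_fin F
  let ev : F → CharacterModule Y := fun s =>
    ({ toFun := fun y => (y : CharacterModule F) s
       map_zero' := rfl
       map_add' := fun _ _ => rfl } : Y →+ AddCircle (1 : ℚ))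
  have hev : Function.Injective ev := by
    intro s t hst
    rw [← sub_eq_zero]
    apply h
    intro y hy
    have h1 : y s = y t := DFunLike.congr_fun hst (⟨y, hy⟩ : Y)
    rw [map_sub, h1, sub_self]
  have hfY : Finite (CharacterModule Y) := FG01_fin Y
  have h1 : Nat.card F ≤ Nat.card (CharacterModule Y) := Nat.card_le_card_of_injective ev hev
  have h2 : Nat.card (CharacterModule Y) ≤ Nat.card Y := FG01_card Y
  have h3 : Nat.card (CharacterModule F) ≤ Nat.card F := FG01_card F
  exact AddSubgroup.eq_top_of_le_card Y (h3.trans (h1.trans h2))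

end KE16
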