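import Pool.Agent.LibKE16.FG01

/-!
# [KE16 FG02] MEDIUM/STRONG, Mathlib + FG01 (as stated). Nakayama for the Pontryagin dual, compact form.

Plan. (0) For `s : M` the map `c ↦ π c • s` is locally constant (`hcont`), so its range is finite (compactness:
`IsLocallyConstant.range_finite`), so `{r • s}` is finite (`hπ`); so `Submodule.span R T` is finite for finite `T`
(induction on `T`: `span (insert a T) = span {a} ⊔ span T`, `Submodule.mem_span_singleton`, `Submodule.mem_sup`).
(1) `S' := {s ∈ S, s ≠ 0}` finite; for `i : S'` choose a character `x i` with `x i i ≠ 0`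
(`CharacterModule.exists_character_apply_ne_zero_of_ne_zero`). Claim: `x i` (i : S') span the dual. Let `φ` be a character of `M`.
(2) For every finite `T : Set M` there is `r : S' → R` with `∀ s ∈ T, φ s = ∑ i, x i (r i • s)`: put `F = span R T`, finite;
`Y := AddSubgroup of CharacterModule F` of all `s ↦ ∑ i, x i (r i • s)`, `r : S' → R` (range of an additive map). If
`s0 ∈ F` is killed by all `y ∈ Y` then all multiples of `s0` are (r i ↦ r i * r), so `F0 := span R {s0}` is killed by all `x i`;
if `s0 ≠ 0`, `hsoc F0` gives a nonzero `s ∈ F0 ∩ S`, contradiction with `x s s ≠ 0`. FG01: `Y = ⊤`, so `φ|F ∈ Y`.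
(3) Compactness: on `S' → K` (compact) the sets `C s := {c | φ s = ∑ i, x i (π (c i) • s)}`, `s : M`, are closed (even clopen, by
`hcont`), and finite intersections are not empty by (2) and `hπ` (`choose` preimages). So there is a `c` in all of them
(`CompactSpace.iInter_nonempty` / `IsCompact.inter_iInter_nonempty`): `φ = ∑ i, π (c i) • x i` (the action on the dual is
`(r • x) s = x (r • s)`, by `rfl`). So `Module.Finite`: `Module.finite_def`, `Submodule.fg_def`, `⊤ = span (range x)`.
-/

namespace KE16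

private lemma FG02_sum_apply {M ι : Type} [AddCommGroup M] (t : Finset ι)
    (f : ι → CharacterModule M) (s : M) : (∑ i ∈ t, f i) s = ∑ i ∈ t, f i s := by
  classical
  induction t using Finset.induction_on with
  | empty => rfl
  | insert a t ha ih =>
    rw [Finset.sum_insert ha, Finset.sum_insert ha, ← ih]
    rfl

section

variable {R M K : Type} [CommRing R] [AddCommGroup M] [Module R M] [TopologicalSpace K]
    [CompactSpace K] (π : K → R) (hπ : Function.Surjective π)
    (hcont : ∀ (s : M) (c : K), ∃ U : Set K, IsOpen U ∧ c ∈ U ∧ ∀ c' ∈ U, π c' • s = π c • s)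

include hπ hcont in
private lemma FG02_orbit (s : M) : (Set.range (fun r : R => r • s)).Finite := by
  have h1 : IsLocallyConstant (fun c : K => π c • s) :=
    (IsLocallyConstant.iff_exists_open _).2 (hcont s)
  refine h1.range_finite.subset ?_
  rintro _ ⟨r, rfl⟩
  obtain ⟨c, hc⟩ := hπ r
  exact ⟨c, by rw [← hc]⟩

include hπ hcont in
private lemma FG02_span (T : Set M) (hT : T.Finite) : (Submodule.span R T : Set M).Finite := by
  induction T, hT using Set.Finite.induction_on with
  | empty =>
    rw [Submodule.span_empty, Submodule.bot_coe]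
    exact Set.finite_singleton 0
  | @insert a T _ _ ih =>
    rw [Submodule.span_insert, Submodule.coe_sup]
    refine Set.Finite.add ?_ ih
    refine (FG02_orbit π hπ hcont a).subset ?_
    intro y hy
    obtain ⟨r, hr⟩ := Submodule.mem_span_singleton.1 hy
    exact ⟨r, hr⟩

include hπ hcont in
private lemma FG02_local (S : Set M)
    (hsoc : ∀ F : Submodule R M, F ≠ ⊥ → (F : Set M).Finite → ∃ s ∈ F, s ∈ S ∧ s ≠ 0)
    [Fintype {s : M // s ∈ S ∧ s ≠ 0}]
    (x : {s : M // s ∈ S ∧ s ≠ 0} → CharacterModule M) (hx : ∀ i, x i i.1 ≠ 0)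
    (φ : CharacterModule M) (T : Set M) (hT : T.Finite) :
    ∃ r : {s : M // s ∈ S ∧ s ≠ 0} → R, ∀ s ∈ T, φ s = ∑ i, x i (r i • s) := by
  have hF : (Submodule.span R T : Set M).Finite := FG02_span π hπ hcont T hT
  have hFin : Finite (Submodule.span R T) := hF.to_subtype
  have hY := FG_dual
    (Submodule.span R (Set.range
      (fun i => CharacterModule.dual (Submodule.span R T).subtype (x i)))).toAddSubgroup (by
    intro s0 hs0
    by_contra hne
    have hne' : (s0 : M) ≠ 0 := fun h => hne (Subtype.ext h)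
    have h1 : Submodule.span R {(s0 : M)} ≠ ⊥ := by
      intro h
      exact hne' (Submodule.span_singleton_eq_bot.1 h)
    obtain ⟨s, hs1, hs2, hs3⟩ := hsoc _ h1
      (FG02_span π hπ hcont {(s0 : M)} (Set.finite_singleton _))
    obtain ⟨r, hr⟩ := Submodule.mem_span_singleton.1 hs1
    have h2 := hs0 (r • CharacterModule.dual (Submodule.span R T).subtype (x ⟨s, hs2, hs3⟩))
      (Submodule.smul_mem _ _ (Submodule.subset_span ⟨⟨s, hs2, hs3⟩, rfl⟩))
    apply hx ⟨s, hs2, hs3⟩
    show x ⟨s, hs2, hs3⟩ s = 0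
    have h3 : (r • CharacterModule.dual (Submodule.span R T).subtype (x ⟨s, hs2, hs3⟩)) s0 =
        x ⟨s, hs2, hs3⟩ (r • (s0 : M)) := rfl
    rw [h3] at h2
    have h4 : x ⟨s, hs2, hs3⟩ (r • (s0 : M)) = x ⟨s, hs2, hs3⟩ s :=
      congrArg (x ⟨s, hs2, hs3⟩) hr
    rw [← h4]
    exact h2)
  have hmem : CharacterModule.dual (Submodule.span R T).subtype φ ∈
      Submodule.span R (Set.range
        (fun i => CharacterModule.dual (Submodule.span R T).subtype (x i))) := by
    have h1 : CharacterModule.dual (Submodule.span R T).subtype φ ∈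
      (Submodule.span R (Set.range
        (fun i => CharacterModule.dual (Submodule.span R T).subtype (x i)))).toAddSubgroup := by
      rw [hY]
      exact AddSubgroup.mem_top _
    exact h1
  obtain ⟨r, hr⟩ := (Submodule.mem_span_range_iff_exists_fun R).1 hmem
  refine ⟨r, fun s hs => ?_⟩
  have hsF : s ∈ Submodule.span R T := Submodule.subset_span hs
  have h1 : φ s = (CharacterModule.dual (Submodule.span R T).subtype φ) ⟨s, hsF⟩ := rfl
  rw [h1, ← hr, FG02_sum_apply]
  rfl

include hπ hcont in
private lemma FG02_global (S : Set M)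
    (hsoc : ∀ F : Submodule R M, F ≠ ⊥ → (F : Set M).Finite → ∃ s ∈ F, s ∈ S ∧ s ≠ 0)
    [Fintype {s : M // s ∈ S ∧ s ≠ 0}]
    (x : {s : M // s ∈ S ∧ s ≠ 0} → CharacterModule M) (hx : ∀ i, x i i.1 ≠ 0)
    (φ : CharacterModule M) :
    ∃ r : {s : M // s ∈ S ∧ s ≠ 0} → R, ∀ s, φ s = ∑ i, x i (r i • s) := by
  have hne : (⋂ s : M, {c : {s : M // s ∈ S ∧ s ≠ 0} → K | φ s = ∑ i, x i (π (c i) • s)}).Nonempty := by
    refine CompactSpace.iInter_nonempty ?_ ?_
    · intro s
      have hloc : IsLocallyConstant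
          (fun (c : {s : M // s ∈ S ∧ s ≠ 0} → K) (i : {s : M // s ∈ S ∧ s ≠ 0}) => π (c i) • s) := by
        refine (IsLocallyConstant.iff_exists_open _).2 (fun c => ?_)
        choose U hU1 hU2 hU3 using fun i => hcont s (c i)
        refine ⟨Set.pi Set.univ U, isOpen_set_pi Set.finite_univ (fun i _ => hU1 i),
          fun i _ => hU2 i, ?_⟩
        intro c' hc'
        funext i
        exact hU3 i (c' i) (hc' i (Set.mem_univ i))
      have hopen := hloc ({m : {s : M // s ∈ S ∧ s ≠ 0} → M | φ s = ∑ i, x i (m i)}ᶜ)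
      rw [Set.preimage_compl] at hopen
      exact ⟨hopen⟩
    · intro T
      obtain ⟨r, hr⟩ := FG02_local π hπ hcont S hsoc x hx φ (T : Set M) T.finite_toSet
      choose c hc using fun i => hπ (r i)
      refine ⟨c, ?_⟩
      rw [Set.mem_iInter₂]
      intro s hs
      show φ s = ∑ i, x i (π (c i) • s)
      simp only [hc]
      exact hr s hs
  obtain ⟨c, hc⟩ := hne
  rw [Set.mem_iInter] at hc
  exact ⟨fun i => π (c i), fun s => hc s⟩

end

theorem FG_abs {R M K : Type} [CommRing R] [AddCommGroup M] [Module R M] [TopologicalSpace K]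
    [CompactSpace K] (π : K → R) (hπ : Function.Surjective π)
    (hcont : ∀ (s : M) (c : K), ∃ U : Set K, IsOpen U ∧ c ∈ U ∧ ∀ c' ∈ U, π c' • s = π c • s)
    (S : Set M) (hS : S.Finite)
    (hsoc : ∀ F : Submodule R M, F ≠ ⊥ → (F : Set M).Finite → ∃ s ∈ F, s ∈ S ∧ s ≠ 0) :
    Module.Finite R (CharacterModule M) := by
  have hfin : Finite {s : M // s ∈ S ∧ s ≠ 0} :=
    (hS.subset (fun s hs => hs.1 : {s : M | s ∈ S ∧ s ≠ 0} ⊆ S)).to_subtype
  have := Fintype.ofFinite {s : M // s ∈ S ∧ s ≠ 0}
  choose x hx using fun i : {s : M // s ∈ S ∧ s ≠ 0} =>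
    CharacterModule.exists_character_apply_ne_zero_of_ne_zero i.2.2
  refine ⟨Submodule.fg_def.2 ⟨Set.range x, Set.finite_range x, ?_⟩⟩
  rw [eq_top_iff]
  intro φ _
  obtain ⟨r, hr⟩ := FG02_global π hπ hcont S hsoc x hx φ
  rw [Submodule.mem_span_range_iff_exists_fun]
  refine ⟨r, ?_⟩
  apply CharacterModule.ext
  intro s
  rw [FG02_sum_apply, hr s]
  rfl

end KE16
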