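import Pool.Agent.LibKE16.Base

/-!
# [KE16 FG03] MEDIUM, Mathlib + Base. The Iwasawa algebra is compact and acts continuously on the Selmer group.

Plan. `K := {c : ∀ n, Hn 3 193 n → ℤ_[3] // ∀ n b, ∑ a with tr 3 193 n a = b, c (n + 1) a = c n b}`: a closed subset
(`isClosed_iInter`, `isClosed_eq`, continuity of finite sums and evaluations) of a compact space (`ℤ_[3]` is compact, Tychonoff:
`Pi.compactSpace`; `Hn 3 193 n` is a `Fintype`), so compact (`isCompact_iff_compactSpace`). `π c := ⟨fun n ↦ element of the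
monoid algebra with coefficients c n, _⟩` (`MonoidAlgebra.ofCoeff`/`.coeff`, `Finsupp.equivFunOnFinite`; the compatibility is
`Finsupp.mapDomain` on finite types: `Finsupp.mapDomain_apply'`/`Finsupp.mapDomain_fintype`...: the coefficient at `b` of
`mapDomain t r` is the sum over the fibre). Surjective: take the coefficients.
(Or: `K := Iw 3 193` with the induced topology, whatever is easier.)
Continuity: `(hinst r s).1` gives `n k g` with `Adm`, `(hinst r s).2 n k g` : `r • s = ∑ a, appr (r_n a) k • gS (g a)⁻¹ s` (the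
choice of `n k g` depends on `s` only, take it from `(hinst 0 s).1`). `U := {c' | ∀ a, toZModPow k (c' n a) = toZModPow k (c n a)}` or
`{c' | ∀ a, ‖c' n a - c n a‖ ≤ 3^(-k)}` is open (`PadicInt.continuous_toZModPow`... or norm balls
`PadicInt.norm_le_pow_iff_mem_span_pow`, IsUltrametricDist.isOpen_closedBall) and on `U` `appr (c' n a) k = appr (c n a) k`
(`PadicInt.toZModPow`, `PadicInt.appr_lt`, `PadicInt.appr_spec`) or at least they are congruent modulo `3^k`, and `3^k • s = 0`.
`Finsupp.sum` over two different supports: rewrite as sums over the `Fintype` (`Finsupp.sum_fintype`; `appr 0 k • _ = 0`: `appr 0 k`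
is `≡ 0 mod 3^k`, or equal to 0).
NOTE: in `Sel` the expression `3 • s` is elaborated through `AddGroup`; if `rw` fails use `exact`/`change`, or lemmas for an
abstract `[AddCommGroup M]`.
-/

open WeierstrassCurve

namespace KE16

private theorem FG03_md {α β M : Type} [Fintype α] [DecidableEq β] [AddCommMonoid M] (f : α → β)
    (x : α →₀ M) (b : β) : (Finsupp.mapDomain f x) b = ∑ a, if f a = b then x a else 0 := by
  rw [Finsupp.mapDomain, Finsupp.sum_fintype _ _ (fun i => Finsupp.single_zero _),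
    Finsupp.finsetSum_apply]
  refine Finset.sum_congr rfl fun a _ => ?_
  rw [Finsupp.single_apply]

private theorem FG03_toZ (k : ℕ) (x : ℤ_[3]) :
    PadicInt.toZModPow k x = (PadicInt.appr x k : ZMod (3 ^ k)) := rfl

private theorem FG03_appr {k : ℕ} {x y : ℤ_[3]} (h : ‖x - y‖ ≤ (3 : ℝ) ^ (-k : ℤ)) :
    PadicInt.appr x k = PadicInt.appr y k := by
  have h1 : x - y ∈ (Ideal.span {((3 : ℕ) : ℤ_[3]) ^ k} : Ideal ℤ_[3]) := by
    rw [← PadicInt.norm_le_pow_iff_mem_span_pow]
    exact_mod_cast h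
  rw [← PadicInt.ker_toZModPow, RingHom.mem_ker, map_sub, sub_eq_zero, FG03_toZ, FG03_toZ,
    ZMod.natCast_eq_natCast_iff'] at h1
  rwa [Nat.mod_eq_of_lt (PadicInt.appr_lt _ _), Nat.mod_eq_of_lt (PadicInt.appr_lt _ _)] at h1

private theorem FG03_appr0 (k : ℕ) : PadicInt.appr (0 : ℤ_[3]) k = 0 := by
  have h1 := FG03_toZ k 0
  rw [map_zero] at h1
  have h2 := (ZMod.natCast_eq_zero_iff _ _).1 h1.symm
  exact Nat.eq_zero_of_dvd_of_lt h2 (PadicInt.appr_lt _ _)

private theorem FG03_sum {α M : Type} [Fintype α] [AddCommMonoid M] (x : α →₀ ℤ_[3]) (k : ℕ)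
    (v : α → M) : (x.sum fun a z => PadicInt.appr z k • v a) =
      ∑ a, PadicInt.appr (x a) k • v a := by
  rw [Finsupp.sum_fintype]
  intro i
  rw [FG03_appr0, zero_smul]

open Classical in
private theorem FG03_closed : IsClosed {c : ∀ n, Hn 3 193 n → ℤ_[3] |
    ∀ n b, (∑ a, if tr 3 193 n a = b then c (n + 1) a else 0) = c n b} := by
  simp only [Set.ofPred_forall]
  refine isClosed_iInter fun n => isClosed_iInter fun b => isClosed_eq ?_ (by fun_prop)
  refine continuous_finsetSum _ fun a _ => ?_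
  by_cases h : tr 3 193 n a = b
  · simp only [h, if_true]
    fun_prop
  · simp only [h, if_false]
    fun_prop

theorem FG_cpt (inst : Module (Iw 3 193) (Sel E0 3 193))
    (hinst : ∀ (r : Iw 3 193) (s : Sel E0 3 193), IsAct E0 3 193 r s (r • s)) :
    ∃ (K : Type) (_ : TopologicalSpace K) (_ : CompactSpace K) (π : K → Iw 3 193),
      Function.Surjective π ∧ ∀ (s : Sel E0 3 193) (c : K),
        ∃ U : Set K, IsOpen U ∧ c ∈ U ∧ ∀ c' ∈ U, π c' • s = π c • s := by
  classical
  have hcpt : CompactSpace {c : ∀ n, Hn 3 193 n → ℤ_[3] |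
      ∀ n b, (∑ a, if tr 3 193 n a = b then c (n + 1) a else 0) = c n b} := by
    rw [← isCompact_iff_compactSpace]
    convert FG03_closed.isCompact
  let π : {c : ∀ n, Hn 3 193 n → ℤ_[3] |
      ∀ n b, (∑ a, if tr 3 193 n a = b then c (n + 1) a else 0) = c n b} → Iw 3 193 := fun c =>
    ⟨fun n => MonoidAlgebra.ofCoeff (Finsupp.equivFunOnFinite.symm (c.1 n)), by
      intro n
      apply MonoidAlgebra.coeff_injective
      apply Finsupp.ext
      intro b
      change (Finsupp.mapDomain (tr 3 193 n) (Finsupp.equivFunOnFinite.symm (c.1 (n + 1)))) b =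
        c.1 n b
      rw [FG03_md]
      exact c.2 n b⟩
  refine ⟨_, inferInstance, hcpt, π, ?_, ?_⟩
  · intro r
    refine ⟨⟨fun n a => ((r : ∀ n : ℕ, MonoidAlgebra ℤ_[3] (Hn 3 193 n)) n).coeff a, ?_⟩, ?_⟩
    · intro n b
      have h1 := congrArg (fun t => MonoidAlgebra.coeff t b) (r.2 n)
      have h2 : (Finsupp.mapDomain (tr 3 193 n)
        ((r : ∀ n : ℕ, MonoidAlgebra ℤ_[3] (Hn 3 193 n)) (n + 1)).coeff) b =
        ((r : ∀ n : ℕ, MonoidAlgebra ℤ_[3] (Hn 3 193 n)) n).coeff b := h1
      rw [FG03_md] at h2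
      exact h2
    · apply Subtype.ext
      funext n
      apply MonoidAlgebra.coeff_injective
      apply Finsupp.ext
      intro b
      rfl
  · intro s c
    obtain ⟨n, k, g, hadm⟩ := (hinst 0 s).1
    have hact : ∀ r : Iw 3 193, r • s = ∑ a, PadicInt.appr
        (((r : ∀ n : ℕ, MonoidAlgebra ℤ_[3] (Hn 3 193 n)) n).coeff a) k •
          gS E0 3 193 (g a)⁻¹ s := by
      intro r
      rw [← FG03_sum]
      exact (hinst r s).2 n k g hadm
    refine ⟨⋂ a, {c' | ‖c'.1 n a - c.1 n a‖ < (3 : ℝ) ^ (-k : ℤ)}, ?_, ?_, ?_⟩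
    · refine isOpen_iInter_of_finite fun a => ?_
      refine isOpen_lt ?_ continuous_const
      have hc1 : Continuous (fun d : ∀ n, Hn 3 193 n → ℤ_[3] => d n a) :=
        (continuous_apply a).comp (continuous_apply n)
      have hc2 : Continuous (fun c' : {c : ∀ n, Hn 3 193 n → ℤ_[3] |
          ∀ n b, (∑ a, if tr 3 193 n a = b then c (n + 1) a else 0) = c n b} => c'.1 n a) :=
        hc1.comp continuous_subtype_val
      exact (hc2.sub continuous_const).norm
    · rw [Set.mem_iInter]
      intro a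
      change ‖c.1 n a - c.1 n a‖ < (3 : ℝ) ^ (-k : ℤ)
      rw [sub_self, norm_zero]
      positivity
    · intro c' hc'
      rw [Set.mem_iInter] at hc'
      rw [hact, hact]
      refine Finset.sum_congr rfl fun a _ => ?_
      have h1 : PadicInt.appr (c'.1 n a) k = PadicInt.appr (c.1 n a) k := FG03_appr (le_of_lt (hc' a))
      change PadicInt.appr (c'.1 n a) k • _ = PadicInt.appr (c.1 n a) k • _
      rw [h1]

end KE16
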