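import Pool.Agent.LibKE16.Base
import Pool.Agent.LibKE16.AMain

/-! Interface of the algebra block (helper22). -/

open WeierstrassCurve

namespace KE16

/-- smoothness: every class is killed by a power of `3` and fixed by some `Gal(Qbar/ℚ(μ_{m 3ⁿ}))` -/
theorem A_smooth (s : Sel E0 3 193) : ∃ n k g, Adm E0 3 193 s n k g :=
  smooth E0 3 193 (by norm_num) s

/-- the module structure -/
theorem A_module : ∃ inst : Module (Iw 3 193) (Sel E0 3 193),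
    ∀ (r : Iw 3 193) (s : Sel E0 3 193), IsAct E0 3 193 r s (r • s) := module_exists

/-- The abstract criterion. `Γ` is the stabiliser-type data: `W = {s : 3s = 0, gs = s for all g}`. -/
theorem A_main
    (hcard : Nat.card {s : Sel E0 3 193 // 3 • s = 0 ∧ ∀ g : GQ, gS E0 3 193 g s = s} = 9)
    (g1 : GQ) (hg1 : ∀ ζ : Qb, IsPrimitiveRoot ζ 3 → g1 ζ = ζ)
    (hg9 : ∀ ζ : Qb, IsPrimitiveRoot ζ 9 → g1 ζ ≠ ζ)
    (hstep : ∀ s : Sel E0 3 193,
      (∀ g : GQ, (∀ (n : ℕ) (ζ : Qb), ζ ^ 3 ^ n = 1 → g ζ = ζ ∨ g ζ = ζ⁻¹) → gS E0 3 193 g s = s) →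
      (∀ g : GQ, gS E0 3 193 g (3 • s) = 3 • s) → 3 • (3 • s) = 0 →
      (∀ g : GQ, gS E0 3 193 g (gS E0 3 193 g1 s - s) = gS E0 3 193 g1 s - s) →
      3 • (gS E0 3 193 g1 s - s) = 0 →
      3 • s = 0 ∧ ∀ g : GQ, gS E0 3 193 g s = s)
    (inst : Module (Iw 3 193) (Sel E0 3 193))
    (hinst : ∀ (r : Iw 3 193) (s : Sel E0 3 193), IsAct E0 3 193 r s (r • s))
    (x y : Iw 3 193) :
    ¬ IsFitt (CharacterModule (Sel E0 3 193)) (Ideal.span {x, y}) :=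
  main_A hcard g1 hg1 hg9 hstep inst hinst x y

end KE16
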