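import Pool.Agent.LibKE16.FDefs
import Pool.Agent.LibKE16.IfaceA

/-!
# [KE16 FG04] MEDIUM. The socle: a finite stable group of classes contains a nonzero class of order 3 fixed by `GP`.

Plan. FG_pow: induction on `k`: `g^(3^k)` fixes all `ζ` with `ζ^(193·3^(k+1)) = 1`. Step: `ψ = g^(3^k)`, `ζ^(193·3^(k+2)) = 1`:
`ψ(ζ^3) = ζ^3`, so `ψ ζ = ω ζ`, `ω^3 = 1`, `ψ ω = ω` (as `ω^(193·3) = 1`), so `ψ^3 ζ = ω^3 ζ = ζ`. For `CycAct N g 1`: `N > 1`, so
`((1 : (ZMod N)ˣ) : ZMod N).val = 1` (`ZMod.val_one`, needs `Fact (1 < N)`).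
FG_soc: `F3 := {s ∈ F | 3 • s = 0}` is not `0`: take `s ≠ 0` in `F`, `A_smooth` (IfaceA, as stated): `3^k • s = 0`; take the least `k`,
`3^(k-1) • s` is in `F3`, nonzero. `F3` is finite, stable under `gS g`. Let `Γ := GP` act on the type `F3`
(MulAction by `gS`; `gS_mul`, `gS_one`), and let `P` be the image of `GP` in `Equiv.Perm F3` (`MonoidHom.range` of
`MulAction.toPermHom`, or work with `AddAut`). By `A_smooth` every `s ∈ F3` has a level `n` with `CycAct (193·3^n) h 1 → gS h s = s`;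
take `n` = the maximum over the finite set `F3` (a level `n` class is also of level `n' ≥ n`: `CycAct (193·3^n') h 1` implies
`CycAct (193·3^n) h 1`). For `g ∈ GP`: `g^(3^n)` acts trivially (FG_pow), so `P` is a 3-group (`IsPGroup 3 P`), finite set `F3`, and
3 divides `card F3` (F3 is a nontrivial group killed by 3: `IsPGroup.iff_card`/Cauchy/ `addOrderOf_dvd_natCard` of a nonzero
element). `IsPGroup.exists_fixed_point_of_prime_dvd_card_of_fixed_point` with the fixed point `0` gives another one.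
NOTE: in `Sel` the expression `3 • s` is elaborated through `AddGroup`; if `rw` fails use `exact`/`change`, or lemmas for an
abstract `[AddCommGroup M]` (best: prove an abstract lemma for a group `G` acting on a finite `AddCommGroup`).
-/

open WeierstrassCurve

namespace KE16

private theorem FG04_one {N : ℕ} (hN : 1 < N) : (((1 : (ZMod N)ˣ) : ZMod N)).val = 1 := by
  have : Fact (1 < N) := ⟨hN⟩
  rw [Units.val_one]
  exact ZMod.val_one N

private theorem FG04_lt (n : ℕ) : 1 < 193 * 3 ^ n := by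
  have := Nat.one_le_pow n 3 (by norm_num)
  omega

private theorem FG04_fix (g : GQ) (hg : g ∈ GP) (k : ℕ) :
    ∀ ζ : Qb, ζ ^ (193 * 3 ^ (k + 1)) = 1 → (g ^ 3 ^ k) ζ = ζ := by
  induction k with
  | zero =>
    intro ζ hζ
    rw [pow_zero, pow_one]
    refine (mem_GP g).1 hg ζ ?_
    rw [zero_add, pow_one] at hζ
    exact hζ
  | succ k ih =>
    intro ζ hζ
    have h0 : ζ ≠ 0 := by
      rintro rfl
      rw [zero_pow (by positivity)] at hζ
      exact zero_ne_one hζ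
    have h3 : (g ^ 3 ^ k) (ζ ^ 3) = ζ ^ 3 := by
      apply ih
      rw [← pow_mul]
      have e : 3 * (193 * 3 ^ (k + 1)) = 193 * 3 ^ (k + 1 + 1) := by ring
      rw [e]
      exact hζ
    obtain ⟨ω, hω⟩ : ∃ ω, (g ^ 3 ^ k) ζ = ω * ζ := ⟨(g ^ 3 ^ k) ζ / ζ, (div_mul_cancel₀ _ h0).symm⟩
    have hω3 : ω ^ 3 = 1 := by
      rw [map_pow, hω, mul_pow] at h3
      have h4 : ζ ^ 3 ≠ 0 := pow_ne_zero _ h0
      exact mul_right_cancel₀ h4 (by rw [h3, one_mul])
    have hωf : (g ^ 3 ^ k) ω = ω := by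
      apply ih
      have e : 193 * 3 ^ (k + 1) = 3 * (193 * 3 ^ k) := by ring
      rw [e, pow_mul, hω3, one_pow]
    have h5 : (g ^ 3 ^ (k + 1)) ζ = (g ^ 3 ^ k) ((g ^ 3 ^ k) ((g ^ 3 ^ k) ζ)) := by
      have e : g ^ 3 ^ (k + 1) = g ^ 3 ^ k * (g ^ 3 ^ k * g ^ 3 ^ k) := by
        rw [← pow_add, ← pow_add]
        congr 1
        ring
      rw [e]
      rfl
    rw [h5, hω, map_mul, hωf, hω, map_mul, map_mul, hωf, hω]
    have e : ω * (ω * (ω * ζ)) = ω ^ 3 * ζ := by ring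
    rw [e, hω3, one_mul]

private theorem FG04_fix' (g : GQ) (hg : g ∈ GP) (n : ℕ) (ζ : Qb) (hζ : ζ ^ (193 * 3 ^ n) = 1) :
    (g ^ 3 ^ n) ζ = ζ := by
  apply FG04_fix g hg n
  have e : 193 * 3 ^ (n + 1) = (193 * 3 ^ n) * 3 := by ring
  rw [e, pow_mul, hζ, one_pow]

private theorem FG04_t {M : Type} [AddCommGroup M] (F : AddSubgroup M) (k : ℕ) :
    ∀ s ∈ F, s ≠ 0 → 3 ^ k • s = 0 → ∃ t ∈ F, t ≠ 0 ∧ 3 • t = 0 := by
  induction k with
  | zero =>
    intro s _ hs0 h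
    rw [pow_zero, one_nsmul] at h
    exact (hs0 h).elim
  | succ k ih =>
    intro s hs hs0 h
    by_cases h3 : 3 • s = 0
    · exact ⟨s, hs, hs0, h3⟩
    · refine ih (3 • s) (F.nsmul_mem hs 3) h3 ?_
      rw [← mul_nsmul', ← pow_succ]
      exact h

private theorem FG04_unif {α : Type} (S : Set α) (hS : S.Finite) (p : ℕ → α → Prop)
    (hmono : ∀ n m s, n ≤ m → p n s → p m s) (h : ∀ s ∈ S, ∃ n, p n s) : ∃ n, ∀ s ∈ S, p n s := by
  induction S, hS using Set.Finite.induction_on with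
  | empty => exact ⟨0, fun x hx => hx.elim⟩
  | insert _ _ ih =>
    rename_i y S _ _
    obtain ⟨k, hk⟩ := ih fun x hx => h x (Set.mem_insert_of_mem _ hx)
    obtain ⟨l, hl⟩ := h y (Set.mem_insert _ _)
    refine ⟨max k l, fun x hx => ?_⟩
    rcases hx with hx | hx
    · rw [hx]
      exact hmono _ _ _ (le_max_right k l) hl
    · exact hmono _ _ _ (le_max_left k l) (hk x hx)

private theorem FG04_abs {G M : Type} [Group G] [AddCommGroup M] (act : G → M →+ M)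
    (hmul : ∀ g h s, act (g * h) s = act g (act h s)) (hone : ∀ s, act 1 s = s) (F : AddSubgroup M)
    (hF : (F : Set M).Finite) (h0 : F ≠ ⊥) (hst : ∀ g, ∀ s ∈ F, act g s ∈ F)
    (htor : ∀ s ∈ F, ∃ k : ℕ, 3 ^ k • s = 0)
    (hlev : ∃ n : ℕ, ∀ s ∈ F, ∀ g : G, act (g ^ 3 ^ n) s = s) :
    ∃ s ∈ F, s ≠ 0 ∧ 3 • s = 0 ∧ ∀ g, act g s = s := by
  classical
  have := fact3
  let X : AddSubgroup M :=
    { carrier := {s | s ∈ F ∧ 3 • s = 0}
      add_mem' := fun {a b} ha hb => ⟨F.add_mem ha.1 hb.1, by rw [nsmul_add, ha.2, hb.2, add_zero]⟩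
      zero_mem' := ⟨F.zero_mem, nsmul_zero 3⟩
      neg_mem' := fun {a} ha => ⟨F.neg_mem ha.1, by rw [neg_nsmul, ha.2, neg_zero]⟩ }
  have hX : ∀ s, s ∈ X ↔ s ∈ F ∧ 3 • s = 0 := fun s => Iff.rfl
  have hXfin : Finite X := (hF.subset fun s hs => ((hX s).1 hs).1).to_subtype
  have hXst : ∀ g, ∀ s ∈ X, act g s ∈ X := by
    intro g s hs
    rw [hX] at hs ⊢
    exact ⟨hst g s hs.1, by rw [← map_nsmul, hs.2, map_zero]⟩
  let Φ : G →* Equiv.Perm X :=
    { toFun := fun g =>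
        { toFun := fun s => ⟨act g s, hXst g s s.2⟩
          invFun := fun s => ⟨act g⁻¹ s, hXst g⁻¹ s s.2⟩
          left_inv := fun s => Subtype.ext (by
            change act g⁻¹ (act g s) = s
            rw [← hmul, inv_mul_cancel, hone])
          right_inv := fun s => Subtype.ext (by
            change act g (act g⁻¹ s) = s
            rw [← hmul, mul_inv_cancel, hone]) }
      map_one' := by
        ext s
        exact hone s
      map_mul' := by
        intro g h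
        ext s
        exact hmul g h s }
  obtain ⟨n, hn⟩ := hlev
  have hP : IsPGroup 3 Φ.range := by
    rintro ⟨_, g, rfl⟩
    refine ⟨n, ?_⟩
    apply Subtype.ext
    change (Φ g) ^ 3 ^ n = 1
    rw [← map_pow]
    ext s
    exact hn s ((hX s).1 s.2).1 g
  obtain ⟨t0, ht0F, ht0⟩ : ∃ s ∈ F, s ≠ 0 := by
    by_contra hcon
    push Not at hcon
    exact h0 ((AddSubgroup.eq_bot_iff_forall F).2 hcon)
  obtain ⟨k, hk⟩ := htor t0 ht0F
  obtain ⟨t, htF, ht0, ht3⟩ := FG04_t F k t0 ht0F ht0 hk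
  have h3 : 3 ∣ Nat.card X := by
    have h1 : addOrderOf (⟨t, (hX t).2 ⟨htF, ht3⟩⟩ : X) = 3 :=
      addOrderOf_eq_prime (Subtype.ext ht3) (fun h => ht0 (congrArg Subtype.val h))
    rw [← h1]
    exact addOrderOf_dvd_natCard _
  obtain ⟨b, hb, hb0⟩ := hP.exists_fixed_point_of_prime_dvd_card_of_fixed_point X h3 (a := (0 : X)) (by
    rintro ⟨_, g, rfl⟩
    exact Subtype.ext (map_zero (act g)))
  refine ⟨b, ((hX b).1 b.2).1, fun h => hb0 (Subtype.ext h.symm), ((hX b).1 b.2).2, fun g => ?_⟩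
  exact congrArg Subtype.val (hb ⟨Φ g, g, rfl⟩)

theorem FG_pow (g : GQ) (hg : g ∈ GP) (n : ℕ) : CycAct (193 * 3 ^ n) (g ^ 3 ^ n) 1 := by
  intro ζ hζ
  rw [FG04_one (FG04_lt n), pow_one]
  exact FG04_fix' g hg n ζ hζ

theorem FG_soc (F : AddSubgroup (Sel E0 3 193)) (hF : (F : Set (Sel E0 3 193)).Finite) (h0 : F ≠ ⊥)
    (hst : ∀ g : GQ, ∀ s ∈ F, gS E0 3 193 g s ∈ F) : ∃ s ∈ F, s ≠ 0 ∧ InS s := by
  have hlev : ∃ n : ℕ, ∀ s ∈ (F : Set (Sel E0 3 193)), ∀ h : GQ,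
      (∀ ζ : Qb, ζ ^ (193 * 3 ^ n) = 1 → h ζ = ζ) → gS E0 3 193 h s = s := by
    refine FG04_unif (F : Set (Sel E0 3 193)) hF (fun n s => ∀ h : GQ,
      (∀ ζ : Qb, ζ ^ (193 * 3 ^ n) = 1 → h ζ = ζ) → gS E0 3 193 h s = s) ?_ ?_
    · intro n m s hnm hp h hh
      refine hp h fun ζ hζ => hh ζ ?_
      obtain ⟨c, rfl⟩ := Nat.exists_eq_add_of_le hnm
      have e : 193 * 3 ^ (n + c) = (193 * 3 ^ n) * 3 ^ c := by ring
      rw [e, pow_mul, hζ, one_pow]
    · intro s _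
      obtain ⟨n, k, a, -, h2, -⟩ := A_smooth s
      refine ⟨n, fun h hh => h2 h fun ζ hζ => ?_⟩
      rw [FG04_one (FG04_lt n), pow_one]
      exact hh ζ hζ
  obtain ⟨n, hn⟩ := hlev
  obtain ⟨s, hs, hs0, h3, hfix⟩ := FG04_abs (G := GP) (M := Sel E0 3 193) (fun g => gS E0 3 193 (g : GQ))
    (fun g h s => gS_mul E0 3 193 g h s) (fun s => gS_one E0 3 193 s) F hF h0 (fun g s hs => hst g s hs)
    (fun s _ => by
      obtain ⟨n, k, a, h1, -, -⟩ := A_smooth s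
      exact ⟨k, h1⟩) ⟨n, fun s hs g => hn s hs _ fun ζ hζ => FG04_fix' g g.2 n ζ hζ⟩
  exact ⟨s, hs, hs0, h3, fun g hg => hfix ⟨g, hg⟩⟩

end KE16
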