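import Pool.Agent.LibKE16.FG02
import Pool.Agent.LibKE16.FG03
import Pool.Agent.LibKE16.FG04
import Pool.Agent.LibKE16.G1

/-! # [KE16 FG05] assembly of the module part (helper21) -/

open WeierstrassCurve

namespace KE16

theorem FG_red (inst : Module (Iw 3 193) (Sel E0 3 193))
    (hinst : ∀ (r : Iw 3 193) (s : Sel E0 3 193), IsAct E0 3 193 r s (r • s))
    (hfin : {s : Sel E0 3 193 | InS s}.Finite) :
    Module.Finite (Iw 3 193) (CharacterModule (Sel E0 3 193)) := by
  obtain ⟨K, i1, i2, π, hπ, hc⟩ := FG_cpt inst hinst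
  refine FG_abs π hπ hc {s : Sel E0 3 193 | InS s} hfin ?_
  intro F hF0 hF
  obtain ⟨s, hs, h0, hS⟩ := FG_soc F.toAddSubgroup hF (by
    intro h
    apply hF0
    rw [Submodule.eq_bot_iff]
    intro x hx
    have hx' : x ∈ F.toAddSubgroup := hx
    rw [h] at hx'
    exact hx') (by
    intro g s hs
    have e := gl_smul inst hinst g⁻¹ s
    rw [inv_inv] at e
    have h1 : gl g⁻¹ • s ∈ F := F.smul_mem _ hs
    rw [e] at h1
    exact h1)
  exact ⟨s, hs, hS, h0⟩

end KE16
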