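import Pool.Agent.LibKE16.FDefs
import Pool.Agent.LibKE16.CBase
import Pool.Agent.LibKE16.H03

/-!
# [KE16 FG06] MEDIUM (easy). The field `F = ℚ(u, v, ζ_193)`.

Plan. (`import CBase` gives the instances `Normal ℚ Qb`, `IsGalois ℚ Qb`, `Algebra.IsAlgebraic ℚ Qb`, `CompactSpace GQ`.)
FF_fin: `r0.u, r0.v, z193` are integral, `IntermediateField.finiteDimensional_adjoin` (or adjoin_pair..). GF_iff: adjoin_induction as in
H_fixM' of H12 for (→); `IntermediateField.subset_adjoin` for (←). FF_fix: Galois theory: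
`x ∈ fixedField (fixingSubgroup FF) = FF` (`InfiniteGalois.fixedField_fixingSubgroup`), as in H_fixM of H12.
FF_z: `r0.z = (-1 + u v s / 2)/2` with `s = -2 - u²` (r0.hu). GF_le: `ζ^(193·3) = 1`: `ζ = ζ^(193·a) · ζ^(3·b)` with
`193 a + 3 b = 1` (e.g. `193 - 3·64 = 1`: `ζ = ζ^193 · (ζ^3)^(-64)`, `ζ = ζ^193 * (ζ^3)^(129)` since `(ζ^3)^193 = 1`); `ζ^193` is
a cube root of 1, so a power of `r0.z` (primitive by H_z in H03, as stated), `ζ^3` is a 193-rd root of 1, a power of `z193`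
(`IsPrimitiveRoot.eq_pow_of_pow_eq_one`); `g` fixes both.
FF_rep: `GF` has finite index: the map `g ↦ (g u, g v, g z193)` has finite range (roots of the minimal polynomials, or:
`FF →ₐ[ℚ] Qb` is finite), and if `g, g'` have the same image then `g'⁻¹ g ∈ GF`. Choose one `g0` for each value taken on `GP`.
-/

open WeierstrassCurve

namespace KE16

theorem FF_fin : FiniteDimensional ℚ FF := by
  refine IntermediateField.finiteDimensional_adjoin ?_
  intro z _
  exact ((AlgebraicClosure.isAlgebraic ℚ).isAlgebraic z).isIntegral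

theorem GF_iff (g : GQ) : g ∈ GF ↔ ∀ x ∈ FF, g x = x := by
  constructor
  · intro hg x hx
    obtain ⟨h1, h2, h3⟩ := (mem_GF g).1 hg
    induction hx using IntermediateField.adjoin_induction with
    | mem y hy =>
      rcases hy with rfl | rfl | hy
      · exact h1
      · exact h2
      · rw [Set.mem_singleton_iff] at hy
        rw [hy, h3]
    | algebraMap r => exact g.commutes r
    | add x y _ _ hx hy => rw [map_add, hx, hy]
    | inv x _ hx => rw [map_inv₀, hx]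
    | mul x y _ _ hx hy => rw [map_mul, hx, hy]
  · intro h
    rw [mem_GF]
    exact ⟨h _ (IntermediateField.subset_adjoin ℚ _ (by simp)),
      h _ (IntermediateField.subset_adjoin ℚ _ (by simp)),
      h _ (IntermediateField.subset_adjoin ℚ _ (by simp))⟩

theorem FF_fix (x : Qb) (h : ∀ g ∈ GF, g x = x) : x ∈ FF := by
  have : x ∈ IntermediateField.fixedField FF.fixingSubgroup := by
    rw [IntermediateField.mem_fixedField_iff]
    intro g hg
    exact h g ((GF_iff g).2 ((IntermediateField.mem_fixingSubgroup_iff _ g).mp hg))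
  rwa [InfiniteGalois.fixedField_fixingSubgroup] at this

theorem FF_z : r0.z ∈ FF := by
  have hu : r0.u ∈ FF := IntermediateField.subset_adjoin ℚ _ (by simp)
  have hv : r0.v ∈ FF := IntermediateField.subset_adjoin ℚ _ (by simp)
  have h2 : (2 : Qb) ∈ FF := by
    have := natCast_mem FF 2
    exact_mod_cast this
  have hs : r0.s ∈ FF := by
    have e : r0.s = -2 - r0.u ^ 2 := by rw [r0.hu]; ring
    rw [e]
    exact FF.sub_mem (FF.neg_mem h2) (pow_mem hu 2)
  unfold Fr.z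
  exact FF.div_mem (FF.add_mem (FF.neg_mem FF.one_mem)
    (FF.div_mem (FF.mul_mem (FF.mul_mem hu hv) hs) h2)) h2

theorem GF_le : GF ≤ GP := by
  intro g hg
  rw [mem_GP]
  intro ζ hζ
  have hgz : g r0.z = r0.z := (GF_iff g).1 hg _ FF_z
  have hg1 : g z193 = z193 := ((mem_GF g).1 hg).2.2
  have h1 : g (ζ ^ 193) = ζ ^ 193 := by
    have h3 : (ζ ^ 193) ^ 3 = 1 := by rw [← pow_mul]; exact hζ
    obtain ⟨i, -, hi⟩ := (H_z r0).eq_pow_of_pow_eq_one h3
    rw [← hi, map_pow, hgz]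
  have h2 : g (ζ ^ 3) = ζ ^ 3 := by
    have h3 : (ζ ^ 3) ^ 193 = 1 := by
      rw [← pow_mul, mul_comm]
      exact hζ
    obtain ⟨i, -, hi⟩ := z193_spec.eq_pow_of_pow_eq_one h3
    rw [← hi, map_pow, hg1]
  have h4 : ζ = ζ ^ 193 * (ζ ^ 3) ^ 129 := by
    have e : ζ ^ 193 * (ζ ^ 3) ^ 129 = ζ ^ (193 * 3) * ζ := by
      rw [← pow_mul, ← pow_add, ← pow_succ]
    rw [e, hζ, one_mul]
  have h5 : g (ζ ^ 193 * (ζ ^ 3) ^ 129) = ζ ^ 193 * (ζ ^ 3) ^ 129 := by
    rw [map_mul, map_pow g (ζ ^ 3) 129, h1, h2]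
  rw [← h4] at h5
  exact h5

theorem FF_rep : ∃ T : Set GQ, T.Finite ∧ (∀ g ∈ T, g ∈ GP) ∧
    ∀ g ∈ GP, ∃ g0 ∈ T, ∃ σ ∈ GF, g = g0 * σ := by
  classical
  have hfin : FiniteDimensional ℚ FF := FF_fin
  have : Finite (FF →ₐ[ℚ] Qb) := inferInstance
  obtain ⟨res, hres⟩ : ∃ res : GQ → (FF →ₐ[ℚ] Qb), ∀ g (x : FF), res g x = g x :=
    ⟨fun g => (g : Qb →ₐ[ℚ] Qb).comp FF.val, fun g x => rfl⟩
  obtain ⟨F, hF1, hF2⟩ : ∃ F : (FF →ₐ[ℚ] Qb) → GQ, (∀ φ, F φ ∈ GP) ∧
      ∀ g ∈ GP, res (F (res g)) = res g := by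
    refine ⟨fun φ => if h : ∃ g ∈ GP, res g = φ then h.choose else 1, fun φ => ?_, fun g hg => ?_⟩
    · dsimp only
      by_cases h : ∃ g ∈ GP, res g = φ
      · rw [dif_pos h]
        exact h.choose_spec.1
      · rw [dif_neg h]
        exact GP.one_mem
    · have h : ∃ g' ∈ GP, res g' = res g := ⟨g, hg, rfl⟩
      dsimp only
      rw [dif_pos h]
      exact h.choose_spec.2
  refine ⟨Set.range F, Set.finite_range F, ?_, fun g hg => ?_⟩
  · rintro _ ⟨φ, rfl⟩
    exact hF1 φ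
  · refine ⟨F (res g), ⟨_, rfl⟩, (F (res g))⁻¹ * g, ?_, by rw [mul_inv_cancel_left]⟩
    rw [GF_iff]
    intro x hx
    have h1 : (F (res g)) x = g x := by
      rw [← hres _ ⟨x, hx⟩, ← hres g ⟨x, hx⟩, hF2 g hg]
    change (F (res g))⁻¹ (g x) = x
    rw [← h1]
    exact AlgEquiv.symm_apply_apply _ x

end KE16
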