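import Mathlib

/-!
# [KE16 FG13] Units modulo cubes; a finitely generated abelian group modulo cubes is finite.
-/

open NumberField IsDedekindDomain

namespace KE16

theorem FG_fgcube {G : Type*} [CommGroup G] (hG : Group.FG G) :
    ∃ R : Set G, R.Finite ∧ ∀ g : G, ∃ r ∈ R, ∃ w : G, g = r * w ^ 3 := by
  classical
  obtain ⟨S, hS⟩ := hG.out
  -- the finite set of products with exponents below `3`
  have key : ∀ T : Finset G, ∃ R : Set G, R.Finite ∧ ∀ g ∈ Subgroup.closure (T : Set G),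
      ∃ r ∈ R, ∃ w : G, g = r * w ^ 3 := by
    intro T
    induction T using Finset.induction with
    | empty =>
      refine ⟨{1}, Set.finite_singleton 1, ?_⟩
      intro g hg
      rw [Finset.coe_empty, Subgroup.closure_empty, Subgroup.mem_bot] at hg
      exact ⟨1, rfl, 1, by rw [hg]; simp⟩
    | insert a T _ ih =>
      obtain ⟨R, hR, h⟩ := ih
      refine ⟨(fun p : G × Fin 3 ↦ p.1 * a ^ (p.2 : ℕ)) '' (R ×ˢ Set.univ),
        (hR.prod Set.finite_univ).image _, ?_⟩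
      intro g hg
      rw [Finset.coe_insert, Set.insert_eq, Subgroup.closure_union, Subgroup.mem_sup] at hg
      obtain ⟨x, hx, y, hy, rfl⟩ := hg
      obtain ⟨k, rfl⟩ := Subgroup.mem_closure_singleton.mp hx
      obtain ⟨r, hr, w, rfl⟩ := h y hy
      have h1 := Int.emod_nonneg k (by norm_num : (3 : ℤ) ≠ 0)
      have h2 := Int.emod_lt_of_pos k (by norm_num : (0 : ℤ) < 3)
      let c : Fin 3 := ⟨(k % 3).toNat, by omega⟩
      refine ⟨r * a ^ (c : ℕ), ⟨(r, c), ⟨hr, Set.mem_univ _⟩, rfl⟩, w * a ^ (k / 3), ?_⟩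
      have hc : ((c : ℕ) : ℤ) = k % 3 := Int.toNat_of_nonneg h1
      have hk : a ^ k = a ^ (c : ℕ) * (a ^ (k / 3)) ^ 3 := by
        rw [← zpow_natCast a (c : ℕ), hc, ← zpow_natCast (a ^ (k / 3)) 3, ← zpow_mul, ← zpow_add]
        congr 1
        have := Int.emod_add_mul_ediv k 3
        push_cast
        omega
      rw [hk, mul_pow]
      generalize a ^ (c : ℕ) = X
      generalize (a ^ (k / 3)) ^ 3 = Y
      generalize w ^ 3 = V
      calc X * Y * (r * V) = r * (X * (V * Y)) := by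
            rw [mul_comm (X * Y), mul_assoc r, mul_left_comm V X Y]
        _ = r * X * (V * Y) := by rw [mul_assoc]
  obtain ⟨R, hR, h⟩ := key S
  exact ⟨R, hR, fun g ↦ h g (by rw [hS]; exact Subgroup.mem_top g)⟩

theorem FG_unitcube (M : Type*) [Field M] [NumberField M] :
    ∃ R : Set (𝓞 M)ˣ, R.Finite ∧ ∀ g : (𝓞 M)ˣ, ∃ r ∈ R, ∃ w : (𝓞 M)ˣ, g = r * w ^ 3 := by
  classical
  let n := NumberField.Units.rank M
  let F : NumberField.Units.torsion M × (Fin n → Fin 3) → (𝓞 M)ˣ := fun p ↦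
    (p.1 : (𝓞 M)ˣ) * ∏ i, (NumberField.Units.fundSystem M i) ^ ((p.2 i : ℕ))
  refine ⟨Set.range F, Set.finite_range F, ?_⟩
  intro ε
  obtain ⟨⟨ζ, e⟩, hζe, -⟩ := NumberField.Units.exist_unique_eq_mul_prod M ε
  let c : Fin n → Fin 3 := fun i ↦ ⟨(e i % 3).toNat, by
    have h1 := Int.emod_nonneg (e i) (by norm_num : (3 : ℤ) ≠ 0)
    have h2 := Int.emod_lt_of_pos (e i) (by norm_num : (0 : ℤ) < 3)
    omega⟩
  let η : (𝓞 M)ˣ := ∏ i, (NumberField.Units.fundSystem M i) ^ (e i / 3)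
  refine ⟨F (ζ, c), ⟨_, rfl⟩, η, ?_⟩
  rw [hζe]
  change _ = ((ζ : (𝓞 M)ˣ) * ∏ i, (NumberField.Units.fundSystem M i) ^ ((c i : ℕ))) * η ^ 3
  rw [mul_assoc]
  congr 1
  change _ = _ * (∏ i, (NumberField.Units.fundSystem M i) ^ (e i / 3)) ^ 3
  rw [← Finset.prod_pow, ← Finset.prod_mul_distrib]
  refine Finset.prod_congr rfl ?_
  intro i _
  have h1 : ((c i : ℕ) : ℤ) = e i % 3 := by
    change (((e i % 3).toNat : ℕ) : ℤ) = e i % 3
    exact Int.toNat_of_nonneg (Int.emod_nonneg (e i) (by norm_num))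
  rw [← zpow_natCast, h1, ← zpow_natCast (_ ^ (e i / 3)) 3, ← zpow_mul, ← zpow_add]
  congr 1
  have := Int.emod_add_mul_ediv (e i) 3
  push_cast
  omega

end KE16
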