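import Pool.Agent.LibKE16.CDef
import Pool.Agent.LibKE16.Base

/-! KE16, block A: group-like elements and the homomorphisms `ψ_e : ℛ → ℤ/27` (complete, cites C1). -/

open WeierstrassCurve

namespace KE16

/-- the group-like element `[g]` of the Iwasawa algebra -/
noncomputable def gl (g : GQ) : Iw 3 193 :=
  ⟨fun n ↦ MonoidAlgebra.single (cy (193 * 3 ^ n) g) 1, by
    intro n
    change MonoidAlgebra.mapDomainRingHom ℤ_[3] (tr 3 193 n)
      (MonoidAlgebra.single (cy (193 * 3 ^ (n + 1)) g) 1) = MonoidAlgebra.single (cy (193 * 3 ^ n) g) 1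
    rw [← cy_tr 3 193 n g]
    exact MonoidAlgebra.mapDomain_single⟩

theorem gl_apply (g : GQ) (n : ℕ) : (gl g : ∀ n, MonoidAlgebra ℤ_[3] (Hn 3 193 n)) n =
    MonoidAlgebra.single (cy (193 * 3 ^ n) g) 1 := rfl

/-- reduction of coefficients modulo 27 -/
noncomputable def coef : ℤ_[3] →+* ZMod 27 :=
  (ZMod.castHom (by decide : 27 ∣ 3 ^ 3) (ZMod 27)).comp (PadicInt.toZModPow 3)

/-- the character `a ↦ (a mod 27) ^ e` -/
noncomputable def chr (e : ℤ) : Hn 3 193 3 →* ZMod 27 :=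
  (Units.coeHom (ZMod 27)).comp ((zpowGroupHom e).comp (ZMod.unitsMap (by decide : 27 ∣ 193 * 3 ^ 3)))

theorem chr_apply (e : ℤ) (a : Hn 3 193 3) : chr e a =
    (((ZMod.unitsMap (by decide : 27 ∣ 193 * 3 ^ 3) a) ^ e : (ZMod 27)ˣ) : ZMod 27) := rfl

/-- the homomorphism of level 3 -/
noncomputable def psi3 (e : ℤ) : MonoidAlgebra ℤ_[3] (Hn 3 193 3) →+* ZMod 27 :=
  MonoidAlgebra.liftNCRingHom coef (chr e) fun _ _ ↦ Commute.all _ _

theorem psi3_single (e : ℤ) (a : Hn 3 193 3) (z : ℤ_[3]) :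
    psi3 e (MonoidAlgebra.single a z) = coef z * chr e a :=
  MonoidAlgebra.liftNCRingHom_single _ _ _ _ _

/-- the homomorphism `ψ_e : ℛ → ℤ/27`, `[σ_a] ↦ (a mod 27) ^ e` -/
noncomputable def psi (e : ℤ) : Iw 3 193 →+* ZMod 27 :=
  (psi3 e).comp ((Pi.evalRingHom (fun n ↦ MonoidAlgebra ℤ_[3] (Hn 3 193 n)) 3).comp
    (Iw 3 193).subtype)

theorem psi_apply (e : ℤ) (r : Iw 3 193) :
    psi e r = psi3 e ((r : ∀ n, MonoidAlgebra ℤ_[3] (Hn 3 193 n)) 3) := rfl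

/-- reduction modulo 3 -/
noncomputable def red3 : ZMod 27 →+* ZMod 3 := ZMod.castHom (by decide : 3 ∣ 27) (ZMod 3)

/-- the augmentation `ℛ → ℤ/3` -/
noncomputable def eps : Iw 3 193 →+* ZMod 3 := red3.comp (psi 0)

theorem psi_gl (e : ℤ) (g : GQ) : psi e (gl g) = (((cy 27 g) ^ e : (ZMod 27)ˣ) : ZMod 27) := by
  rw [psi_apply, gl_apply, psi3_single, map_one, one_mul, chr_apply, cy_dvd]

end KE16
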