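import Pool.Agent.LibKE16.HDefs

/-!
# [KE16 H01] MEDIUM

Plan. The product is `ψ₃ = 3x⁴ - 4x³ - 18x² - 12x - 5`. If `y = 0` then `2P = 0`, so `3P = P ≠ 0`, and
`ψ₃(x) ≠ 0`: `x³ = x² + 3x + 1` and `ψ₃(x) = 0` have no common solution (resultant; e.g. ψ₃ = -(3x²-2x-3)²
modulo 4·(x³-x²-3x-1)·(…): identity `ψ₃ = 4 (3x - 1) f - (3x² - 2x - 3)²`, f = x³-x²-3x-1, and
`f = 0 = f'` is impossible since disc f = 32·… ≠ 0: Bezout identity). If `y ≠ 0`: `3P = 0 ↔ 2P = -P`;
`2P` has x-coordinate `λ² + 1 - 2x`, `λ = (3x²-2x-3)/(2y)` (`WeierstrassCurve.Affine.Point.add_some`,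
`slope_of_Y_ne`, `addX`), so (→) x(2P) = x gives λ² + 1 = 3x, i.e. ψ₃(x)=0 after multiplying with 4y²=4f;
(←) if ψ₃(x) = 0 then x(2P) = x, so 2P = P or 2P = -P (same x); 2P = P gives P = 0, impossible.
Unfold `mk`; the coefficients a_i of `E0⁄F` as in the proof of `nonsing_iff`.
-/

open WeierstrassCurve

namespace KE16

private theorem H01_bez {F : Type} [Field F] [CharZero F] (x : F)
    (h1 : x ^ 3 - x ^ 2 - 3 * x - 1 = 0) (h2 : 3 * x ^ 2 - 2 * x - 3 = 0) : False := by
  have h : (32 : F) = 0 := by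
    linear_combination (-60 * x + 76) * h1 + (20 * x ^ 2 - 32 * x - 36) * h2
  norm_num at h

/-- the 3-division polynomial -/
theorem H_psi {F : Type} [Field F] [DecidableEq F] [CharZero F] [Algebra ℚ F] (x y : F)
    (h : Eqn x y) : 3 • mk x y h = 0 ↔ (x ^ 2 - 2 * x - 5) * (3 * x ^ 2 + 2 * x + 1) = 0 := by
  have c1 : (E0⁄F).toAffine.a₁ = 0 := by
    change algebraMap ℚ F 0 = 0; exact _root_.map_zero _
  have c2 : (E0⁄F).toAffine.a₂ = -1 := by
    change algebraMap ℚ F (-1) = -1; rw [_root_.map_neg, _root_.map_one]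
  have c3 : (E0⁄F).toAffine.a₃ = 0 := by
    change algebraMap ℚ F 0 = 0; exact _root_.map_zero _
  have c4 : (E0⁄F).toAffine.a₄ = -3 := by
    change algebraMap ℚ F (-3) = -3; rw [_root_.map_neg, _root_.map_ofNat]
  have hneg : (E0⁄F).toAffine.negY x y = -y := by
    rw [Affine.negY, c1, c3]
    ring
  have hP0 : mk x y h ≠ 0 := Affine.Point.some_ne_zero _
  have h3 : 3 • mk x y h = (mk x y h + mk x y h) + mk x y h := by
    rw [succ_nsmul, two_nsmul]
  have hE : y ^ 2 = x ^ 3 - x ^ 2 - 3 * x - 1 := h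
  by_cases hy : y = 0
  · have h2P : mk x y h + mk x y h = 0 := by
      unfold mk
      refine Affine.Point.add_self_of_Y_eq ?_
      rw [hneg, hy, neg_zero]
    rw [h3, h2P, zero_add]
    constructor
    · intro h5
      exact absurd h5 hP0
    · intro h5
      exfalso
      have hf : x ^ 3 - x ^ 2 - 3 * x - 1 = 0 := by
        rw [← hE, hy]
        ring
      have hg : (3 * x ^ 2 - 2 * x - 3) ^ 2 = 0 := by
        linear_combination 4 * (3 * x - 1) * hf - h5
      exact H01_bez x hf (pow_eq_zero_iff (two_ne_zero)|>.1 hg)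
  · have h2y : (2 : F) * y ≠ 0 := mul_ne_zero two_ne_zero hy
    have hne : y ≠ (E0⁄F).toAffine.negY x y := by
      rw [hneg]
      intro h5
      apply h2y
      linear_combination h5
    set ℓ : F := (E0⁄F).toAffine.slope x x y y with hℓ
    have hℓ1 : ℓ * (2 * y) = 3 * x ^ 2 - 2 * x - 3 := by
      rw [hℓ, Affine.slope_of_Y_ne rfl hne, hneg, c1, c2, c4]
      rw [sub_neg_eq_add, ← two_mul, div_mul_cancel₀ _ h2y]
      ring
    have h2P : mk x y h + mk x y h = .some _ _ (Affine.nonsingular_add ((nonsing_iff x y).mpr h)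
        ((nonsing_iff x y).mpr h) fun hxy => hne hxy.right) := by
      unfold mk
      exact Affine.Point.add_self_of_Y_ne hne
    have hX : (E0⁄F).toAffine.addX x x ℓ = ℓ ^ 2 + 1 - 2 * x := by
      rw [Affine.addX, c1, c2]
      ring
    have h4y : 4 * y ^ 2 * (ℓ ^ 2 + 1 - 3 * x) =
        -((x ^ 2 - 2 * x - 5) * (3 * x ^ 2 + 2 * x + 1)) := by
      have h6 : (ℓ * (2 * y)) ^ 2 = (3 * x ^ 2 - 2 * x - 3) ^ 2 := by rw [hℓ1]
      linear_combination h6 + 4 * (1 - 3 * x) * hE
    constructor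
    · intro h5
      rw [h3] at h5
      have h6 : mk x y h + mk x y h = -mk x y h := eq_neg_of_add_eq_zero_left h5
      rw [h2P] at h6
      unfold mk at h6
      rw [Affine.Point.neg_some] at h6
      have h7 := (Affine.Point.some.inj h6).1
      rw [← hℓ, hX] at h7
      have h8 : ℓ ^ 2 + 1 - 3 * x = 0 := by linear_combination h7
      rw [h8, mul_zero] at h4y
      exact neg_eq_zero.1 h4y.symm
    · intro h5
      rw [h5, neg_zero] at h4y
      have h8 : ℓ ^ 2 + 1 - 3 * x = 0 := by
        rcases mul_eq_zero.1 h4y with h9 | h9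
        · exfalso
          apply h2y
          have h10 : (2 * y) ^ 2 = 0 := by linear_combination h9
          exact pow_eq_zero_iff (two_ne_zero)|>.1 h10
        · exact h9
      have h7 : (E0⁄F).toAffine.addX x x ℓ = x := by
        rw [hX]
        linear_combination h8
      have h9 := (Affine.Point.X_eq_iff (h₁ := Affine.nonsingular_add ((nonsing_iff x y).mpr h)
        ((nonsing_iff x y).mpr h) fun hxy => hne hxy.right)
        (h₂ := (nonsing_iff x y).mpr h)).1 h7
      rw [← h2P] at h9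
      rw [h3]
      rcases h9 with h9 | h9
      · exfalso
        have h10 : mk x y h + mk x y h = mk x y h := h9
        exact hP0 (by simpa using h10)
      · have h10 : mk x y h + mk x y h = -mk x y h := h9
        rw [h10]
        exact neg_add_cancel _

end KE16
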