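import Pool.Agent.LibKE16.H02
import Pool.Agent.LibKE16.H03
import Pool.Agent.LibKE16.H04

/-!
# [KE16 H05] MEDIUM

Plan. H_comm: g and h act on the roots of unity of order N by powers ζ ↦ ζ^a, ζ ↦ ζ^b, which commute
(for one primitive ζ; or: `g ζ`, `h ζ` are powers of a primitive N-th root). H_neg: take g of H_g1 (u ↦ -u, v ↦ v, s ↦ s)
and h of H_g3; c = g h g⁻¹ h⁻¹ ∈ NN; h⁻¹ u = ±v, so c u = g h g⁻¹(±v) = g h(±v) = g(u·…) … = -u and c v = -v (use H_act / H_fr:
h u = ε v, h v = δ u). Then gal c PA = -PA, gal c PB = -PB (H_act), and every P with 3P=0 is a combination (H_T3).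
H_A0: if P ≠ 0, 3^k P = 0, take the largest j with Q := 3^j P ≠ 0: 3Q = 0, Q fixed by NN, so -Q = Q, 2Q = 0, Q = 3Q - 2Q = 0.
-/

open WeierstrassCurve

namespace KE16

/-- two automorphisms commute on a root of unity -/
private theorem comm_root (g h : GQ) (N : ℕ) (hN : N ≠ 0) (ζ : Qb) (hζ : ζ ^ N = 1) :
    g (h ζ) = h (g ζ) := by
  have : NeZero N := ⟨hN⟩
  have : NeZero (N : Qb) := ⟨by exact_mod_cast hN⟩
  obtain ⟨ω, hω⟩ := (HasEnoughRootsOfUnity.exists_primitiveRoot Qb N)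
  have pw : ∀ x : Qb, x ^ N = 1 → ∃ i : ℕ, x = ω ^ i := by
    intro x hx
    obtain ⟨i, -, hi⟩ := hω.eq_pow_of_pow_eq_one hx
    exact ⟨i, hi.symm⟩
  obtain ⟨a, ha⟩ := pw (g ω) (by rw [← _root_.map_pow, hω.pow_eq_one, _root_.map_one])
  obtain ⟨b, hb⟩ := pw (h ω) (by rw [← _root_.map_pow, hω.pow_eq_one, _root_.map_one])
  obtain ⟨c, rfl⟩ := pw ζ hζ
  rw [_root_.map_pow, _root_.map_pow, _root_.map_pow, _root_.map_pow, ha, hb, _root_.map_pow, _root_.map_pow, ha, hb]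
  rw [← pow_mul, ← pow_mul, ← pow_mul, ← pow_mul]
  congr 1
  ring

theorem H_comm (g h : GQ) : g * h * g⁻¹ * h⁻¹ ∈ NN := by
  intro n ζ hζ
  have h1 : (h⁻¹ ζ) ^ (193 * 3 ^ n) = 1 := by rw [← _root_.map_pow, hζ, _root_.map_one]
  have h2 : (g⁻¹ (h⁻¹ ζ)) ^ (193 * 3 ^ n) = 1 := by rw [← _root_.map_pow, h1, _root_.map_one]
  change g (h (g⁻¹ (h⁻¹ ζ))) = ζ
  rw [comm_root g h _ (by positivity) _ h2]
  have e1 : g (g⁻¹ (h⁻¹ ζ)) = h⁻¹ ζ := AlgEquiv.apply_symm_apply g _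
  rw [e1]
  exact AlgEquiv.apply_symm_apply h _

theorem H_neg : ∃ δ : NN, ∀ P : Pt E0, 3 • P = 0 → gal E0 δ P = -P := by
  obtain ⟨g, hgs, hgu, hgv⟩ := H_g1
  obtain ⟨h, hh⟩ := H_g3
  have gi : ∀ (σ : GQ) (x : Qb), σ (σ⁻¹ x) = x := fun σ x ↦ AlgEquiv.apply_symm_apply σ x
  have hs0 : r0.s ≠ 0 := by
    intro h0
    have := r0.hs
    rw [h0] at this
    norm_num at this
  -- h swaps
  obtain ⟨ε, δ, hu, hv⟩ : ∃ ε δ : ℤˣ, h r0.u = ((ε : ℤ) : Qb) * r0.v ∧
      h r0.v = ((δ : ℤ) : Qb) * r0.u := by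
    rcases H_act h with ⟨h1, -⟩ | ⟨-, ε, δ, h2, h3, -⟩
    · exfalso
      rw [hh] at h1
      apply hs0
      have : 2 * r0.s = 0 := by linear_combination -h1
      simpa using this
    · exact ⟨ε, δ, h2, h3⟩
  have hsq : ∀ ε : ℤˣ, ((ε : ℤ) : Qb) * ((ε : ℤ) : Qb) = 1 := by
    intro ε
    rcases Int.units_eq_one_or ε with rfl | rfl <;> norm_num
  have hui : h⁻¹ r0.u = ((δ : ℤ) : Qb) * r0.v := by
    apply AlgEquiv.injective h
    rw [gi, _root_.map_mul, _root_.map_intCast, hv, ← mul_assoc, hsq, one_mul]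
  have hvi : h⁻¹ r0.v = ((ε : ℤ) : Qb) * r0.u := by
    apply AlgEquiv.injective h
    rw [gi, _root_.map_mul, _root_.map_intCast, hu, ← mul_assoc, hsq, one_mul]
  have gui : g⁻¹ r0.u = -r0.u := by
    apply AlgEquiv.injective g
    rw [gi, _root_.map_neg, hgu, neg_neg]
  have gvi : g⁻¹ r0.v = r0.v := by
    apply AlgEquiv.injective g
    rw [gi, hgv]
  set c : GQ := g * h * g⁻¹ * h⁻¹ with hc
  have hcN : c ∈ NN := H_comm g h
  have cu : c r0.u = -r0.u := by
    change g (h (g⁻¹ (h⁻¹ r0.u))) = _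
    rw [hui, _root_.map_mul, _root_.map_intCast, gvi, _root_.map_mul, _root_.map_intCast, hv,
      ← mul_assoc, hsq, one_mul, hgu]
  have cv : c r0.v = -r0.v := by
    change g (h (g⁻¹ (h⁻¹ r0.v))) = _
    rw [hvi, _root_.map_mul, _root_.map_intCast, gui, _root_.map_mul, _root_.map_intCast,
      _root_.map_neg, hu, _root_.map_mul, _root_.map_intCast, _root_.map_neg, _root_.map_mul,
      _root_.map_intCast, hgv]
    linear_combination -r0.v * hsq ε
  have cs : c r0.s = r0.s := by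
    have e : r0.s = r0.v ^ 2 + 2 := by rw [r0.hv]; ring
    rw [e, _root_.map_add, _root_.map_pow, cv, _root_.map_ofNat]
    ring
  have hu0 : r0.u ≠ 0 := by
    intro h0
    have h1 := r0.hu
    rw [h0] at h1
    have h2 : r0.s = -2 := by linear_combination h1
    have h3 := r0.hs
    rw [h2] at h3
    norm_num at h3
  have hv0 : r0.v ≠ 0 := by
    intro h0
    have h1 := r0.hv
    rw [h0] at h1
    have h2 : r0.s = 2 := by linear_combination -h1
    have h3 := r0.hs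
    rw [h2] at h3
    norm_num at h3
  have sgn : ∀ (x : Qb) (η : ℤˣ), x ≠ 0 → -x = ((η : ℤ) : Qb) * x → η = -1 := by
    intro x η hx hη
    rcases Int.units_eq_one_or η with rfl | rfl
    · exfalso
      apply hx
      have : 2 * x = 0 := by
        have h1 : (((1 : ℤˣ) : ℤ) : Qb) = 1 := by simp
        rw [h1, one_mul] at hη
        linear_combination -hη
      simpa using this
    · rfl
  refine ⟨⟨c, hcN⟩, ?_⟩
  intro P hP
  obtain ⟨a, b, rfl⟩ := H_T3 r0 P hP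
  have hAB : gal E0 c (PA r0) = -PA r0 ∧ gal E0 c (PB r0) = -PB r0 := by
    rcases H_act c with ⟨-, ε', δ', h1, h2, h3, h4, -⟩ | ⟨h1, -⟩
    · rw [cu] at h1
      rw [cv] at h2
      have e1 := sgn _ _ hu0 h1
      have e2 := sgn _ _ hv0 h2
      rw [h3, h4, e1, e2]
      constructor
      · rw [Units.val_neg, Units.val_one, neg_zsmul, one_zsmul]
      · rw [Units.val_neg, Units.val_one, neg_zsmul, one_zsmul]
    · exfalso
      rw [cs] at h1
      apply hs0
      have : 2 * r0.s = 0 := by linear_combination h1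
      simpa using this
  change gal E0 c (a • PA r0 + b • PB r0) = _
  rw [map_add, map_zsmul, map_zsmul, hAB.1, hAB.2]
  simp only [zsmul_neg, neg_add]

theorem H_A0 (P : Pt E0) (hP : Tor P) (h : ∀ σ : NN, gal E0 σ P = P) : P = 0 := by
  obtain ⟨k, hk⟩ := hP
  obtain ⟨δ, hδ⟩ := H_neg
  induction k with
  | zero => simpa using hk
  | succ k ih =>
    apply ih
    have h3 : 3 • (3 ^ k • P) = 0 := by
      rw [← mul_nsmul', ← pow_succ'] at *
      exact hk
    have h1 := hδ _ h3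
    rw [map_nsmul, h δ] at h1
    have h2 : 2 • (3 ^ k • P) = 0 := by
      rw [two_nsmul]
      nth_rewrite 2 [h1]
      exact add_neg_cancel _
    have e : 3 • (3 ^ k • P) = 2 • (3 ^ k • P) + 3 ^ k • P := by
      rw [succ_nsmul]
    rw [h3, h2, zero_add] at e
    exact e.symm

end KE16
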