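import Pool.Agent.LibKE16.HDefs

/-!
# [KE16 H06] MEDIUM/STRONG (look into the libraries first)

Plan. Qb is algebraically closed of characteristic 0. Several libraries contain the surjectivity of multiplication by n
on an elliptic curve over an algebraically closed field (grep for `smul_surj`, `divisible`, `surjective` in Pool/Agent/Lib*
with WeierstrassCurve; e.g. LibAC34, LibFFBSD, LibST64, LibAF11). Otherwise direct: P = (x0,y0) (P = 0 trivial): the
x-coordinate of 3Q is φ₃(x)/ψ₃(x)², φ₃ of degree 9, so x0 ψ₃² - φ₃ has degree 9 and a root x with ψ₃(x) ≠ 0 (φ₃, ψ₃ coprime);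
y with Eqn x y; then 3Q = ±P, replace Q by -Q. Alternative via complex multiplication: 3 = π π̄ with explicit 3-isogenies.
-/

open WeierstrassCurve Polynomial

namespace KE16

private theorem h06_a1 : (E0⁄Qb).toAffine.a₁ = 0 := by
  change algebraMap ℚ Qb 0 = 0; exact _root_.map_zero _

private theorem h06_a2 : (E0⁄Qb).toAffine.a₂ = -1 := by
  change algebraMap ℚ Qb (-1) = -1; rw [_root_.map_neg, _root_.map_one]

private theorem h06_a3 : (E0⁄Qb).toAffine.a₃ = 0 := by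
  change algebraMap ℚ Qb 0 = 0; exact _root_.map_zero _

private theorem h06_a4 : (E0⁄Qb).toAffine.a₄ = -3 := by
  change algebraMap ℚ Qb (-3) = -3; rw [_root_.map_neg, _root_.map_ofNat]

private theorem h06_a6 : (E0⁄Qb).toAffine.a₆ = -1 := by
  change algebraMap ℚ Qb (-1) = -1; rw [_root_.map_neg, _root_.map_one]

/-- the third division polynomial -/
private def h06_p {F : Type} [Field F] (x : F) : F :=
  3 * x ^ 4 - 4 * x ^ 3 - 18 * x ^ 2 - 12 * x - 5

/-- `φ₃` -/
private def h06_phi {F : Type} [Field F] (x : F) : F :=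
  x ^ 9 + 36 * x ^ 7 + 72 * x ^ 6 + 54 * x ^ 5 - 312 * x ^ 4 - 508 * x ^ 3 - 72 * x ^ 2 + 177 * x + 56

private theorem h06_cop {x : Qb} (h : h06_p x = 0) : h06_phi x ≠ 0 := by
  intro h'
  unfold h06_p at h
  unfold h06_phi at h'
  -- `φ = x ψ² - 4 f h`
  have e1 : (x ^ 3 - x ^ 2 - 3 * x - 1) *
      (2 * x ^ 6 - 4 * x ^ 5 - 30 * x ^ 4 - 40 * x ^ 3 - 50 * x ^ 2 - 4 * x + 14) = 0 := by
    have : 4 * ((x ^ 3 - x ^ 2 - 3 * x - 1) *
      (2 * x ^ 6 - 4 * x ^ 5 - 30 * x ^ 4 - 40 * x ^ 3 - 50 * x ^ 2 - 4 * x + 14)) = 0 := by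
      linear_combination x * (3 * x ^ 4 - 4 * x ^ 3 - 18 * x ^ 2 - 12 * x - 5) * h - h'
    exact (mul_eq_zero.mp this).resolve_left (by norm_num)
  have e2 : (16384 : Qb) = 0 := by
    linear_combination (126 * x ^ 8 - 336 * x ^ 7 - 2188 * x ^ 6 - 552 * x ^ 5 + 6160 * x ^ 4
      + 14048 * x ^ 3 + 14556 * x ^ 2 + 3320 * x - 6270) * h
      + (-189 * x ^ 3 + 189 * x ^ 2 + 1287 * x + 1069) * e1
  norm_num at e2

/-- the root -/
private theorem h06_root (c : Qb) : ∃ x : Qb, h06_phi x = c * h06_p x ^ 2 := by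
  let g : Qb[X] := X ^ 9 + C (-9 * c) * X ^ 8 + C (36 + 24 * c) * X ^ 7 + C (72 + 92 * c) * X ^ 6
    + C (54 - 72 * c) * X ^ 5 + C (-312 - 390 * c) * X ^ 4 + C (-508 - 472 * c) * X ^ 3
    + C (-72 - 324 * c) * X ^ 2 + C (177 - 120 * c) * X + C (56 - 25 * c)
  have hg : g.natDegree = 9 := by
    show (X ^ 9 + C (-9 * c) * X ^ 8 + C (36 + 24 * c) * X ^ 7 + C (72 + 92 * c) * X ^ 6
    + C (54 - 72 * c) * X ^ 5 + C (-312 - 390 * c) * X ^ 4 + C (-508 - 472 * c) * X ^ 3
    + C (-72 - 324 * c) * X ^ 2 + C (177 - 120 * c) * X + C (56 - 25 * c) : Qb[X]).natDegree = 9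
    compute_degree!
  have hd : g.degree ≠ 0 := by
    intro h
    have := natDegree_eq_zero_iff_degree_le_zero.mpr h.le
    omega
  obtain ⟨x, hx⟩ := IsAlgClosed.exists_root g hd
  refine ⟨x, ?_⟩
  have h2 : g.eval x = 0 := hx
  simp only [g, eval_add, eval_mul, eval_pow, eval_X, eval_C] at h2
  unfold h06_phi h06_p
  linear_combination h2

private theorem h06_neg (x y : Qb) : (E0⁄Qb).toAffine.negY x y = -y := by
  rw [Affine.negY, h06_a1, h06_a3]; ring

/-- the sum of `Q` and `2Q` -/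
private theorem h06_triple {x y : Qb} (h : Eqn x y) (hy : y ≠ 0) (hp : h06_p x ≠ 0) :
    ∃ (u v : Qb) (h' : Eqn u v), 3 • (mk x y h : Pt E0) = mk u v h' ∧
      u = h06_phi x / h06_p x ^ 2 := by
  have hyn : y ≠ (E0⁄Qb).toAffine.negY x y := by
    rw [h06_neg]
    intro e
    have : 2 * y = 0 := by linear_combination e
    exact hy ((mul_eq_zero.mp this).resolve_left (by norm_num))
  set W := (E0⁄Qb).toAffine with hW
  have ns := (nonsing_iff x y).mpr h
  -- the double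
  set l : Qb := W.slope x x y y with hl
  have hl' : l = (3 * x ^ 2 - 2 * x - 3) / (2 * y) := by
    rw [hl, Affine.slope_of_Y_ne rfl hyn, h06_neg, h06_a1, h06_a2, h06_a4]
    congr 1 <;> ring
  set x2 : Qb := W.addX x x l with hx2
  have hx2' : x2 = l ^ 2 + 1 - 2 * x := by
    rw [hx2, Affine.addX, h06_a1, h06_a2]; ring
  set y2 : Qb := W.addY x x y l with hy2
  have hy2' : y2 = -(l * (x2 - x) + y) := by
    rw [hy2, Affine.addY, h06_neg, Affine.negAddY, ← hx2]
  have hns2 : W.Nonsingular x2 y2 := Affine.nonsingular_add ns ns fun hxy => hyn hxy.right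
  have e2 : (mk x y h : Pt E0) + mk x y h = Affine.Point.some x2 y2 hns2 :=
    Affine.Point.add_self_of_Y_ne hyn
  have hf : y ^ 2 = x ^ 3 - x ^ 2 - 3 * x - 1 := h
  -- `x2 - x = -ψ/(4 y²)`
  have hdx : (x2 - x) * (4 * y ^ 2) = -h06_p x := by
    have h1 : (x2 - x) * (4 * y ^ 2) = (3 * x ^ 2 - 2 * x - 3) ^ 2 + (1 - 3 * x) * (4 * y ^ 2) := by
      rw [hx2', hl']
      field_simp
      ring
    rw [h1, hf, h06_p]
    ring
  have hne : x2 ≠ x := by
    intro e
    rw [e, sub_self, zero_mul] at hdx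
    exact hp (by linear_combination hdx)
  set m : Qb := W.slope x2 x y2 y with hm
  have hm' : m = (y2 - y) / (x2 - x) := by
    rw [hm, Affine.slope_of_X_ne hne]
  set x3 : Qb := W.addX x2 x m with hx3
  have hx3' : x3 = m ^ 2 + 1 - x2 - x := by
    rw [hx3, Affine.addX, h06_a1, h06_a2]; ring
  set y3 : Qb := W.addY x2 x y2 m with hy3
  have hns3 : W.Nonsingular x3 y3 := Affine.nonsingular_add hns2 ns fun hxy => hne hxy.left
  have e3 : Affine.Point.some x2 y2 hns2 + (mk x y h : Pt E0) = Affine.Point.some x3 y3 hns3 :=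
    Affine.Point.add_of_X_ne hne
  refine ⟨x3, y3, (nonsing_iff x3 y3).mp hns3, ?_, ?_⟩
  · rw [show (3 : ℕ) • (mk x y h : Pt E0) = (mk x y h + mk x y h) + mk x y h by
      rw [show (3 : ℕ) = 2 + 1 from rfl, succ_nsmul, two_nsmul], e2, e3]
    rfl
  · have hy22 : y2 ^ 2 = x2 ^ 3 - x2 ^ 2 - 3 * x2 - 1 := (nonsing_iff x2 y2).mp hns2
    have hdx' : x2 - x ≠ 0 := sub_ne_zero.mpr hne
    have hx2e : x2 = x - h06_p x / (4 * y ^ 2) := by
      field_simp
      linear_combination hdx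
    have hp' : h06_p x ≠ 0 := hp
    have h2 : x2 - x = -h06_p x / (4 * y ^ 2) := by
      rw [hx2e]; ring
    -- `m = -l - 2 y / (x2 - x) = -l + 8 y³/ψ`
    have hme : m = -l + 8 * y ^ 3 / h06_p x := by
      have h1 : m = -l - 2 * y / (x2 - x) := by
        rw [hm', hy2']
        field_simp
        ring
      rw [h1, h2]
      field_simp
      ring
    have hl2 : l ^ 2 * (4 * y ^ 2) = (3 * x ^ 2 - 2 * x - 3) ^ 2 := by
      rw [hl']
      field_simp
      ring
    have hly : l * (2 * y) = 3 * x ^ 2 - 2 * x - 3 := by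
      rw [hl']
      field_simp
    have hsum : l ^ 2 + h06_p x / (4 * y ^ 2) = 3 * x - 1 := by
      have h4 : (4 * y ^ 2 : Qb) ≠ 0 := mul_ne_zero (by norm_num) (pow_ne_zero _ hy)
      have : (l ^ 2 + h06_p x / (4 * y ^ 2)) * (4 * y ^ 2) = (3 * x - 1) * (4 * y ^ 2) := by
        rw [add_mul, hl2, div_mul_cancel₀ _ h4, hf, h06_p]
        ring
      exact mul_right_cancel₀ h4 this
    have hx3e : x3 = x - 8 * (3 * x ^ 2 - 2 * x - 3) * y ^ 2 / h06_p x
        + 64 * (y ^ 2) ^ 3 / h06_p x ^ 2 := by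
      rw [hx3', hme, hx2e, ← hly]
      have e1 : (-l + 8 * y ^ 3 / h06_p x) ^ 2 + 1 - (x - h06_p x / (4 * y ^ 2)) - x
          = (l ^ 2 + h06_p x / (4 * y ^ 2)) - 8 * (l * (2 * y)) * y ^ 2 / h06_p x
            + 64 * (y ^ 2) ^ 3 / h06_p x ^ 2 + 1 - 2 * x := by
        ring
      rw [e1, hsum]
      ring
    rw [hx3e, hf, eq_div_iff (pow_ne_zero _ hp')]
    field_simp
    rw [h06_p, h06_phi]
    ring

private theorem h06_mk_eq {x y u v : Qb} (h : Eqn x y) (h' : Eqn u v) (e1 : x = u) (e2 : y = v) :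
    (mk x y h : Pt E0) = mk u v h' := by
  subst e1; subst e2; rfl

private theorem h06_mk_neg {x y : Qb} (h : Eqn x y) (h' : Eqn x (-y)) :
    -(mk x y h : Pt E0) = mk x (-y) h' := by
  unfold mk
  rw [Affine.Point.neg_some]
  congr 1
  exact h06_neg x y

/-- divisibility by `3` (only torsion points are needed, but it is true for all points) -/
theorem H_div (P : Pt E0) (hP : Tor P) : ∃ Q : Pt E0, 3 • Q = P := by
  rcases P with _ | ⟨x0, y0, ns0⟩
  · exact ⟨0, nsmul_zero 3⟩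
  have h0 : Eqn x0 y0 := (nonsing_iff x0 y0).mp ns0
  change ∃ Q : Pt E0, 3 • Q = mk x0 y0 h0
  obtain ⟨x, hx⟩ := h06_root x0
  have hp : h06_p x ≠ 0 := by
    intro h
    refine h06_cop h ?_
    rw [hx, h]; ring
  obtain ⟨y, hy⟩ := IsAlgClosed.exists_pow_nat_eq (x ^ 3 - x ^ 2 - 3 * x - 1 : Qb) (n := 2)
    (by norm_num)
  have h : Eqn x y := hy
  have hf0 : y0 ^ 2 = x0 ^ 3 - x0 ^ 2 - 3 * x0 - 1 := h0
  by_cases hy0 : y = 0
  · -- a point of order two
    have e : x0 = x := by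
      have h1 : x ^ 3 - x ^ 2 - 3 * x - 1 = 0 := by rw [← hy, hy0]; ring
      have h2 : (x - x0) * h06_p x ^ 2 = 0 := by
        unfold h06_phi h06_p at hx
        unfold h06_p
        linear_combination 4 * (2 * x ^ 6 - 4 * x ^ 5 - 30 * x ^ 4 - 40 * x ^ 3 - 50 * x ^ 2
          - 4 * x + 14) * h1 + hx
      have := (mul_eq_zero.mp h2).resolve_right (pow_ne_zero _ hp)
      linear_combination -this
    have e' : y0 = y := by
      rw [hy0]
      have : y0 ^ 2 = 0 := by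
        rw [hf0, e, ← hy, hy0]; ring
      exact pow_eq_zero_iff (two_ne_zero) |>.mp this
    refine ⟨mk x y h, ?_⟩
    have e2 : (mk x y h : Pt E0) + mk x y h = 0 := by
      apply Affine.Point.add_self_of_Y_eq
      rw [h06_neg, hy0, neg_zero]
    rw [show (3 : ℕ) = 2 + 1 from rfl, succ_nsmul, two_nsmul, e2, zero_add]
    exact h06_mk_eq _ _ e.symm e'.symm
  · obtain ⟨u, v, h', e3, hu⟩ := h06_triple h hy0 hp
    have hu' : u = x0 := by
      rw [hu, hx, mul_div_assoc, div_self (pow_ne_zero _ hp), mul_one]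
    have hv : v ^ 2 = y0 ^ 2 := by
      have : v ^ 2 = u ^ 3 - u ^ 2 - 3 * u - 1 := h'
      rw [this, hf0, hu']
    rcases sq_eq_sq_iff_eq_or_eq_neg.mp hv with hv | hv
    · exact ⟨mk x y h, by rw [e3]; exact h06_mk_eq _ _ hu' hv⟩
    · refine ⟨-mk x y h, ?_⟩
      have hneg : Eqn u (-v) := by
        unfold Eqn at h' ⊢
        rw [neg_sq]; exact h'
      rw [neg_nsmul, e3, h06_mk_neg h' hneg]
      exact h06_mk_eq _ _ hu' (by rw [hv, neg_neg])

end KE16
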