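import Pool.Agent.LibKE16.H07
import Pool.Agent.LibKE16.H09

/-!
# [KE16 H10] MEDIUM

Plan. H_rep3, H_fix', H_hat, H_hat3. H_W': 3 • cl f = cl (3 • f) = 0 as 3 • f = 0; H_fix. H_NN: cj σ f - f = ∂(f σ).
-/

open WeierstrassCurve

namespace KE16

/-- the classes in `W` are given by cocycles on the whole Galois group with values in `E[3]` -/
theorem H_W (s : Sel E0 3 193) (hs : InW s) : ∃ f : SelZ E0 3 193, cl E0 3 193 f = s ∧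
    ∃ h : GQ → Pt E0, IsHat f.1.1 ⊤ h ∧ ∀ g, 3 • h g = 0 := by
  obtain ⟨f, hf, h3⟩ := H_rep3 s hs.1
  obtain ⟨h, hh⟩ := H_hat f.1.1 f.1.2 ⊤ le_top (fun g _ => H_fix' f g (by rw [hf, hs.2 g]))
  exact ⟨f, hf, h, hh, fun g => H_hat3 f.1.1 ⊤ h hh h3 g (Subgroup.mem_top g)⟩

theorem H_W' (f : SelZ E0 3 193) (h : GQ → Pt E0) (hh : IsHat f.1.1 ⊤ h) (h3 : ∀ g, 3 • h g = 0) :
    InW (cl E0 3 193 f) := by
  refine ⟨?_, fun g => H_fix f ⊤ h hh g (Subgroup.mem_top g)⟩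
  have h1 : 3 • f = 0 := by
    apply Subtype.ext
    apply Subtype.ext
    funext σ
    change 3 • f.1.1 σ = 0
    rw [← hh.2.2.2.1 σ, h3]
  rw [← map_nsmul, h1, map_zero]

/-- general form: a class, the subgroup of elements fixing it -/
theorem H_S (s : Sel E0 3 193) (S : Subgroup GQ) (hS : NN ≤ S)
    (h : ∀ g ∈ S, gS E0 3 193 g s = s) : ∃ f : SelZ E0 3 193, cl E0 3 193 f = s ∧
    ∃ h : GQ → Pt E0, IsHat f.1.1 S h := by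
  obtain ⟨f, hf⟩ : ∃ f : SelZ E0 3 193, cl E0 3 193 f = s := QuotientAddGroup.mk'_surjective _ s
  refine ⟨f, hf, ?_⟩
  exact H_hat f.1.1 f.1.2 S hS (fun g hg => H_fix' f g (by rw [hf, h g hg]))

/-- elements of `NN` act trivially on the Selmer group -/
theorem H_NN (σ : NN) (s : Sel E0 3 193) : gS E0 3 193 σ s = s := by
  obtain ⟨f, hf⟩ : ∃ f : SelZ E0 3 193, cl E0 3 193 f = s := QuotientAddGroup.mk'_surjective _ s
  rw [← hf, gS_cl]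
  refine (QuotientAddGroup.eq (s := ((B1 E0 3 193).addSubgroupOf (Z1 E0 3 193)).addSubgroupOf
    (SelZ E0 3 193))).2 ?_
  obtain ⟨hc, ht, -⟩ := f.1.2
  obtain ⟨k, hk⟩ := ht σ
  refine ⟨-(f.1.1 σ), ⟨k, by rw [neg_nsmul, hk, neg_zero]⟩, fun τ => ?_⟩
  have h1 := hc σ ⟨(σ : GQ)⁻¹ * (τ : GQ) * σ, Kmul_conj 3 193 σ τ⟩
  have h2 := hc τ σ
  have h3 : σ * ⟨(σ : GQ)⁻¹ * (τ : GQ) * σ, Kmul_conj 3 193 σ τ⟩ = τ * σ := by
    apply Subtype.ext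
    change (σ : GQ) * ((σ : GQ)⁻¹ * (τ : GQ) * σ) = (τ : GQ) * σ
    group
  rw [h3, h2] at h1
  change -(gal E0 σ (f.1.1 ⟨(σ : GQ)⁻¹ * (τ : GQ) * σ, Kmul_conj 3 193 σ τ⟩)) + f.1.1 τ = _
  have h4 : gal E0 σ (f.1.1 ⟨(σ : GQ)⁻¹ * (τ : GQ) * σ, Kmul_conj 3 193 σ τ⟩) =
      f.1.1 τ + gal E0 τ (f.1.1 σ) - f.1.1 σ := by
    rw [h1]
    abel
  rw [h4, map_neg]
  abel

end KE16
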