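import Pool.Agent.LibKE16.H02
import Pool.Agent.LibKE16.H03
import Pool.Agent.LibKE16.H11

open WeierstrassCurve

namespace KE16

private theorem H12_gal : IsGalois ℚ Qb := by
  have key : ∀ (i : Algebra ℚ Qb), @IsGalois ℚ _ Qb _ i := by
    intro i
    have e : i = AlgebraicClosure.instAlgebra ℚ := Subsingleton.elim _ _
    rw [e]
    infer_instance
  exact key _

/-- an element fixed by all `g` with `g u = u` lies in `M = ℚ(u)` -/
theorem H_fixM (x : Qb) (h : ∀ g : GQ, g r0.u = r0.u → g x = x) : x ∈ MM := by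
  have hG : IsGalois ℚ Qb := H12_gal
  have : x ∈ IntermediateField.fixedField MM.fixingSubgroup := by
    rw [IntermediateField.mem_fixedField_iff]
    intro g hg
    exact h g ((IntermediateField.mem_fixingSubgroup_iff _ g).mp hg _
      (IntermediateField.mem_adjoin_simple_self ℚ r0.u))
  rwa [InfiniteGalois.fixedField_fixingSubgroup] at this

theorem H_fixM' (x : Qb) (hx : x ∈ MM) (g : GQ) (hg : g r0.u = r0.u) : g x = x := by
  induction hx using IntermediateField.adjoin_induction with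
  | mem y hy => rw [Set.mem_singleton_iff] at hy; rw [hy, hg]
  | algebraMap r => exact g.commutes r
  | add x y _ _ hx hy => rw [map_add, hx, hy]
  | inv x _ hx => rw [map_inv₀, hx]
  | mul x y _ _ hx hy => rw [map_mul, hx, hy]

private theorem H12_u0 : r0.u ≠ 0 := by
  intro h0
  have h1 := r0.hu
  have h2 := r0.hs
  rw [h0] at h1
  have h3 : r0.s = -2 := by linear_combination h1
  rw [h3] at h2
  norm_num at h2

private theorem H12_s0 : r0.s ≠ 0 := by
  intro h0
  have h2 := r0.hs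
  rw [h0] at h2
  norm_num at h2

/-- the action of `g` with `g u = u` -/
private theorem H12_act (g : GQ) (hu : g r0.u = r0.u) : ∃ δ : ℤˣ,
    gal E0 g (PA r0) = (δ : ℤ) • PA r0 ∧ gal E0 g (PB r0) = PB r0 ∧ g r0.z = r0.z ^ (δ : ℤ) ∧
    g r0.v = ((δ : ℤ) : Qb) * r0.v := by
  have hs : g r0.s = r0.s := by
    have e : r0.s = -2 - r0.u ^ 2 := by rw [r0.hu]; ring
    rw [e, map_sub, map_neg, map_pow, hu, map_ofNat]
  rcases H_act g with ⟨-, ε, δ, h1, h2, h3, h4, h5⟩ | ⟨h0, -⟩
  · have hε : ε = 1 := by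
      rcases Int.units_eq_one_or ε with h | h
      · exact h
      · exfalso
        rw [hu, h] at h1
        apply H12_u0
        have : (2 : Qb) * r0.u = 0 := by
          push_cast at h1; linear_combination h1
        exact (mul_eq_zero.mp this).resolve_left (by norm_num)
    refine ⟨δ, h3, ?_, ?_, h2⟩
    · rw [h4, hε]; simp
    · rw [h5, hε, one_mul]
  · exfalso
    rw [hs] at h0
    apply H12_s0
    have : (2 : Qb) * r0.s = 0 := by linear_combination h0
    exact (mul_eq_zero.mp this).resolve_left (by norm_num)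

private theorem H12_zpow (a b : ℤ) (h : 3 ∣ a - b) : r0.z ^ a = r0.z ^ b := by
  have hz := H_z r0
  have hz0 : r0.z ≠ 0 := hz.ne_zero (by norm_num)
  obtain ⟨c, hc⟩ := h
  have : a = b + 3 * c := by linarith
  rw [this, zpow_add₀ hz0, zpow_mul]
  have : r0.z ^ (3 : ℤ) = 1 := by
    have := hz.pow_eq_one
    exact_mod_cast this
  rw [this, one_zpow, mul_one]

private theorem H12_uniq (a b a' b' : ℤ) (h : a • PA r0 + b • PB r0 = a' • PA r0 + b' • PB r0) :
    3 ∣ a - a' ∧ 3 ∣ b - b' := by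
  apply H_T4 r0
  have : (a - a') • PA r0 + (b - b') • PB r0 = (a • PA r0 + b • PB r0) - (a' • PA r0 + b' • PB r0) := by
    rw [sub_smul, sub_smul]; abel
  rw [this, h, sub_self]

/-- Kummer theory for the `P_π`-component on `Gal(Qb/M)` -/
theorem H_theta (h : GQ → Pt E0) (hc : Coc h) (hcont : Cont h) (h3 : ∀ g, 3 • h g = 0) :
    ∃ θ : Qb, θ ≠ 0 ∧ ∀ g : GQ, g r0.u = r0.u → ∀ a b : ℤ, h g = a • PA r0 + b • PB r0 →
      g θ = r0.z ^ a * θ := by
  have hz := H_z r0
  have hz0 : r0.z ≠ 0 := hz.ne_zero (by norm_num)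
  choose A B hAB using fun g => H_T3 r0 (h g) (h3 g)
  obtain ⟨L, hL, hLc⟩ := hcont
  have hfix : ∀ g : GQ, g ∈ MM.fixingSubgroup ↔ g r0.u = r0.u := by
    intro g
    rw [IntermediateField.mem_fixingSubgroup_iff]
    exact ⟨fun h => h _ (IntermediateField.mem_adjoin_simple_self ℚ r0.u),
      fun h x hx => H_fixM' x hx g h⟩
  obtain ⟨θ, h0, hθ⟩ := H_90 MM (fun g => r0.z ^ A g) (by
      intro g hg g' _
      have hu := (hfix g).mp hg
      obtain ⟨δ, hA, hB, hδz, -⟩ := H12_act g hu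
      have e1 : h (g * g') = (A g + (δ : ℤ) * A g') • PA r0 + (B g + B g') • PB r0 := by
        rw [hc, hAB g, hAB g', map_add, map_zsmul, map_zsmul, hA, hB, add_smul, add_smul, mul_comm,
          mul_smul]
        abel
      rw [hAB (g * g')] at e1
      change r0.z ^ A (g * g') = r0.z ^ A g * g (r0.z ^ A g')
      rw [map_zpow₀, hδz, ← zpow_mul, ← zpow_add₀ hz0]
      exact H12_zpow _ _ (H12_uniq _ _ _ _ e1).1)
    (fun g _ => zpow_ne_zero _ hz0) L hL (by
      intro g _ hgL
      have e1 : A g • PA r0 + B g • PB r0 = (0 : ℤ) • PA r0 + (0 : ℤ) • PB r0 := by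
        rw [← hAB g, hLc g hgL]; simp
      change r0.z ^ A g = 1
      rw [H12_zpow _ 0 (H12_uniq _ _ _ _ e1).1, zpow_zero])
  refine ⟨θ, h0, fun g hu a b hab => ?_⟩
  rw [hθ g ((hfix g).mpr hu)]
  congr 1
  rw [hAB g] at hab
  exact H12_zpow _ _ (H12_uniq _ _ _ _ hab).1

end KE16
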