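import Pool.Agent.LibKE16.H12
import Pool.Agent.LibKE16.H02

open WeierstrassCurve

namespace KE16

private theorem H13_u0 : r0.u ≠ 0 := by
  intro h0
  have h1 := r0.hu
  have h2 := r0.hs
  rw [h0] at h1
  have h3 : r0.s = -2 := by linear_combination h1
  rw [h3] at h2
  norm_num at h2

private theorem H13_s0 : r0.s ≠ 0 := by
  intro h0
  have h2 := r0.hs
  rw [h0] at h2
  norm_num at h2

/-- the action of `g` with `g s = s`, `g u = e u` -/
private theorem H13_act (g : GQ) (hs : g r0.s = r0.s) (e : ℤˣ) (hu : g r0.u = ((e : ℤ) : Qb) * r0.u) :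
    ∃ δ : ℤˣ, gal E0 g (PA r0) = (δ : ℤ) • PA r0 ∧ gal E0 g (PB r0) = (e : ℤ) • PB r0 ∧
      g r0.z = r0.z ^ ((e * δ : ℤˣ) : ℤ) := by
  rcases H_act g with ⟨-, ε, δ, h1, h2, h3, h4, h5⟩ | ⟨h0, -⟩
  · have hε : ε = e := by
      rw [hu] at h1
      have h6 := mul_right_cancel₀ H13_u0 h1
      have h7 : (e : ℤ) = (ε : ℤ) := by exact_mod_cast h6
      exact (Units.ext h7).symm
    rw [hε] at h4 h5
    exact ⟨δ, h3, h4, h5⟩
  · exfalso
    rw [hs] at h0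
    apply H13_s0
    have : (2 : Qb) * r0.s = 0 := by linear_combination h0
    exact (mul_eq_zero.mp this).resolve_left (by norm_num)

private theorem H13_zpow (a b : ℤ) (h : 3 ∣ a - b) : r0.z ^ a = r0.z ^ b := by
  have hz := H_z r0
  have hz0 : r0.z ≠ 0 := hz.ne_zero (by norm_num)
  obtain ⟨c, hc⟩ := h
  have : a = b + 3 * c := by linarith
  rw [this, zpow_add₀ hz0, zpow_mul]
  have : r0.z ^ (3 : ℤ) = 1 := by
    have := hz.pow_eq_one
    exact_mod_cast this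
  rw [this, one_zpow, mul_one]

private theorem H13_uniq (a b a' b' : ℤ) (h : a • PA r0 + b • PB r0 = a' • PA r0 + b' • PB r0) :
    3 ∣ a - a' ∧ 3 ∣ b - b' := by
  apply H_T4 r0
  have : (a - a') • PA r0 + (b - b') • PB r0 = (a • PA r0 + b • PB r0) - (a' • PA r0 + b' • PB r0) := by
    rw [sub_smul, sub_smul]; abel
  rw [this, h, sub_self]

/-- `z(u) z(-u)` is a cube, because the cocycle lives on `Gal(Qb/K)` -/
theorem H_norm (h : GQ → Pt E0) (hc : Coc h) (h3 : ∀ g, 3 • h g = 0) (θ : Qb)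
    (h0 : θ ≠ 0)
    (hθ : ∀ g : GQ, g r0.u = r0.u → ∀ a b : ℤ, h g = a • PA r0 + b • PB r0 → g θ = r0.z ^ a * θ)
    (g1 : GQ) (hs : g1 r0.s = r0.s) (hu : g1 r0.u = -r0.u) :
    θ ^ 3 ∈ MM ∧ ∃ c ∈ MM, c ≠ 0 ∧ θ ^ 3 * g1 (θ ^ 3) = c ^ 3 := by
  have hz := H_z r0
  have hz0 : r0.z ≠ 0 := hz.ne_zero (by norm_num)
  have hz3 : ∀ a : ℤ, (r0.z ^ a) ^ 3 = 1 := by
    intro a
    rw [← zpow_natCast, ← zpow_mul, mul_comm, zpow_mul, zpow_natCast, hz.pow_eq_one, one_zpow]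
  choose A B hAB using fun g => H_T3 r0 (h g) (h3 g)
  obtain ⟨δ1, hA1, hB1, hz1⟩ := H13_act g1 hs (-1) (by rw [hu]; push_cast; ring)
  refine ⟨?_, θ * g1 θ * r0.z ^ A g1, ?_, ?_, ?_⟩
  · refine H_fixM _ fun g hg => ?_
    rw [map_pow, hθ g hg _ _ (hAB g), mul_pow, hz3, one_mul]
  · refine H_fixM _ fun σ hσ => ?_
    have hσs : σ r0.s = r0.s := by
      have e : r0.s = -2 - r0.u ^ 2 := by rw [r0.hu]; ring
      rw [e, map_sub, map_neg, map_pow, hσ, map_ofNat]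
    obtain ⟨δ, hA, hB, hzσ⟩ := H13_act σ hσs 1 (by rw [hσ]; simp)
    have hg1inv : g1⁻¹ (-r0.u) = r0.u := by
      rw [← hu]; exact AlgEquiv.symm_apply_apply g1 _
    have hτu : (g1⁻¹ * (σ * g1)) r0.u = r0.u := by
      rw [AlgEquiv.mul_apply, AlgEquiv.mul_apply, hu, map_neg, hσ, hg1inv]
    have hτθ := hθ _ hτu _ _ (hAB _)
    set τ := g1⁻¹ * (σ * g1) with hτ
    have hcomm : g1 * τ = σ * g1 := by rw [hτ]; group
    have e1 : h (σ * g1) = (A σ + (δ : ℤ) * A g1) • PA r0 + (B σ + (1 : ℤˣ) * B g1) • PB r0 := by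
      rw [hc, hAB σ, hAB g1, map_add, map_zsmul, map_zsmul, hA, hB, add_smul, add_smul,
        mul_comm (δ : ℤ), mul_comm (((1 : ℤˣ) : ℤ)), mul_smul, mul_smul]
      abel
    have e2 : h (g1 * τ) = (A g1 + (δ1 : ℤ) * A τ) • PA r0 + (B g1 + ((-1 : ℤˣ) : ℤ) * B τ) • PB r0 := by
      rw [hc, hAB g1, hAB τ, map_add, map_zsmul, map_zsmul, hA1, hB1, add_smul, add_smul,
        mul_comm (δ1 : ℤ), mul_comm (((-1 : ℤˣ) : ℤ)), mul_smul, mul_smul]
      abel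
    rw [hcomm, e1] at e2
    have e3 := (H13_uniq _ _ _ _ e2).1
    have hσg1 : σ (g1 θ) = r0.z ^ (-(A σ + (δ : ℤ) * A g1 - A g1)) * g1 θ := by
      have : σ (g1 θ) = g1 (τ θ) := by
        have := congrArg (fun f : GQ => f θ) hcomm
        simpa only [AlgEquiv.mul_apply] using this.symm
      rw [this, hτθ, map_mul, map_zpow₀, hz1, ← zpow_mul]
      congr 1
      apply H13_zpow
      obtain ⟨k, hk⟩ := e3
      refine ⟨k, ?_⟩
      push_cast
      linear_combination hk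
    rw [map_mul, map_mul, hσg1, hθ σ hσ _ _ (hAB σ), map_zpow₀, hzσ, ← zpow_mul]
    have : r0.z ^ A σ * θ * (r0.z ^ (-(A σ + (δ : ℤ) * A g1 - A g1)) * g1 θ) *
        r0.z ^ (((1 * δ : ℤˣ) : ℤ) * A g1) =
        θ * g1 θ * (r0.z ^ A σ * r0.z ^ (-(A σ + (δ : ℤ) * A g1 - A g1)) *
          r0.z ^ (((1 * δ : ℤˣ) : ℤ) * A g1)) := by ring
    rw [this, ← zpow_add₀ hz0, ← zpow_add₀ hz0]
    congr 2
    push_cast
    ring
  · exact mul_ne_zero (mul_ne_zero h0 (by rwa [Ne, map_eq_zero])) (zpow_ne_zero _ hz0)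
  · rw [mul_pow, mul_pow, hz3, mul_one, map_pow]

end KE16
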