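import Pool.Agent.LibKE16.IfaceL
import Pool.Agent.LibKE16.H03
import Pool.Agent.LibKE16.H02

open WeierstrassCurve

namespace KE16

private theorem H15_mem_NN {q : ℕ} [Fact q.Prime] (h3 : q ≠ 3) (h193 : q ≠ 193)
    (ι : Qb →ₐ[ℚ] Cq q) (τ : GLq q) (hτ : IsIner τ) (g : GQ) (hg : Restr ι τ g) : g ∈ NN := by
  intro n ζ hζ
  apply (ι : Qb →+* Cq q).injective
  change ι (g ζ) = ι ζ
  rw [hg ζ]
  refine L_root τ hτ (193 * 3 ^ n) ?_ (ι ζ) (by rw [← map_pow, hζ, map_one])
  intro hd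
  rcases (Fact.out : q.Prime).dvd_mul.mp hd with h | h
  · exact h193 ((Nat.prime_dvd_prime_iff_eq Fact.out (by norm_num)).mp h)
  · exact h3 ((Nat.prime_dvd_prime_iff_eq Fact.out Nat.prime_three).mp
      ((Fact.out : q.Prime).dvd_of_dvd_pow h))

private theorem H15_fix_uv {q : ℕ} [Fact q.Prime] (h2 : q ≠ 2) (h3 : q ≠ 3) (ι : Qb →ₐ[ℚ] Cq q)
    (τ : GLq q) (hτ : IsIner τ) (g : GQ) (hg : Restr ι τ g) : g r0.u = r0.u ∧ g r0.v = r0.v := by
  obtain ⟨hu, hv⟩ := L_frame h2 h3 τ hτ (r0.map (ι : Qb →+* Cq q))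
  constructor
  · apply (ι : Qb →+* Cq q).injective
    change ι (g r0.u) = ι r0.u
    rw [hg]; exact hu
  · apply (ι : Qb →+* Cq q).injective
    change ι (g r0.v) = ι r0.v
    rw [hg]; exact hv

/-- at `q ∤ 6·193` the inertia elements fix `θ` -/
theorem H_good {q : ℕ} [Fact q.Prime] (h2 : q ≠ 2) (h3 : q ≠ 3) (h193 : q ≠ 193) (f : SelZ E0 3 193)
    (h : GQ → Pt E0) (hh : IsHat f.1.1 ⊤ h) (θ : Qb)
    (hθ : ∀ g : GQ, g r0.u = r0.u → ∀ a b : ℤ, h g = a • PA r0 + b • PB r0 → g θ = r0.z ^ a * θ)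
    (ι : Qb →ₐ[ℚ] Cq q) (τ : GLq q) (hτ : IsIner τ) : τ (ι θ) = ι θ := by
  obtain ⟨g, hg⟩ := L_restr ι τ
  have hN : g ∈ NN := H15_mem_NN h3 h193 ι τ hτ g hg
  have h0 : h g = 0 := by
    have e := hh.2.2.2.1 ⟨g, hN⟩
    rw [L_red h2 h3 f ι τ hτ ⟨g, hN⟩ hg] at e
    exact e
  obtain ⟨hu, -⟩ := H15_fix_uv h2 h3 ι τ hτ g hg
  have := hθ g hu 0 0 (by rw [h0]; simp)
  rw [zpow_zero, one_mul] at this
  rw [← hg θ, this]

/-- at `193`: if `h` vanishes on one inertia element then on its conjugates for the other embeddings -/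
theorem H_emb {q : ℕ} [Fact q.Prime] (ι ι' : Qb →ₐ[ℚ] Cq q) : ∃ γ : GQ, ∀ x, ι' x = ι (γ x) := by
  have hmem : ∀ x : Qb, ∃ y : Qb, ι y = ι' x := by
    intro x
    have hx : IsIntegral ℚ x := (AlgebraicClosure.isAlgebraic ℚ).isIntegral.isIntegral x
    have hs : ((minpoly ℚ x).map (algebraMap ℚ Qb)).Splits := IsAlgClosed.splits _
    have h0 : (minpoly ℚ x).map (algebraMap ℚ Qb) ≠ 0 :=
      ((minpoly.monic hx).map _).ne_zero
    have hr : Polynomial.aeval (ι' x) (minpoly ℚ x) = 0 := by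
      rw [Polynomial.aeval_algHom_apply, minpoly.aeval, map_zero]
    have e1 : ((minpoly ℚ x).map (algebraMap ℚ Qb)).map (ι : Qb →+* Cq q)
        = (minpoly ℚ x).map (algebraMap ℚ (Cq q)) := by
      rw [Polynomial.map_map]
      congr 1
      exact AlgHom.comp_algebraMap ι
    have h2 : (((minpoly ℚ x).map (algebraMap ℚ Qb)).map (ι : Qb →+* Cq q)).IsRoot (ι' x) := by
      rw [e1, Polynomial.IsRoot.def, Polynomial.eval_map_algebraMap]
      exact hr
    have h3 := (Polynomial.mem_roots (Polynomial.map_ne_zero h0)).mpr h2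
    rw [hs.roots_map] at h3
    obtain ⟨y, -, hy⟩ := Multiset.mem_map.mp h3
    exact ⟨y, hy⟩
  choose γ hγ using hmem
  have hinj : Function.Injective ι := (ι : Qb →+* Cq q).injective
  let Γ : Qb →ₐ[ℚ] Qb :=
    { toFun := γ
      map_one' := hinj (by rw [hγ, map_one, map_one])
      map_mul' := fun x y => hinj (by rw [hγ, map_mul, map_mul, hγ, hγ])
      map_zero' := hinj (by rw [hγ, map_zero, map_zero])
      map_add' := fun x y => hinj (by rw [hγ, map_add, map_add, hγ, hγ])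
      commutes' := fun r => hinj (by
        change ι (γ (algebraMap ℚ Qb r)) = _
        rw [hγ, AlgHom.commutes, AlgHom.commutes]) }
  have : Algebra.IsAlgebraic ℚ Qb := AlgebraicClosure.isAlgebraic ℚ
  refine ⟨AlgEquiv.ofBijective Γ (Algebra.IsAlgebraic.algHom_bijective Γ), fun x => ?_⟩
  exact (hγ x).symm

private theorem H15_gal_one (P : Pt E0) : gal E0 1 P = P := by
  unfold gal
  exact Affine.Point.map_id P

private theorem H15_gal_triv (g : GQ) (hu : g r0.u = r0.u) (hv : g r0.v = r0.v) (P : Pt E0)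
    (hP : 3 • P = 0) : gal E0 g P = P := by
  obtain ⟨a, b, rfl⟩ := H_T3 r0 P hP
  have hs : g r0.s = r0.s := by
    have e : r0.s = -2 - r0.u ^ 2 := by rw [r0.hu]; ring
    rw [e, map_sub, map_neg, map_pow, hu, map_ofNat]
  have hu0 : r0.u ≠ 0 := by
    intro h0
    have h1 := r0.hu
    have h2 := r0.hs
    rw [h0] at h1
    have h3 : r0.s = -2 := by linear_combination h1
    rw [h3] at h2
    norm_num at h2
  have hv0 : r0.v ≠ 0 := by
    intro h0
    have h1 := r0.hv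
    have h2 := r0.hs
    rw [h0] at h1
    have h3 : r0.s = 2 := by linear_combination -h1
    rw [h3] at h2
    norm_num at h2
  have hs0 : r0.s ≠ 0 := by
    intro h0
    have h2 := r0.hs
    rw [h0] at h2
    norm_num at h2
  rcases H_act g with ⟨-, ε, δ, h1, h2, h3, h4, -⟩ | ⟨h0, -⟩
  · have hε : ε = 1 := by
      rcases Int.units_eq_one_or ε with h | h
      · exact h
      · exfalso
        rw [hu, h] at h1
        apply hu0
        have : (2 : Qb) * r0.u = 0 := by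
          push_cast at h1; linear_combination h1
        exact (mul_eq_zero.mp this).resolve_left (by norm_num)
    have hδ : δ = 1 := by
      rcases Int.units_eq_one_or δ with h | h
      · exact h
      · exfalso
        rw [hv, h] at h2
        apply hv0
        have : (2 : Qb) * r0.v = 0 := by
          push_cast at h2; linear_combination h2
        exact (mul_eq_zero.mp this).resolve_left (by norm_num)
    rw [map_add, map_zsmul, map_zsmul, h3, h4, hε, hδ]
    simp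
  · exfalso
    rw [hs] at h0
    apply hs0
    have : (2 : Qb) * r0.s = 0 := by linear_combination h0
    exact (mul_eq_zero.mp this).resolve_left (by norm_num)

theorem H_193 (h : GQ → Pt E0) (hc : Coc h) (h3 : ∀ g, 3 • h g = 0) (θ : Qb)
    (hθ : ∀ g : GQ, g r0.u = r0.u → ∀ a b : ℤ, h g = a • PA r0 + b • PB r0 → g θ = r0.z ^ a * θ)
    (ι0 : Qb →ₐ[ℚ] Cq 193) (τ : GLq 193) (hτ : IsIner τ) (g0 : GQ) (hg0 : Restr ι0 τ g0)
    (hv : h g0 = 0) (ι : Qb →ₐ[ℚ] Cq 193) : τ (ι θ) = ι θ := by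
  obtain ⟨γ, hγ⟩ := H_emb ι0 ι
  have hg1 : Restr ι τ (γ⁻¹ * (g0 * γ)) := by
    intro x
    rw [hγ, hγ]
    have : γ ((γ⁻¹ * (g0 * γ)) x) = g0 (γ x) := by
      rw [AlgEquiv.mul_apply]
      exact AlgEquiv.apply_symm_apply γ _
    rw [this, hg0]
  obtain ⟨hu, hv'⟩ := H15_fix_uv (by norm_num) (by norm_num) ι0 τ hτ g0 hg0
  obtain ⟨hu1, -⟩ := H15_fix_uv (by norm_num) (by norm_num) ι τ hτ _ hg1
  have h1 : h 1 = 0 := by
    have := hc 1 1
    rw [one_mul, H15_gal_one] at this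
    exact left_eq_add.mp this
  have hzero : h (γ⁻¹ * (g0 * γ)) = 0 := by
    rw [hc, hc, hv, zero_add, H15_gal_triv g0 hu hv' _ (h3 γ), ← hc, inv_mul_cancel, h1]
  have := hθ _ hu1 0 0 (by rw [hzero]; simp)
  rw [zpow_zero, one_mul] at this
  rw [← hg1 θ, this]

end KE16
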