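import Pool.Agent.LibKE16.Base

/-! # MP_3c6ab9: definitions for block H (cocycles) -/

open WeierstrassCurve

namespace KE16

/-- the quartic field `M = ℚ(u)` -/
noncomputable abbrev MM : IntermediateField ℚ Qb := IntermediateField.adjoin ℚ {r0.u}

/-- the unit `ε₀ = 5 + 2u + 2u²` -/
noncomputable def e0 : Qb := 5 + 2 * r0.u + 2 * r0.u ^ 2

/-- cocycle on the whole Galois group -/
def Coc (h : GQ → Pt E0) : Prop := ∀ g g', h (g * g') = h g + gal E0 g (h g')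

/-- continuity of a cocycle -/
def Cont (h : GQ → Pt E0) : Prop :=
  ∃ L : IntermediateField ℚ Qb, FiniteDimensional ℚ L ∧ ∀ g : GQ, (∀ x ∈ L, g x = x) → h g = 0

/-- `h` extends the cocycle `f` of `NN` to the subgroup `S` -/
def IsHat (f : NN → Pt E0) (S : Subgroup GQ) (h : GQ → Pt E0) : Prop :=
  NN ≤ S ∧ (∀ g ∈ S, Tor (h g)) ∧ (∀ g ∈ S, ∀ g' ∈ S, h (g * g') = h g + gal E0 g (h g')) ∧
    (∀ σ : NN, h σ = f σ) ∧
    ∃ L : IntermediateField ℚ Qb, FiniteDimensional ℚ L ∧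
      ∀ g ∈ S, (∀ x ∈ L, g x = x) → h g = 0

/-- `s` is killed by `3` and fixed by the Galois group -/
def InW (s : Sel E0 3 193) : Prop := 3 • s = 0 ∧ ∀ g : GQ, gS E0 3 193 g s = s

/-- `w` is a root of `X⁴ + 4X² + 6` -/
def Rt {F : Type} [Field F] (w : F) : Prop := w ^ 4 + 4 * w ^ 2 + 6 = 0

/-- `D(w) = D 0 + D 1 w + D 2 w² + D 3 w³` -/
noncomputable def ev {F : Type} [Field F] (D : Fin 4 → ℤ) (w : F) : F :=
  (D 0 : F) + D 1 * w + D 2 * w ^ 2 + D 3 * w ^ 3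

/-- `D₁(u) = 5 + 2u² + u³`, of norm `193` -/
def D1 : Fin 4 → ℤ := ![5, 0, 2, 1]

/-- `D₂(u) = 13 + 12u + 8u² + 3u³`, of norm `193` -/
def D2 : Fin 4 → ℤ := ![13, 12, 8, 3]

end KE16
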