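import Pool.Agent.LibKE16.IfaceL
import Pool.Agent.LibKE16.HDefs
import Pool.Agent.LibKE16.H04

/-!
# [KE16 H16] MEDIUM

Plan. H_v23: L_conj for r0.map ι gives τ with τ(ι s) = ι s, τ(ι u) = -ι u. On MM = ℚ(u): τ ∘ ι = ι ∘ g1 (both are ring homs MM → Cq q
agreeing at u). So nm(ι (g1 z)) = nm(τ(ι z)) = nm(ι z) (L_nm). nm(ι z)² = nm(ι c)³, so nm(ι z) = nm(ι (z/c))³ ·: with n = nm(ιz), m = nm(ιc):
n² = m³, (n/m)³ = n³/m³ = n³/n² = n. c' := z/c.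
H_i3: take any ι; ι(s)² = -2, so (ι s - 1)(ι s + 1) = -3 has norm < 1: nm(ι s - 1) < 1 or nm(ι s + 1) < 1. In the second case compose
with g of H_g3 (g s = -s) (import H04), or choose ι through IsAlgClosed.lift.
-/

open WeierstrassCurve

namespace KE16

private theorem h16_mul {q : ℕ} [Fact q.Prime] (x y : Cq q) : nm q (x * y) = nm q x * nm q y :=
  norm_mul (x : PadicAlgCl q) (y : PadicAlgCl q)

private theorem h16_pow {q : ℕ} [Fact q.Prime] (x : Cq q) (n : ℕ) : nm q (x ^ n) = nm q x ^ n :=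
  norm_pow (x : PadicAlgCl q) n

private theorem h16_neg {q : ℕ} [Fact q.Prime] (x : Cq q) : nm q (-x) = nm q x :=
  norm_neg (x : PadicAlgCl q)

private theorem h16_nonneg {q : ℕ} [Fact q.Prime] (x : Cq q) : 0 ≤ nm q x :=
  norm_nonneg (x : PadicAlgCl q)

private theorem h16_ne {q : ℕ} [Fact q.Prime] (x : Cq q) (h : x ≠ 0) : nm q x ≠ 0 :=
  norm_ne_zero_iff.2 (show (x : PadicAlgCl q) ≠ 0 from h)

/-- valuations divisible by `3` at `2` and `3` -/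
theorem H_v23 {q : ℕ} [Fact q.Prime] (hq : q = 2 ∨ q = 3) (ι : Qb →ₐ[ℚ] Cq q) (g1 : GQ)
    (hs : g1 r0.s = r0.s) (hu : g1 r0.u = -r0.u) (z c : Qb) (hz : z ∈ MM) (hz0 : z ≠ 0) (hc : c ∈ MM)
    (hc0 : c ≠ 0) (h : z * g1 z = c ^ 3) : ∃ c' ∈ MM, nm q (ι z) = nm q (ι c') ^ 3 := by
  obtain ⟨τ, -, hτu⟩ := L_conj hq (r0.map (ι : Qb →+* Cq q))
  have hτu' : τ (ι r0.u) = -ι r0.u := hτu
  have key : ∀ x ∈ MM, τ (ι x) = ι (g1 x) := by
    intro x hx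
    induction hx using IntermediateField.adjoin_induction with
    | mem x hx =>
      rw [Set.mem_singleton_iff] at hx
      rw [hx, hτu', hu, map_neg]
    | algebraMap a =>
      rw [AlgEquiv.commutes, AlgHom.commutes, eq_ratCast, map_ratCast]
    | add x y _ _ hx hy => rw [map_add, map_add, map_add, map_add, hx, hy]
    | inv x _ hx => rw [map_inv₀, map_inv₀, map_inv₀, map_inv₀, hx]
    | mul x y _ _ hx hy => rw [map_mul, map_mul, map_mul, map_mul, hx, hy]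
  have h1 : nm q (ι (g1 z)) = nm q (ι z) := by rw [← key z hz, L_nm]
  have h2 : nm q (ι z) ^ 2 = nm q (ι c) ^ 3 := by
    rw [← h16_pow (ι c), ← map_pow, ← h, map_mul, h16_mul, h1, sq]
  have hn : nm q (ι z) ≠ 0 := h16_ne _ (by simpa using hz0)
  have hm : nm q (ι c) ≠ 0 := h16_ne _ (by simpa using hc0)
  refine ⟨z / c, div_mem hz hc, ?_⟩
  have h3 : nm q (ι (z / c)) * nm q (ι c) = nm q (ι z) := by
    rw [← h16_mul, ← map_mul, div_mul_cancel₀ _ hc0]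
  have h4 : (nm q (ι (z / c)) * nm q (ι c)) ^ 3 = nm q (ι z) ^ 3 := by rw [h3]
  rw [mul_pow, ← h2] at h4
  have h5 : nm q (ι z) ^ 2 ≠ 0 := pow_ne_zero 2 hn
  refine mul_right_cancel₀ h5 ?_
  rw [h4]
  ring

/-- an embedding into `Qbar_3` with `|s - 1| < 1` -/
theorem H_i3 : ∃ ι : Qb →ₐ[ℚ] Cq 3, nm 3 (ι r0.s - 1) < 1 := by
  haveI : Algebra.IsAlgebraic ℚ Qb := AlgebraicClosure.isAlgebraic ℚ
  let ι : Qb →ₐ[ℚ] Cq 3 := IsAlgClosed.lift
  have h1 : (ι r0.s - 1) * (ι r0.s + 1) = -3 := by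
    have h2 : (ι r0.s) ^ 2 = -2 := by
      rw [← map_pow, r0.hs, map_neg, map_ofNat]
    linear_combination h2
  have h3 : nm 3 (-3 : Cq 3) < 1 := by
    rw [h16_neg]
    have h4 : ‖((3 : ℚ_[3]) : PadicAlgCl 3)‖ = ‖(3 : ℚ_[3])‖ := PadicAlgCl.norm_extends 3 3
    have h5 : ((3 : ℚ_[3]) : PadicAlgCl 3) = 3 := map_ofNat (algebraMap ℚ_[3] (PadicAlgCl 3)) 3
    have h6 : ‖(3 : ℚ_[3])‖ < 1 := by
      have := Padic.norm_p_lt_one (p := 3)
      simpa using this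
    unfold nm
    rw [h5] at h4
    change ‖(3 : PadicAlgCl 3)‖ < 1
    rw [h4]
    exact h6
  rw [← h1, h16_mul] at h3
  by_cases h7 : nm 3 (ι r0.s - 1) < 1
  · exact ⟨ι, h7⟩
  · have h8 : nm 3 (ι r0.s + 1) < 1 := by
      by_contra h9
      have h10 : 1 ≤ nm 3 (ι r0.s - 1) * nm 3 (ι r0.s + 1) :=
        one_le_mul_of_one_le_of_one_le (not_lt.1 h7) (not_lt.1 h9)
      exact absurd h3 (not_lt.2 h10)
    obtain ⟨g, hg⟩ := H_g3
    refine ⟨ι.comp (g : Qb →ₐ[ℚ] Qb), ?_⟩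
    have h11 : (ι.comp (g : Qb →ₐ[ℚ] Qb)) r0.s - 1 = -(ι r0.s + 1) := by
      change ι (g r0.s) - 1 = _
      rw [hg, map_neg]
      ring
    rw [h11, h16_neg]
    exact h8

end KE16
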