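import Pool.Agent.LibKE16.IfaceL
import Pool.Agent.LibKE16.H05

/-!
# [KE16 H17] MEDIUM/STRONG

Plan. Let g be the restriction of τ: g u = u, g v = v, so g acts trivially on E[3] (H_act, H_T3). L_three: φ with φ s = s, φ v = -v;
restriction γ: γ s = s, γ v = -v, so gal γ PA = -PA, gal γ PB = ±PB. c := φ τ φ⁻¹ τ⁻¹ is inertial (L_comm), restriction k = γ g γ⁻¹ g⁻¹ ∈ NN
(H_comm). L_red3: h k = f k ∈ {0, ±PB}. Cocycle relation with g trivial on E[3]: γ g γ⁻¹ also trivial on E[3];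
h(γ g γ⁻¹) = h γ + γ h g + γ g h(γ⁻¹) = h γ + γ h g + γ h(γ⁻¹) = γ h g, and h(γgγ⁻¹) = h(k g) = h k + k h g = h k + h g (k = (γgγ⁻¹) g⁻¹
trivial on E[3]). If h g = a PA + b PB: the PA-coordinate: -a ≡ 0 + a mod 3 (H_T4), so 3 ∣ a; hθ: g θ = z^a θ = θ.
-/

open WeierstrassCurve

namespace KE16

private theorem s_ne : (r0.s : Qb) ≠ 0 := by
  intro h
  have := r0.hs
  rw [h] at this
  norm_num at this

private theorem u_ne : (r0.u : Qb) ≠ 0 := by
  intro h
  have h1 := r0.hu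
  have h2 := r0.hs
  rw [h] at h1
  have h3 : r0.s = -2 := by linear_combination h1
  rw [h3] at h2
  norm_num at h2

private theorem v_ne : (r0.v : Qb) ≠ 0 := by
  intro h
  have h1 := r0.hv
  have h2 := r0.hs
  rw [h] at h1
  have h3 : r0.s = 2 := by linear_combination -h1
  rw [h3] at h2
  norm_num at h2

private theorem restr_mul {q : ℕ} [Fact q.Prime] {ι : Qb →ₐ[ℚ] Cq q} {τ τ' : GLq q} {g g' : GQ}
    (h : Restr ι τ g) (h' : Restr ι τ' g') : Restr ι (τ * τ') (g * g') := by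
  intro x
  change ι (g (g' x)) = τ (τ' (ι x))
  rw [h, h']

private theorem restr_inv {q : ℕ} [Fact q.Prime] {ι : Qb →ₐ[ℚ] Cq q} {τ : GLq q} {g : GQ}
    (h : Restr ι τ g) : Restr ι τ⁻¹ g⁻¹ := by
  intro x
  have h1 := h (g⁻¹ x)
  have h2 : g (g⁻¹ x) = x := AlgEquiv.apply_symm_apply g x
  rw [h2] at h1
  rw [h1]
  exact (AlgEquiv.symm_apply_apply τ _).symm

/-- an element which fixes `u` and `v` acts trivially on `E[3]` -/
private theorem triv (g : GQ) (hu : g r0.u = r0.u) (hv : g r0.v = r0.v) (P : Pt E0)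
    (hP : 3 • P = 0) : gal E0 g P = P := by
  obtain ⟨a, b, rfl⟩ := H_T3 r0 P hP
  rcases H_act g with ⟨_, ε, δ, h1, h2, h3, h4, _⟩ | ⟨h0, _⟩
  · have e1 : ε = 1 := by
      rcases Int.units_eq_one_or ε with h | h
      · exact h
      · exfalso
        rw [h, hu] at h1
        have h5 : (2 : Qb) * r0.u = 0 := by
          push_cast at h1
          linear_combination h1
        rcases mul_eq_zero.mp h5 with h6 | h6
        · norm_num at h6
        · exact u_ne h6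
    have e2 : δ = 1 := by
      rcases Int.units_eq_one_or δ with h | h
      · exact h
      · exfalso
        rw [h, hv] at h2
        have h5 : (2 : Qb) * r0.v = 0 := by
          push_cast at h2
          linear_combination h2
        rcases mul_eq_zero.mp h5 with h6 | h6
        · norm_num at h6
        · exact v_ne h6
    rw [e2] at h3
    rw [e1] at h4
    rw [map_add, map_zsmul, map_zsmul, h3, h4]
    simp
  · exfalso
    have h5 : g r0.s = r0.s := by
      have h6 : r0.s = -2 - r0.u ^ 2 := by linear_combination r0.hu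
      rw [h6, _root_.map_sub, _root_.map_neg, _root_.map_pow, hu, _root_.map_ofNat]
    rw [h5] at h0
    have h7 : (2 : Qb) * r0.s = 0 := by linear_combination h0
    rcases mul_eq_zero.mp h7 with h6 | h6
    · norm_num at h6
    · exact s_ne h6

/-- the decomposition group at `π̄`: `θ ∈ ℚ_3(u,v)` -/
theorem H_dec (f : SelZ E0 3 193) (hf3 : ∀ σ, 3 • f.1.1 σ = 0) (h : GQ → Pt E0)
    (hh : IsHat f.1.1 ⊤ h) (h3 : ∀ g, 3 • h g = 0) (θ : Qb)
    (hθ : ∀ g : GQ, g r0.u = r0.u → ∀ a b : ℤ, h g = a • PA r0 + b • PB r0 → g θ = r0.z ^ a * θ)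
    (ι : Qb →ₐ[ℚ] Cq 3) (hι : nm 3 (ι r0.s - 1) < 1) (τ : GLq 3) (hu : τ (ι r0.u) = ι r0.u)
    (hv : τ (ι r0.v) = ι r0.v) : τ (ι θ) = ι θ := by
  obtain ⟨g, hg⟩ := L_restr ι τ
  have inj : ∀ x y : Qb, ι x = ι y → x = y := fun x y h ↦ (ι : Qb →+* Cq 3).injective h
  have gu : g r0.u = r0.u := inj _ _ (by rw [hg, hu])
  have gv : g r0.v = r0.v := inj _ _ (by rw [hg, hv])
  obtain ⟨φ, φs, φv⟩ := L_three (r0.map (ι : Qb →+* Cq 3)) hι
  obtain ⟨γ, hγ⟩ := L_restr ι φ
  have γs : γ r0.s = r0.s := inj _ _ (by rw [hγ]; exact φs)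
  have γv : γ r0.v = -r0.v := inj _ _ (by rw [hγ, _root_.map_neg]; exact φv)
  -- the action of γ
  obtain ⟨ε, γA, γB⟩ : ∃ ε : ℤ, gal E0 γ (PA r0) = -PA r0 ∧ gal E0 γ (PB r0) = ε • PB r0 := by
    rcases H_act γ with ⟨_, ε, δ, h1, h2, h3, h4, _⟩ | ⟨h0, _⟩
    · refine ⟨ε, ?_, h4⟩
      have e2 : δ = -1 := by
        rcases Int.units_eq_one_or δ with h | h
        · exfalso
          rw [h, γv] at h2
          have h5 : (2 : Qb) * r0.v = 0 := by
            push_cast at h2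
            linear_combination -h2
          rcases mul_eq_zero.mp h5 with h6 | h6
          · norm_num at h6
          · exact v_ne h6
        · exact h
      rw [h3, e2]
      simp
    · exfalso
      rw [γs] at h0
      have h7 : (2 : Qb) * r0.s = 0 := by linear_combination h0
      rcases mul_eq_zero.mp h7 with h6 | h6
      · norm_num at h6
      · exact s_ne h6
  -- the commutator
  obtain ⟨_, _, hc, hf, _⟩ := hh
  have hc' : ∀ g g' : GQ, h (g * g') = h g + gal E0 g (h g') := fun g g' ↦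
    hc g (Subgroup.mem_top _) g' (Subgroup.mem_top _)
  have hk : Restr ι (φ * τ * φ⁻¹ * τ⁻¹) (γ * g * γ⁻¹ * g⁻¹) :=
    restr_mul (restr_mul (restr_mul hγ hg) (restr_inv hγ)) (restr_inv hg)
  have hred := L_red3 f ι hι _ (L_comm φ τ) ⟨γ * g * γ⁻¹ * g⁻¹, H_comm γ g⟩ hk (hf3 _)
  have hfk := hf ⟨γ * g * γ⁻¹ * g⁻¹, H_comm γ g⟩
  rw [← hfk] at hred
  have hred' : ∃ e : ℤ, h (γ * g * γ⁻¹ * g⁻¹) = e • PB r0 := by
    rcases hred with h1 | h1 | h1
    · exact ⟨0, by rw [zero_smul]; exact h1⟩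
    · exact ⟨1, by rw [one_smul]; exact h1⟩
    · exact ⟨-1, by rw [neg_smul, one_smul]; exact h1⟩
  obtain ⟨e, he⟩ := hred'
  have hone : h 1 = 0 := by
    have := hc' 1 1
    rw [mul_one, gal_one] at this
    simpa using this
  have tg : ∀ P : Pt E0, 3 • P = 0 → gal E0 g P = P := fun P hP ↦ triv g gu gv P hP
  have tgi : ∀ P : Pt E0, 3 • P = 0 → gal E0 g⁻¹ P = P := by
    intro P hP
    have h1 := tg P hP
    calc gal E0 g⁻¹ P = gal E0 g⁻¹ (gal E0 g P) := by rw [h1]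
      _ = P := by rw [← gal_mul, inv_mul_cancel, gal_one]
  -- k acts trivially on E[3]
  have tk : ∀ P : Pt E0, 3 • P = 0 → gal E0 (γ * g * γ⁻¹ * g⁻¹) P = P := by
    intro P hP
    rw [gal_mul, tgi P hP, gal_mul, gal_mul]
    rw [tg (gal E0 γ⁻¹ P) (by rw [← map_nsmul, hP, map_zero]), ← gal_mul, mul_inv_cancel, gal_one]
  have h4 : h (γ * g * γ⁻¹) = gal E0 γ (h g) := by
    rw [hc', hc', gal_mul, tg (h γ⁻¹) (h3 _)]
    have h5 : h γ + gal E0 γ (h γ⁻¹) = 0 := by
      rw [← hc', mul_inv_cancel, hone]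
    calc h γ + gal E0 γ (h g) + gal E0 γ (h γ⁻¹) = (h γ + gal E0 γ (h γ⁻¹)) + gal E0 γ (h g) := by abel
      _ = gal E0 γ (h g) := by rw [h5, zero_add]
  have h6 : h (γ * g * γ⁻¹) = e • PB r0 + h g := by
    have h7 : γ * g * γ⁻¹ = (γ * g * γ⁻¹ * g⁻¹) * g := by group
    rw [h7, hc', he, tk (h g) (h3 g)]
  obtain ⟨a, b, hab⟩ := H_T3 r0 (h g) (h3 g)
  have h8 : ((-2) * a) • PA r0 + (ε * b - e - b) • PB r0 = 0 := by
    have h9 : gal E0 γ (h g) = e • PB r0 + h g := by rw [← h4, h6]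
    rw [hab, map_add, map_zsmul, map_zsmul, γA, γB] at h9
    have h10 : a • -PA r0 + b • ε • PB r0 - (e • PB r0 + (a • PA r0 + b • PB r0)) = 0 := by
      rw [h9, sub_self]
    rw [← h10]
    rw [sub_smul, sub_smul, mul_comm ε b, mul_smul b ε, smul_neg, neg_mul, neg_smul, two_mul, add_smul]
    abel
  have h11 := (H_T4 r0 _ _ h8).1
  have h12 : (3 : ℤ) ∣ a := by omega
  obtain ⟨a', rfl⟩ := h12
  have h13 := hθ g gu (3 * a') b hab
  have h14 : r0.z ^ (3 * a') = 1 := by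
    rw [zpow_mul]
    have h15 : r0.z ^ (3 : ℤ) = 1 := by
      have := (H_z r0).pow_eq_one
      exact_mod_cast this
    rw [h15, one_zpow]
  rw [h14, one_mul] at h13
  rw [← hg, h13]

end KE16
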