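import Pool.Agent.LibKE16.HDefs
import Pool.Agent.LibKuQ.B5

/-! Interface of the quartic block (helper21): proof of `Q_main` from the rows of LibKuQ. -/

open WeierstrassCurve

namespace KE16

theorem r0_root : r0.u ^ 4 + 4 * r0.u ^ 2 + 6 = 0 := by
  have h1 := r0.hs
  have h2 := r0.hu
  linear_combination (r0.u ^ 2 + 2 - r0.s) * h2 + h1

theorem r0_integral : IsIntegral ℚ r0.u := by
  refine ⟨Polynomial.X ^ 4 + Polynomial.C 4 * Polynomial.X ^ 2 + Polynomial.C 6, ?_, ?_⟩
  · monicity!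
  · rw [Polynomial.eval₂_add, Polynomial.eval₂_add, Polynomial.eval₂_mul, Polynomial.eval₂_pow,
      Polynomial.eval₂_pow, Polynomial.eval₂_X, Polynomial.eval₂_C, Polynomial.eval₂_C]
    have e1 : algebraMap ℚ Qb 4 = 4 := map_ofNat _ 4
    have e2 : algebraMap ℚ Qb 6 = 6 := map_ofNat _ 6
    rw [e1, e2]
    exact r0_root

instance : FiniteDimensional ℚ MM := IntermediateField.adjoin.finiteDimensional r0_integral

instance : NumberField MM where
  to_charZero := inferInstance
  to_finiteDimensional := inferInstance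

/-- the generator, as an element of `M` -/
noncomputable def uM : MM := ⟨r0.u, IntermediateField.mem_adjoin_simple_self ℚ r0.u⟩

theorem adjoin_top_aux {L : Type*} [Field L] (i1 i2 : Algebra ℚ L) (S : Set L)
    (h : @IntermediateField.adjoin ℚ _ L _ i1 S = ⊤) :
    @IntermediateField.adjoin ℚ _ L _ i2 S = ⊤ := by
  obtain rfl : i1 = i2 := Subsingleton.elim _ _
  exact h

theorem qf_uM : KuQ.QF uM := by
  constructor
  · apply Subtype.ext
    exact r0_root
  · refine adjoin_top_aux MM.algebra' _ _ ?_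
    apply IntermediateField.map_injective MM.val
    rw [IntermediateField.adjoin_map, Set.image_singleton]
    change IntermediateField.adjoin ℚ {r0.u} = _
    rw [← AlgHom.fieldRange_eq_map, IntermediateField.fieldRange_val]

/-- an element of `M` all of whose valuations are divisible by `3` is `ε₀ᵏ β³` -/
theorem Q_main (z : Qb) (hz : z ∈ MM) (h0 : z ≠ 0)
    (h : ∀ (q : ℕ) [Fact q.Prime] (ι : Qb →ₐ[ℚ] Cq q), ∃ c ∈ MM, nm q (ι z) = nm q (ι c) ^ 3) :
    ∃ (k : ℤ) (β : Qb), β ∈ MM ∧ z = e0 ^ k * β ^ 3 := by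
  obtain ⟨n, _, β, hβ⟩ := qf_uM.main (algebraMap MM Qb) ⟨z, hz⟩
    (fun h => h0 (congrArg Subtype.val h)) (by
      intro q _ ι
      obtain ⟨c, hc, hc'⟩ := h q (ι.toRatAlgHom : Qb →ₐ[ℚ] Cq q)
      exact ⟨⟨c, hc⟩, hc'⟩)
  refine ⟨n, β, β.2, ?_⟩
  have := congrArg (Subtype.val) hβ
  rw [zpow_natCast]
  exact this

end KE16
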