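import Pool.Agent.LibKE16.IfaceL
import Pool.Agent.LibKE16.IfaceQ
import Pool.Agent.LibKE16.H13
import Pool.Agent.LibKE16.H14
import Pool.Agent.LibKE16.H15
import Pool.Agent.LibKE16.H16
import Pool.Agent.LibKE16.H17

/-!
# [KE16 H18] MEDIUM/STRONG

Plan. z := θ³ ∈ MM (H_norm with g1 of H_g1). All valuations divisible by 3: q ∤ 6·193: L_tame, H_good, H_vgood; q = 193: H_193 with τ0, H_vgood;
q = 2, 3: H_v23 with H_norm. Q_main: z = e0^k β³. H_i3: ι; x := ι(θ/β) ∈ Cq 3: x³ = ι(e0)^k = (5+2ι(u)+2ι(u)²)^k; τ fixing ι u, ι v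
fixes ι θ (H_dec) and ι β (β ∈ MM = ℚ(u)). L_eps: 3 ∣ k, k = 3j: z = (e0^j β)³ (e0 ∈ MM).
-/

open WeierstrassCurve

namespace KE16

/-- the global argument: `θ³` is a cube in `M` -/
theorem H_cube (f : SelZ E0 3 193) (hf3 : ∀ σ, 3 • f.1.1 σ = 0) (h : GQ → Pt E0)
    (hh : IsHat f.1.1 ⊤ h) (h3 : ∀ g, 3 • h g = 0) (θ : Qb) (h0 : θ ≠ 0)
    (hθ : ∀ g : GQ, g r0.u = r0.u → ∀ a b : ℤ, h g = a • PA r0 + b • PB r0 → g θ = r0.z ^ a * θ)
    (ι0 : Qb →ₐ[ℚ] Cq 193) (τ0 : GLq 193) (hτ0 : IsIner τ0)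
    (hmove : ∀ c : Cq 193, c ^ 3 = ((193 : ℕ) : Cq 193) → τ0 c ≠ c) (g0 : GQ) (hg0 : Restr ι0 τ0 g0)
    (hv : h g0 = 0) : ∃ β ∈ MM, θ ^ 3 = β ^ 3 := by
  have hc : Coc h := fun g g' => hh.2.2.1 g (Subgroup.mem_top g) g' (Subgroup.mem_top g')
  obtain ⟨g1, hs, hu, -⟩ := H_g1
  obtain ⟨hz, c, hcM, hc0, hcz⟩ := H_norm h hc h3 θ h0 hθ g1 hs hu
  have hz0 : θ ^ 3 ≠ 0 := pow_ne_zero 3 h0
  obtain ⟨k, β, hβ, hk⟩ := Q_main (θ ^ 3) hz hz0 (by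
    intro q _ ι
    by_cases h23 : q = 2 ∨ q = 3
    · exact H_v23 h23 ι g1 hs hu (θ ^ 3) c hz hz0 hcM hc0 hcz
    · have hq2 : q ≠ 2 := fun h => h23 (Or.inl h)
      have hq3 : q ≠ 3 := fun h => h23 (Or.inr h)
      by_cases h193 : q = 193
      · subst h193
        have hfix := H_193 h hc h3 θ hθ ι0 τ0 hτ0 g0 hg0 hv ι
        exact H_vgood hq2 hq3 ι τ0 hτ0 hmove θ hz h0 hfix
      · obtain ⟨τ, hτ, hm⟩ := L_tame (q := q) hq3
        have hfix := H_good hq2 hq3 h193 f h hh θ hθ ι τ hτ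
        exact H_vgood hq2 hq3 ι τ hτ hm θ hz h0 hfix)
  have hβ0 : β ≠ 0 := by
    rintro rfl
    rw [zero_pow (by norm_num), mul_zero] at hk
    exact hz0 hk
  obtain ⟨ι, hι⟩ := H_i3
  have hdvd : (3 : ℤ) ∣ k := by
    refine L_eps (r0.map (ι : Qb →+* Cq 3)) hι k (ι (θ / β)) ?_ ?_
    · have h4 : (θ / β) ^ 3 = e0 ^ k := by
        rw [div_pow, hk, mul_div_assoc, div_self (pow_ne_zero 3 hβ0), mul_one]
      rw [← map_pow, h4, map_zpow₀]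
      congr 1
      change ι (5 + 2 * r0.u + 2 * r0.u ^ 2) = 5 + 2 * ι r0.u + 2 * (ι r0.u) ^ 2
      rw [map_add, map_add, map_mul, map_mul, map_pow, map_ofNat, map_ofNat]
    · intro τ hτu hτv
      have hτu' : τ (ι r0.u) = ι r0.u := hτu
      have hτv' : τ (ι r0.v) = ι r0.v := hτv
      have h5 := H_dec f hf3 h hh h3 θ hθ ι hι τ hτu' hτv'
      obtain ⟨g, hg⟩ := L_restr ι τ
      have hgu : g r0.u = r0.u := by
        apply ι.toRingHom.injective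
        change ι (g r0.u) = ι r0.u
        rw [hg, hτu']
      have h6 : τ (ι β) = ι β := by
        rw [← hg β, H_fixM' β hβ g hgu]
      rw [map_div₀, map_div₀, h5, h6]
  obtain ⟨j, hj⟩ := hdvd
  have he0 : e0 ∈ MM := by
    have hu' : r0.u ∈ MM := IntermediateField.mem_adjoin_simple_self ℚ r0.u
    have h5 : ∀ n : ℕ, (n : Qb) ∈ MM := fun n => natCast_mem MM n
    have h55 := h5 5
    have h52 := h5 2
    rw [Nat.cast_ofNat] at h55 h52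
    exact add_mem (add_mem h55 (mul_mem h52 hu')) (mul_mem h52 (pow_mem hu' 2))
  refine ⟨e0 ^ j * β, mul_mem (zpow_mem he0 j) hβ, ?_⟩
  rw [hk, hj, mul_pow, mul_comm (3 : ℤ) j, zpow_mul]
  congr 1
  exact zpow_natCast (e0 ^ j) 3

end KE16
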