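import Pool.Agent.LibKE16.H12
import Pool.Agent.LibKE16.H05

/-!
# [KE16 H19] MEDIUM

Plan. θ = z^j β. For g u = u, h g = a PA + b PB: z^a θ = g θ = z^{δ j} β (g z = z^δ as ε = 1), so a ≡ (δ-1) j mod 3. Put h1 := h - ∂(j PA)
(gal g (jPA) - jPA = (δ-1) j PA): h1 is a cocycle with PA-coordinate 0 on {g u = u}.
Step 1: PA-coordinate of h1 is 0 on {g s = s}: take σ = g2 of H_g2 (σ u = u, σ v = -v: δ = -1): for g s = s,
h1(g σ) = h1 g + g h1 σ, and h1((gσg⁻¹) g) = h1(gσg⁻¹) + (gσg⁻¹) h1 g, where gσg⁻¹ fixes u (abelian action on s-fixed frames),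
acts on PA by -1: coordinates: A(g) + 0 = 0 - A(g), so 2A(g) = 0.
Step 2: take η of H_g3 (η s = -s). For g s = s: h1(η g η⁻¹) has PA-coordinate 0 (ηgη⁻¹ fixes s). h1(η g) = h1 η + η h1 g =
h1((ηgη⁻¹)η) = h1(ηgη⁻¹) + (ηgη⁻¹) h1 η. η maps PB to ±PA: write h1 g = b PB, x = PA-coordinate of h1 η: ±b = (δ' - 1) x with δ' the sign of
ηgη⁻¹ on PA = sign ε_g of g on PB. So h1 g = ∂(±x PB)(g) for all g with g s = s. h2 := h1 - ∂(±x PB) vanishes on {g s = s}.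
Step 3: for any g take σ = g1·g2-type element acting as -1 (u ↦ -u, v ↦ -v, s ↦ s): gσg⁻¹ also acts as -1 and fixes s:
h2(gσ) = h2 g + 0 = h2((gσg⁻¹)g) = 0 - h2 g. So 2 h2 g = 0, h2 g = 0.
-/

open WeierstrassCurve

namespace KE16

private theorem s_ne0 : r0.s ≠ 0 := by
  intro h
  have := r0.hs
  rw [h] at this
  norm_num at this

private theorem s_ne : ∀ x : Qb, x = r0.s → x = -r0.s → False := by
  intro x h1 h2
  apply s_ne0
  have h3 : (2 : Qb) * r0.s = 0 := by linear_combination -h1 + h2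
  rcases mul_eq_zero.1 h3 with h | h
  · norm_num at h
  · exact h

private theorem u_ne : r0.u ≠ 0 := by
  intro h
  have h1 := r0.hu
  rw [h] at h1
  have h2 := r0.hs
  have h3 : r0.s = -2 := by linear_combination h1
  rw [h3] at h2
  norm_num at h2

private theorem v_ne : r0.v ≠ 0 := by
  intro h
  have h1 := r0.hv
  rw [h] at h1
  have h2 := r0.hs
  have h3 : r0.s = 2 := by linear_combination -h1
  rw [h3] at h2
  norm_num at h2

private theorem unit_one (ε : ℤˣ) (x : Qb) (hx : x ≠ 0) (h : x = ((ε : ℤ) : Qb) * x) : ε = 1 := by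
  rcases Int.units_eq_one_or ε with rfl | rfl
  · rfl
  · exfalso
    apply hx
    have h1 : x = (-1 : Qb) * x := by simpa using h
    have h2 : (2 : Qb) * x = 0 := by linear_combination h1
    rcases mul_eq_zero.1 h2 with h | h
    · norm_num at h
    · exact h

private theorem unit_neg (ε : ℤˣ) (x : Qb) (hx : x ≠ 0) (h : -x = ((ε : ℤ) : Qb) * x) : ε = -1 := by
  rcases Int.units_eq_one_or ε with rfl | rfl
  · exfalso
    apply hx
    have h1 : -x = (1 : Qb) * x := by simpa using h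
    have h2 : (2 : Qb) * x = 0 := by linear_combination -h1
    rcases mul_eq_zero.1 h2 with h | h
    · norm_num at h
    · exact h
  · rfl

private theorem actK (g : GQ) (hs : g r0.s = r0.s) : ∃ ε δ : ℤˣ,
    g r0.u = ((ε : ℤ) : Qb) * r0.u ∧ g r0.v = ((δ : ℤ) : Qb) * r0.v ∧
      gal E0 g (PA r0) = (δ : ℤ) • PA r0 ∧ gal E0 g (PB r0) = (ε : ℤ) • PB r0 ∧
      g r0.z = r0.z ^ ((ε * δ : ℤˣ) : ℤ) := by
  rcases H_act g with ⟨_, h⟩ | ⟨h1, _⟩
  · exact h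
  · exact absurd (s_ne _ hs h1) id

private theorem actE (g : GQ) (hs : g r0.s = -r0.s) : ∃ ε δ : ℤˣ,
      gal E0 g (PA r0) = (δ : ℤ) • PB r0 ∧ gal E0 g (PB r0) = (ε : ℤ) • PA r0 := by
  rcases H_act g with ⟨h1, _⟩ | ⟨_, ε, δ, _, _, h1, h2, _⟩
  · exact absurd (s_ne _ h1 hs) id
  · exact ⟨ε, δ, h1, h2⟩

private theorem inv_s (g : GQ) (hs : g r0.s = r0.s) : g⁻¹ r0.s = r0.s := by
  have h : g⁻¹ (g r0.s) = g⁻¹ r0.s := by rw [hs]
  rw [← h]
  exact AlgEquiv.symm_apply_apply g _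

private theorem inv_app (g : GQ) (x : Qb) : g (g⁻¹ x) = x := AlgEquiv.apply_symm_apply g x

private theorem coordA {a b a' b' : ℤ} (h : a • PA r0 + b • PB r0 = a' • PA r0 + b' • PB r0) :
    (3 : ℤ) ∣ a - a' := by
  have h1 : (a - a') • PA r0 + (b - b') • PB r0 = 0 := by
    rw [sub_smul, sub_smul]
    have h2 := sub_eq_zero.2 h
    rw [← h2]
    abel
  exact (H_T4 r0 _ _ h1).1

private theorem three_dvd_smul {n : ℤ} (h : (3 : ℤ) ∣ n) {P : Pt E0} (hP : 3 • P = 0) : n • P = 0 := by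
  obtain ⟨m, rfl⟩ := h
  rw [mul_comm, mul_smul]
  have : (3 : ℤ) • P = 0 := by
    have e : (3 : ℤ) • P = (3 : ℕ) • P := by
      rw [← natCast_zsmul]; norm_num
    rw [e, hP]
  rw [this, zsmul_zero]

private theorem three_zsmul {P : Pt E0} (hP : 3 • P = 0) (j : ℤ) : 3 • (j • P) = 0 := by
  have h := map_nsmul (zsmulAddGroupHom (α := Pt E0) j) 3 P
  rw [hP, map_zero] at h
  exact h.symm

private theorem coc_sub {h : GQ → Pt E0} (hc : Coc h) (Q : Pt E0) :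
    Coc (fun g => h g - (gal E0 g Q - Q)) := by
  intro g g'
  show h (g * g') - (gal E0 (g * g') Q - Q) = h g - (gal E0 g Q - Q) + gal E0 g (h g' - (gal E0 g' Q - Q))
  rw [hc g g', gal_mul, map_sub, map_sub]
  abel

private theorem three_sub {h : GQ → Pt E0} (h3 : ∀ g, 3 • h g = 0) (Q : Pt E0) (hQ : 3 • Q = 0) :
    ∀ g, 3 • (h g - (gal E0 g Q - Q)) = 0 := by
  intro g
  rw [nsmul_sub, nsmul_sub, h3 g, hQ, ← map_nsmul, hQ, map_zero]
  simp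

/-- the end of step 0 -/
private theorem step0 (h : GQ → Pt E0) (h3 : ∀ g, 3 • h g = 0) (θ : Qb) (h0 : θ ≠ 0)
    (hθ : ∀ g : GQ, g r0.u = r0.u → ∀ a b : ℤ, h g = a • PA r0 + b • PB r0 → g θ = r0.z ^ a * θ)
    (hβ : ∃ β ∈ MM, θ ^ 3 = β ^ 3) : ∃ j : ℤ, ∀ g : GQ, g r0.u = r0.u →
      ∃ b : ℤ, h g - (gal E0 g (j • PA r0) - j • PA r0) = b • PB r0 := by
  obtain ⟨β, hβM, hβ⟩ := hβ
  have hz := H_z r0
  have hβ0 : β ≠ 0 := by
    intro h
    rw [h] at hβ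
    apply h0
    simpa using hβ
  have hq : (θ / β) ^ 3 = 1 := by rw [div_pow, hβ]; exact div_self (pow_ne_zero _ hβ0)
  obtain ⟨j, _, hj⟩ := hz.eq_pow_of_pow_eq_one hq
  have hz0 : r0.z ≠ 0 := hz.ne_zero (by norm_num)
  have hθβ : θ = r0.z ^ j * β := by
    rw [hj]; field_simp
  refine ⟨j, ?_⟩
  intro g hgu
  have hgs : g r0.s = r0.s := by
    have h1 : r0.s = -2 - r0.u ^ 2 := by linear_combination r0.hu
    have h2 := congrArg g h1
    rw [map_sub, map_neg, map_ofNat, map_pow, hgu, ← h1] at h2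
    exact h2
  obtain ⟨ε, δ, hu, _, hA, hB, hzz⟩ := actK g hgs
  rw [hgu] at hu
  have hε := unit_one ε _ u_ne hu
  subst hε
  rw [one_mul] at hzz
  obtain ⟨a, b, hab⟩ := H_T3 r0 (h g) (h3 g)
  have h1 := hθ g hgu a b hab
  have h2 : g θ = (r0.z ^ (δ : ℤ)) ^ j * β := by
    rw [hθβ, map_mul, map_pow, hzz, H_fixM' β hβM g hgu]
  rw [h2, hθβ, ← mul_assoc] at h1
  have h4 := mul_right_cancel₀ hβ0 h1
  have h5 : r0.z ^ (a + j - (δ : ℤ) * j) = 1 := by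
    have e1 : (r0.z ^ (δ : ℤ)) ^ j = r0.z ^ ((δ : ℤ) * (j : ℤ)) := by
      rw [← zpow_natCast, ← zpow_mul]
    rw [e1, ← zpow_natCast r0.z j, ← zpow_add₀ hz0] at h4
    rw [zpow_sub₀ hz0, h4]
    exact div_self (zpow_ne_zero _ hz0)
  have h6 : ((3 : ℕ) : ℤ) ∣ a + j - (δ : ℤ) * j := (hz.zpow_eq_one_iff_dvd _).1 h5
  refine ⟨b, ?_⟩
  have h7 : (a + j - (δ : ℤ) * j) • PA r0 = 0 := three_dvd_smul (by exact_mod_cast h6) (H_T1 r0).1
  rw [hab, map_zsmul, hA]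
  rw [sub_smul, add_smul, mul_comm, mul_smul] at h7
  have e : a • PA r0 + b • PB r0 - ((j : ℤ) • (δ : ℤ) • PA r0 - (j : ℤ) • PA r0)
      = (a • PA r0 + (j : ℤ) • PA r0 - (j : ℤ) • (δ : ℤ) • PA r0) + b • PB r0 := by abel
  rw [e, h7, zero_add]

private theorem step1 (h : GQ → Pt E0) (hc : Coc h) (h3 : ∀ g, 3 • h g = 0)
    (hu : ∀ g : GQ, g r0.u = r0.u → ∃ b : ℤ, h g = b • PB r0) :
    ∀ g : GQ, g r0.s = r0.s → ∃ b : ℤ, h g = b • PB r0 := by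
  intro g hgs
  obtain ⟨σ, hσs, hσu, hσv⟩ := H_g2
  obtain ⟨k, hk⟩ : ∃ k : GQ, k = g * σ * g⁻¹ := ⟨_, rfl⟩
  have hkg : k * g = g * σ := by rw [hk]; group
  obtain ⟨ε₁, δ₁, hu₁, hv₁, _, _, _⟩ := actK g⁻¹ (inv_s g hgs)
  obtain ⟨ε, δ, _, _, _, hB, _⟩ := actK g hgs
  have hku : k r0.u = r0.u := by
    rw [hk]
    show g (σ (g⁻¹ r0.u)) = r0.u
    rw [hu₁, map_mul, hσu, map_intCast, ← hu₁]
    exact inv_app g _
  have hkv : k r0.v = -r0.v := by
    rw [hk]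
    show g (σ (g⁻¹ r0.v)) = -r0.v
    rw [hv₁, map_mul, hσv, map_intCast, mul_neg, ← hv₁, map_neg]
    rw [inv_app g _]
  have hks : k r0.s = r0.s := by
    rw [hk]
    show g (σ (g⁻¹ r0.s)) = r0.s
    rw [inv_s g hgs, hσs, hgs]
  obtain ⟨ε₂, δ₂, hu₂, hv₂, hA₂, hB₂, _⟩ := actK k hks
  rw [hku] at hu₂
  rw [hkv] at hv₂
  have e1 := unit_one ε₂ _ u_ne hu₂
  have e2 := unit_neg δ₂ _ v_ne hv₂
  subst e1
  subst e2
  obtain ⟨b₁, hb₁⟩ := hu σ hσu
  obtain ⟨b₂, hb₂⟩ := hu k hku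
  obtain ⟨a, b, hab⟩ := H_T3 r0 (h g) (h3 g)
  have h5 := hc g σ
  rw [← hkg, hc k g, hb₁, hb₂, hab, map_add, map_zsmul, map_zsmul, map_zsmul, hA₂, hB₂, hB] at h5
  have h6 : (-a) • PA r0 + (b₂ + b) • PB r0 = a • PA r0 + (b + b₁ * ε) • PB r0 := by
    have e3 : (-a) • PA r0 + (b₂ + b) • PB r0
        = b₂ • PB r0 + (a • ((-1 : ℤˣ) : ℤ) • PA r0 + b • ((1 : ℤˣ) : ℤ) • PB r0) := by
      rw [← mul_smul, ← mul_smul]
      simp only [Units.val_neg, Units.val_one, mul_neg, mul_one]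
      rw [add_smul]; abel
    have e4 : a • PA r0 + (b + b₁ * ε) • PB r0
        = a • PA r0 + b • PB r0 + b₁ • (ε : ℤ) • PB r0 := by
      rw [add_smul, mul_smul]; abel
    rw [e3, e4, h5]
  have h7 := coordA h6
  have h8 : (3 : ℤ) ∣ a := by omega
  exact ⟨b, by rw [hab, three_dvd_smul h8 (H_T1 r0).1, zero_add]⟩

private theorem step2 (h : GQ → Pt E0) (hc : Coc h) (h3 : ∀ g, 3 • h g = 0)
    (hs : ∀ g : GQ, g r0.s = r0.s → ∃ b : ℤ, h g = b • PB r0) :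
    ∃ c : ℤ, ∀ g : GQ, g r0.s = r0.s → h g = gal E0 g (c • PB r0) - c • PB r0 := by
  obtain ⟨η, hη⟩ := H_g3
  obtain ⟨ε', δ', hA', hB'⟩ := actE η hη
  obtain ⟨x, y, hxy⟩ := H_T3 r0 (h η) (h3 η)
  refine ⟨ε' * x, ?_⟩
  intro g hgs
  obtain ⟨k, hk⟩ : ∃ k : GQ, k = η * g * η⁻¹ := ⟨_, rfl⟩
  have hkη : k * η = η * g := by rw [hk]; group
  have hηi : η⁻¹ r0.s = -r0.s := by
    have h1 : η (-r0.s) = r0.s := by rw [map_neg, hη, neg_neg]
    have h2 : η⁻¹ (η (-r0.s)) = -r0.s := AlgEquiv.symm_apply_apply η _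
    rw [h1] at h2
    exact h2
  have hks : k r0.s = r0.s := by
    rw [hk]
    show η (g (η⁻¹ r0.s)) = r0.s
    rw [hηi, map_neg, hgs, map_neg, hη, neg_neg]
  obtain ⟨b, hb⟩ := hs g hgs
  obtain ⟨c, hcc⟩ := hs k hks
  obtain ⟨εg, δg, _, _, _, hBg, _⟩ := actK g hgs
  obtain ⟨εk, δk, _, _, hAk, hBk, _⟩ := actK k hks
  have h5 := hc η g
  rw [← hkη, hc k η, hb, hcc, hxy, map_add, map_zsmul, map_zsmul, map_zsmul, hAk, hBk, hB'] at h5
  have h6 : (x * δk) • PA r0 + (c + y * εk) • PB r0 = (x + b * ε') • PA r0 + y • PB r0 := by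
    rw [add_smul, add_smul, mul_smul, mul_smul, mul_smul]
    have e3 : x • (δk : ℤ) • PA r0 + (c • PB r0 + y • (εk : ℤ) • PB r0)
        = c • PB r0 + (x • (δk : ℤ) • PA r0 + y • (εk : ℤ) • PB r0) := by abel
    rw [e3, h5]
    abel
  have h7 := coordA h6
  -- the sign of `k` on `PA` is the sign of `g` on `PB`
  have h8 : gal E0 (k * η) (PB r0) = gal E0 (η * g) (PB r0) := by rw [hkη]
  rw [gal_mul, gal_mul, hB', hBg, map_zsmul, map_zsmul, hAk, hB'] at h8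
  have h9 : ((ε' : ℤ) * δk) • PA r0 + (0 : ℤ) • PB r0 = ((εg : ℤ) * ε') • PA r0 + (0 : ℤ) • PB r0 := by
    rw [mul_smul, mul_smul, h8]
  have h10 := coordA h9
  have h11 : b • PB r0 = (((εg : ℤ) - 1) * (ε' * x)) • PB r0 := by
    have h12 : (3 : ℤ) ∣ b - ((εg : ℤ) - 1) * (ε' * x) := by
      rcases Int.units_eq_one_or ε' with rfl | rfl <;> rcases Int.units_eq_one_or εg with rfl | rfl <;>
        rcases Int.units_eq_one_or δk with rfl | rfl <;>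
        simp only [Units.val_neg, Units.val_one, mul_neg, mul_one, one_mul, neg_mul, neg_neg] at h7 h10 ⊢ <;> omega
    have h13 := three_dvd_smul h12 (H_T1 r0).2
    rw [sub_smul, sub_eq_zero] at h13
    exact h13
  rw [hb, map_zsmul, hBg, h11, sub_mul, sub_smul, one_mul, mul_comm (εg : ℤ), mul_smul]

private theorem step3 (h : GQ → Pt E0) (hc : Coc h) (h3 : ∀ g, 3 • h g = 0)
    (hs : ∀ g : GQ, g r0.s = r0.s → h g = 0) : ∀ g : GQ, h g = 0 := by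
  intro g
  obtain ⟨g1, h1s, h1u, h1v⟩ := H_g1
  obtain ⟨g2, h2s, h2u, h2v⟩ := H_g2
  obtain ⟨σ, hσ⟩ : ∃ σ : GQ, σ = g1 * g2 := ⟨_, rfl⟩
  have hσs : σ r0.s = r0.s := by
    rw [hσ]
    show g1 (g2 r0.s) = r0.s
    rw [h2s, h1s]
  have hσu : σ r0.u = -r0.u := by
    rw [hσ]
    show g1 (g2 r0.u) = -r0.u
    rw [h2u, h1u]
  have hσv : σ r0.v = -r0.v := by
    rw [hσ]
    show g1 (g2 r0.v) = -r0.v
    rw [h2v, map_neg, h1v]
  obtain ⟨ε, δ, hu, hv, hA, hB, _⟩ := actK σ hσs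
  rw [hσu] at hu
  rw [hσv] at hv
  have e1 := unit_neg ε _ u_ne hu
  have e2 := unit_neg δ _ v_ne hv
  subst e1
  subst e2
  have hneg : ∀ P : Pt E0, 3 • P = 0 → gal E0 σ P = -P := by
    intro P hP
    obtain ⟨a, b, rfl⟩ := H_T3 r0 P hP
    rw [map_add, map_zsmul, map_zsmul, hA, hB]
    simp only [Units.val_neg, Units.val_one, neg_smul, one_smul, zsmul_neg, neg_add]
  obtain ⟨k, hk⟩ : ∃ k : GQ, k = g * σ * g⁻¹ := ⟨_, rfl⟩
  have hkg : k * g = g * σ := by rw [hk]; group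
  have hks : k r0.s = r0.s := by
    rw [hk]
    show g (σ (g⁻¹ r0.s)) = r0.s
    have : σ (g⁻¹ r0.s) = g⁻¹ r0.s := by
      rcases H_act g⁻¹ with ⟨h1, _⟩ | ⟨h1, _⟩
      · rw [h1, hσs]
      · rw [h1, map_neg, hσs]
    rw [this]
    exact inv_app g _
  have hkneg : gal E0 k (h g) = - h g := by
    rw [hk, gal_mul, gal_mul, hneg _ (by rw [← map_nsmul, h3 g, map_zero]), map_neg, ← gal_mul]
    have : g * g⁻¹ = 1 := mul_inv_cancel g
    rw [this, gal_one]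
  have h5 := hc g σ
  rw [← hkg, hc k g, hs σ hσs, hs k hks, hkneg, map_zero, zero_add, add_zero] at h5
  have h6 := h3 g
  have h7 : 3 • h g = h g + (h g + h g) := by
    rw [show (3 : ℕ) = 1 + (1 + 1) by norm_num, add_smul, add_smul, one_smul]
  rw [h7] at h6
  have h8 : h g + h g = 0 := by
    nth_rewrite 1 [← h5]
    exact neg_add_cancel _
  rw [h8, add_zero] at h6
  exact h6

/-- end of the descent: if `θ` may be taken in `M` (up to a cube root of unity) then `h` is a coboundary -/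
theorem H_cob (h : GQ → Pt E0) (hc : Coc h) (h3 : ∀ g, 3 • h g = 0) (θ : Qb) (h0 : θ ≠ 0)
    (hθ : ∀ g : GQ, g r0.u = r0.u → ∀ a b : ℤ, h g = a • PA r0 + b • PB r0 → g θ = r0.z ^ a * θ)
    (hβ : ∃ β ∈ MM, θ ^ 3 = β ^ 3) : ∃ P : Pt E0, 3 • P = 0 ∧ ∀ g, h g = gal E0 g P - P := by
  obtain ⟨j, hj⟩ := step0 h h3 θ h0 hθ hβ
  have hjA : 3 • (j • PA r0) = 0 := three_zsmul (H_T1 r0).1 j
  have c1 := coc_sub hc (j • PA r0)
  have t1 := three_sub h3 (j • PA r0) hjA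
  have s1 := step1 _ c1 t1 hj
  obtain ⟨c, s2⟩ := step2 _ c1 t1 s1
  have hcB : 3 • (c • PB r0) = 0 := three_zsmul (H_T1 r0).2 c
  have c2 := coc_sub c1 (c • PB r0)
  have t2 := three_sub t1 (c • PB r0) hcB
  have s3 := step3 _ c2 t2 (by
    intro g hg
    show h g - (gal E0 g (j • PA r0) - j • PA r0) - (gal E0 g (c • PB r0) - c • PB r0) = 0
    rw [sub_eq_zero]
    exact s2 g hg)
  refine ⟨j • PA r0 + c • PB r0, ?_, ?_⟩
  · rw [nsmul_add, hjA, hcB, add_zero]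
  · intro g
    have h5 := s3 g
    have h6 : h g - (gal E0 g (j • PA r0) - j • PA r0) - (gal E0 g (c • PB r0) - c • PB r0) = 0 := h5
    rw [map_add]
    have h7 : h g = (gal E0 g (j • PA r0) - j • PA r0) + (gal E0 g (c • PB r0) - c • PB r0) := by
      rw [← sub_eq_zero, ← h6]; abel
    rw [h7]; abel

end KE16
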