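import Pool.Agent.LibKE16.H18
import Pool.Agent.LibKE16.H19
import Pool.Agent.LibKE16.H10

/-!
# [KE16 H20] MEDIUM

Plan. H_W gives f', h' for s with 3 h' = 0; f' and f differ by ∂P, P Tor (H_cl0 of f' - f), so h' g = h g + (gal g P - P) (H_uniq with S = ⊤)
and h' g0 = 0 because g0 acts trivially on E[3^∞] (L_tor). f' σ = h' σ, so 3 f' = 0. H_theta (Cont from IsHat), H_cube, H_cob: h' = ∂Q,
so f' = ∂Q on NN and s = cl f' = 0 (H_cl0').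
-/

open WeierstrassCurve

namespace KE16

/-- injectivity of `W → E[3]`, `s ↦ h_s(g0)` -/
theorem H_inj (s : Sel E0 3 193) (hs : InW s) (f : SelZ E0 3 193) (hf : cl E0 3 193 f = s)
    (h : GQ → Pt E0) (hh : IsHat f.1.1 ⊤ h)
    (ι0 : Qb →ₐ[ℚ] Cq 193) (τ0 : GLq 193) (hτ0 : IsIner τ0)
    (hmove : ∀ c : Cq 193, c ^ 3 = ((193 : ℕ) : Cq 193) → τ0 c ≠ c) (g0 : GQ) (hg0 : Restr ι0 τ0 g0)
    (hv : h g0 = 0) : s = 0 := by
  obtain ⟨f', hf', h', hh', h3'⟩ := H_W s hs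
  -- `f' - f` is a coboundary
  have hd : cl E0 3 193 (f' - f) = 0 := by rw [map_sub, hf', hf, sub_self]
  obtain ⟨P, hP, hPf⟩ := H_cl0 (f' - f) hd
  have hff : ∀ σ : NN, f'.1.1 σ = f.1.1 σ + (gal E0 σ P - P) := by
    intro σ
    rw [← hPf σ]
    show f'.1.1 σ = f.1.1 σ + (f'.1.1 σ - f.1.1 σ)
    abel
  have hu := H_uniq f.1.1 f'.1.1 ⊤ h h' hh hh' P hP hff
  have hv' : h' g0 = 0 := by
    rw [hu g0 (Subgroup.mem_top _), hv,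
      L_tor (by norm_num) (by norm_num) ι0 τ0 hτ0 g0 hg0 P hP, sub_self, add_zero]
  have hf3 : ∀ σ, 3 • f'.1.1 σ = 0 := by
    intro σ
    rw [← hh'.2.2.2.1 σ]
    exact h3' _
  have hc : Coc h' := fun g g' => hh'.2.2.1 g (Subgroup.mem_top _) g' (Subgroup.mem_top _)
  have hcont : Cont h' := by
    obtain ⟨L, hL, hL'⟩ := hh'.2.2.2.2
    exact ⟨L, hL, fun g hg => hL' g (Subgroup.mem_top _) hg⟩
  obtain ⟨θ, h0, hθ⟩ := H_theta h' hc hcont h3'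
  have hβ := H_cube f' hf3 h' hh' h3' θ h0 hθ ι0 τ0 hτ0 hmove g0 hg0 hv'
  obtain ⟨Q, hQ3, hQ⟩ := H_cob h' hc h3' θ h0 hθ hβ
  rw [← hf']
  refine H_cl0' f' Q ⟨1, by rw [pow_one]; exact hQ3⟩ ?_
  intro σ
  rw [← hh'.2.2.2.1 σ]
  exact hQ _

end KE16
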