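import Pool.Agent.LibKE16.H03
import Pool.Agent.LibKE16.H02

/-!
# [KE16 H21] STRONG

Plan. The four roots are u, -u, v, -v (H_rt), distinct. C(w) := D(w) D(-w) (so C(-w) = C(w), and g C(w) = C(g w)). Choose θ(u), θ(v) cube roots of
Z(u), Z(v), Z(w) = D(w)² D(-w), and θ(-u) := C(u)/θ(u), θ(-v) := C(v)/θ(v): then θ(w)³ = Z(w) and θ(w) θ(-w) = C(w) for all four w.
For g ∈ GQ and a root w: κ_g(w) := g(θ(g⁻¹ w))/θ(w) is a cube root of 1; κ_g(-w) = κ_g(w)⁻¹ and κ_{gg'}(w) = g(κ_{g'}(g⁻¹ w)) κ_g(w).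
Write κ_g(u) = z^{a}, κ_g(v) = z^{-b} (z = r0.z, a, b ∈ {0,1,2}) and h g := a PA + b PB. Cocycle relation by H_act:
(1) g s = s, g u = εu, g v = δv: g⁻¹u = εu, so κ_{gg'}(u) = g(z^{εa'}) z^a = z^{εδεa' + a} = z^{a + δa'}, and gal g PA = δ PA; same for v:
g(z^{-δb'}) = z^{-εb'}, gal g PB = ε PB. (2) g s = -s, g u = εv, g v = δu: g⁻¹u = δv, g⁻¹v = εu, g z = z^{-εδ}: κ_{gg'}(u) = g(z^{-δb'}) z^a
= z^{a + εb'} (gal g PB = ε PA), κ_{gg'}(v) = g(z^{εa'}) z^{-b} = z^{-b-δa'} (gal g PA = δ PB). Continuity: L = ℚ(u, v, θ(u), θ(v)).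
Last clause: for g fixing u, v: κ_g(u) = g θ(u)/θ(u); a, b are unique mod 3 (H_T4).
-/

open WeierstrassCurve

namespace KE16

private theorem rt_u : Rt r0.u := (H_rt r0 _).mpr (Or.inl rfl)

private theorem rt_v : Rt r0.v := (H_rt r0 _).mpr (Or.inr (Or.inr (Or.inl rfl)))

private theorem rt_neg {w : Qb} (h : Rt w) : Rt (-w) := by
  unfold Rt at h ⊢
  linear_combination h

private theorem rt_gal (g : GQ) {w : Qb} (h : Rt w) : Rt (g w) := by
  unfold Rt at h ⊢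
  have := congrArg g h
  simpa only [_root_.map_add, _root_.map_mul, _root_.map_pow, _root_.map_ofNat, _root_.map_zero] using this

private theorem rt_ne {w : Qb} (h : Rt w) : w ≠ 0 := by
  rintro rfl
  unfold Rt at h
  norm_num at h

private theorem s_ne : r0.s ≠ 0 := by
  intro h
  have := r0.hs
  rw [h] at this
  norm_num at this

private theorem ne_neg {w : Qb} (h : Rt w) : -w ≠ w := by
  intro e
  apply rt_ne h
  have : 2 * w = 0 := by linear_combination -e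
  simpa using this

private theorem sq_ne : r0.u ^ 2 ≠ r0.v ^ 2 := by
  rw [r0.hu, r0.hv]
  intro h
  apply s_ne
  have : 2 * r0.s = 0 := by linear_combination -h
  simpa using this

private theorem ev_gal (D : Fin 4 → ℤ) (g : GQ) (w : Qb) : g (ev D w) = ev D (g w) := by
  simp only [ev, _root_.map_add, _root_.map_mul, _root_.map_pow, _root_.map_intCast]

private theorem exTheta (D : Fin 4 → ℤ) (hD : ∀ w : Qb, Rt w → ev D w ≠ 0) :
    ∃ θ : Qb → Qb, ∀ w, Rt w → θ w ^ 3 = ev D w ^ 2 * ev D (-w) ∧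
      θ w * θ (-w) = ev D w * ev D (-w) := by
  classical
  have hc : ∀ x : Qb, ∃ y : Qb, y ^ 3 = x := fun x ↦
    IsAlgClosed.exists_pow_nat_eq x (n := 3) (by norm_num)
  choose c hc using hc
  have hZ : ∀ w : Qb, Rt w → ev D w ^ 2 * ev D (-w) ≠ 0 := fun w hw ↦
    mul_ne_zero (pow_ne_zero 2 (hD w hw)) (hD _ (rt_neg hw))
  have hc0 : ∀ w : Qb, Rt w → c (ev D w ^ 2 * ev D (-w)) ≠ 0 := by
    intro w hw h0
    apply hZ w hw
    rw [← hc (ev D w ^ 2 * ev D (-w)), h0]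
    norm_num
  refine ⟨fun w ↦ if w = r0.u ∨ w = r0.v then c (ev D w ^ 2 * ev D (-w)) else
    ev D w * ev D (-w) / c (ev D (-w) ^ 2 * ev D w), ?_⟩
  have key : ∀ w : Qb, w = r0.u ∨ w = r0.v → ¬ (-w = r0.u ∨ -w = r0.v) := by
    rintro w (rfl | rfl)
    · rintro (h | h)
      · exact ne_neg rt_u h
      · apply sq_ne
        rw [← h]; ring
    · rintro (h | h)
      · apply sq_ne
        rw [← h]; ring
      · exact ne_neg rt_v h
  intro w hw
  by_cases h : w = r0.u ∨ w = r0.v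
  · have h' := key w h
    have e1 : -(-w) = w := neg_neg w
    simp only [h, h', if_true, if_false, e1]
    refine ⟨hc _, ?_⟩
    have := hc0 w hw
    field_simp
  · have h' : -w = r0.u ∨ -w = r0.v := by
      rcases (H_rt r0 w).mp hw with h1 | h1 | h1 | h1
      · exact absurd (Or.inl h1) h
      · left; rw [h1]; ring
      · exact absurd (Or.inr h1) h
      · right; rw [h1]; ring
    have e1 : -(-w) = w := neg_neg w
    simp only [h, h', if_true, if_false, e1]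
    have h0 := hc0 (-w) (rt_neg hw)
    rw [e1] at h0
    constructor
    · rw [div_pow, hc]
      have h1 := hD w hw
      have h2 := hD _ (rt_neg hw)
      field_simp
    · exact div_mul_cancel₀ _ h0

private theorem z_eq {m n : ℤ} (h : r0.z ^ m = r0.z ^ n) : (3 : ℤ) ∣ m - n := by
  have hz := H_z r0
  have h0 : r0.z ≠ 0 := hz.ne_zero (by norm_num)
  have h1 : r0.z ^ (m - n) = 1 := by
    rw [zpow_sub₀ h0, h, div_self (zpow_ne_zero _ h0)]
  exact_mod_cast (hz.zpow_eq_one_iff_dvd _).mp h1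

private theorem eq_z {m n : ℤ} (h : (3 : ℤ) ∣ m - n) : r0.z ^ m = r0.z ^ n := by
  have hz := H_z r0
  have h0 : r0.z ≠ 0 := hz.ne_zero (by norm_num)
  have h1 : r0.z ^ (m - n) = 1 := (hz.zpow_eq_one_iff_dvd _).mpr (by exact_mod_cast h)
  rw [zpow_sub₀ h0, div_eq_one_iff_eq (zpow_ne_zero _ h0)] at h1
  exact h1

private theorem smul_eq' {P : Pt E0} (hP : 3 • P = 0) {m n : ℤ} (h : (3 : ℤ) ∣ m - n) :
    m • P = n • P := by
  obtain ⟨k, hk⟩ := h
  have h1 : m = n + k * 3 := by linarith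
  rw [h1, add_zsmul, mul_zsmul]
  have h2 : (3 : ℤ) • P = 0 := by exact_mod_cast hP
  rw [h2, zsmul_zero, add_zero]

private theorem dvd_negs {m n : ℤ} (h : (3 : ℤ) ∣ -m - -n) : (3 : ℤ) ∣ m - n := by
  omega

private theorem cube_z {x : Qb} (hx : x ^ 3 = 1) : ∃ n : ℤ, x = r0.z ^ n := by
  obtain ⟨i, -, hi⟩ := (H_z r0).eq_pow_of_pow_eq_one hx
  exact ⟨i, by rw [zpow_natCast, hi]⟩

/-- the cocycle attached to `z = D(u)² D(-u)` (note `z(w) z(-w) = (D(w) D(-w))³`) -/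
theorem H_con (D : Fin 4 → ℤ) (hD : ∀ w : Qb, Rt w → ev D w ≠ 0) :
    ∃ (h : GQ → Pt E0) (θ : Qb → Qb), Coc h ∧ Cont h ∧ (∀ g, 3 • h g = 0) ∧
      (∀ w, Rt w → θ w ^ 3 = ev D w ^ 2 * ev D (-w)) ∧
      ∀ g : GQ, g r0.u = r0.u → g r0.v = r0.v → ∀ a b : ℤ, h g = a • PA r0 + b • PB r0 →
        g (θ r0.u) = r0.z ^ a * θ r0.u ∧ g (θ r0.v) = r0.z ^ (-b) * θ r0.v := by
  obtain ⟨θ, hθ⟩ := exTheta D hD
  have hθ0 : ∀ w, Rt w → θ w ≠ 0 := by
    intro w hw h0
    have h1 := (hθ w hw).1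
    rw [h0] at h1
    exact mul_ne_zero (pow_ne_zero 2 (hD w hw)) (hD _ (rt_neg hw)) (by rw [← h1]; norm_num)
  obtain ⟨κ, hκ⟩ : ∃ κ : GQ → Qb → Qb, ∀ g w, κ g w = g (θ (g⁻¹ w)) / θ w :=
    ⟨fun g w ↦ g (θ (g⁻¹ w)) / θ w, fun g w ↦ rfl⟩
  have hgi : ∀ (g : GQ) (w : Qb), g (g⁻¹ w) = w := fun g w ↦ AlgEquiv.apply_symm_apply g w
  have hrt' : ∀ (g : GQ) (w : Qb), Rt w → Rt (g⁻¹ w) := fun g w hw ↦ rt_gal g⁻¹ hw
  -- cubes
  have hκ3 : ∀ g w, Rt w → κ g w ^ 3 = 1 := by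
    intro g w hw
    rw [hκ, div_pow, ← _root_.map_pow, (hθ _ (hrt' g w hw)).1, (hθ w hw).1, _root_.map_mul,
      _root_.map_pow, ev_gal, ev_gal, _root_.map_neg, hgi]
    exact div_self (mul_ne_zero (pow_ne_zero 2 (hD w hw)) (hD _ (rt_neg hw)))
  have hκ0 : ∀ g w, Rt w → κ g w ≠ 0 := by
    intro g w hw h0
    have := hκ3 g w hw
    rw [h0] at this
    norm_num at this
  have hκn : ∀ g w, Rt w → κ g (-w) = (κ g w)⁻¹ := by
    intro g w hw
    apply eq_inv_of_mul_eq_one_left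
    rw [hκ, hκ, _root_.map_neg, div_mul_div_comm, ← _root_.map_mul,
      mul_comm (θ (-g⁻¹ w)), mul_comm (θ (-w)), (hθ _ (hrt' g w hw)).2, (hθ w hw).2, _root_.map_mul,
      ev_gal, ev_gal, _root_.map_neg, hgi]
    exact div_self (mul_ne_zero (hD w hw) (hD _ (rt_neg hw)))
  have hκu : ∀ g w (ε : ℤˣ), Rt w → κ g (((ε : ℤ) : Qb) * w) = κ g w ^ (ε : ℤ) := by
    intro g w ε hw
    rcases Int.units_eq_one_or ε with rfl | rfl
    · simp
    · have e1 : (((-1 : ℤˣ) : ℤ) : Qb) * w = -w := by simp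
      rw [e1, hκn g w hw]
      simp
  have hκm : ∀ g g' w, Rt w → κ (g * g') w = g (κ g' (g⁻¹ w)) * κ g w := by
    intro g g' w hw
    have e1 : (g * g')⁻¹ w = g'⁻¹ (g⁻¹ w) := by
      rw [mul_inv_rev]; rfl
    rw [hκ, hκ, hκ, e1, AlgEquiv.mul_apply, map_div₀]
    have h1 : g (θ (g⁻¹ w)) ≠ 0 := by
      intro h0
      apply hθ0 _ (hrt' g w hw)
      exact (map_eq_zero g).mp h0
    have h2 := hθ0 w hw
    field_simp
  -- exponents
  have hexa : ∀ g : GQ, ∃ a : ℤ, κ g r0.u = r0.z ^ a := fun g ↦ cube_z (hκ3 g _ rt_u)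
  have hexb : ∀ g : GQ, ∃ b : ℤ, κ g r0.v = r0.z ^ (-b) := by
    intro g
    obtain ⟨n, hn⟩ := cube_z (hκ3 g _ rt_v)
    exact ⟨-n, by rw [neg_neg, hn]⟩
  choose a ha using hexa
  choose b hb using hexb
  have hT := H_T1 r0
  have hz0 : r0.z ≠ 0 := (H_z r0).ne_zero (by norm_num)
  have hsq : ∀ ε : ℤˣ, (ε : ℤ) * (ε : ℤ) = 1 := by
    intro ε
    rcases Int.units_eq_one_or ε with rfl | rfl <;> norm_num
  have hsqF : ∀ ε : ℤˣ, ((ε : ℤ) : Qb) * ((ε : ℤ) : Qb) = 1 := by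
    intro ε
    exact_mod_cast congrArg (Int.cast : ℤ → Qb) (hsq ε)
  have hinv : ∀ (g : GQ) (x y : Qb) (ε : ℤˣ), g x = ((ε : ℤ) : Qb) * y →
      g⁻¹ y = ((ε : ℤ) : Qb) * x := by
    intro g x y ε h
    apply (AlgEquiv.injective g)
    rw [hgi, _root_.map_mul, _root_.map_intCast, h, ← mul_assoc, hsqF, one_mul]
  refine ⟨fun g ↦ a g • PA r0 + b g • PB r0, θ, ?_, ?_, ?_, fun w hw ↦ (hθ w hw).1, ?_⟩
  · -- cocycle
    intro g g'
    show a (g * g') • PA r0 + b (g * g') • PB r0 = a g • PA r0 + b g • PB r0 +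
      gal E0 g (a g' • PA r0 + b g' • PB r0)
    rw [map_add, map_zsmul, map_zsmul]
    rcases H_act g with ⟨-, ε, δ, hu, hv, hA, hB, hz⟩ | ⟨-, ε, δ, hu, hv, hA, hB, hz⟩
    · rw [hA, hB]
      have e1 : κ (g * g') r0.u = r0.z ^ (a g + (δ : ℤ) * a g') := by
        rw [hκm g g' _ rt_u, hinv g _ _ ε hu, hκu g' _ ε rt_u, ha, ha, ← zpow_mul, map_zpow₀, hz,
          ← zpow_mul, ← zpow_add₀ hz0]
        congr 1
        rw [Units.val_mul]
        linear_combination (δ : ℤ) * a g' * hsq ε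
      have e2 : κ (g * g') r0.v = r0.z ^ (-(b g + (ε : ℤ) * b g')) := by
        rw [hκm g g' _ rt_v, hinv g _ _ δ hv, hκu g' _ δ rt_v, hb, hb, ← zpow_mul, map_zpow₀, hz,
          ← zpow_mul, ← zpow_add₀ hz0]
        congr 1
        rw [Units.val_mul]
        linear_combination -(ε : ℤ) * b g' * hsq δ
      rw [ha] at e1
      rw [hb] at e2
      have f1 := smul_eq' hT.1 (z_eq e1)
      have f2 := z_eq e2
      have f3 := dvd_negs f2
      rw [f1, smul_eq' hT.2 f3]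
      module
    · rw [hA, hB]
      have e1 : κ (g * g') r0.u = r0.z ^ (a g + (ε : ℤ) * b g') := by
        rw [hκm g g' _ rt_u, hinv g _ _ δ hv, hκu g' _ δ rt_v, ha, hb, ← zpow_mul, map_zpow₀, hz,
          ← zpow_mul, ← zpow_add₀ hz0]
        congr 1
        rw [Units.val_mul]
        linear_combination (ε : ℤ) * b g' * hsq δ
      have e2 : κ (g * g') r0.v = r0.z ^ (-(b g + (δ : ℤ) * a g')) := by
        rw [hκm g g' _ rt_v, hinv g _ _ ε hu, hκu g' _ ε rt_u, hb, ha, ← zpow_mul, map_zpow₀, hz,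
          ← zpow_mul, ← zpow_add₀ hz0]
        congr 1
        rw [Units.val_mul]
        linear_combination -(δ : ℤ) * a g' * hsq ε
      rw [ha] at e1
      rw [hb] at e2
      have f1 := smul_eq' hT.1 (z_eq e1)
      have f2 := z_eq e2
      have f3 := dvd_negs f2
      rw [f1, smul_eq' hT.2 f3]
      module
  · -- continuity
    have hfin : ∀ x : Qb, FiniteDimensional ℚ (IntermediateField.adjoin ℚ {x}) := fun x ↦
      IntermediateField.adjoin.finiteDimensional ((AlgebraicClosure.isAlgebraic ℚ).isAlgebraic x).isIntegral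
    have := hfin r0.u
    have := hfin r0.v
    have := hfin (θ r0.u)
    have := hfin (θ r0.v)
    refine ⟨(IntermediateField.adjoin ℚ {r0.u} ⊔ IntermediateField.adjoin ℚ {r0.v}) ⊔
      (IntermediateField.adjoin ℚ {θ r0.u} ⊔ IntermediateField.adjoin ℚ {θ r0.v}),
      inferInstance, ?_⟩
    intro g hg
    have hm : ∀ x : Qb, x ∈ IntermediateField.adjoin ℚ {x} := fun x ↦
      IntermediateField.mem_adjoin_simple_self ℚ x
    have hu : g r0.u = r0.u := hg _ (le_sup_left (a := IntermediateField.adjoin ℚ {r0.u} ⊔ IntermediateField.adjoin ℚ {r0.v}) ((le_sup_left : IntermediateField.adjoin ℚ {r0.u} ≤ _) (hm _)))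
    have hv : g r0.v = r0.v := hg _ (le_sup_left (a := IntermediateField.adjoin ℚ {r0.u} ⊔ IntermediateField.adjoin ℚ {r0.v}) ((le_sup_right : IntermediateField.adjoin ℚ {r0.v} ≤ _) (hm _)))
    have hu' : g (θ r0.u) = θ r0.u := hg _ (le_sup_right (b := IntermediateField.adjoin ℚ {θ r0.u} ⊔ IntermediateField.adjoin ℚ {θ r0.v}) ((le_sup_left : IntermediateField.adjoin ℚ {θ r0.u} ≤ _) (hm _)))
    have hv' : g (θ r0.v) = θ r0.v := hg _ (le_sup_right (b := IntermediateField.adjoin ℚ {θ r0.u} ⊔ IntermediateField.adjoin ℚ {θ r0.v}) ((le_sup_right : IntermediateField.adjoin ℚ {θ r0.v} ≤ _) (hm _)))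
    have hui : g⁻¹ r0.u = r0.u := by
      apply (AlgEquiv.injective g); rw [hgi, hu]
    have hvi : g⁻¹ r0.v = r0.v := by
      apply (AlgEquiv.injective g); rw [hgi, hv]
    have e1 : κ g r0.u = 1 := by rw [hκ, hui, hu', div_self (hθ0 _ rt_u)]
    have e2 : κ g r0.v = 1 := by rw [hκ, hvi, hv', div_self (hθ0 _ rt_v)]
    rw [ha, ← zpow_zero r0.z] at e1
    rw [hb, ← zpow_zero r0.z] at e2
    have f1 := smul_eq' hT.1 (z_eq e1)
    have f2 : (3 : ℤ) ∣ b g - 0 := dvd_negs (by rw [neg_zero]; exact z_eq e2)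
    show a g • PA r0 + b g • PB r0 = 0
    rw [f1, smul_eq' hT.2 f2]
    simp
  · intro g
    show 3 • (a g • PA r0 + b g • PB r0) = 0
    rw [smul_add, smul_comm, hT.1, smul_comm, hT.2]
    simp
  · intro g hu hv a' b' h
    have h1 : (a' - a g) • PA r0 + (b' - b g) • PB r0 = 0 := by
      have h2 : a g • PA r0 + b g • PB r0 = a' • PA r0 + b' • PB r0 := h
      rw [sub_smul, sub_smul]
      have h3 : a' • PA r0 - a g • PA r0 + (b' • PB r0 - b g • PB r0) =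
        (a' • PA r0 + b' • PB r0) - (a g • PA r0 + b g • PB r0) := by abel
      rw [h3, h2, sub_self]
    obtain ⟨k1, k2⟩ := H_T4 r0 _ _ h1
    have hui : g⁻¹ r0.u = r0.u := by
      apply (AlgEquiv.injective g); rw [hgi, hu]
    have hvi : g⁻¹ r0.v = r0.v := by
      apply (AlgEquiv.injective g); rw [hgi, hv]
    have e1 := ha g
    have e2 := hb g
    rw [hκ, hui, div_eq_iff (hθ0 _ rt_u)] at e1
    rw [hκ, hvi, div_eq_iff (hθ0 _ rt_v)] at e2
    constructor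
    · rw [e1, eq_z k1]
    · rw [e2]
      congr 1
      exact eq_z (dvd_negs (by rw [neg_neg, neg_neg, ← dvd_neg, neg_sub]; exact k2))

end KE16
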