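import Pool.Agent.LibKE16.H03
import Pool.Agent.LibKE16.H02

/-!
# [KE16 H22] MEDIUM

Plan. Let H = {g ∈ D : g u = u, g v = v}, normal in D (it is the kernel of the action of D on E[3], equivalently on the frames). D/H is finite (at most 8
frames, H_fr) and every g ∈ D has g⁴ (even: g^4 fixes u and v) in H, so |D/H| = n is a power of 2 (no element of order 3), 3 ∤ n.
h is constant on left cosets gH: h(gσ) = h g + g 0. T := Σ over D/H of h (finite sum, well defined). For g ∈ D: gal g T = Σ (h(g x) - h g) =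
T - n h g. So n h g = T - gal g T; with m n ≡ -1 mod 3 put Q := m T … : h g = gal g Q - Q where Q = -n⁻¹ T (n⁻¹ an integer inverse mod 3),
3T = 0. (An explicit alternative: first average over a transversal with H_act case analysis.)
-/

open WeierstrassCurve

namespace KE16

private theorem H22_pm (g : GQ) : (g r0.u = r0.u ∨ g r0.u = -r0.u ∨ g r0.u = r0.v ∨ g r0.u = -r0.v) ∧
    (g r0.v = r0.u ∨ g r0.v = -r0.u ∨ g r0.v = r0.v ∨ g r0.v = -r0.v) := by
  rcases H_act g with ⟨-, ε, δ, hu, hv, -⟩ | ⟨-, ε, δ, hu, hv, -⟩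
  · rcases Int.units_eq_one_or ε with rfl | rfl <;> rcases Int.units_eq_one_or δ with rfl | rfl <;>
      simp at hu hv <;> simp [hu, hv]
  · rcases Int.units_eq_one_or ε with rfl | rfl <;> rcases Int.units_eq_one_or δ with rfl | rfl <;>
      simp at hu hv <;> simp [hu, hv]

private theorem H22_four (g : GQ) : (g ^ 4) r0.u = r0.u ∧ (g ^ 4) r0.v = r0.v := by
  have h4 : ∀ x, (g ^ 4) x = g (g (g (g x))) := by
    intro x
    rfl
  rw [h4, h4]
  rcases H_act g with ⟨-, ε, δ, hu, hv, -⟩ | ⟨-, ε, δ, hu, hv, -⟩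
  · rcases Int.units_eq_one_or ε with rfl | rfl <;> rcases Int.units_eq_one_or δ with rfl | rfl <;>
      simp at hu hv <;> simp [hu, hv]
  · rcases Int.units_eq_one_or ε with rfl | rfl <;> rcases Int.units_eq_one_or δ with rfl | rfl <;>
      simp at hu hv <;> simp [hu, hv]

/-- the elements which fix `u` and `v` -/
private def H22_N : Subgroup GQ where
  carrier := {g | g r0.u = r0.u ∧ g r0.v = r0.v}
  mul_mem' := by
    rintro a b ⟨h1, h2⟩ ⟨h3, h4⟩
    exact ⟨by rw [AlgEquiv.mul_apply, h3, h1], by rw [AlgEquiv.mul_apply, h4, h2]⟩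
  one_mem' := ⟨rfl, rfl⟩
  inv_mem' := by
    rintro a ⟨h1, h2⟩
    constructor
    · calc a⁻¹ r0.u = a⁻¹ (a r0.u) := by rw [h1]
        _ = r0.u := AlgEquiv.symm_apply_apply a _
    · calc a⁻¹ r0.v = a⁻¹ (a r0.v) := by rw [h2]
        _ = r0.v := AlgEquiv.symm_apply_apply a _

private theorem H22_conj (n g : GQ) (hn : n ∈ H22_N) : g * n * g⁻¹ ∈ H22_N := by
  obtain ⟨h1, h2⟩ := hn
  obtain ⟨h3, h4⟩ := H22_pm g⁻¹
  have key : ∀ x : Qb, (g⁻¹ x = r0.u ∨ g⁻¹ x = -r0.u ∨ g⁻¹ x = r0.v ∨ g⁻¹ x = -r0.v) →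
      (g * n * g⁻¹) x = x := by
    intro x hx
    have h5 : n (g⁻¹ x) = g⁻¹ x := by
      rcases hx with hx | hx | hx | hx <;> rw [hx]
      · exact h1
      · rw [map_neg, h1]
      · exact h2
      · rw [map_neg, h2]
    change g (n (g⁻¹ x)) = x
    rw [h5]
    exact AlgEquiv.apply_symm_apply g x
  exact ⟨key _ h3, key _ h4⟩

private theorem H22_fin (D : Subgroup GQ) : Finite (D ⧸ (H22_N.subgroupOf D)) := by
  classical
  let A : Finset Qb := {r0.u, -r0.u, r0.v, -r0.v}
  have hA : ∀ x : Qb, (x = r0.u ∨ x = -r0.u ∨ x = r0.v ∨ x = -r0.v) → x ∈ A := by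
    intro x hx
    simp only [A, Finset.mem_insert, Finset.mem_singleton]
    exact hx
  let f : D → A × A := fun g => (⟨(g : GQ) r0.u, hA _ (H22_pm g).1⟩, ⟨(g : GQ) r0.v, hA _ (H22_pm g).2⟩)
  have hf : ∀ g g' : D, f g = f g' ↔ g⁻¹ * g' ∈ H22_N.subgroupOf D := by
    intro g g'
    rw [Subgroup.mem_subgroupOf]
    constructor
    · intro h
      have h1 : (g : GQ) r0.u = (g' : GQ) r0.u := congrArg (fun p : A × A => (p.1 : Qb)) h
      have h2 : (g : GQ) r0.v = (g' : GQ) r0.v := congrArg (fun p : A × A => (p.2 : Qb)) h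
      constructor
      · change (g : GQ)⁻¹ ((g' : GQ) r0.u) = r0.u
        rw [← h1]
        exact AlgEquiv.symm_apply_apply (g : GQ) _
      · change (g : GQ)⁻¹ ((g' : GQ) r0.v) = r0.v
        rw [← h2]
        exact AlgEquiv.symm_apply_apply (g : GQ) _
    · rintro ⟨h1, h2⟩
      have h1' : (g : GQ)⁻¹ ((g' : GQ) r0.u) = r0.u := h1
      have h2' : (g : GQ)⁻¹ ((g' : GQ) r0.v) = r0.v := h2
      have h3 : (g' : GQ) r0.u = (g : GQ) r0.u := by
        rw [← congrArg (g : GQ) h1']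
        exact (AlgEquiv.apply_symm_apply (g : GQ) _).symm
      have h4 : (g' : GQ) r0.v = (g : GQ) r0.v := by
        rw [← congrArg (g : GQ) h2']
        exact (AlgEquiv.apply_symm_apply (g : GQ) _).symm
      exact Prod.ext (Subtype.ext h3.symm) (Subtype.ext h4.symm)
  refine Finite.of_injective (β := A × A) (Quotient.lift f fun g g' h => ?_) ?_
  · exact (hf g g').2 (QuotientGroup.leftRel_apply.1 h)
  · intro x y
    refine Quotient.inductionOn₂ x y fun g g' h => ?_
    exact Quotient.sound (QuotientGroup.leftRel_apply.2 ((hf g g').1 h))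

/-- averaging: a cocycle that vanishes on the elements of `D` acting trivially on `E[3]` is a
coboundary on `D` -/
theorem H_avg (h : GQ → Pt E0) (hc : Coc h) (h3 : ∀ g, 3 • h g = 0) (D : Subgroup GQ)
    (hD : ∀ g ∈ D, g r0.u = r0.u → g r0.v = r0.v → h g = 0) :
    ∃ Q : Pt E0, 3 • Q = 0 ∧ ∀ g ∈ D, h g = gal E0 g Q - Q := by
  classical
  have hnorm : (H22_N.subgroupOf D).Normal := by
    refine ⟨fun n hn g => ?_⟩
    rw [Subgroup.mem_subgroupOf] at hn ⊢
    exact H22_conj n g hn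
  have hfin := H22_fin D
  have : Fintype (D ⧸ (H22_N.subgroupOf D)) := Fintype.ofFinite _
  obtain ⟨H, hH⟩ : ∃ H : (D ⧸ (H22_N.subgroupOf D)) → Pt E0,
      ∀ g : D, H (QuotientGroup.mk g) = h g := by
    refine ⟨Quotient.lift (fun g : D => h g) fun g g' hgg => ?_, fun g => rfl⟩
    have h1 := QuotientGroup.leftRel_apply.1 hgg
    rw [Subgroup.mem_subgroupOf] at h1
    have h2 : h ((g : GQ)⁻¹ * (g' : GQ)) = 0 := hD _ (g⁻¹ * g').2 h1.1 h1.2
    have h5 := hc g ((g : GQ)⁻¹ * (g' : GQ))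
    rw [mul_inv_cancel_left, h2, map_zero, add_zero] at h5
    exact h5.symm
  have hT : ∀ g : D, gal E0 g (∑ x, H x) = ∑ x, H x -
      Fintype.card (D ⧸ (H22_N.subgroupOf D)) • h g := by
    intro g
    rw [map_sum, ← Equiv.sum_comp (Equiv.mulLeft (QuotientGroup.mk g)) H]
    have h1 : ∀ x, gal E0 g (H x) = H (Equiv.mulLeft (QuotientGroup.mk g) x) - h g := by
      intro x
      induction x using QuotientGroup.induction_on with
      | H y =>
        have h2 : Equiv.mulLeft (QuotientGroup.mk g : D ⧸ (H22_N.subgroupOf D)) (QuotientGroup.mk y) =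
            QuotientGroup.mk (g * y) := rfl
        rw [h2, hH, hH, Subgroup.coe_mul, hc]
        abel
    rw [Finset.sum_congr rfl fun x _ => h1 x, Finset.sum_sub_distrib, Finset.sum_const,
      Finset.card_univ]
  have hcard : ¬ 3 ∣ Fintype.card (D ⧸ (H22_N.subgroupOf D)) := by
    intro hd
    obtain ⟨x, hx⟩ := exists_prime_orderOf_dvd_card 3 hd
    have h4 : x ^ 4 = 1 := by
      induction x using QuotientGroup.induction_on with
      | H y =>
        rw [← QuotientGroup.mk_pow, QuotientGroup.eq_one_iff, Subgroup.mem_subgroupOf]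
        exact H22_four y
    have h5 := orderOf_dvd_of_pow_eq_one h4
    rw [hx] at h5
    omega
  set n := Fintype.card (D ⧸ (H22_N.subgroupOf D)) with hn
  obtain ⟨a, b, hab⟩ : ∃ a b : ℕ, a * n + 1 = 3 * b := by
    have h1 : n % 3 = 1 ∨ n % 3 = 2 := by omega
    rcases h1 with h1 | h1
    · exact ⟨2, (2 * n + 1) / 3, by omega⟩
    · exact ⟨1, (1 * n + 1) / 3, by omega⟩
  have hT3 : 3 • (∑ x, H x) = 0 := by
    rw [Finset.smul_sum]
    refine Finset.sum_eq_zero fun x _ => ?_
    induction x using QuotientGroup.induction_on with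
    | H y => rw [hH, h3]
  refine ⟨a • ∑ x, H x, ?_, fun g hg => ?_⟩
  · rw [smul_comm, hT3, nsmul_zero]
  · have h1 := hT ⟨g, hg⟩
    have h1' : gal E0 g (∑ x, H x) = ∑ x, H x - n • h g := h1
    have h2 : (a * n) • h g + h g = 0 := by
      have h5 : (a * n + 1) • h g = 0 := by rw [hab, mul_comm, mul_nsmul', h3, nsmul_zero]
      rwa [add_nsmul, one_nsmul] at h5
    rw [map_nsmul, h1', nsmul_sub, ← mul_nsmul']
    rw [eq_neg_of_add_eq_zero_left h2]
    abel

end KE16
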