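import Pool.Agent.LibKE16.IfaceL
import Pool.Agent.LibKE16.HDefs

/-!
# [KE16 H23] MEDIUM

Plan. H_locq: τ fixes all ζ ∈ Cq q with ζ^(3^k) = 1 (such ζ = ι ζ', g ζ' = ζ' since g ∈ NN: ζ'^(193·3^k) = 1). Case nm = 1: nm(ι θ) = 1,
L_unit for w = ι θ. Case q = 193: subst; ζ a primitive 193-th root of unity in Qb, λ := 1 - ζ, nm(ι λ)^192 = 1/193 (L_lam), g λ = λ. With
nm(ι θ³) = 193^a: w := ι(θ λ^(64 a)): nm w ^ 3 = 193^a · (nm(ιλ)^192)^a = 1, so nm w = 1; τ(w³) = w³; L_unit: τ w = w; hence g θ = θ (ι injective).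
H_loc3: y := ι(9 r/c³), nm y ≤ 1/9 (nm 9 = 1/9); L_cube3: w, w³ = 1 + y, τ w = w (τ y = y). (ι θ/(ι c w))³ = 1, so ι θ = ω ι c w with ω³ = 1;
τ ω = ω because g ∈ NN fixes the cube roots of unity of Qb (ω = ι ω'). So τ(ι θ) = ι θ and g θ = θ.
-/

open WeierstrassCurve

namespace KE16

private theorem H23_prim (n : ℕ) (hn : n ≠ 0) : ∃ ξ : Qb, IsPrimitiveRoot ξ n := by
  have : NeZero (n : Qb) := ⟨Nat.cast_ne_zero.2 hn⟩
  exact HasEnoughRootsOfUnity.exists_primitiveRoot Qb n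

private theorem H23_lift {q : ℕ} [Fact q.Prime] (ι : Qb →ₐ[ℚ] Cq q) (n : ℕ) (hn : n ≠ 0)
    (ζ : Cq q) (h : ζ ^ n = 1) : ∃ ζ' : Qb, ι ζ' = ζ ∧ ζ' ^ n = 1 := by
  obtain ⟨ξ, hξ⟩ := H23_prim n hn
  have h1 : IsPrimitiveRoot (ι ξ) n := hξ.map_of_injective ι.injective
  have : NeZero n := ⟨hn⟩
  obtain ⟨i, -, hi⟩ := h1.eq_pow_of_pow_eq_one h
  refine ⟨ξ ^ i, by rw [map_pow, hi], ?_⟩
  rw [← pow_mul, mul_comm, pow_mul, hξ.pow_eq_one, one_pow]

private theorem H23_root {q : ℕ} [Fact q.Prime] (ι : Qb →ₐ[ℚ] Cq q) (τ : GLq q) (g : NN)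
    (hg : Restr ι τ g) (k : ℕ) (ζ : Cq q) (h : ζ ^ 3 ^ k = 1) : τ ζ = ζ := by
  obtain ⟨ζ', h1, h2⟩ := H23_lift ι (3 ^ k) (pow_ne_zero _ (by norm_num)) ζ h
  have h3 : (g : GQ) ζ' = ζ' := by
    refine g.2 k ζ' ?_
    rw [mul_comm, pow_mul, h2, one_pow]
  rw [← h1, ← hg ζ', h3]

private theorem H23_fix {q : ℕ} [Fact q.Prime] (ι : Qb →ₐ[ℚ] Cq q) (τ : GLq q) (g : NN)
    (hg : Restr ι τ g) (x : Qb) (h : (g : GQ) x = x) : τ (ι x) = ι x := by
  rw [← hg x, h]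

private theorem H23_fix' {q : ℕ} [Fact q.Prime] (ι : Qb →ₐ[ℚ] Cq q) (τ : GLq q) (g : NN)
    (hg : Restr ι τ g) (x : Qb) (h : τ (ι x) = ι x) : (g : GQ) x = x := by
  exact ι.injective (show ι ((g : GQ) x) = ι x by rw [hg x, h])

private theorem H23_mul {q : ℕ} [Fact q.Prime] (x y : Cq q) : nm q (x * y) = nm q x * nm q y :=
  norm_mul (α := PadicAlgCl q) x y

private theorem H23_pow {q : ℕ} [Fact q.Prime] (x : Cq q) (n : ℕ) : nm q (x ^ n) = nm q x ^ n :=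
  norm_pow (α := PadicAlgCl q) x n

private theorem H23_zpow {q : ℕ} [Fact q.Prime] (x : Cq q) (n : ℤ) : nm q (x ^ n) = nm q x ^ n :=
  norm_zpow (α := PadicAlgCl q) x n

private theorem H23_div {q : ℕ} [Fact q.Prime] (x y : Cq q) : nm q (x / y) = nm q x / nm q y :=
  norm_div (α := PadicAlgCl q) x y

private theorem H23_nonneg {q : ℕ} [Fact q.Prime] (x : Cq q) : 0 ≤ nm q x :=
  norm_nonneg (E := PadicAlgCl q) x

private theorem H23_neg_one {q : ℕ} [Fact q.Prime] : nm q (-1) = 1 := by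
  have h : ‖(-1 : PadicAlgCl q)‖ = 1 := by rw [norm_neg, norm_one]
  exact h

private theorem H23_nine : nm 3 (9 : Cq 3) = 1 / 9 := by
  have h1 : ‖((9 : ℚ_[3]) : PadicAlgCl 3)‖ = ‖(9 : ℚ_[3])‖ := PadicAlgCl.norm_extends 3 9
  have h2 : ‖(9 : ℚ_[3])‖ = 1 / 9 := by
    have h3 := Padic.norm_p_pow (p := 3) 2
    have h4 : ((3 : ℕ) : ℚ_[3]) ^ 2 = 9 := by norm_num
    rw [h4] at h3
    rw [h3]
    norm_num
  rw [← h2, ← h1]
  unfold nm
  congr 1

private theorem H23_one_of_cube {a : ℝ} (h0 : 0 ≤ a) (h : a ^ 3 = 1) : a = 1 :=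
  (pow_eq_one_iff_of_nonneg h0 (by norm_num)).1 h

/-- local triviality at `q ≠ 3`: a cube root of a unit (or, at `193`, of an element with integral
valuation) is fixed by the elements of the local Galois group of `K_{193,∞}` which fix the cube -/
theorem H_locq {q : ℕ} [Fact q.Prime] (h3 : q ≠ 3) (ι : Qb →ₐ[ℚ] Cq q) (τ : GLq q) (g : NN)
    (hg : Restr ι τ g) (θ : Qb) (h0 : θ ≠ 0) (hfix : (g : GQ) (θ ^ 3) = θ ^ 3)
    (hv : nm q (ι (θ ^ 3)) = 1 ∨ (q = 193 ∧ ∃ a : ℤ, nm q (ι (θ ^ 3)) = (q : ℝ) ^ a)) :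
    (g : GQ) θ = θ := by
  rcases hv with hv | ⟨rfl, a, ha⟩
  · apply H23_fix' ι τ g hg
    apply L_unit h3 τ (fun k ζ h => H23_root ι τ g hg k ζ h)
    · apply H23_one_of_cube (H23_nonneg _)
      rw [← H23_pow, ← map_pow, hv]
    · rw [← map_pow, H23_fix ι τ g hg _ hfix]
  · obtain ⟨ζ, hζ⟩ := H23_prim 193 (by norm_num)
    have hζ1 : (g : GQ) ζ = ζ := by
      refine g.2 0 ζ ?_
      rw [pow_zero, mul_one, hζ.pow_eq_one]
    set l : Qb := 1 - ζ with hl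
    have hgl : (g : GQ) l = l := by rw [hl, map_sub, map_one, hζ1]
    have hlam : nm 193 (ι l) ^ 192 = 1 / 193 := by
      have h1 := L_lam (ι ζ) (hζ.map_of_injective ι.injective)
      rw [hl, map_sub, map_one]
      exact h1
    have hl0 : l ≠ 0 := by
      intro h
      rw [h, map_zero] at hlam
      have h1 : nm 193 (0 : Cq 193) = 0 := norm_zero (E := PadicAlgCl 193)
      rw [h1] at hlam
      norm_num at hlam
    have hlz : l ^ (64 * a) ≠ 0 := zpow_ne_zero _ hl0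
    have hglz : (g : GQ) (l ^ (64 * a)) = l ^ (64 * a) := by rw [map_zpow₀, hgl]
    have hw : τ (ι (θ * l ^ (64 * a))) = ι (θ * l ^ (64 * a)) := by
      apply L_unit h3 τ (fun k ζ h => H23_root ι τ g hg k ζ h)
      · apply H23_one_of_cube (H23_nonneg _)
        rw [map_mul, map_zpow₀, H23_mul, H23_zpow, mul_pow, ← H23_pow, ← map_pow, ha]
        have h4 : (nm 193 (ι l) ^ (64 * a)) ^ 3 = (nm 193 (ι l) ^ 192) ^ a := by
          rw [← zpow_natCast, ← zpow_mul, ← zpow_natCast, ← zpow_mul]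
          congr 1
          push_cast
          ring
        rw [h4, hlam, ← mul_zpow]
        norm_num
      · rw [← map_pow]
        refine H23_fix ι τ g hg _ ?_
        rw [mul_pow, map_mul, hfix, map_pow, hglz]
    have h5 := H23_fix' ι τ g hg _ hw
    rw [map_mul, hglz] at h5
    exact mul_right_cancel₀ hlz h5

/-- local triviality at `3`: `θ³ = c³ + 9r` with `c` a unit -/
theorem H_loc3 (ι : Qb →ₐ[ℚ] Cq 3) (τ : GLq 3) (g : NN) (hg : Restr ι τ g) (θ c r : Qb)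
    (h : θ ^ 3 = c ^ 3 + 9 * r) (hc : (g : GQ) c = c) (hr : (g : GQ) r = r)
    (hc1 : nm 3 (ι c) = 1) (hr1 : nm 3 (ι r) ≤ 1) : (g : GQ) θ = θ := by
  have hc0 : c ≠ 0 := by
    rintro rfl
    rw [map_zero] at hc1
    have h1 : nm 3 (0 : Cq 3) = 0 := norm_zero (E := PadicAlgCl 3)
    rw [h1] at hc1
    exact zero_ne_one hc1
  have hx : (g : GQ) (9 * r / c ^ 3) = 9 * r / c ^ 3 := by
    rw [map_div₀, map_mul, map_pow, hc, hr, map_ofNat]
  have hy : nm 3 (ι (9 * r / c ^ 3)) ≤ 1 / 9 := by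
    rw [map_div₀, map_mul, map_pow, map_ofNat, H23_div, H23_mul, H23_pow, hc1, one_pow, div_one,
      H23_nine]
    calc 1 / 9 * nm 3 (ι r) ≤ 1 / 9 * 1 := mul_le_mul_of_nonneg_left hr1 (by norm_num)
      _ = 1 / 9 := mul_one _
  obtain ⟨w, hw, hfw⟩ := L_cube3 _ hy
  have hw1 : τ w = w := hfw τ (H23_fix ι τ g hg _ hx)
  have hw0 : w ≠ 0 := by
    rintro rfl
    have h1 : ι (9 * r / c ^ 3) = -1 := by linear_combination -hw
    rw [h1, H23_neg_one] at hy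
    norm_num at hy
  have hιc : ι c ≠ 0 := by
    intro h1
    exact hc0 ((map_eq_zero ι).1 h1)
  have hom : (ι θ / (ι c * w)) ^ 3 = 1 := by
    rw [div_pow, mul_pow, hw, ← map_pow, h]
    have h1 : ι c ^ 3 * (1 + ι (9 * r / c ^ 3)) = ι (c ^ 3 + 9 * r) := by
      rw [← map_pow, ← map_one ι, ← map_add, ← map_mul]
      congr 1
      field_simp
    rw [h1, div_self]
    rw [← h1, ← hw]
    exact mul_ne_zero (pow_ne_zero _ hιc) (pow_ne_zero _ hw0)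
  have hτo : τ (ι θ / (ι c * w)) = ι θ / (ι c * w) :=
    H23_root ι τ g hg 1 _ (by rw [pow_one]; exact hom)
  apply H23_fix' ι τ g hg
  have h2 : ι θ = (ι θ / (ι c * w)) * (ι c * w) := by
    rw [div_mul_cancel₀ _ (mul_ne_zero hιc hw0)]
  rw [h2, map_mul, hτo, map_mul, hw1, H23_fix ι τ g hg _ hc]

end KE16
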