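import Pool.Agent.LibKE16.IfaceL
import Pool.Agent.LibKE16.H03

/-!
# [KE16 H24] MEDIUM

Plan. H_int: nm(ι w) ≤ 1 since w⁴ = -4w² - 6 (ultrametric), integers have norm ≤ 1. H_unit: D1(w)·(-67+36w-16w²+23w³) = 193 and
D2(w)·(-11+168w-70w²+69w³) = 193 modulo w⁴ = -4w²-6 (linear_combination (...) * hw); nm 193 = 1 for q ≠ 193; both factors ≤ 1.
H_nine: linear_combination (polynomial) * hw (divide with remainder; find the cofactor by a small program).
H_cunit: (-1-w-w²+w³)(83+169w+20w²+62w³) = 883 and (1-w-w²-w³)(73-35w+26w²-8w³) = 163 modulo the quartic (please recompute the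
cofactors: norm of c), 3 ∤ 883, 163.
-/

open WeierstrassCurve

namespace KE16

private theorem add_le' {q : ℕ} [Fact q.Prime] {x y : PadicAlgCl q} {c : ℝ} (hx : ‖x‖ ≤ c)
    (hy : ‖y‖ ≤ c) : ‖x + y‖ ≤ c :=
  (IsUltrametricDist.norm_add_le_max x y).trans (max_le hx hy)

private theorem root_le {q : ℕ} [Fact q.Prime] {y : PadicAlgCl q} (hy : y ^ 4 + 4 * y ^ 2 + 6 = 0) :
    ‖y‖ ≤ 1 := by
  by_contra hcon
  push Not at hcon
  have h1 : y ^ 4 = ((-4 : ℤ) : PadicAlgCl q) * y ^ 2 + ((-6 : ℤ) : PadicAlgCl q) := by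
    push_cast
    linear_combination hy
  have h2 : ‖((-4 : ℤ) : PadicAlgCl q) * y ^ 2 + ((-6 : ℤ) : PadicAlgCl q)‖ ≤ ‖y‖ ^ 2 := by
    apply add_le'
    · rw [norm_mul, norm_pow]
      have := IsUltrametricDist.norm_intCast_le_one (PadicAlgCl q) (-4)
      nlinarith [sq_nonneg ‖y‖]
    · have := IsUltrametricDist.norm_intCast_le_one (PadicAlgCl q) (-6)
      nlinarith
  rw [← h1, norm_pow] at h2
  nlinarith [mul_pos (sub_pos.mpr hcon) (sub_pos.mpr hcon), sq_nonneg (‖y‖ ^ 2), pow_pos (lt_trans one_pos hcon) 2]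

private theorem ev_le {q : ℕ} [Fact q.Prime] (D : Fin 4 → ℤ) {y : PadicAlgCl q} (hy : ‖y‖ ≤ 1) :
    ‖(D 0 : PadicAlgCl q) + D 1 * y + D 2 * y ^ 2 + D 3 * y ^ 3‖ ≤ 1 := by
  have hi : ∀ n : ℤ, ‖(n : PadicAlgCl q)‖ ≤ 1 := IsUltrametricDist.norm_intCast_le_one (PadicAlgCl q)
  have hm : ∀ (n : ℤ) (k : ℕ), ‖(n : PadicAlgCl q) * y ^ k‖ ≤ 1 := by
    intro n k
    rw [norm_mul, norm_pow]
    exact mul_le_one₀ (hi n) (by positivity) (pow_le_one₀ (norm_nonneg _) hy)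
  have h1 := hm (D 1) 1
  rw [pow_one] at h1
  exact add_le' (add_le' (add_le' (hi _) h1) (hm _ 2)) (hm _ 3)

private theorem ev_map {F K : Type} [Field F] [Field K] (φ : F →+* K) (D : Fin 4 → ℤ) (w : F) :
    φ (ev D w) = ev D (φ w) := by
  simp only [ev, _root_.map_add, _root_.map_mul, _root_.map_pow, _root_.map_intCast]

private theorem rt_map {F K : Type} [Field F] [Field K] (φ : F →+* K) {w : F} (h : Rt w) :
    Rt (φ w) := by
  unfold Rt at h ⊢
  have := congrArg φ h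
  simpa only [_root_.map_add, _root_.map_mul, _root_.map_pow, _root_.map_ofNat, _root_.map_zero] using this

/-- norms of values of integral polynomials at the roots -/
theorem H_int {q : ℕ} [Fact q.Prime] (ι : Qb →ₐ[ℚ] Cq q) (D : Fin 4 → ℤ) (w : Qb) (hw : Rt w) :
    nm q (ι (ev D w)) ≤ 1 := by
  have e : ι (ev D w) = ev D (ι w) := ev_map (ι : Qb →+* Cq q) D w
  have hy : Rt (ι w) := rt_map (ι : Qb →+* Cq q) hw
  rw [e]
  exact ev_le D (root_le hy)

private theorem nat_norm {q : ℕ} [Fact q.Prime] (n : ℕ) (hn : ¬ q ∣ n) :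
    ‖(n : PadicAlgCl q)‖ = 1 := by
  have h : algebraMap ℚ_[q] (PadicAlgCl q) (n : ℚ_[q]) = (n : PadicAlgCl q) :=
    map_natCast (algebraMap ℚ_[q] (PadicAlgCl q)) n
  have h2 : ‖algebraMap ℚ_[q] (PadicAlgCl q) (n : ℚ_[q])‖ = ‖(n : ℚ_[q])‖ :=
    PadicAlgCl.norm_extends q _
  rw [← h, h2]
  exact Padic.norm_natCast_eq_one_iff.mpr
    ((Nat.coprime_comm.mp ((Fact.out : q.Prime).coprime_iff_not_dvd.mpr hn)).symm)

private theorem unit_of {q : ℕ} [Fact q.Prime] (ι : Qb →ₐ[ℚ] Cq q) (D D' : Fin 4 → ℤ) (n : ℕ)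
    (hn : ¬ q ∣ n) (w : Qb) (hw : Rt w) (h : ev D w * ev D' w = (n : Qb)) :
    nm q (ι (ev D w)) = 1 := by
  have h1 := H_int ι D w hw
  have h2 := H_int ι D' w hw
  have h3 : nm q (ι (ev D w)) * nm q (ι (ev D' w)) = 1 := by
    have e := congrArg ι h
    rw [_root_.map_mul, _root_.map_natCast] at e
    have e2 : nm q (ι (ev D w) * ι (ev D' w)) = nm q (n : Cq q) := congrArg (nm q) e
    have e3 : nm q (ι (ev D w) * ι (ev D' w)) = nm q (ι (ev D w)) * nm q (ι (ev D' w)) :=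
      norm_mul (α := PadicAlgCl q) _ _
    rw [← e3, e2]
    exact nat_norm n hn
  have h4 : 0 ≤ nm q (ι (ev D w)) := norm_nonneg (E := PadicAlgCl q) _
  have h5 : 0 ≤ nm q (ι (ev D' w)) := norm_nonneg (E := PadicAlgCl q) _
  apply le_antisymm h1
  by_contra hcon
  push Not at hcon
  nlinarith

private theorem p1 {F : Type} [Field F] (w : F) (hw : Rt w) :
    ev D1 w * ev ![-67, 36, -16, 23] w = ((193 : ℕ) : F) := by
  unfold Rt at hw
  simp only [ev, D1, Matrix.cons_val_zero, Matrix.cons_val_one, Matrix.cons_val]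
  push_cast
  linear_combination (-88 + 30 * w + 23 * w ^ 2) * hw

private theorem p2 {F : Type} [Field F] (w : F) (hw : Rt w) :
    ev D2 w * ev ![-11, 168, -70, 69] w = ((193 : ℕ) : F) := by
  unfold Rt at hw
  simp only [ev, D2, Matrix.cons_val_zero, Matrix.cons_val_one, Matrix.cons_val]
  push_cast
  linear_combination (-56 + 342 * w + 207 * w ^ 2) * hw

private theorem p3 {F : Type} [Field F] (w : F) (hw : Rt w) :
    ev ![-1, -1, -1, 1] w * ev ![83, 169, 20, 62] w = ((883 : ℕ) : F) := by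
  unfold Rt at hw
  simp only [ev, Matrix.cons_val_zero, Matrix.cons_val_one, Matrix.cons_val]
  push_cast
  linear_combination (-161 - 42 * w + 62 * w ^ 2) * hw

private theorem p4 {F : Type} [Field F] (w : F) (hw : Rt w) :
    ev ![1, -1, -1, -1] w * ev ![73, -35, 26, -8] w = ((163 : ℕ) : F) := by
  unfold Rt at hw
  simp only [ev, Matrix.cons_val_zero, Matrix.cons_val_one, Matrix.cons_val]
  push_cast
  linear_combination (-15 - 18 * w + 8 * w ^ 2) * hw

/-- `D₁(w), D₂(w)` are units outside `193` -/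
theorem H_unit {q : ℕ} [Fact q.Prime] (h : q ≠ 193) (ι : Qb →ₐ[ℚ] Cq q) (w : Qb) (hw : Rt w) :
    nm q (ι (ev D1 w)) = 1 ∧ nm q (ι (ev D2 w)) = 1 := by
  have hq : ¬ q ∣ 193 := by
    intro hd
    rcases (Nat.dvd_prime (by norm_num : Nat.Prime 193)).mp hd with h1 | h1
    · exact (Fact.out : q.Prime).one_lt.ne' h1
    · exact h h1
  exact ⟨unit_of ι _ _ 193 hq w hw (p1 w hw), unit_of ι _ _ 193 hq w hw (p2 w hw)⟩

theorem H_D0 (w : Qb) (hw : Rt w) : ev D1 w ≠ 0 ∧ ev D2 w ≠ 0 := by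
  constructor
  · intro h
    have := p1 w hw
    rw [h, zero_mul] at this
    norm_num at this
  · intro h
    have := p2 w hw
    rw [h, zero_mul] at this
    norm_num at this

/-- `z₁(w), z₂(w)` are cubes modulo `9` -/
theorem H_nine (w : Qb) (hw : Rt w) :
    ev D1 w ^ 2 * ev D1 (-w) = ev ![-1, -1, -1, 1] w ^ 3 + 9 * ev ![-30, 15, -10, 5] w ∧
    ev D2 w ^ 2 * ev D2 (-w) = ev ![1, -1, -1, -1] w ^ 3 + 9 * ev ![-36, -1, -10, 5] w := by
  unfold Rt at hw
  constructor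
  · simp only [ev, D1, Matrix.cons_val_zero, Matrix.cons_val_one, Matrix.cons_val]
    push_cast
    linear_combination (66 - 22 * w - 3 * w ^ 2 + 12 * w ^ 3 + w ^ 4 - 2 * w ^ 5) * hw
  · simp only [ev, D2, Matrix.cons_val_zero, Matrix.cons_val_one, Matrix.cons_val]
    push_cast
    linear_combination (420 + 340 * w + 99 * w ^ 2 - 22 * w ^ 3 - 69 * w ^ 4 - 26 * w ^ 5) * hw

theorem H_cunit (ι : Qb →ₐ[ℚ] Cq 3) (w : Qb) (hw : Rt w) :
    nm 3 (ι (ev ![-1, -1, -1, 1] w)) = 1 ∧ nm 3 (ι (ev ![1, -1, -1, -1] w)) = 1 :=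
  ⟨unit_of ι _ _ 883 (by norm_num) w hw (p3 w hw), unit_of ι _ _ 163 (by norm_num) w hw (p4 w hw)⟩

end KE16
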