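import Pool.Agent.LibKE16.H21
import Pool.Agent.LibKE16.H22
import Pool.Agent.LibKE16.H23
import Pool.Agent.LibKE16.H24
import Pool.Agent.LibKE16.H08
import Pool.Agent.LibKE16.H04

/-!
# [KE16 H25] MEDIUM/STRONG

Plan. f := h restricted to NN (Kmul 3 193); f ∈ Z1 (Coc, 3 h = 0, Cont). LocAt at q, ι: D := subgroup {g ∈ NN | ∃ τ, Restr ι τ g}. For g ∈ D with g u = u,
g v = v: g θ(u) = θ(u), g θ(v) = θ(v) by H_locq (q ≠ 3: nm(ι θ³) = 1 by H_unit for q ≠ 193; q = 193: L_val, θ(w)³ ∈ ℚ(u) for w = u; for w = v use an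
automorphism: θ(v)³ = (value at v): choose γ ∈ GQ with γ u = v (compose ι with γ), or use L_val for ι ∘ γ) and H_loc3 (q = 3: H_nine, H_cunit, H_int). Hence
z^a = 1, z^{-b} = 1 (θ ≠ 0), 3 ∣ a, b and h g = 0 (H_T3, H_z, H_T1). H_avg gives Q₀ with h g = g Q₀ - Q₀ on D; Q := map ι Q₀. In `LocAt` the pair (τ, σ) gives σ ∈ D and
map ι (gal σ Q₀) = map τ (map ι Q₀) (cases Q₀). IsHat for S = ⊤ from Coc, Cont; Tor from 3 h = 0.
-/

open WeierstrassCurve

namespace KE16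

private theorem nm_mul' (q : ℕ) [Fact q.Prime] (x y : Cq q) : nm q (x * y) = nm q x * nm q y :=
  norm_mul (x : PadicAlgCl q) (y : PadicAlgCl q)

private theorem nm_pow' (q : ℕ) [Fact q.Prime] (x : Cq q) (n : ℕ) : nm q (x ^ n) = nm q x ^ n :=
  norm_pow (x : PadicAlgCl q) n

/-- values of integral polynomials are moved with the argument -/
private theorem ev_map (g : GQ) (D : Fin 4 → ℤ) (w : Qb) : g (ev D w) = ev D (g w) := by
  unfold ev
  simp only [_root_.map_add, _root_.map_mul, _root_.map_pow, map_intCast]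

private theorem rt_u : Rt r0.u := (H_rt r0 r0.u).mpr (Or.inl rfl)
private theorem rt_v : Rt r0.v := (H_rt r0 r0.v).mpr (Or.inr (Or.inr (Or.inl rfl)))
private theorem rt_neg {w : Qb} (hw : Rt w) : Rt (-w) := by
  unfold Rt at *
  rw [← hw]; ring

private theorem ex_uv : ∃ γ : GQ, γ r0.u = r0.v := by
  obtain ⟨g, hg⟩ := H_g3
  rcases H_act g with ⟨h0, _⟩ | ⟨_, ε, δ, h1, _⟩
  · exfalso
    rw [hg] at h0
    have h7 : (2 : Qb) * r0.s = 0 := by linear_combination -h0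
    rcases mul_eq_zero.mp h7 with h6 | h6
    · norm_num at h6
    · have := r0.hs
      rw [h6] at this
      norm_num at this
  · rcases Int.units_eq_one_or ε with h | h
    · refine ⟨g, ?_⟩
      rw [h1, h]; simp
    · obtain ⟨g', _, _, hv⟩ := H_g2
      refine ⟨g' * g, ?_⟩
      change g' (g r0.u) = r0.v
      rw [h1, h]
      simp only [Units.val_neg, Units.val_one, Int.cast_neg, Int.cast_one, neg_mul, one_mul,
        _root_.map_neg, hv, neg_neg]

/-- the value at `193` -/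
private theorem val193 (D : Fin 4 → ℤ) (hD : ∀ w : Qb, Rt w → ev D w ≠ 0) (ι : Qb →ₐ[ℚ] Cq 193) (w : Qb)
    (hw : w = r0.u ∨ w = r0.v) :
    ∃ a : ℤ, nm 193 (ι (ev D w ^ 2 * ev D (-w))) = ((193 : ℕ) : ℝ) ^ a := by
  have hmem : ev D r0.u ^ 2 * ev D (-r0.u) ∈ IntermediateField.adjoin ℚ {r0.u} := by
    have hu : r0.u ∈ IntermediateField.adjoin ℚ {r0.u} :=
      IntermediateField.subset_adjoin _ _ (Set.mem_singleton _)
    have h1 : ∀ x ∈ IntermediateField.adjoin ℚ {r0.u}, ev D x ∈ IntermediateField.adjoin ℚ {r0.u} := by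
      intro x hx
      unfold ev
      exact add_mem (add_mem (add_mem (intCast_mem _ _) (mul_mem (intCast_mem _ _) hx))
        (mul_mem (intCast_mem _ _) (pow_mem hx 2))) (mul_mem (intCast_mem _ _) (pow_mem hx 3))
    exact mul_mem (pow_mem (h1 _ hu) 2) (h1 _ (neg_mem hu))
  have hne : ev D r0.u ^ 2 * ev D (-r0.u) ≠ 0 :=
    mul_ne_zero (pow_ne_zero 2 (hD _ rt_u)) (hD _ (rt_neg rt_u))
  have key : ∀ ι' : Qb →ₐ[ℚ] Cq 193,
      ∃ a : ℤ, nm 193 (ι' (ev D r0.u ^ 2 * ev D (-r0.u))) = ((193 : ℕ) : ℝ) ^ a := fun ι' ↦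
    L_val (q := 193) (by norm_num) (by norm_num) ι' _ hmem hne
  rcases hw with rfl | rfl
  · exact key ι
  · obtain ⟨γ, hγ⟩ := ex_uv
    obtain ⟨a, ha⟩ := key (ι.comp (γ : Qb →ₐ[ℚ] Qb))
    refine ⟨a, ?_⟩
    rw [← ha]
    change _ = nm 193 (ι (γ (ev D r0.u ^ 2 * ev D (-r0.u))))
    rw [_root_.map_mul γ, _root_.map_pow γ, ev_map, ev_map, _root_.map_neg γ, hγ]

/-- the local triviality of `θ(w)` -/
private theorem loc_fix (D : Fin 4 → ℤ) (hD : D = D1 ∨ D = D2) (q : ℕ) [Fact q.Prime]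
    (ι : Qb →ₐ[ℚ] Cq q) (τ : GLq q) (g : NN) (hg : Restr ι τ g) (w : Qb) (hw : w = r0.u ∨ w = r0.v)
    (hgw : (g : GQ) w = w) (t : Qb) (ht : t ^ 3 = ev D w ^ 2 * ev D (-w)) : (g : GQ) t = t := by
  have hrt : Rt w := by rcases hw with rfl | rfl; exacts [rt_u, rt_v]
  have hD0 : ∀ w : Qb, Rt w → ev D w ≠ 0 := by
    intro w hw
    rcases hD with rfl | rfl
    · exact (H_D0 w hw).1
    · exact (H_D0 w hw).2
  have hfix : (g : GQ) (t ^ 3) = t ^ 3 := by
    rw [ht, _root_.map_mul, _root_.map_pow, ev_map, ev_map, _root_.map_neg, hgw]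
  have ht0 : t ≠ 0 := by
    intro h
    rw [h] at ht
    have h1 : ev D w ^ 2 * ev D (-w) ≠ 0 :=
      mul_ne_zero (pow_ne_zero 2 (hD0 _ hrt)) (hD0 _ (rt_neg hrt))
    apply h1
    rw [← ht]; norm_num
  by_cases h3 : q = 3
  · subst h3
    rcases hD with rfl | rfl
    · refine H_loc3 ι τ g hg t (ev ![-1, -1, -1, 1] w) (ev ![-30, 15, -10, 5] w) ?_ ?_ ?_
        (H_cunit ι w hrt).1 (H_int ι _ w hrt)
      · rw [ht]; exact (H_nine w hrt).1
      · rw [ev_map, hgw]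
      · rw [ev_map, hgw]
    · refine H_loc3 ι τ g hg t (ev ![1, -1, -1, -1] w) (ev ![-36, -1, -10, 5] w) ?_ ?_ ?_
        (H_cunit ι w hrt).2 (H_int ι _ w hrt)
      · rw [ht]; exact (H_nine w hrt).2
      · rw [ev_map, hgw]
      · rw [ev_map, hgw]
  · refine H_locq h3 ι τ g hg t ht0 hfix ?_
    by_cases h193 : q = 193
    · subst h193
      right
      refine ⟨rfl, ?_⟩
      rw [ht]
      exact val193 D hD0 ι w hw
    · left
      rw [ht, _root_.map_mul, _root_.map_pow, nm_mul', nm_pow']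
      have h1 : ∀ x : Qb, Rt x → nm q (ι (ev D x)) = 1 := by
        intro x hx
        rcases hD with rfl | rfl
        · exact (H_unit h193 ι x hx).1
        · exact (H_unit h193 ι x hx).2
      rw [h1 w hrt, h1 (-w) (rt_neg hrt)]
      norm_num

/-- the classes attached to `D₁` and `D₂` are in `W` -/
theorem H_class (D : Fin 4 → ℤ) (hD : D = D1 ∨ D = D2) (h : GQ → Pt E0) (θ : Qb → Qb) (hc : Coc h)
    (hcont : Cont h) (h3 : ∀ g, 3 • h g = 0)
    (hθ3 : ∀ w, Rt w → θ w ^ 3 = ev D w ^ 2 * ev D (-w))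
    (hθ : ∀ g : GQ, g r0.u = r0.u → g r0.v = r0.v → ∀ a b : ℤ, h g = a • PA r0 + b • PB r0 →
        g (θ r0.u) = r0.z ^ a * θ r0.u ∧ g (θ r0.v) = r0.z ^ (-b) * θ r0.v) :
    ∃ f : SelZ E0 3 193, IsHat f.1.1 ⊤ h := by
  have hD0 : ∀ w : Qb, Rt w → ev D w ≠ 0 := by
    intro w hw
    rcases hD with rfl | rfl
    · exact (H_D0 w hw).1
    · exact (H_D0 w hw).2
  have hθ0 : ∀ w : Qb, Rt w → θ w ≠ 0 := by
    intro w hw h0
    have h1 := hθ3 w hw
    rw [h0] at h1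
    have h2 : ev D w ^ 2 * ev D (-w) ≠ 0 :=
      mul_ne_zero (pow_ne_zero 2 (hD0 _ hw)) (hD0 _ (rt_neg hw))
    apply h2
    rw [← h1]; norm_num
  have hZ1 : (fun σ : Kmul 3 193 ↦ h (σ : GQ)) ∈ Z1 E0 3 193 := by
    refine ⟨?_, ?_, ?_⟩
    · intro σ τ
      exact hc σ τ
    · intro σ
      exact ⟨1, by rw [pow_one]; exact h3 _⟩
    · obtain ⟨L, hL, hL'⟩ := hcont
      exact ⟨L, hL, fun σ hσ ↦ hL' _ hσ⟩
  have hloc : ∀ (q : ℕ) [Fact q.Prime], LocAt E0 3 193 (fun σ : Kmul 3 193 ↦ h (σ : GQ)) q := by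
    intro q _ ι
    let S : Subgroup GQ :=
      { carrier := {g | g ∈ NN ∧ ∃ τ : GLq q, Restr ι τ g}
        mul_mem' := by
          rintro a b ⟨ha, τ, hτ⟩ ⟨hb, τ', hτ'⟩
          refine ⟨mul_mem ha hb, τ * τ', ?_⟩
          intro x
          change ι (a (b x)) = τ (τ' (ι x))
          rw [hτ, hτ']
        one_mem' := ⟨one_mem _, 1, fun x ↦ rfl⟩
        inv_mem' := by
          rintro a ⟨ha, τ, hτ⟩
          refine ⟨inv_mem ha, τ⁻¹, ?_⟩
          intro x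
          have h1 := hτ (a⁻¹ x)
          have h2 : a (a⁻¹ x) = x := AlgEquiv.apply_symm_apply a x
          rw [h2] at h1
          rw [h1]
          exact (AlgEquiv.symm_apply_apply τ _).symm }
    obtain ⟨Q0, _, hQ0⟩ := H_avg h hc h3 S (by
      rintro g ⟨hgN, τ, hτ⟩ hgu hgv
      obtain ⟨a, b, hab⟩ := H_T3 r0 (h g) (h3 g)
      obtain ⟨e1, e2⟩ := hθ g hgu hgv a b hab
      have f1 : g (θ r0.u) = θ r0.u :=
        loc_fix D hD q ι τ ⟨g, hgN⟩ hτ r0.u (Or.inl rfl) hgu (θ r0.u) (hθ3 _ rt_u)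
      have f2 : g (θ r0.v) = θ r0.v :=
        loc_fix D hD q ι τ ⟨g, hgN⟩ hτ r0.v (Or.inr rfl) hgv (θ r0.v) (hθ3 _ rt_v)
      rw [f1] at e1
      rw [f2] at e2
      have hz := H_z r0
      have g1 : r0.z ^ a = 1 := by
        have := mul_right_cancel₀ (hθ0 _ rt_u) ((one_mul _).trans e1)
        exact this.symm
      have g2 : r0.z ^ (-b) = 1 := by
        have := mul_right_cancel₀ (hθ0 _ rt_v) ((one_mul _).trans e2)
        exact this.symm
      have d1 : (3 : ℤ) ∣ a := by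
        have := (hz.zpow_eq_one_iff_dvd a).mp g1
        exact_mod_cast this
      have d2 : (3 : ℤ) ∣ b := by
        have := (hz.zpow_eq_one_iff_dvd (-b)).mp g2
        have h5 : (3 : ℤ) ∣ -b := by exact_mod_cast this
        exact (dvd_neg).mp h5
      obtain ⟨a', rfl⟩ := d1
      obtain ⟨b', rfl⟩ := d2
      obtain ⟨t1, t2⟩ := H_T1 r0
      rw [hab, mul_comm (3 : ℤ) a', mul_comm (3 : ℤ) b', mul_smul, mul_smul]
      have t1' : (3 : ℤ) • PA r0 = 0 := by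
        rw [← t1]; exact_mod_cast natCast_zsmul (PA r0) 3
      have t2' : (3 : ℤ) • PB r0 = 0 := by
        rw [← t2]; exact_mod_cast natCast_zsmul (PB r0) 3
      rw [t1', t2', smul_zero, smul_zero, add_zero])
    refine ⟨Affine.Point.map (W' := E0) (S := ℚ) ι Q0, ?_⟩
    intro τ σ hτσ
    have hS : (σ : GQ) ∈ S := ⟨σ.2, τ, hτσ⟩
    change Affine.Point.map (W' := E0) (S := ℚ) ι (h (σ : GQ)) = _
    rw [hQ0 _ hS, map_sub]
    congr 1
    rcases Q0 with _ | ⟨x, y, hxy⟩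
    · rfl
    · change Affine.Point.map (W' := E0) (S := ℚ) ι (Affine.Point.map (W' := E0) (S := ℚ)
        ((σ : GQ) : Qb →ₐ[ℚ] Qb) (Affine.Point.some x y hxy)) = _
      simp only [Affine.Point.map_some]
      have e1 := hτσ x
      have e2 := hτσ y
      congr 1
  refine ⟨⟨⟨_, hZ1⟩, hloc⟩, ?_, ?_, ?_, ?_, ?_⟩
  · exact le_top
  · intro g _
    exact ⟨1, by rw [pow_one]; exact h3 g⟩
  · intro g _ g' _
    exact hc g g'
  · intro σ
    rfl
  · obtain ⟨L, hL, hL'⟩ := hcont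
    exact ⟨L, hL, fun g _ hg ↦ hL' g hg⟩

end KE16
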