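import Pool.Agent.LibKE16.IfaceL
import Pool.Agent.LibKE16.H21
import Pool.Agent.LibKE16.H24

/-!
# [KE16 H26] MEDIUM

Plan. τ0 fixes ι0 u, ι0 v (L_frame), so g0 fixes u, v. Key fact: if θ³ = Z ∈ Qb, g0 Z = Z, nm(ι0 Z) = 193^{-a}, g0 θ = z^k θ, then 3 ∣ a ↔ 3 ∣ k (as in the
plan of H14: c³ = 193, τ0 c = ω c, ω ≠ 1; ι0 θ / c^a is a unit with cube fixed, so fixed by L_unit + L_root). C_i(w) := D_i(w) D_i(-w): C1(u) = -11 + 6s,
C1(v) = -11 - 6s = C2(u), C2(v) = -11 + 6s, C1(u) C1(v) = 193, C1(u) + C1(v) = -22 (unit): exactly one of C1(u), C1(v) is a non-unit, and it has norm 1/193.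
D_i(w) D_i(-w) with product of norm 1/193 and both norms ≤ 1 and in 193^ℤ (L_val; w = v by composing with an automorphism, or directly: product of the
four D_i(w) is 193): valuations {0,1}, so the valuation of Z_i(w) = D_i(w)² D_i(-w) is 1 or 2; and it is 0 where C_i(w) is a unit. So either
(C1(u) non-unit) h1 g0 = (±1, 0), h2 g0 = (0, ±1) mod 3, or h1 g0 = (0, ±1), h2 g0 = (±1, 0); conclude with H_T4.
-/

open WeierstrassCurve

namespace KE16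

private theorem H26_nm_mul {q : ℕ} [Fact q.Prime] (x y : Cq q) : nm q (x * y) = nm q x * nm q y :=
  norm_mul (x : PadicAlgCl q) (y : PadicAlgCl q)

private theorem H26_nm_add {q : ℕ} [Fact q.Prime] (x y : Cq q) :
    nm q (x + y) ≤ max (nm q x) (nm q y) :=
  IsUltrametricDist.norm_add_le_max (x : PadicAlgCl q) (y : PadicAlgCl q)

private theorem H26_nm_one {q : ℕ} [Fact q.Prime] : nm q (1 : Cq q) = 1 :=
  norm_one (α := PadicAlgCl q)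

private theorem H26_nm_neg {q : ℕ} [Fact q.Prime] (x : Cq q) : nm q (-x) = nm q x :=
  norm_neg (x : PadicAlgCl q)

private theorem H26_nm_nonneg {q : ℕ} [Fact q.Prime] (x : Cq q) : 0 ≤ nm q x :=
  norm_nonneg (x : PadicAlgCl q)

private theorem H26_nm_eq0 {q : ℕ} [Fact q.Prime] (x : Cq q) : nm q x = 0 ↔ x = 0 :=
  norm_eq_zero (a := (x : PadicAlgCl q))

private theorem H26_nm_pow {q : ℕ} [Fact q.Prime] (x : Cq q) (n : ℕ) : nm q (x ^ n) = nm q x ^ n :=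
  norm_pow (x : PadicAlgCl q) n

private theorem H26_nm_zpow {q : ℕ} [Fact q.Prime] (x : Cq q) (n : ℤ) : nm q (x ^ n) = nm q x ^ n :=
  norm_zpow (x : PadicAlgCl q) n

private theorem H26_nm_div {q : ℕ} [Fact q.Prime] (x y : Cq q) : nm q (x / y) = nm q x / nm q y :=
  norm_div (x : PadicAlgCl q) (y : PadicAlgCl q)

private theorem H26_nm_int {q : ℕ} [Fact q.Prime] (n : ℤ) : nm q ((n : ℤ) : Cq q) = ‖(n : ℚ_[q])‖ := by
  have h := PadicAlgCl.norm_extends q (n : ℚ_[q])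
  rw [← h]
  change ‖(((n : ℤ) : Cq q) : PadicAlgCl q)‖ = _
  congr 1

private theorem H26_nm193 : nm 193 (((193 : ℕ)) : Cq 193) = (193 : ℝ)⁻¹ := by
  have h := H26_nm_int (q := 193) (193 : ℤ)
  have h2 : ((193 : ℤ) : Cq 193) = ((193 : ℕ) : Cq 193) := by push_cast; rfl
  rw [← h2, h]
  have h3 : (((193 : ℤ) : ℤ) : ℚ_[193]) = ((193 : ℕ) : ℚ_[193]) := by push_cast; rfl
  rw [h3, Padic.norm_p]
  norm_num

private theorem H26_int_unit (n : ℤ) (h : ¬ (193 : ℤ) ∣ n) : nm 193 ((n : ℤ) : Cq 193) = 1 := by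
  rw [H26_nm_int]
  exact (Padic.norm_intCast_eq_one_iff (p := 193)).mpr (by
    rw [Int.isCoprime_iff_gcd_eq_one]
    have hp : Nat.Prime 193 := by norm_num
    have h2 : Nat.Coprime 193 n.natAbs := (Nat.Prime.coprime_iff_not_dvd hp).mpr (by
      intro hd
      exact h (Int.natCast_dvd.mpr hd))
    exact h2.symm)

private theorem H26_int_le (n : ℤ) : nm 193 ((n : ℤ) : Cq 193) ≤ 1 := by
  rw [H26_nm_int]
  exact Padic.norm_int_le_one n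

private theorem H26_prim {F : Type} [Field F] (w : F) (h3 : w ^ 3 = 1) (h1 : w ≠ 1) :
    IsPrimitiveRoot w 3 := by
  have : orderOf w = 3 := orderOf_eq_prime h3 h1
  rw [← this]
  exact IsPrimitiveRoot.orderOf w

private theorem H26_key (ι0 : Qb →ₐ[ℚ] Cq 193) (τ0 : GLq 193) (hτ0 : IsIner τ0)
    (hmove : ∀ c : Cq 193, c ^ 3 = ((193 : ℕ) : Cq 193) → τ0 c ≠ c) (g0 : GQ) (hg0 : Restr ι0 τ0 g0)
    (θ Z : Qb) (hθ : θ ^ 3 = Z) (a : ℤ) (ha : nm 193 (ι0 Z) = ((193 : ℝ)⁻¹) ^ a)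
    (k : ℤ) (hk : g0 θ = r0.z ^ k * θ) : 3 ∣ a ↔ 3 ∣ k := by
  obtain ⟨c, hc⟩ := IsAlgClosed.exists_pow_nat_eq ((193 : ℕ) : Cq 193) (n := 3) (by norm_num)
  have h193 : ((193 : ℕ) : Cq 193) ≠ 0 := Nat.cast_ne_zero.mpr (by norm_num)
  have hc0 : c ≠ 0 := by
    rintro rfl
    rw [zero_pow (by norm_num)] at hc
    exact h193 hc.symm
  have hnc : nm 193 c ^ 3 = (193 : ℝ)⁻¹ := by rw [← H26_nm_pow, hc, H26_nm193]
  have hz := H_z r0
  have hιz : IsPrimitiveRoot (ι0 r0.z) 3 := hz.map_of_injective ι0.toRingHom.injective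
  have hω3 : (τ0 c / c) ^ 3 = 1 := by
    rw [div_pow, ← map_pow, hc, map_natCast, div_self h193]
  have hω1 : τ0 c / c ≠ 1 := by
    intro h
    exact hmove c hc ((div_eq_one_iff_eq hc0).mp h)
  have hω := H26_prim _ hω3 hω1
  have hZ0 : Z ≠ 0 := by
    rintro rfl
    rw [map_zero, (H26_nm_eq0 (0 : Cq 193)).mpr rfl] at ha
    have : (0 : ℝ) < (193 : ℝ)⁻¹ ^ a := by positivity
    linarith
  have hgZ : g0 Z = Z := by
    rw [← hθ, map_pow, hk, mul_pow, ← zpow_natCast (r0.z ^ k), ← zpow_mul, mul_comm k, zpow_mul,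
      zpow_natCast, hz.pow_eq_one, one_zpow, one_mul]
  -- the unit
  set w : Cq 193 := ι0 θ / c ^ a with hw
  have hca0 : c ^ a ≠ 0 := zpow_ne_zero a hc0
  have hw3 : w ^ 3 = ι0 Z / ((193 : ℕ) : Cq 193) ^ a := by
    rw [hw, div_pow, ← map_pow, hθ]
    congr 1
    rw [← zpow_natCast, ← zpow_mul, mul_comm a, zpow_mul, zpow_natCast, hc]
  have hnw : nm 193 w = 1 := by
    have h1 : nm 193 w ^ 3 = 1 := by
      rw [← H26_nm_pow, hw3, H26_nm_div, H26_nm_zpow, ha, H26_nm193]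
      exact div_self (by positivity)
    exact (pow_eq_one_iff_of_nonneg (H26_nm_nonneg w) (by norm_num)).mp h1
  have hτw3 : τ0 (w ^ 3) = w ^ 3 := by
    rw [hw3, map_div₀, map_zpow₀, map_natCast, ← hg0 Z, hgZ]
  have hτw : τ0 w = w := by
    refine L_unit (by norm_num) τ0 ?_ w hnw hτw3
    intro k ζ hζ
    refine L_root τ0 hτ0 (3 ^ k) ?_ ζ hζ
    intro hd
    have := (Nat.Prime.dvd_of_dvd_pow (by norm_num) hd)
    norm_num at this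
  have hmul : w * c ^ a = ι0 θ := div_mul_cancel₀ _ hca0
  have h1 : τ0 (ι0 θ) = (τ0 c / c) ^ a * ι0 θ := by
    rw [← hmul, map_mul, hτw, map_zpow₀, div_zpow]
    field_simp
  have h2 : τ0 (ι0 θ) = (ι0 r0.z) ^ k * ι0 θ := by
    rw [← hg0 θ, hk, map_mul, map_zpow₀]
  have hθ0 : ι0 θ ≠ 0 := by
    intro h
    have : θ = 0 := (map_eq_zero ι0).mp h
    apply hZ0
    rw [← hθ, this, zero_pow (by norm_num)]
  have h3 : (τ0 c / c) ^ a = (ι0 r0.z) ^ k := mul_right_cancel₀ hθ0 (h1.symm.trans h2)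
  have e1 := hω.zpow_eq_one_iff_dvd a
  have e2 := hιz.zpow_eq_one_iff_dvd k
  rw [h3] at e1
  exact e1.symm.trans e2

private theorem H26_unit_pair (x y : Cq 193) (hx : nm 193 x ≤ 1) (hy : nm 193 y ≤ 1)
    (h : nm 193 (x * y) = 1) : nm 193 x = 1 ∧ nm 193 y = 1 := by
  rw [H26_nm_mul] at h
  have h0 := H26_nm_nonneg x
  have h1 := H26_nm_nonneg y
  constructor <;> nlinarith

private theorem H26_val_pair (x y : Cq 193) (hx : nm 193 x ≤ 1) (hy : nm 193 y ≤ 1)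
    (h : nm 193 (x * y) = (193 : ℝ)⁻¹) (hs : nm 193 (x + y) = 1) :
    (nm 193 x = 1 ∧ nm 193 y = (193 : ℝ)⁻¹) ∨ (nm 193 x = (193 : ℝ)⁻¹ ∧ nm 193 y = 1) := by
  rw [H26_nm_mul] at h
  have h2 := H26_nm_add x y
  rw [hs] at h2
  rcases le_max_iff.mp h2 with h3 | h3
  · left
    have h4 : nm 193 x = 1 := le_antisymm hx h3
    rw [h4, one_mul] at h
    exact ⟨h4, h⟩
  · right
    have h4 : nm 193 y = 1 := le_antisymm hy h3
    rw [h4, mul_one] at h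
    exact ⟨h, h4⟩

private theorem H26_s (ι0 : Qb →ₐ[ℚ] Cq 193) : nm 193 (ι0 r0.s) ≤ 1 := by
  have h : nm 193 (ι0 r0.s) ^ 2 = 1 := by
    rw [← H26_nm_pow, ← map_pow, r0.hs]
    have : ι0 (-2 : Qb) = (((-2 : ℤ)) : Cq 193) := by
      rw [map_neg, map_ofNat]; push_cast; rfl
    rw [this]
    exact H26_int_unit (-2) (by norm_num)
  exact le_of_eq ((pow_eq_one_iff_of_nonneg (H26_nm_nonneg _) (by norm_num)).mp h)

private theorem H26_lin_le (ι0 : Qb →ₐ[ℚ] Cq 193) (a b : ℤ) :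
    nm 193 (ι0 ((a : Qb) + b * r0.s)) ≤ 1 := by
  rw [map_add, map_mul, map_intCast, map_intCast]
  refine (H26_nm_add _ _).trans (max_le (H26_int_le a) ?_)
  rw [H26_nm_mul]
  exact mul_le_one₀ (H26_int_le b) (H26_nm_nonneg _) (H26_s ι0)

private theorem H26_lin_unit (ι0 : Qb →ₐ[ℚ] Cq 193) (a b : ℤ) (h : ¬ (193 : ℤ) ∣ a ^ 2 + 2 * b ^ 2) :
    nm 193 (ι0 ((a : Qb) + b * r0.s)) = 1 := by
  have h1 := H26_lin_le ι0 a b
  have h2 := H26_lin_le ι0 a (-b)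
  refine (H26_unit_pair _ _ h1 h2 ?_).1
  rw [← map_mul]
  have e : ((a : Qb) + b * r0.s) * ((a : Qb) + ((-b : ℤ) : Qb) * r0.s) = ((a ^ 2 + 2 * b ^ 2 : ℤ) : Qb) := by
    push_cast
    linear_combination (-(b : Qb) ^ 2) * r0.hs
  rw [e, map_intCast]
  exact H26_int_unit _ h

private theorem H26_rt_neg {w : Qb} (hw : Rt w) : Rt (-w) := by
  unfold Rt at *
  linear_combination hw

private theorem H26_cls (ι0 : Qb →ₐ[ℚ] Cq 193) (τ0 : GLq 193) (hτ0 : IsIner τ0)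
    (hmove : ∀ c : Cq 193, c ^ 3 = ((193 : ℕ) : Cq 193) → τ0 c ≠ c) (g0 : GQ) (hg0 : Restr ι0 τ0 g0)
    (D : Fin 4 → ℤ) (w : Qb) (hw : Rt w) (θ : Qb) (hθ : θ ^ 3 = ev D w ^ 2 * ev D (-w)) (k : ℤ)
    (hk : g0 θ = r0.z ^ k * θ) (hs : nm 193 (ι0 (ev D w + ev D (-w))) = 1) :
    (nm 193 (ι0 (ev D w * ev D (-w))) = 1 → 3 ∣ k) ∧
      (nm 193 (ι0 (ev D w * ev D (-w))) = (193 : ℝ)⁻¹ → ¬ 3 ∣ k) := by
  have i1 := H_int ι0 D w hw
  have i2 := H_int ι0 D (-w) (H26_rt_neg hw)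
  rw [map_mul, map_add] at *
  have hZ : nm 193 (ι0 (ev D w ^ 2 * ev D (-w))) = nm 193 (ι0 (ev D w)) ^ 2 * nm 193 (ι0 (ev D (-w))) := by
    rw [map_mul, map_pow, H26_nm_mul, H26_nm_pow]
  constructor
  · intro h
    obtain ⟨h1, h2⟩ := H26_unit_pair _ _ i1 i2 h
    have := H26_key ι0 τ0 hτ0 hmove g0 hg0 θ _ hθ 0 (by rw [hZ, h1, h2]; norm_num) k hk
    exact this.mp (dvd_zero 3)
  · intro h
    rcases H26_val_pair _ _ i1 i2 h hs with ⟨h1, h2⟩ | ⟨h1, h2⟩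
    · have := H26_key ι0 τ0 hτ0 hmove g0 hg0 θ _ hθ 1 (by rw [hZ, h1, h2]; norm_num) k hk
      rw [← this]; norm_num
    · have := H26_key ι0 τ0 hτ0 hmove g0 hg0 θ _ hθ 2 (by rw [hZ, h1, h2]; norm_num) k hk
      rw [← this]; norm_num

private theorem H26_comb {G : Type} [AddCommGroup G] (x y : G) (m n a1 b1 a2 b2 : ℤ) :
    (m * a1 + n * a2) • x + (m * b1 + n * b2) • y =
      m • (a1 • x + b1 • y) + n • (a2 • x + b2 • y) := by
  simp only [smul_add, add_smul, mul_smul]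
  abel

/-- the values of the two cocycles at the inertia element are independent -/
theorem H_indep (ι0 : Qb →ₐ[ℚ] Cq 193) (τ0 : GLq 193) (hτ0 : IsIner τ0)
    (hmove : ∀ c : Cq 193, c ^ 3 = ((193 : ℕ) : Cq 193) → τ0 c ≠ c) (g0 : GQ) (hg0 : Restr ι0 τ0 g0)
    (h1 h2 : GQ → Pt E0) (θ1 θ2 : Qb → Qb) (h13 : ∀ g, 3 • h1 g = 0) (h23 : ∀ g, 3 • h2 g = 0)
    (e1 : ∀ w, Rt w → θ1 w ^ 3 = ev D1 w ^ 2 * ev D1 (-w))
    (e2 : ∀ w, Rt w → θ2 w ^ 3 = ev D2 w ^ 2 * ev D2 (-w))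
    (f1 : ∀ g : GQ, g r0.u = r0.u → g r0.v = r0.v → ∀ a b : ℤ, h1 g = a • PA r0 + b • PB r0 →
        g (θ1 r0.u) = r0.z ^ a * θ1 r0.u ∧ g (θ1 r0.v) = r0.z ^ (-b) * θ1 r0.v)
    (f2 : ∀ g : GQ, g r0.u = r0.u → g r0.v = r0.v → ∀ a b : ℤ, h2 g = a • PA r0 + b • PB r0 →
        g (θ2 r0.u) = r0.z ^ a * θ2 r0.u ∧ g (θ2 r0.v) = r0.z ^ (-b) * θ2 r0.v)
    (m n : ℤ) (hmn : m • h1 g0 + n • h2 g0 = 0) : 3 ∣ m ∧ 3 ∣ n := by
  obtain ⟨fu, fv⟩ := L_frame (by norm_num) (by norm_num) τ0 hτ0 (r0.map (ι0 : Qb →+* Cq 193))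
  have gu : g0 r0.u = r0.u := by
    apply ι0.toRingHom.injective
    exact (hg0 r0.u).trans fu
  have gv : g0 r0.v = r0.v := by
    apply ι0.toRingHom.injective
    exact (hg0 r0.v).trans fv
  obtain ⟨a1, b1, q1⟩ := H_T3 r0 (h1 g0) (h13 g0)
  obtain ⟨a2, b2, q2⟩ := H_T3 r0 (h2 g0) (h23 g0)
  obtain ⟨s1, t1⟩ := f1 g0 gu gv a1 b1 q1
  obtain ⟨s2, t2⟩ := f2 g0 gu gv a2 b2 q2
  have hu : Rt r0.u := (H_rt r0 _).mpr (Or.inl rfl)
  have hv : Rt r0.v := (H_rt r0 _).mpr (Or.inr (Or.inr (Or.inl rfl)))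
  have es := r0.hs
  have eu := r0.hu
  have ev' := r0.hv
  -- sums
  have su1 : ev D1 r0.u + ev D1 (-r0.u) = ((2 : ℤ) : Qb) + ((-4 : ℤ) : Qb) * r0.s := by
    simp only [ev, D1]; simp; linear_combination 4 * eu
  have sv1 : ev D1 r0.v + ev D1 (-r0.v) = ((2 : ℤ) : Qb) + ((4 : ℤ) : Qb) * r0.s := by
    simp only [ev, D1]; simp; linear_combination 4 * ev'
  have su2 : ev D2 r0.u + ev D2 (-r0.u) = ((-6 : ℤ) : Qb) + ((-16 : ℤ) : Qb) * r0.s := by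
    simp only [ev, D2]; simp; linear_combination 16 * eu
  have sv2 : ev D2 r0.v + ev D2 (-r0.v) = ((-6 : ℤ) : Qb) + ((16 : ℤ) : Qb) * r0.s := by
    simp only [ev, D2]; simp; linear_combination 16 * ev'
  have u4 : r0.u ^ 4 = 2 + 4 * r0.s := by linear_combination (r0.u ^ 2 - 2 - r0.s) * eu + es
  have u6 : r0.u ^ 6 = 4 - 10 * r0.s := by
    linear_combination r0.u ^ 2 * u4 + (2 + 4 * r0.s) * eu - 4 * es
  have v4 : r0.v ^ 4 = 2 - 4 * r0.s := by linear_combination (r0.v ^ 2 - 2 + r0.s) * ev' + es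
  have v6 : r0.v ^ 6 = 4 + 10 * r0.s := by
    linear_combination r0.v ^ 2 * v4 + (2 - 4 * r0.s) * ev' - 4 * es
  have pu1 : ev D1 r0.u * ev D1 (-r0.u) = ((-11 : ℤ) : Qb) + ((6 : ℤ) : Qb) * r0.s := by
    simp only [ev, D1]; simp; linear_combination 20 * eu + 4 * u4 - u6
  have pv1 : ev D1 r0.v * ev D1 (-r0.v) = ((-11 : ℤ) : Qb) + ((-6 : ℤ) : Qb) * r0.s := by
    simp only [ev, D1]; simp; linear_combination 20 * ev' + 4 * v4 - v6
  have pu2 : ev D2 r0.u * ev D2 (-r0.u) = ((-11 : ℤ) : Qb) + ((-6 : ℤ) : Qb) * r0.s := by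
    simp only [ev, D2]; simp; linear_combination 64 * eu - 8 * u4 - 9 * u6
  have pv2 : ev D2 r0.v * ev D2 (-r0.v) = ((-11 : ℤ) : Qb) + ((6 : ℤ) : Qb) * r0.s := by
    simp only [ev, D2]; simp; linear_combination 64 * ev' - 8 * v4 - 9 * v6
  have c1u := H26_cls ι0 τ0 hτ0 hmove g0 hg0 D1 _ hu _ (e1 _ hu) _ s1
    (by rw [su1]; exact H26_lin_unit ι0 _ _ (by norm_num))
  have c1v := H26_cls ι0 τ0 hτ0 hmove g0 hg0 D1 _ hv _ (e1 _ hv) _ t1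
    (by rw [sv1]; exact H26_lin_unit ι0 _ _ (by norm_num))
  have c2u := H26_cls ι0 τ0 hτ0 hmove g0 hg0 D2 _ hu _ (e2 _ hu) _ s2
    (by rw [su2]; exact H26_lin_unit ι0 _ _ (by norm_num))
  have c2v := H26_cls ι0 τ0 hτ0 hmove g0 hg0 D2 _ hv _ (e2 _ hv) _ t2
    (by rw [sv2]; exact H26_lin_unit ι0 _ _ (by norm_num))
  rw [pu1] at c1u
  rw [pv1] at c1v
  rw [pu2] at c2u
  rw [pv2] at c2v
  have hp : nm 193 (ι0 (((-11 : ℤ) : Qb) + ((6 : ℤ) : Qb) * r0.s) *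
      ι0 (((-11 : ℤ) : Qb) + ((-6 : ℤ) : Qb) * r0.s)) = (193 : ℝ)⁻¹ := by
    rw [← map_mul]
    have e : (((-11 : ℤ) : Qb) + ((6 : ℤ) : Qb) * r0.s) * (((-11 : ℤ) : Qb) + ((-6 : ℤ) : Qb) * r0.s) =
        ((193 : ℕ) : Qb) := by
      push_cast
      linear_combination -36 * es
    rw [e, map_natCast]
    exact H26_nm193
  have hsum : nm 193 (ι0 (((-11 : ℤ) : Qb) + ((6 : ℤ) : Qb) * r0.s) +
      ι0 (((-11 : ℤ) : Qb) + ((-6 : ℤ) : Qb) * r0.s)) = 1 := by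
    rw [← map_add]
    have e : (((-11 : ℤ) : Qb) + ((6 : ℤ) : Qb) * r0.s) + (((-11 : ℤ) : Qb) + ((-6 : ℤ) : Qb) * r0.s) =
        ((-22 : ℤ) : Qb) + ((0 : ℤ) : Qb) * r0.s := by
      push_cast
      ring
    rw [e]
    exact H26_lin_unit ι0 _ _ (by norm_num)
  have hq : (m * a1 + n * a2) • PA r0 + (m * b1 + n * b2) • PB r0 = 0 := by
    rw [← hmn, q1, q2]
    exact H26_comb _ _ _ _ _ _ _ _
  obtain ⟨d1, d2⟩ := H_T4 r0 _ _ hq
  have p3 : Prime (3 : ℤ) := Int.prime_three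
  rcases H26_val_pair _ _ (H26_lin_le ι0 _ _) (H26_lin_le ι0 _ _) hp hsum with ⟨x1, x2⟩ | ⟨x1, x2⟩
  · -- C1(u) unit
    have k1 : 3 ∣ a1 := c1u.1 x1
    have k2 : ¬ 3 ∣ b1 := fun h => c1v.2 x2 ((dvd_neg).mpr h)
    have k3 : ¬ 3 ∣ a2 := c2u.2 x2
    have k4 : 3 ∣ b2 := (dvd_neg).mp (c2v.1 x1)
    have l1 : 3 ∣ n * a2 := (dvd_add_right (Dvd.dvd.mul_left k1 m)).mp d1
    have l2 : 3 ∣ m * b1 := (dvd_add_left (Dvd.dvd.mul_left k4 n)).mp d2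
    exact ⟨(p3.dvd_or_dvd l2).resolve_right k2, (p3.dvd_or_dvd l1).resolve_right k3⟩
  · have k1 : ¬ 3 ∣ a1 := c1u.2 x1
    have k2 : 3 ∣ b1 := (dvd_neg).mp (c1v.1 x2)
    have k3 : 3 ∣ a2 := c2u.1 x2
    have k4 : ¬ 3 ∣ b2 := fun h => c2v.2 x1 ((dvd_neg).mpr h)
    have l1 : 3 ∣ m * a1 := (dvd_add_left (Dvd.dvd.mul_left k3 n)).mp d1
    have l2 : 3 ∣ n * b2 := (dvd_add_right (Dvd.dvd.mul_left k2 m)).mp d2
    exact ⟨(p3.dvd_or_dvd l1).resolve_right k1, (p3.dvd_or_dvd l2).resolve_right k4⟩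

end KE16
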