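import Pool.Agent.LibKE16.H20
import Pool.Agent.LibKE16.H25
import Pool.Agent.LibKE16.H26
import Pool.Agent.LibKE16.H10

/-!
# [KE16 H27] MEDIUM

Plan. Fix any ι0 : Qb →ₐ[ℚ] Cq 193 (IsAlgClosed.lift), τ0 of L_tame, g0 of L_restr. Injection W → E[3] (9 elements: H_T3/H_T4): s ↦ h_s g0 with h_s chosen by
H_W; if h_s g0 = h_t g0 then s - t has the cocycle f_s - f_t with hat h_s - h_t (H_lin with a = 1, b = -1) vanishing at g0, so s - t = 0 by H_inj. Injection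
{0,1,2}² → W: (m,n) ↦ cl(m f1 + n f2) (H_con for D1, D2, H_class, H_lin, H_W'); if two of them are equal, then cl(m f1 + n f2) = 0 with |m|,|n| ≤ 2, so by H_cl0 it
is ∂P, P Tor; H_uniq (f = 0, h = 0): m h1 + n h2 = ∂P on GQ; at g0: gal g0 P = P (L_tor), so m h1 g0 + n h2 g0 = 0, H_indep: 3 ∣ m, n. Nat.card = 9.
-/

open WeierstrassCurve

namespace KE16

private theorem H27_hat0 : IsHat (0 : NN → Pt E0) ⊤ (0 : GQ → Pt E0) := by
  refine ⟨le_top, ?_, ?_, ?_, ?_⟩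
  · intro g _
    exact ⟨0, by simp⟩
  · intro g _ g' _
    simp
  · intro σ
    rfl
  · exact ⟨⊥, inferInstance, fun g _ _ => rfl⟩

private theorem H27_three {G : Type} [AddCommGroup G] (x y : G) (m n : ℤ) (hx : 3 • x = 0)
    (hy : 3 • y = 0) : 3 • (m • x + n • y) = 0 := by
  rw [smul_add, smul_comm, hx, smul_comm, hy, smul_zero, smul_zero, add_zero]

private theorem H27_sub {G : Type} [AddCommGroup G] (x y : G) (a b a' b' : ℤ) (hx : 3 • x = 0)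
    (hy : 3 • y = 0) (h1 : (a : ZMod 3) = a') (h2 : (b : ZMod 3) = b') :
    (1 : ℤ) • (a • x + b • y) + (-1 : ℤ) • (a' • x + b' • y) = 0 := by
  have e1 : (3 : ℤ) ∣ a - a' := by
    refine (ZMod.intCast_zmod_eq_zero_iff_dvd (a - a') 3).mp ?_
    push_cast
    rw [h1, sub_self]
  have e2 : (3 : ℤ) ∣ b - b' := by
    refine (ZMod.intCast_zmod_eq_zero_iff_dvd (b - b') 3).mp ?_
    push_cast
    rw [h2, sub_self]
  obtain ⟨c, hc⟩ := e1
  obtain ⟨d, hd⟩ := e2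
  have hx' : (3 : ℤ) • x = 0 := by exact_mod_cast hx
  have hy' : (3 : ℤ) • y = 0 := by exact_mod_cast hy
  have : (1 : ℤ) • (a • x + b • y) + (-1 : ℤ) • (a' • x + b' • y) = (a - a') • x + (b - b') • y := by
    rw [sub_smul, sub_smul, one_smul, neg_smul, one_smul]
    abel
  rw [this, hc, hd, mul_comm, mul_smul, hx', mul_comm, mul_smul, hy', smul_zero, smul_zero, add_zero]

private theorem H27_sub3 {G : Type} [AddCommGroup G] (x y : G) (hx : 3 • x = 0) (hy : 3 • y = 0) :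
    3 • (x - y) = 0 := by
  rw [smul_sub, hx, hy, sub_zero]

private theorem H27_one {G : Type} [AddCommGroup G] (x y : G) :
    (1 : ℤ) • x + (-1 : ℤ) • y = x - y := by
  rw [one_smul, neg_smul, one_smul, sub_eq_add_neg]

private theorem H27_e {G : Type} [AddCommGroup G] (x y : G) (m n m' n' : ℤ) :
    (m - m') • x + (n - n') • y = (m • x + n • y) - (m' • x + n' • y) := by
  rw [sub_smul, sub_smul]
  abel

/-- `W` has 9 elements -/
theorem H_card : Nat.card {s : Sel E0 3 193 // 3 • s = 0 ∧ ∀ g : GQ, gS E0 3 193 g s = s} = 9 := by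
  classical
  have : Algebra.IsAlgebraic ℚ Qb := AlgebraicClosure.isAlgebraic ℚ
  obtain ⟨ι0⟩ : Nonempty (Qb →ₐ[ℚ] Cq 193) := ⟨IsAlgClosed.lift⟩
  obtain ⟨τ0, hτ0, hmove⟩ := L_tame (q := 193) (by norm_num)
  obtain ⟨g0, hg0⟩ := L_restr ι0 τ0
  have t1 := (H_T1 r0).1
  have t2 := (H_T1 r0).2
  -- the upper bound
  have hex : ∀ s : {s : Sel E0 3 193 // 3 • s = 0 ∧ ∀ g : GQ, gS E0 3 193 g s = s},
      ∃ f : SelZ E0 3 193, cl E0 3 193 f = s.1 ∧ ∃ h : GQ → Pt E0, IsHat f.1.1 ⊤ h ∧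
        ∃ a b : ℤ, h g0 = a • PA r0 + b • PB r0 := by
    intro s
    obtain ⟨f, hf, h, hh, h3⟩ := H_W s.1 s.2
    exact ⟨f, hf, h, hh, H_T3 r0 (h g0) (h3 g0)⟩
  choose F hF H hH A B hAB using hex
  have hinj : Function.Injective (fun s => (((A s : ℤ) : ZMod 3), ((B s : ℤ) : ZMod 3))) := by
    intro s t hst
    have e1 : ((A s : ℤ) : ZMod 3) = A t := (Prod.mk.inj hst).1
    have e2 : ((B s : ℤ) : ZMod 3) = B t := (Prod.mk.inj hst).2
    have hs0 : s.1 - t.1 = 0 := by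
      refine H_inj (s.1 - t.1) ⟨?_, ?_⟩ ((1 : ℤ) • F s + (-1 : ℤ) • F t) ?_
        ((1 : ℤ) • H s + (-1 : ℤ) • H t) ?_ ι0 τ0 hτ0 hmove g0 hg0 ?_
      · exact H27_sub3 (G := Sel E0 3 193) s.1 t.1 s.2.1 t.2.1
      · intro g
        rw [map_sub, s.2.2, t.2.2]
      · rw [H27_one, map_sub, hF, hF]
      · exact H_lin _ _ ⊤ _ _ (hH s) (hH t) 1 (-1)
      · change (1 : ℤ) • H s g0 + (-1 : ℤ) • H t g0 = 0
        rw [hAB, hAB]
        exact H27_sub _ _ _ _ _ _ t1 t2 e1 e2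
    exact Subtype.ext (sub_eq_zero.mp hs0)
  have hfin : Finite {s : Sel E0 3 193 // 3 • s = 0 ∧ ∀ g : GQ, gS E0 3 193 g s = s} :=
    Finite.of_injective _ hinj
  have hle : Nat.card {s : Sel E0 3 193 // 3 • s = 0 ∧ ∀ g : GQ, gS E0 3 193 g s = s} ≤ 9 := by
    have h := Nat.card_le_card_of_injective _ hinj
    rw [Nat.card_prod, Nat.card_zmod] at h
    exact h
  -- the lower bound
  obtain ⟨h1, θ1, c1, k1, m1, e1, f1⟩ := H_con D1 (fun w hw => (H_D0 w hw).1)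
  obtain ⟨h2, θ2, c2, k2, m2, e2, f2⟩ := H_con D2 (fun w hw => (H_D0 w hw).2)
  obtain ⟨φ1, i1⟩ := H_class D1 (Or.inl rfl) h1 θ1 c1 k1 m1 e1 f1
  obtain ⟨φ2, i2⟩ := H_class D2 (Or.inr rfl) h2 θ2 c2 k2 m2 e2 f2
  have hW : ∀ m n : ℤ, InW (cl E0 3 193 (m • φ1 + n • φ2)) := by
    intro m n
    refine H_W' (m • φ1 + n • φ2) (m • h1 + n • h2) (H_lin _ _ ⊤ _ _ i1 i2 m n) ?_
    intro g
    exact H27_three _ _ _ _ (m1 g) (m2 g)
  have hker : ∀ m n : ℤ, cl E0 3 193 (m • φ1 + n • φ2) = 0 → 3 ∣ m ∧ 3 ∣ n := by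
    intro m n h0
    obtain ⟨P, hP, hσ⟩ := H_cl0 _ h0
    have hu := H_uniq 0 (m • φ1.1.1 + n • φ2.1.1) ⊤ 0 (m • h1 + n • h2) H27_hat0
      (H_lin _ _ ⊤ _ _ i1 i2 m n) P hP (by
        intro σ
        rw [Pi.zero_apply, zero_add]
        exact hσ σ) g0 trivial
    rw [L_tor (by norm_num) (by norm_num) ι0 τ0 hτ0 g0 hg0 P hP, sub_self, Pi.zero_apply, add_zero] at hu
    exact H_indep ι0 τ0 hτ0 hmove g0 hg0 h1 h2 θ1 θ2 m1 m2 e1 e2 f1 f2 m n hu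
  have hinj2 : Function.Injective (fun x : Fin 3 × Fin 3 =>
      (⟨cl E0 3 193 (((x.1 : ℕ) : ℤ) • φ1 + ((x.2 : ℕ) : ℤ) • φ2), hW _ _⟩ :
        {s : Sel E0 3 193 // 3 • s = 0 ∧ ∀ g : GQ, gS E0 3 193 g s = s})) := by
    intro x y hxy
    have h := congrArg Subtype.val hxy
    have h0 : cl E0 3 193 ((((x.1 : ℕ) : ℤ) - ((y.1 : ℕ) : ℤ)) • φ1 +
        (((x.2 : ℕ) : ℤ) - ((y.2 : ℕ) : ℤ)) • φ2) = 0 := by
      rw [H27_e, map_sub]
      exact sub_eq_zero.mpr h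
    obtain ⟨d1, d2⟩ := hker _ _ h0
    have b1 := x.1.2
    have b2 := x.2.2
    have b3 := y.1.2
    have b4 := y.2.2
    refine Prod.ext (Fin.ext ?_) (Fin.ext ?_) <;> omega
  have hge : 9 ≤ Nat.card {s : Sel E0 3 193 // 3 • s = 0 ∧ ∀ g : GQ, gS E0 3 193 g s = s} := by
    have h := Nat.card_le_card_of_injective _ hinj2
    rw [Nat.card_prod, Nat.card_eq_fintype_card, Fintype.card_fin] at h
    exact h
  exact le_antisymm hle hge

end KE16
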