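import Pool.Agent.LibKE16.H20
import Pool.Agent.LibKE16.H10
import Pool.Agent.LibKE16.IfaceL

/-!
# [KE16 H28] STRONG

Plan. Let S = {g | gS g s = s} (subgroup, NN ≤ S by H_NN) and f, h := H_S s S. Let τ0 ∈ GLq 193 be an element of L_tame, g0 its restriction under ι; g0 fixes the 3-power
roots of unity (L_root), so g0 ∈ S by hs. g0^192 ∈ NN: g0 acts on the 193-th roots of unity by ζ ↦ ζ^a and a^192 = 1 mod 193; Restr ι (τ0^192) (g0^192), τ0^192 inertial; so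
h(g0^192) = f(g0^192) = 0 (L_red). g0 acts trivially on E[3^∞] (L_tor), so 192 h(g0) = 0, and h g0 is Tor, 192 = 3·64: 3 h g0 = 0. The class 3 s ∈ W is represented by 3 f with hat
3 h on S; extend: H_S (3s) ⊤ gives f', h' and f' - 3f = ∂P, H_uniq on S: h' g0 = 3 h g0 + (g0 P - P) = 0. So 3 s = 0 by H_inj.
Now t := gS g1 s - s ∈ W: represented by cjS g1 f - f, whose value on elements: hat on S: h''(g) = gal g1 (h(g1⁻¹ g g1)) - h g (S is normal in ⟨S, g1⟩: g1⁻¹ S g1 ⊆ S since Gal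
acts through an abelian group: gS g1⁻¹gg1 s = s because NN ∋ commutators, H_comm, H_NN). At g0: g1⁻¹ g0 g1 = k g0 with k := g1⁻¹ g0 g1 g0⁻¹ ∈ NN (H_comm), k is the restriction of
φ⁻¹ τ0 φ τ0⁻¹ which is inertial (L_comm applied to φ⁻¹, τ0); h(k g0) = f k + gal k (h g0) = 0 + h g0 (L_red, L_tor). And 3 h g0 = 0 and g1 acts trivially on E[3] (L_split for r0.map ι, H_act,
H_T3). So h''(g0) = h g0 - h g0 = 0 and t = 0 by H_inj (transfer to a hat on ⊤ as before: H_S t ⊤, H_uniq on S).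
-/

open WeierstrassCurve

namespace KE16

/-! ### Auxiliary lemmas -/

private theorem transfer (t : Sel E0 3 193) (ht : InW t) (f : SelZ E0 3 193)
    (hf : cl E0 3 193 f = t) (S : Subgroup GQ) (h : GQ → Pt E0) (hh : IsHat f.1.1 S h)
    (ι0 : Qb →ₐ[ℚ] Cq 193) (τ0 : GLq 193) (hτ0 : IsIner τ0)
    (hmove : ∀ c : Cq 193, c ^ 3 = ((193 : ℕ) : Cq 193) → τ0 c ≠ c) (g0 : GQ)
    (hg0 : Restr ι0 τ0 g0) (hS : g0 ∈ S) (hv : h g0 = 0) : t = 0 := by
  obtain ⟨f', hf', h', hh'⟩ := H_S t ⊤ le_top (fun g _ ↦ ht.2 g)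
  have hc : cl E0 3 193 (f' - f) = 0 := by rw [map_sub, hf, hf', sub_self]
  obtain ⟨P, hP, hPf⟩ := H_cl0 _ hc
  have hh'' : IsHat f'.1.1 S h' := by
    obtain ⟨-, a2, a3, a4, L, hL, a5⟩ := hh'
    exact ⟨hh.1, fun g _ ↦ a2 g trivial, fun g _ g' _ ↦ a3 g trivial g' trivial, a4, L, hL,
      fun g _ ↦ a5 g trivial⟩
  have key := H_uniq f.1.1 f'.1.1 S h h' hh hh'' P hP (by
    intro σ
    rw [← hPf σ]
    change f'.1.1 σ = f.1.1 σ + (f'.1.1 σ - f.1.1 σ)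
    abel) g0 hS
  refine H_inj t ht f' hf' h' hh' ι0 τ0 hτ0 hmove g0 hg0 ?_
  rw [key, hv, L_tor (by norm_num) (by norm_num) ι0 τ0 hτ0 g0 hg0 P hP, sub_self, add_zero]

private theorem iner_one {q : ℕ} [Fact q.Prime] : IsIner (1 : GLq q) := by
  intro x _
  change ‖(x : PadicAlgCl q) - x‖ < 1
  rw [sub_self, norm_zero]
  norm_num

private theorem iner_mul {q : ℕ} [Fact q.Prime] (τ σ : GLq q) (h1 : IsIner τ) (h2 : IsIner σ) :
    IsIner (τ * σ) := by
  intro x hx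
  have hσx : ‖(σ x : PadicAlgCl q)‖ ≤ 1 := by
    have := L_nm σ x
    unfold nm at this
    rw [this]; exact hx
  have e1 := h1 (σ x) hσx
  have e2 := h2 x hx
  have e3 : ((τ * σ) x : PadicAlgCl q) - x = ((τ (σ x) : PadicAlgCl q) - σ x) + ((σ x : PadicAlgCl q) - x) := by
    change (τ (σ x) : PadicAlgCl q) - x = _
    ring
  rw [e3]
  exact lt_of_le_of_lt (PadicAlgCl.isNonarchimedean q _ _) (max_lt e1 e2)

private theorem restr_one {q : ℕ} [Fact q.Prime] (ι : Qb →ₐ[ℚ] Cq q) : Restr ι 1 1 := by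
  intro x; rfl

private theorem restr_mul {q : ℕ} [Fact q.Prime] (ι : Qb →ₐ[ℚ] Cq q) (τ σ : GLq q) (g h : GQ)
    (h1 : Restr ι τ g) (h2 : Restr ι σ h) : Restr ι (τ * σ) (g * h) := by
  intro x
  change ι (g (h x)) = τ (σ (ι x))
  rw [h1, h2]

private theorem restr_inv {q : ℕ} [Fact q.Prime] (ι : Qb →ₐ[ℚ] Cq q) (τ : GLq q) (g : GQ)
    (h1 : Restr ι τ g) : Restr ι τ⁻¹ g⁻¹ := by
  intro x
  have h2 := h1 (g⁻¹ x)
  have h3 : g (g⁻¹ x) = x := AlgEquiv.apply_symm_apply g x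
  rw [h3] at h2
  rw [h2]
  exact (AlgEquiv.symm_apply_apply τ _).symm

private theorem iner_pow {q : ℕ} [Fact q.Prime] (τ : GLq q) (h : IsIner τ) (n : ℕ) :
    IsIner (τ ^ n) := by
  induction n with
  | zero => rw [pow_zero]; exact iner_one
  | succ n ih => rw [pow_succ]; exact iner_mul _ _ ih h

private theorem restr_pow {q : ℕ} [Fact q.Prime] (ι : Qb →ₐ[ℚ] Cq q) (τ : GLq q) (g : GQ)
    (h : Restr ι τ g) (n : ℕ) : Restr ι (τ ^ n) (g ^ n) := by
  induction n with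
  | zero => rw [pow_zero, pow_zero]; exact restr_one ι
  | succ n ih => rw [pow_succ, pow_succ]; exact restr_mul ι _ _ _ _ ih h

private theorem fr_ext {F : Type} [Field F] (r r' : Fr F) (h1 : r.s = r'.s) (h2 : r.u = r'.u)
    (h3 : r.v = r'.v) : r = r' := by
  cases r; cases r'
  simp only at h1 h2 h3
  subst h1; subst h2; subst h3
  rfl

/-- an automorphism which fixes the frame acts trivially on `E[3]` -/
private theorem triv3 (g : GQ) (hu : g r0.u = r0.u) (hv : g r0.v = r0.v) (P : Pt E0)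
    (hP : 3 • P = 0) : gal E0 g P = P := by
  have hs : g r0.s = r0.s := by
    have e : r0.s = -2 - r0.u ^ 2 := by rw [r0.hu]; ring
    rw [e, map_sub, map_pow, hu, map_neg, map_ofNat]
  have hr : r0.map (((g : Qb →ₐ[ℚ] Qb)) : Qb →+* Qb) = r0 := fr_ext _ _ hs hu hv
  obtain ⟨a, b, rfl⟩ := H_T3 r0 P hP
  have h1 := H_map (g : Qb →ₐ[ℚ] Qb) r0
  rw [hr] at h1
  rw [map_add, map_zsmul, map_zsmul]
  unfold gal
  rw [h1.1, h1.2]

private theorem tor_sub (P Q : Pt E0) (hP : Tor P) (hQ : Tor Q) : Tor (P - Q) := by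
  obtain ⟨k, hk⟩ := hP
  obtain ⟨l, hl⟩ := hQ
  refine ⟨k + l, ?_⟩
  rw [nsmul_sub, pow_add, mul_nsmul, hk, mul_comm (3 ^ k), mul_nsmul, hl]
  simp

private theorem tor_gal (g : GQ) (P : Pt E0) (hP : Tor P) : Tor (gal E0 g P) := by
  obtain ⟨k, hk⟩ := hP
  exact ⟨k, by rw [← map_nsmul, hk, map_zero]⟩

/-- the stabiliser of a class -/
private noncomputable def Stab (s : Sel E0 3 193) : Subgroup GQ where
  carrier := {g | gS E0 3 193 g s = s}
  mul_mem' := by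
    intro a b ha hb
    change gS E0 3 193 (a * b) s = s
    rw [gS_mul, hb, ha]
  one_mem' := gS_one E0 3 193 s
  inv_mem' := by
    intro a ha
    change gS E0 3 193 a⁻¹ s = s
    have ha' : gS E0 3 193 a s = s := ha
    calc gS E0 3 193 a⁻¹ s = gS E0 3 193 a⁻¹ (gS E0 3 193 a s) := by rw [ha']
      _ = gS E0 3 193 (a⁻¹ * a) s := (gS_mul E0 3 193 _ _ s).symm
      _ = s := by rw [inv_mul_cancel, gS_one]

private theorem mem_Stab (s : Sel E0 3 193) (g : GQ) : g ∈ Stab s ↔ gS E0 3 193 g s = s := Iff.rfl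

private theorem NN_le_Stab (s : Sel E0 3 193) : NN ≤ Stab s := fun g hg ↦ H_NN ⟨g, hg⟩ s

private theorem Stab_conj (s : Sel E0 3 193) (g1 g : GQ) (hg : g ∈ Stab s) :
    g1⁻¹ * g * g1 ∈ Stab s := by
  have h1 := H_comm g1⁻¹ g
  have h2 := (Stab s).mul_mem (NN_le_Stab s h1) hg
  have e : g1⁻¹ * g * g1⁻¹⁻¹ * g⁻¹ * g = g1⁻¹ * g * g1 := by group
  rw [e] at h2
  exact h2

/-- `g^192` fixes the roots of unity of order `193 · 3ⁿ` if `g` fixes those of order `3ⁿ` -/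
private theorem pow192 (g : GQ) (hg : ∀ (n : ℕ) (ζ : Qb), ζ ^ 3 ^ n = 1 → g ζ = ζ) :
    g ^ 192 ∈ NN := by
  intro n ζ hζ
  have fixpow : ∀ (x : Qb), g x = x → ∀ k : ℕ, (g ^ k) x = x := by
    intro x hx k
    induction k with
    | zero => rfl
    | succ k ih => rw [pow_succ]; change (g ^ k) (g x) = x; rw [hx, ih]
  -- the 193-part
  have h193 : ∀ x : Qb, x ^ 193 = 1 → (g ^ 192) x = x := by
    intro x hx
    by_cases h1 : x = 1
    · rw [h1, map_one]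
    have hp : IsPrimitiveRoot x 193 := by
      have h2 : orderOf x = 193 := by
        rcases (Nat.dvd_prime fact193.out).mp (orderOf_dvd_of_pow_eq_one hx) with h | h
        · exact absurd (orderOf_eq_one_iff.mp h) h1
        · exact h
      rw [← h2]
      exact IsPrimitiveRoot.orderOf x
    obtain ⟨a, ha, hax⟩ := hp.eq_pow_of_pow_eq_one (ξ := g x) (by rw [← map_pow, hx, map_one])
    have hk : ∀ k : ℕ, (g ^ k) x = x ^ (a ^ k) := by
      intro k
      induction k with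
      | zero => rw [pow_zero, pow_zero, pow_one]; rfl
      | succ k ih =>
        rw [pow_succ]
        change (g ^ k) (g x) = _
        rw [← hax, map_pow, ih, ← pow_mul, pow_succ]
    rw [hk 192]
    have ha0 : ((a : ℕ) : ZMod 193) ≠ 0 := by
      intro h0
      rw [ZMod.natCast_eq_zero_iff] at h0
      obtain ⟨c, rfl⟩ := h0
      have : g x = 1 := by rw [← hax, pow_mul, hx, one_pow]
      exact h1 (g.injective (this.trans (map_one g).symm))
    have h2 : ((a ^ 192 : ℕ) : ZMod 193) = ((1 : ℕ) : ZMod 193) := by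
      push_cast
      exact ZMod.pow_card_sub_one_eq_one (p := 193) ha0
    rw [ZMod.natCast_eq_natCast_iff] at h2
    have h3 : x ^ (a ^ 192) = x ^ 1 := pow_eq_pow_of_modEq h2 hx
    rw [h3, pow_one]
  -- decomposition
  have hcop : IsCoprime ((3 ^ n : ℕ) : ℤ) ((193 : ℕ) : ℤ) := by
    rw [Nat.isCoprime_iff_coprime]
    exact Nat.Coprime.pow_left n (by norm_num)
  obtain ⟨c, d, hcd⟩ := hcop
  have hζ0 : ζ ≠ 0 := by
    intro h0
    rw [h0, zero_pow (by positivity)] at hζ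
    exact zero_ne_one hζ
  have hz : ζ = (ζ ^ (3 ^ n : ℕ)) ^ c * (ζ ^ (193 : ℕ)) ^ d := by
    rw [← zpow_natCast ζ (3 ^ n), ← zpow_natCast ζ 193, ← zpow_mul, ← zpow_mul,
      ← zpow_add₀ hζ0]
    have : ((3 ^ n : ℕ) : ℤ) * c + ((193 : ℕ) : ℤ) * d = 1 := by linarith
    rw [this, zpow_one]
  have e1 : (g ^ 192) (ζ ^ (3 ^ n : ℕ)) = ζ ^ (3 ^ n : ℕ) :=
    h193 _ (by rw [← pow_mul, mul_comm]; exact hζ)
  have e2 : (g ^ 192) (ζ ^ (193 : ℕ)) = ζ ^ (193 : ℕ) :=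
    fixpow _ (hg n _ (by rw [← pow_mul]; exact hζ)) 192
  calc (g ^ 192) ζ = (g ^ 192) ((ζ ^ (3 ^ n : ℕ)) ^ c * (ζ ^ (193 : ℕ)) ^ d) := by rw [← hz]
    _ = ((g ^ 192) (ζ ^ (3 ^ n : ℕ))) ^ c * ((g ^ 192) (ζ ^ (193 : ℕ))) ^ d := by
      rw [map_mul, map_zpow₀, map_zpow₀]
    _ = ζ := by rw [e1, e2, ← hz]

private theorem three_of (P : Pt E0) (hP : Tor P) (h : 192 • P = 0) : 3 • P = 0 := by
  obtain ⟨k, hk⟩ := hP
  rw [← addOrderOf_dvd_iff_nsmul_eq_zero] at hk h ⊢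
  have hc : Nat.Coprime (addOrderOf P) 64 := by
    refine Nat.Coprime.coprime_dvd_left hk ?_
    exact Nat.Coprime.pow_left k (by norm_num)
  have e : 192 = 64 * 3 := by norm_num
  rw [e] at h
  exact hc.dvd_of_dvd_mul_left h

/-- step (8) of the paper proof -/
theorem H_step (g1 : GQ) (hg : ∃ (ι : Qb →ₐ[ℚ] Cq 193) (φ : GLq 193), Restr ι φ g1)
    (s : Sel E0 3 193)
    (hs : ∀ g : GQ, (∀ (n : ℕ) (ζ : Qb), ζ ^ 3 ^ n = 1 → g ζ = ζ ∨ g ζ = ζ⁻¹) →
      gS E0 3 193 g s = s)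
    (h1 : ∀ g : GQ, gS E0 3 193 g (3 • s) = 3 • s) (h2 : 3 • (3 • s) = 0)
    (h3 : ∀ g : GQ, gS E0 3 193 g (gS E0 3 193 g1 s - s) = gS E0 3 193 g1 s - s)
    (h4 : 3 • (gS E0 3 193 g1 s - s) = 0) : 3 • s = 0 ∧ gS E0 3 193 g1 s = s := by
  obtain ⟨ι, φ, hφ⟩ := hg
  obtain ⟨τ0, hτ0, hmove⟩ := L_tame (q := 193) (by norm_num)
  obtain ⟨g0, hg0⟩ := L_restr ι τ0
  obtain ⟨f, hf, h, hh⟩ := H_S s (Stab s) (NN_le_Stab s) (fun g hg ↦ hg)
  -- `g0` fixes the `3`-power roots of unity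
  have hfix : ∀ (n : ℕ) (ζ : Qb), ζ ^ 3 ^ n = 1 → g0 ζ = ζ := by
    intro n ζ hζ
    apply ι.injective
    change ι (g0 ζ) = ι ζ
    rw [hg0 ζ]
    refine L_root τ0 hτ0 (3 ^ n) ?_ (ι ζ) (by rw [← map_pow, hζ, map_one])
    intro hd
    have := (Nat.Prime.dvd_of_dvd_pow fact193.out hd)
    norm_num at this
  have hg0S : g0 ∈ Stab s := hs g0 (fun n ζ hζ ↦ Or.inl (hfix n ζ hζ))
  have hT : ∀ P : Pt E0, Tor P → gal E0 g0 P = P :=
    fun P hP ↦ L_tor (by norm_num) (by norm_num) ι τ0 hτ0 g0 hg0 P hP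
  have hTh : Tor (h g0) := hh.2.1 g0 hg0S
  -- `h (g0^k) = k h g0`
  have hpow : ∀ k : ℕ, h (g0 ^ k) = k • h g0 := by
    intro k
    induction k with
    | zero =>
      rw [pow_zero, zero_nsmul]
      have := hh.2.2.1 1 (Stab s).one_mem 1 (Stab s).one_mem
      rw [mul_one, gal_one] at this
      exact left_eq_add.mp this
    | succ k ih =>
      rw [pow_succ', hh.2.2.1 g0 hg0S _ ((Stab s).pow_mem hg0S k), hT _ (hh.2.1 _ ((Stab s).pow_mem hg0S k)),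
        ih, succ_nsmul, add_comm]
  have h192 : g0 ^ 192 ∈ NN := pow192 g0 hfix
  have hz : h (g0 ^ 192) = 0 := by
    have e := hh.2.2.2.1 ⟨g0 ^ 192, h192⟩
    change h (g0 ^ 192) = _ at e
    rw [e]
    exact L_red (by norm_num) (by norm_num) f ι (τ0 ^ 192) (iner_pow τ0 hτ0 192) ⟨g0 ^ 192, h192⟩
      (restr_pow ι τ0 g0 hg0 192)
  have h3h : 3 • h g0 = 0 := three_of _ hTh (by rw [← hpow]; exact hz)
  constructor
  · -- `3 s = 0`
    have hl := H_lin f.1.1 f.1.1 (Stab s) h h hh hh 3 0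
    refine transfer (3 • s) ⟨h2, h1⟩ (3 • f) (by rw [map_nsmul, hf]) (Stab s) ((3 : ℤ) • h + (0 : ℤ) • h) ?_
      ι τ0 hτ0 hmove g0 hg0 hg0S ?_
    · have e : (3 • f : SelZ E0 3 193).1.1 = (3 : ℤ) • f.1.1 + (0 : ℤ) • f.1.1 := by
        rw [zero_zsmul, add_zero]
        change 3 • f.1.1 = (3 : ℤ) • f.1.1
        exact (natCast_zsmul f.1.1 3).symm
      rw [e]
      exact hl
    · change (3 : ℤ) • h g0 + (0 : ℤ) • h g0 = 0
      rw [zero_zsmul, add_zero]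
      rw [← h3h]
      exact natCast_zsmul (h g0) 3
  · -- `t = 0`
    have hconj := Stab_conj s g1
    have ht : gS E0 3 193 g1 s - s = 0 := by
      refine transfer _ ⟨h4, h3⟩ (cjS E0 3 193 g1 f - f) (by rw [map_sub, ← gS_cl, hf]) (Stab s)
        (fun g ↦ gal E0 g1 (h (g1⁻¹ * g * g1)) - h g) ?_ ι τ0 hτ0 hmove g0 hg0 hg0S ?_
      · obtain ⟨a1, a2, a3, a4, L, hL, a5⟩ := hh
        refine ⟨a1, ?_, ?_, ?_, ?_⟩
        · intro g hg
          exact tor_sub _ _ (tor_gal g1 _ (a2 _ (hconj g hg))) (a2 g hg)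
        · intro g hg g' hg'
          have e1 : g1⁻¹ * (g * g') * g1 = (g1⁻¹ * g * g1) * (g1⁻¹ * g' * g1) := by group
          change gal E0 g1 (h (g1⁻¹ * (g * g') * g1)) - h (g * g') =
            gal E0 g1 (h (g1⁻¹ * g * g1)) - h g + gal E0 g (gal E0 g1 (h (g1⁻¹ * g' * g1)) - h g')
          rw [e1, a3 _ (hconj g hg) _ (hconj g' hg'), a3 g hg g' hg', map_add, map_sub, ← gal_mul,
            ← gal_mul]
          have e2 : g1 * (g1⁻¹ * g * g1) = g * g1 := by group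
          rw [e2]
          abel
        · intro σ
          change gal E0 g1 (h (g1⁻¹ * (σ : GQ) * g1)) - h σ = gal E0 g1 (f.1.1 _) - f.1.1 σ
          have e := a4 ⟨g1⁻¹ * (σ : GQ) * g1, Kmul_conj 3 193 g1 σ⟩
          change h (g1⁻¹ * (σ : GQ) * g1) = _ at e
          rw [e, a4 σ]
        · have hL2 : FiniteDimensional ℚ (L.map (g1 : Qb →ₐ[ℚ] Qb)) :=
            IntermediateField.finiteDimensional_map (g1 : Qb →ₐ[ℚ] Qb)
          refine ⟨L ⊔ L.map (g1 : Qb →ₐ[ℚ] Qb), IntermediateField.finiteDimensional_sup L _, ?_⟩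
          intro g hg hx
          change gal E0 g1 (h (g1⁻¹ * g * g1)) - h g = 0
          rw [a5 g hg (fun x hxL ↦ hx x ((le_sup_left : L ≤ _) hxL)), a5 _ (hconj g hg), map_zero, sub_zero]
          intro x hxL
          change g1⁻¹ (g (g1 x)) = x
          rw [hx (g1 x) ((le_sup_right : L.map (g1 : Qb →ₐ[ℚ] Qb) ≤ _) ⟨x, hxL, rfl⟩)]
          exact AlgEquiv.symm_apply_apply g1 x
      · change gal E0 g1 (h (g1⁻¹ * g0 * g1)) - h g0 = 0
        have hk : g1⁻¹ * g0 * g1⁻¹⁻¹ * g0⁻¹ ∈ NN := H_comm g1⁻¹ g0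
        set k : GQ := g1⁻¹ * g0 * g1⁻¹⁻¹ * g0⁻¹ with hkdef
        have hkI : IsIner (φ⁻¹ * τ0 * φ⁻¹⁻¹ * τ0⁻¹) := L_comm φ⁻¹ τ0
        have hkR : Restr ι (φ⁻¹ * τ0 * φ⁻¹⁻¹ * τ0⁻¹) k :=
          restr_mul ι _ _ _ _ (restr_mul ι _ _ _ _ (restr_mul ι _ _ _ _ (restr_inv ι φ g1 hφ) hg0)
            (restr_inv ι _ _ (restr_inv ι φ g1 hφ))) (restr_inv ι _ _ hg0)
        have e : g1⁻¹ * g0 * g1 = k * g0 := by rw [hkdef]; group
        have hk0 : h k = 0 := by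
          have e := hh.2.2.2.1 ⟨k, hk⟩
          change h k = _ at e
          rw [e]
          exact L_red (by norm_num) (by norm_num) f ι _ hkI ⟨k, hk⟩ hkR
        have hkT : gal E0 k (h g0) = h g0 :=
          L_tor (by norm_num) (by norm_num) ι _ hkI k hkR _ hTh
        rw [e, hh.2.2.1 k (NN_le_Stab s hk) g0 hg0S, hk0, zero_add, hkT]
        have hsp := L_split φ (r0.map (ι : Qb →+* Cq 193))
        have hu : g1 r0.u = r0.u := by
          apply ι.injective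
          change ι (g1 r0.u) = ι r0.u
          rw [hφ]
          exact hsp.1
        have hv : g1 r0.v = r0.v := by
          apply ι.injective
          change ι (g1 r0.v) = ι r0.v
          rw [hφ]
          exact hsp.2
        rw [triv3 g1 hu hv _ h3h, sub_self]
    exact sub_eq_zero.mp ht

end KE16
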