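import Pool.Agent.LibKE16.H27
import Pool.Agent.LibKE16.H28
import Pool.Agent.LibKE16.IfaceA

/-!
# [KE16 H29] MEDIUM

Plan. H_g1ex: L_frob: φ, any ι, g1 := L_restr. Cube roots of unity: z = (-1 + u v s/2)/2 and L_split (u, v fixed, s = -2 - u²). H_final: A_main with H_card, H_g1ex, H_step: the
conclusion gS g1 s = s together with `hs` gives gS g s = s for ALL g: s is smooth (A_smooth) and every g is in the closure of the group generated by g1 and {g : ζ ↦ ζ^{±1} on all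
3-power roots of unity}: for g ∈ GQ, n: χ(g) ∈ (ℤ/3ⁿ)ˣ is ± a power of χ(g1) (g1 ζ_3 = ζ_3, g1 ζ_9 ≠ ζ_9: generator of 1+3ℤ/3ⁿ), so g = g1^k · e with e acting by ±1 on μ_{3ⁿ} …;
choose n from A_smooth.
-/

open WeierstrassCurve

namespace KE16

private theorem H29_gal : IsGalois ℚ Qb := by
  have e : (DivisionRing.toRatAlgebra : Algebra ℚ Qb) = AlgebraicClosure.instAlgebra ℚ :=
    Subsingleton.elim _ _
  rw [e]
  exact inferInstance

private theorem H29_closed (x y : Qb) : IsClosed {e : GQ | e x = y} := by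
  have hG := H29_gal
  by_cases h : ∃ e0 : GQ, e0 x = y
  · obtain ⟨e0, he0⟩ := h
    have : {e : GQ | e x = y} = (fun e : GQ => e0⁻¹ * e) ⁻¹'
        ((IntermediateField.adjoin ℚ {x}).fixingSubgroup : Set GQ) := by
      ext e
      simp only [Set.mem_ofPred_eq, Set.mem_preimage, SetLike.mem_coe,
        IntermediateField.mem_fixingSubgroup_iff]
      constructor
      · intro he z hz
        have : e0⁻¹ * e ∈ (IntermediateField.adjoin ℚ {x}).fixingSubgroup := by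
          rw [IntermediateField.mem_fixingSubgroup_iff]
          intro z hz
          induction hz using IntermediateField.adjoin_induction with
          | mem z hz =>
            rw [Set.mem_singleton_iff] at hz
            subst hz
            rw [AlgEquiv.mul_apply, he, ← he0]
            exact AlgEquiv.symm_apply_apply e0 z
          | algebraMap r => exact AlgEquiv.commutes _ r
          | add a b _ _ ha hb => rw [map_add, ha, hb]
          | inv a _ ha => rw [map_inv₀, ha]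
          | mul a b _ _ ha hb => rw [map_mul, ha, hb]
        exact (IntermediateField.mem_fixingSubgroup_iff _ _).mp this z hz
      · intro he
        have := he x (IntermediateField.mem_adjoin_simple_self ℚ x)
        rw [AlgEquiv.mul_apply] at this
        have h2 : e0 (e0⁻¹ (e x)) = e x := AlgEquiv.apply_symm_apply e0 _
        change e x = y
        rw [← h2, this, he0]
    rw [this]
    have hfd : FiniteDimensional ℚ (IntermediateField.adjoin ℚ {x}) :=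
      IntermediateField.adjoin.finiteDimensional (IsGalois.integral ℚ x)
    exact (IntermediateField.fixingSubgroup_isClosed _).preimage (continuous_const_mul _)
  · have : {e : GQ | e x = y} = ∅ := by
      ext e
      simp only [Set.mem_ofPred_eq, Set.mem_empty_iff_false, iff_false]
      exact fun he => h ⟨e, he⟩
    rw [this]
    exact isClosed_empty


private theorem H29_prim (n : ℕ) (hn : n ≠ 0) : ∃ ζ : Qb, IsPrimitiveRoot ζ n := by
  have h1 : NeZero n := ⟨hn⟩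
  have h2 : NeZero (n : Qb) := ⟨by exact_mod_cast hn⟩
  have h3 : HasEnoughRootsOfUnity Qb n := inferInstance
  exact HasEnoughRootsOfUnity.exists_primitiveRoot Qb n

/-- a common root of unity of coprime orders is `1` -/
private theorem H29_one {M : Type} [Monoid M] {a : M} {m n : ℕ} (hmn : m.Coprime n)
    (h1 : a ^ m = 1) (h2 : a ^ n = 1) : a = 1 := by
  have := pow_gcd_eq_one.mpr ⟨h1, h2⟩
  rwa [hmn, pow_one] at this

/-- the finite level: independence of the actions on roots of unity of coprime orders -/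
private theorem H29_fin (m n : ℕ) (hm : m ≠ 0) (hn : n ≠ 0) (hmn : m.Coprime n) (e1 e2 : GQ) :
    ∃ e : GQ, (∀ ζ : Qb, ζ ^ m = 1 → e ζ = e1 ζ) ∧ (∀ ζ : Qb, ζ ^ n = 1 → e ζ = e2 ζ) := by
  have hG := H29_gal
  have hNm : NeZero m := ⟨hm⟩
  have hNn : NeZero n := ⟨hn⟩
  obtain ⟨a, ha⟩ := H29_prim m hm
  obtain ⟨b, hb⟩ := H29_prim n hn
  have key : ∀ x y : Qb, IsPrimitiveRoot x m → IsPrimitiveRoot y n →
      IsPrimitiveRoot (x * y) (m * n) := by
    intro x y hx hy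
    have h1 : orderOf x = m := hx.eq_orderOf.symm
    have h2 : orderOf y = n := hy.eq_orderOf.symm
    have h3 := (Commute.all x y).orderOf_mul_eq_mul_orderOf_of_coprime (by rw [h1, h2]; exact hmn)
    rw [h1, h2] at h3
    rw [← h3]
    exact IsPrimitiveRoot.orderOf _
  have hx := key a b ha hb
  have hy := key (e1 a) (e2 b) (ha.map_of_injective e1.injective) (hb.map_of_injective e2.injective)
  have hpos : 0 < m * n := Nat.pos_of_ne_zero (mul_ne_zero hm hn)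
  have hmin : minpoly ℚ (a * b) = minpoly ℚ (e1 a * e2 b) := by
    rw [← Polynomial.cyclotomic_eq_minpoly_rat hx hpos, ← Polynomial.cyclotomic_eq_minpoly_rat hy hpos]
  obtain ⟨e, he⟩ := minpoly.exists_algEquiv_of_root' (K := ℚ) (L := Qb) (x := e1 a * e2 b)
    (y := a * b) (IsGalois.integral ℚ _).isAlgebraic (by rw [hmin]; exact minpoly.aeval ℚ _)
  rw [map_mul] at he
  have ham : a ^ m = 1 := ha.pow_eq_one
  have hbn : b ^ n = 1 := hb.pow_eq_one
  have ha0 : e1 a ≠ 0 := by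
    intro h
    have : (e1 a) ^ m = 1 := by rw [← map_pow, ham, map_one]
    rw [h, zero_pow hm] at this
    exact zero_ne_one this
  have hb0 : e2 b ≠ 0 := by
    intro h
    have : (e2 b) ^ n = 1 := by rw [← map_pow, hbn, map_one]
    rw [h, zero_pow hn] at this
    exact zero_ne_one this
  have p1 : (e a) ^ m = 1 := by rw [← map_pow, ham, map_one]
  have p2 : (e1 a) ^ m = 1 := by rw [← map_pow, ham, map_one]
  have p3 : (e b) ^ n = 1 := by rw [← map_pow, hbn, map_one]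
  have p4 : (e2 b) ^ n = 1 := by rw [← map_pow, hbn, map_one]
  have q1 : (e a) ^ n = (e1 a) ^ n := by
    have := congrArg (· ^ n) he
    simp only [mul_pow, p3, p4, mul_one] at this
    exact this
  have q2 : (e b) ^ m = (e2 b) ^ m := by
    have := congrArg (· ^ m) he
    simp only [mul_pow, p1, p2, one_mul] at this
    exact this
  have ea : e a = e1 a := by
    have h1 : (e a / e1 a) ^ m = 1 := by rw [div_pow, p1, p2, div_one]
    have h2 : (e a / e1 a) ^ n = 1 := by rw [div_pow, q1, div_self (pow_ne_zero _ ha0)]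
    have h3 := H29_one hmn h1 h2
    exact (div_eq_one_iff_eq ha0).mp h3
  have eb : e b = e2 b := by
    have h1 : (e b / e2 b) ^ n = 1 := by rw [div_pow, p3, p4, div_one]
    have h2 : (e b / e2 b) ^ m = 1 := by rw [div_pow, q2, div_self (pow_ne_zero _ hb0)]
    have h3 := H29_one hmn.symm h1 h2
    exact (div_eq_one_iff_eq hb0).mp h3
  refine ⟨e, fun ζ hζ => ?_, fun ζ hζ => ?_⟩
  · obtain ⟨i, _, rfl⟩ := ha.eq_pow_of_pow_eq_one hζ
    rw [map_pow, map_pow, ea]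
  · obtain ⟨i, _, rfl⟩ := hb.eq_pow_of_pow_eq_one hζ
    rw [map_pow, map_pow, eb]

/-- complex conjugation or the identity on the roots of unity of order `n` -/
private theorem H29_inv (n : ℕ) (hn : n ≠ 0) : ∃ e : GQ, ∀ ζ : Qb, ζ ^ n = 1 → e ζ = ζ⁻¹ := by
  have hG := H29_gal
  have hNn : NeZero n := ⟨hn⟩
  obtain ⟨b, hb⟩ := H29_prim n hn
  have hpos : 0 < n := Nat.pos_of_ne_zero hn
  have hmin : minpoly ℚ b = minpoly ℚ b⁻¹ := by
    rw [← Polynomial.cyclotomic_eq_minpoly_rat hb hpos,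
      ← Polynomial.cyclotomic_eq_minpoly_rat hb.inv hpos]
  obtain ⟨e, he⟩ := minpoly.exists_algEquiv_of_root' (K := ℚ) (L := Qb) (x := b⁻¹)
    (y := b) (IsGalois.integral ℚ _).isAlgebraic (by rw [hmin]; exact minpoly.aeval ℚ _)
  refine ⟨e, fun ζ hζ => ?_⟩
  obtain ⟨i, _, rfl⟩ := hb.eq_pow_of_pow_eq_one hζ
  rw [map_pow, he, inv_pow]

/-- the infinite level -/
private theorem H29_inf (e1 : GQ) (sg : Bool) : ∃ e : GQ, (∀ ζ : Qb, ζ ^ 193 = 1 → e ζ = e1 ζ) ∧
    ∀ (n : ℕ) (ζ : Qb), ζ ^ 3 ^ n = 1 → e ζ = if sg then ζ else ζ⁻¹ := by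
  have hG := H29_gal
  let t : ℕ → Set GQ := fun n => {e | (∀ ζ : Qb, ζ ^ 193 = 1 → e ζ = e1 ζ) ∧
    ∀ ζ : Qb, ζ ^ 3 ^ n = 1 → e ζ = if sg then ζ else ζ⁻¹}
  have ht1 : ∀ n, t (n + 1) ⊆ t n := by
    intro n e he
    refine ⟨he.1, fun ζ hζ => he.2 ζ ?_⟩
    rw [pow_succ, pow_mul, hζ, one_pow]
  have ht2 : ∀ n, (t n).Nonempty := by
    intro n
    have hcop : (193 : ℕ).Coprime (3 ^ n) := Nat.Coprime.pow_right n (by norm_num)
    cases sg with
    | true =>
      obtain ⟨e, h1, h2⟩ := H29_fin 193 (3 ^ n) (by norm_num) (by positivity) hcop e1 1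
      exact ⟨e, h1, fun ζ hζ => by rw [h2 ζ hζ]; rfl⟩
    | false =>
      obtain ⟨e2, he2⟩ := H29_inv (3 ^ n) (by positivity)
      obtain ⟨e, h1, h2⟩ := H29_fin 193 (3 ^ n) (by norm_num) (by positivity) hcop e1 e2
      exact ⟨e, h1, fun ζ hζ => by rw [h2 ζ hζ, he2 ζ hζ]; rfl⟩
  have ht3 : ∀ n, IsClosed (t n) := by
    intro n
    have : t n = (⋂ ζ : Qb, ⋂ _ : ζ ^ 193 = 1, {e : GQ | e ζ = e1 ζ}) ∩
        ⋂ ζ : Qb, ⋂ _ : ζ ^ 3 ^ n = 1, {e : GQ | e ζ = if sg then ζ else ζ⁻¹} := by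
      ext e
      simp only [t, Set.mem_ofPred_eq, Set.mem_inter_iff, Set.mem_iInter]
    rw [this]
    refine IsClosed.inter ?_ ?_
    · exact isClosed_iInter fun ζ => isClosed_iInter fun _ => H29_closed _ _
    · exact isClosed_iInter fun ζ => isClosed_iInter fun _ => H29_closed _ _
  obtain ⟨e, he⟩ := IsCompact.nonempty_iInter_of_sequence_nonempty_isCompact_isClosed t ht1 ht2
    (ht3 0).isCompact ht3
  rw [Set.mem_iInter] at he
  exact ⟨e, (he 0).1, fun n => (he n).2⟩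


private theorem H29_units (n : ℕ) (a b : ℕ) (ha : a % 3 = 1) (ha9 : a % 9 ≠ 1)
    (hb : b.Coprime (3 ^ (n + 2))) : ∃ (k : ℕ) (sg : Bool),
      (b : ZMod (3 ^ (n + 2))) = if sg then (a : ZMod (3 ^ (n + 2))) ^ k else -(a : ZMod (3 ^ (n + 2))) ^ k := by
  have hN1 : 1 < 3 ^ (n + 2) := Nat.one_lt_pow (by omega) (by norm_num)
  have hNz : NeZero (3 ^ (n + 2)) := ⟨by positivity⟩
  have hF : Fact (1 < 3 ^ (n + 2)) := ⟨hN1⟩
  have hac : a.Coprime (3 ^ (n + 2)) := by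
    apply Nat.Coprime.pow_right
    rw [Nat.coprime_comm]
    rw [(by norm_num : Nat.Prime 3).coprime_iff_not_dvd]
    omega
  set A : (ZMod (3 ^ (n + 2)))ˣ := ZMod.unitOfCoprime a hac with hA
  set B : (ZMod (3 ^ (n + 2)))ˣ := ZMod.unitOfCoprime b hb with hB
  have hAo : orderOf A = 3 ^ (n + 1) := by
    rw [← orderOf_units, hA, ZMod.coe_unitOfCoprime]
    have h1 := ZMod.orderOf_one_add_mul_prime (p := 3) (by norm_num) (by norm_num) ((a / 3 : ℕ) : ℤ)
      (by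
        intro h
        have : 3 ∣ a / 3 := by exact_mod_cast h
        omega) (n + 1)
    rw [← h1]
    congr 1
    have h2 : a = 1 + 3 * (a / 3) := by omega
    conv_lhs => rw [h2]
    rw [Nat.cast_add, Nat.cast_mul, Nat.cast_one, Int.cast_natCast]
  have hm : orderOf (-1 : (ZMod (3 ^ (n + 2)))ˣ) = 2 := by
    rw [← orderOf_units]
    rw [Units.val_neg, Units.val_one, orderOf_neg_one, if_neg]
    rw [ZMod.ringChar_zmod_n]
    intro h
    have : (3 : ℕ) ^ (n + 2) % 2 = 1 := by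
      rw [Nat.pow_mod]
      simp
    omega
  have hcop : (orderOf (-1 : (ZMod (3 ^ (n + 2)))ˣ)).Coprime (orderOf A) := by
    rw [hm, hAo]
    exact Nat.Coprime.pow_right _ (by norm_num)
  have hmA : orderOf (-1 * A) = 2 * 3 ^ (n + 1) := by
    rw [(Commute.all _ _).orderOf_mul_eq_mul_orderOf_of_coprime hcop, hm, hAo]
  have htop : Subgroup.zpowers (-1 * A) = ⊤ := by
    apply Subgroup.eq_top_of_card_eq
    rw [Nat.card_zpowers, hmA, Nat.card_eq_fintype_card, ZMod.card_units_eq_totient,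
      Nat.totient_prime_pow_succ (by norm_num)]
    ring
  have hBm : B ∈ Subgroup.zpowers (-1 * A) := by rw [htop]; trivial
  rw [← mem_powers_iff_mem_zpowers] at hBm
  obtain ⟨k, hk⟩ := hBm
  have hk' : (b : ZMod (3 ^ (n + 2))) = (-1) ^ k * (a : ZMod (3 ^ (n + 2))) ^ k := by
    have := congrArg (Units.val) hk
    rw [hB, ZMod.coe_unitOfCoprime] at this
    rw [← this]
    simp only [mul_pow, Units.val_mul, Units.val_pow_eq_pow_val, Units.val_neg, Units.val_one, hA,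
      ZMod.coe_unitOfCoprime]
  rcases Nat.even_or_odd k with h | h
  · refine ⟨k, true, ?_⟩
    rw [hk', h.neg_one_pow, one_mul, if_pos rfl]
  · refine ⟨k, false, ?_⟩
    rw [hk', h.neg_one_pow, neg_one_mul]
    rfl

private theorem H29_mod {x : Qb} {N : ℕ} (hx : IsPrimitiveRoot x N) (hN : 0 < N) {i j : ℕ}
    (h : x ^ i = x ^ j) : i ≡ j [MOD N] := by
  have h1 : IsOfFinOrder x := isOfFinOrder_iff_pow_eq_one.mpr ⟨N, hN, hx.pow_eq_one⟩
  have h2 := h1.pow_eq_pow_iff_modEq.mp h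
  rwa [← hx.eq_orderOf] at h2

private theorem H29_gen (g1 : GQ) (hg1 : ∀ ζ : Qb, IsPrimitiveRoot ζ 3 → g1 ζ = ζ)
    (hg9 : ∀ ζ : Qb, IsPrimitiveRoot ζ 9 → g1 ζ ≠ ζ) (g : GQ) (n : ℕ) :
    ∃ (k : ℕ) (sg : Bool), ∀ ζ : Qb, ζ ^ 3 ^ (n + 2) = 1 →
      g ζ = if sg then (g1 ^ k) ζ else ((g1 ^ k) ζ)⁻¹ := by
  have hNz : NeZero (3 ^ (n + 2)) := ⟨by positivity⟩
  have hpos : 0 < 3 ^ (n + 2) := by positivity
  obtain ⟨ζ, hζ⟩ := H29_prim (3 ^ (n + 2)) (by positivity)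
  have h1 := hζ.pow_eq_one
  obtain ⟨a, _, ha⟩ := hζ.eq_pow_of_pow_eq_one (ξ := g1 ζ) (by rw [← map_pow, h1, map_one])
  obtain ⟨b, _, hb⟩ := hζ.eq_pow_of_pow_eq_one (ξ := g ζ) (by rw [← map_pow, h1, map_one])
  have hbc : b.Coprime (3 ^ (n + 2)) := by
    rw [← hζ.pow_iff_coprime hpos, hb]
    exact hζ.map_of_injective g.injective
  have ha3 : a % 3 = 1 := by
    have hp : IsPrimitiveRoot (ζ ^ 3 ^ (n + 1)) 3 := hζ.pow hpos (by ring)
    have h2 := hg1 _ hp
    rw [map_pow, ← ha, ← pow_mul, mul_comm, pow_mul] at h2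
    have h3 : (ζ ^ 3 ^ (n + 1)) ^ a = (ζ ^ 3 ^ (n + 1)) ^ 1 := by rw [h2, pow_one]
    exact H29_mod hp (by norm_num) h3
  have ha9 : a % 9 ≠ 1 := by
    intro h9
    have hp : IsPrimitiveRoot (ζ ^ 3 ^ n) 9 := hζ.pow hpos (by ring)
    apply hg9 _ hp
    rw [map_pow, ← ha, ← pow_mul, mul_comm, pow_mul]
    have h4 : a = 9 * (a / 9) + 1 := by omega
    rw [h4, pow_succ, pow_mul, hp.pow_eq_one, one_pow, one_mul]
  obtain ⟨k, sg, hk⟩ := H29_units n a b ha3 ha9 hbc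
  have hpow : ∀ j : ℕ, (g1 ^ j) ζ = ζ ^ (a ^ j) := by
    intro j
    induction j with
    | zero => rw [pow_zero, pow_zero, pow_one]; rfl
    | succ j ih =>
      rw [pow_succ', AlgEquiv.mul_apply, ih, map_pow, ← ha, ← pow_mul, pow_succ']
  refine ⟨k, sg, fun x hx => ?_⟩
  obtain ⟨i, _, rfl⟩ := hζ.eq_pow_of_pow_eq_one hx
  cases sg with
  | true =>
    rw [if_pos rfl] at hk ⊢
    rw [map_pow, map_pow, hpow, ← hb]
    congr 1
    have h5 : ((b : ℕ) : ZMod (3 ^ (n + 2))) = ((a ^ k : ℕ) : ZMod (3 ^ (n + 2))) := by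
      rw [hk, Nat.cast_pow]
    rw [ZMod.natCast_eq_natCast_iff] at h5
    have h6 : IsOfFinOrder ζ := isOfFinOrder_iff_pow_eq_one.mpr ⟨_, hpos, h1⟩
    rw [h6.pow_eq_pow_iff_modEq, ← hζ.eq_orderOf]
    exact h5
  | false =>
    have hk' : ((b : ℕ) : ZMod (3 ^ (n + 2))) = -(a : ZMod (3 ^ (n + 2))) ^ k := hk
    change g (ζ ^ i) = ((g1 ^ k) (ζ ^ i))⁻¹
    rw [map_pow, map_pow, hpow, ← hb, ← inv_pow]
    congr 1
    have h5 : ((b + a ^ k : ℕ) : ZMod (3 ^ (n + 2))) = ((0 : ℕ) : ZMod (3 ^ (n + 2))) := by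
      rw [Nat.cast_add, Nat.cast_pow, hk', Nat.cast_zero]
      ring
    rw [ZMod.natCast_eq_natCast_iff] at h5
    have h6 : IsOfFinOrder ζ := isOfFinOrder_iff_pow_eq_one.mpr ⟨_, hpos, h1⟩
    have h7 : ζ ^ (b + a ^ k) = ζ ^ 0 := by
      rw [h6.pow_eq_pow_iff_modEq, ← hζ.eq_orderOf]
      exact h5
    rw [pow_add, pow_zero] at h7
    exact eq_inv_of_mul_eq_one_left h7

private theorem H29_all (g1 : GQ) (hg1 : ∀ ζ : Qb, IsPrimitiveRoot ζ 3 → g1 ζ = ζ)
    (hg9 : ∀ ζ : Qb, IsPrimitiveRoot ζ 9 → g1 ζ ≠ ζ) (s : Sel E0 3 193)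
    (hs : ∀ g : GQ, (∀ (n : ℕ) (ζ : Qb), ζ ^ 3 ^ n = 1 → g ζ = ζ ∨ g ζ = ζ⁻¹) →
      gS E0 3 193 g s = s) (h1 : gS E0 3 193 g1 s = s) (g : GQ) : gS E0 3 193 g s = s := by
  obtain ⟨n, _, _, _, hsm, _⟩ := A_smooth s
  obtain ⟨k, sg, hk⟩ := H29_gen g1 hg1 hg9 g n
  have hpow : ∀ j : ℕ, gS E0 3 193 (g1 ^ j) s = s := by
    intro j
    induction j with
    | zero => rw [pow_zero]; exact gS_one E0 3 193 s
    | succ j ih => rw [pow_succ', gS_mul, ih, h1]
  set e' : GQ := (g1 ^ k)⁻¹ * g with he'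
  have he1 : ∀ ζ : Qb, ζ ^ 3 ^ (n + 2) = 1 → e' ζ = if sg then ζ else ζ⁻¹ := by
    intro ζ hζ
    have hc : ∀ x : Qb, (g1 ^ k)⁻¹ ((g1 ^ k) x) = x := fun x => AlgEquiv.symm_apply_apply (g1 ^ k) x
    rw [he', AlgEquiv.mul_apply, hk ζ hζ]
    cases sg with
    | true => rw [if_pos rfl, if_pos rfl]; exact hc ζ
    | false =>
      change (g1 ^ k)⁻¹ (((g1 ^ k) ζ)⁻¹) = ζ⁻¹
      rw [map_inv₀, hc]
  obtain ⟨e, hea, heb⟩ := H29_inf e' sg
  have heS : gS E0 3 193 e s = s := by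
    apply hs
    intro m ζ hζ
    have := heb m ζ hζ
    cases sg with
    | true => left; exact this
    | false => right; exact this
  have hh : gS E0 3 193 (e⁻¹ * e') s = s := by
    apply hsm
    have hc : ∀ x : Qb, e⁻¹ (e x) = x := fun x => AlgEquiv.symm_apply_apply e x
    have q1 : ∀ x : Qb, x ^ 193 = 1 → (e⁻¹ * e') x = x := by
      intro x hx
      rw [AlgEquiv.mul_apply, ← hea x hx, hc]
    have q2 : ∀ x : Qb, x ^ 3 ^ n = 1 → (e⁻¹ * e') x = x := by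
      intro x hx
      have hx2 : x ^ 3 ^ (n + 2) = 1 := by rw [pow_add, pow_mul, hx, one_pow]
      rw [AlgEquiv.mul_apply, he1 x hx2, ← heb n x hx, hc]
    intro ζ hζ
    have hN : 193 * 3 ^ n ≠ 1 := by
      have : 0 < 3 ^ n := by positivity
      omega
    have hval : ((1 : (ZMod (193 * 3 ^ n))ˣ) : ZMod (193 * 3 ^ n)).val = 1 := by
      rw [Units.val_one]
      exact ZMod.val_one'' hN
    rw [hval, pow_one]
    have hcop : (193 : ℕ).Coprime (3 ^ n) := Nat.Coprime.pow_right n (by norm_num)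
    have hbz : ((193 : ℕ) : ℤ) * Nat.gcdA 193 (3 ^ n) + ((3 ^ n : ℕ) : ℤ) * Nat.gcdB 193 (3 ^ n) = 1 := by
      have := Nat.gcd_eq_gcd_ab 193 (3 ^ n)
      rw [hcop] at this
      exact_mod_cast this.symm
    have hζ0 : ζ ≠ 0 := by
      intro h
      rw [h, zero_pow (by positivity)] at hζ
      exact zero_ne_one hζ
    have hdec : ζ = (ζ ^ 193) ^ (Nat.gcdA 193 (3 ^ n)) * (ζ ^ 3 ^ n) ^ (Nat.gcdB 193 (3 ^ n)) := by
      rw [← zpow_natCast ζ 193, ← zpow_natCast ζ (3 ^ n), ← zpow_mul, ← zpow_mul, ← zpow_add₀ hζ0,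
        hbz, zpow_one]
    have r1 : (e⁻¹ * e') (ζ ^ 193) = ζ ^ 193 := by
      apply q2
      rw [← pow_mul]
      exact hζ
    have r2 : (e⁻¹ * e') (ζ ^ 3 ^ n) = ζ ^ 3 ^ n := by
      apply q1
      rw [← pow_mul, mul_comm]
      exact hζ
    conv_lhs => rw [hdec]
    rw [map_mul, map_zpow₀, map_zpow₀, r1, r2]
    exact hdec.symm
  have e3 : g = g1 ^ k * (e * (e⁻¹ * e')) := by
    rw [he']
    group
  rw [e3, gS_mul, gS_mul, hh, heS, hpow]

/-- the element `g1` for `A_main` -/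
theorem H_g1ex : ∃ g1 : GQ, (∃ (ι : Qb →ₐ[ℚ] Cq 193) (φ : GLq 193), Restr ι φ g1) ∧
    (∀ ζ : Qb, IsPrimitiveRoot ζ 3 → g1 ζ = ζ) ∧ (∀ ζ : Qb, IsPrimitiveRoot ζ 9 → g1 ζ ≠ ζ) := by
  obtain ⟨φ, hφ⟩ := L_frob
  have hG := H29_gal
  have hA : Algebra.IsAlgebraic ℚ Qb := ⟨fun x => (IsGalois.integral ℚ x).isAlgebraic⟩
  let ι : Qb →ₐ[ℚ] Cq 193 := IsAlgClosed.lift
  obtain ⟨g1, hg1⟩ := L_restr ι φ
  refine ⟨g1, ⟨ι, φ, hg1⟩, fun ζ hζ => ?_, fun ζ hζ h => ?_⟩
  · apply ι.injective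
    change ι (g1 ζ) = ι ζ
    rw [hg1 ζ]
    let r : Fr (Cq 193) := r0.map (ι : Qb →+* Cq 193)
    obtain ⟨hu, hv⟩ := L_split φ r
    have hs : φ r.s = r.s := by
      have h2 : r.s = -2 - r.u ^ 2 := by
        have := r.hu
        rw [this]
        ring
      rw [h2, map_sub, map_neg, map_pow, hu, map_ofNat]
    have hz : φ r.z = r.z := by
      unfold Fr.z
      rw [map_div₀, map_add, map_neg, map_one, map_div₀, map_mul, map_mul, hu, hv, hs, map_ofNat]
    have hw : (ι ζ) ^ 3 = 1 := by rw [← map_pow, hζ.pow_eq_one, map_one]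
    obtain ⟨i, _, hi⟩ := (H_z r).eq_pow_of_pow_eq_one hw
    rw [← hi, map_pow, hz]
  · apply hφ (ι ζ) (hζ.map_of_injective ι.injective)
    rw [← hg1 ζ, h]

/-- the main theorem -/
theorem H_final (inst : Module (Iw 3 193) (Sel E0 3 193))
    (hinst : ∀ (r : Iw 3 193) (s : Sel E0 3 193), IsAct E0 3 193 r s (r • s)) (x y : Iw 3 193) :
    ¬ IsFitt (CharacterModule (Sel E0 3 193)) (Ideal.span {x, y}) := by
  obtain ⟨g1, hr, h3, h9⟩ := H_g1ex
  refine A_main H_card g1 h3 h9 ?_ inst hinst x y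
  intro s hs a1 a2 a3 a4
  obtain ⟨e1, e2⟩ := H_step g1 hr s hs a1 a2 a3 a4
  exact ⟨e1, H29_all g1 h3 h9 s hs e2⟩

end KE16
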