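import Pool.Agent.LibKE16.GDef

/-! KE16, block A: the ideal `J` (definitions). -/

open WeierstrassCurve

namespace KE16

/-- `d` acts on the roots of unity of `3`-power order by `±1` -/
def IsP (d : GQ) : Prop := ∀ (n : ℕ) (ζ : Qb), ζ ^ 3 ^ n = 1 → d ζ = ζ ∨ d ζ = ζ⁻¹

/-- the generators of the ideal `J` -/
def JS (g1 : GQ) : Set (Iw 3 193) :=
  {27, 9 * (gl g1⁻¹ - 1), 3 * (gl g1⁻¹ - 1) ^ 2, (gl g1⁻¹ - 1) ^ 3} ∪
    {r | ∃ d : GQ, IsP d ∧ r = gl d⁻¹ - 1}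

end KE16
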