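import Pool.Agent.LibKE16.MDef

/-!
KE16, block A, row M1 (ONLY MATHLIB + MDef, MEDIUM). Basic properties of the level action.

Plan: (`lact_sec`) `ρ (σ a)⁻¹ s = ρ (σ' a)⁻¹ s` because `κ (σ' a * (σ a)⁻¹) = 1`; then `Finsupp.sum_congr`.
(`lact_tr`) `Finsupp.sum_mapDomain_index` (`MonoidAlgebra.mapDomainRingHom`, `MonoidAlgebra.mapDomain`,
`.coeff`): both sides are `Σ_b r(b) ρ (..)⁻¹ s`, and `ρ (σ' b)⁻¹ s = ρ (σ (t b))⁻¹ s` because both
elements have the same image `t b` under `κ`.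
(`lact_add`, `lact_add'`) `Finsupp.sum_add_index'`, `map_add`, `smul_add`, `Finsupp.sum_add`.
(`lact_fix`) `h * (σ a)⁻¹ = (σ a)⁻¹ * (σ a * h * (σ a)⁻¹)`, the last factor is in the kernel.
-/

namespace KE16

variable {A G H M : Type} [CommRing A] [Group G] [CommGroup H] [AddCommGroup M] [Module A M]

private theorem rho_eq (κ : G →* H) (ρ : G → M →+ M) (hρ : IsRho (A := A) ρ) (s : M)
    (hs : ∀ h, κ h = 1 → ρ h s = s) (g g' : G) (h : κ g = κ g') : ρ g s = ρ g' s := by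
  have e : g = g' * (g'⁻¹ * g) := by group
  rw [e, hρ.mul, hs]
  rw [map_mul, map_inv, h, inv_mul_cancel]

theorem lact_sec (κ : G →* H) (ρ : G → M →+ M) (hρ : IsRho (A := A) ρ) (σ σ' : H → G)
    (hσ : ∀ a, κ (σ a) = a) (hσ' : ∀ a, κ (σ' a) = a) (r : MonoidAlgebra A H) (s : M)
    (hs : ∀ h, κ h = 1 → ρ h s = s) : lact ρ σ r s = lact ρ σ' r s := by
  unfold lact
  apply Finsupp.sum_congr
  intro a _
  rw [rho_eq κ ρ hρ s hs (σ a)⁻¹ (σ' a)⁻¹ (by rw [map_inv, map_inv, hσ, hσ'])]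

theorem lact_tr {H' : Type} [CommGroup H'] (t : H' →* H) (κ : G →* H) (κ' : G →* H')
    (ht : ∀ g, t (κ' g) = κ g) (ρ : G → M →+ M) (hρ : IsRho (A := A) ρ) (σ : H → G)
    (σ' : H' → G) (hσ : ∀ a, κ (σ a) = a) (hσ' : ∀ a, κ' (σ' a) = a) (r : MonoidAlgebra A H') (s : M)
    (hs : ∀ h, κ h = 1 → ρ h s = s) :
    lact ρ σ' r s = lact ρ σ (MonoidAlgebra.mapDomainRingHom A t r) s := by
  have e : (MonoidAlgebra.mapDomainRingHom A t r).coeff = Finsupp.mapDomain t r.coeff := rfl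
  unfold lact
  rw [e, Finsupp.sum_mapDomain_index (h := fun a z ↦ z • ρ (σ a)⁻¹ s) (fun _ => zero_smul _ _) (fun _ _ _ => add_smul _ _ _)]
  apply Finsupp.sum_congr
  intro a _
  rw [rho_eq κ ρ hρ s hs (σ' a)⁻¹ (σ (t a))⁻¹ (by rw [map_inv, map_inv, hσ, ← ht, hσ'])]

theorem lact_add (ρ : G → M →+ M) (σ : H → G) (r : MonoidAlgebra A H) (s s' : M) :
    lact ρ σ r (s + s') = lact ρ σ r s + lact ρ σ r s' := by
  unfold lact
  rw [← Finsupp.sum_add]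
  apply Finsupp.sum_congr
  intro a _
  rw [map_add, smul_add]

theorem lact_add' (ρ : G → M →+ M) (σ : H → G) (r r' : MonoidAlgebra A H) (s : M) :
    lact ρ σ (r + r') s = lact ρ σ r s + lact ρ σ r' s := by
  unfold lact
  have e : (r + r').coeff = r.coeff + r'.coeff := rfl
  rw [e, Finsupp.sum_add_index' (h := fun a z ↦ z • ρ (σ a)⁻¹ s) (fun _ => zero_smul _ _) (fun _ _ _ => add_smul _ _ _)]

theorem lact_fix (κ : G →* H) (ρ : G → M →+ M) (hρ : IsRho (A := A) ρ) (σ : H → G)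
    (hσ : ∀ a, κ (σ a) = a) (r : MonoidAlgebra A H) (s : M)
    (hs : ∀ h, κ h = 1 → ρ h s = s) (h : G) (hh : κ h = 1) : ρ h (lact ρ σ r s) = lact ρ σ r s := by
  unfold lact
  rw [map_finsuppSum]
  apply Finsupp.sum_congr
  intro a _
  rw [hρ.smul, ← hρ.mul, rho_eq κ ρ hρ s hs (h * (σ a)⁻¹) (σ a)⁻¹ (by rw [map_mul, hh, one_mul])]

end KE16
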