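import Pool.Agent.LibKE16.M1

/-!
KE16, block A, row M2 (MEDIUM, cites M1). The level action is multiplicative.

Plan: `lact_one`: `1 = MonoidAlgebra.single 1 1`, `Finsupp.sum_single_index`, `κ (σ 1)⁻¹ = 1`.
`lact_mul`: both sides are additive in `r` and `r'` (`lact_add'`, `lact_add`), so by
`MonoidAlgebra.induction_linear` (or `induction_on`/`Finsupp.induction_linear`) assume
`r = single a z`, `r' = single b w`: `(z * w) • ρ (σ (a * b))⁻¹ s = z • ρ (σ a)⁻¹ (w • ρ (σ b)⁻¹ s)`; the
elements `(σ (a * b))⁻¹` and `(σ a)⁻¹ * (σ b)⁻¹` have the same image under `κ` (`H` is commutative).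
-/

namespace KE16

variable {A G H M : Type} [CommRing A] [Group G] [CommGroup H] [AddCommGroup M] [Module A M]

private theorem rho_eq (κ : G →* H) (ρ : G → M →+ M) (hρ : IsRho (A := A) ρ) (s : M)
    (hs : ∀ h, κ h = 1 → ρ h s = s) (g g' : G) (h : κ g = κ g') : ρ g s = ρ g' s := by
  have e : g = g' * (g'⁻¹ * g) := by group
  rw [e, hρ.mul, hs]
  rw [map_mul, map_inv, h, inv_mul_cancel]

private theorem lact_zero (ρ : G → M →+ M) (σ : H → G) (s : M) :
    lact ρ σ (0 : MonoidAlgebra A H) s = 0 := Finsupp.sum_zero_index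

private theorem lact_zero' (ρ : G → M →+ M) (σ : H → G) (r : MonoidAlgebra A H) :
    lact ρ σ r (0 : M) = 0 := by
  unfold lact
  rw [Finsupp.sum, Finset.sum_eq_zero]
  intro a _
  rw [map_zero, smul_zero]

private theorem lact_single (ρ : G → M →+ M) (σ : H → G) (a : H) (z : A) (s : M) :
    lact ρ σ (MonoidAlgebra.single a z) s = z • ρ (σ a)⁻¹ s := by
  unfold lact
  rw [MonoidAlgebra.coeff_single, Finsupp.sum_single_index (h := fun a z ↦ z • ρ (σ a)⁻¹ s) (zero_smul _ _)]

theorem lact_one (κ : G →* H) (ρ : G → M →+ M) (hρ : IsRho (A := A) ρ) (σ : H → G)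
    (hσ : ∀ a, κ (σ a) = a) (s : M) (hs : ∀ h, κ h = 1 → ρ h s = s) :
    lact ρ σ (1 : MonoidAlgebra A H) s = s := by
  rw [MonoidAlgebra.one_def, lact_single, one_smul, hs]
  rw [map_inv, hσ, inv_one]

theorem lact_mul (κ : G →* H) (ρ : G → M →+ M) (hρ : IsRho (A := A) ρ) (σ : H → G)
    (hσ : ∀ a, κ (σ a) = a) (r r' : MonoidAlgebra A H) (s : M)
    (hs : ∀ h, κ h = 1 → ρ h s = s) :
    lact ρ σ (r * r') s = lact ρ σ r (lact ρ σ r' s) := by
  induction r using MonoidAlgebra.induction_linear with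
  | zero => rw [zero_mul, lact_zero, lact_zero]
  | add x y hx hy => rw [add_mul, lact_add', lact_add', hx, hy]
  | single a z =>
    induction r' using MonoidAlgebra.induction_linear with
    | zero => rw [mul_zero, lact_zero, lact_zero']
    | add x y hx hy => rw [mul_add, lact_add', lact_add', hx, hy, lact_add]
    | single b w =>
      rw [MonoidAlgebra.single_mul_single, lact_single, lact_single, lact_single, hρ.smul, ← hρ.mul,
        smul_smul]
      rw [rho_eq κ ρ hρ s hs (σ (a * b))⁻¹ ((σ a)⁻¹ * (σ b)⁻¹)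
        (by rw [map_inv, map_mul, map_inv, map_inv, hσ, hσ, hσ, mul_inv])]

end KE16
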