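import Pool.Agent.LibKE16.M2

/-!
KE16, block A, row M3 (MEDIUM, cites M1, M2). The module over the ring of compatible sequences.

Plan: choose sections `σ0 n` of `κ n` (surjective) and for `s` a level `N s` with
`∀ h, κ (N s) h = 1 → ρ h s = s`; `r • s := lact ρ (σ0 (N s)) (r (N s)) s`. Key: if `s` is fixed by the kernel of
`κ n`, it is also fixed by the kernel of `κ (n + 1)` (`hκt`), and `lact_tr` + `hR` give
`lact ρ σ' (r (n + 1)) s = lact ρ σ (r n) s`; by induction the value is the same at all levels `n` at which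
`s` is fixed by the kernel (any two levels are comparable), and with all sections (`lact_sec`). Module
axioms: for two elements use the maximum of the levels; `lact_add`, `lact_add'`, `lact_one`, `lact_mul`,
`lact_fix` (so that `r • s` is fixed at the level of `s`); `0 • s = 0`, `r • 0 = 0` from additivity or
directly (`Finsupp.sum_zero_index`).
-/

namespace KE16

theorem abs_module {A G M : Type} [CommRing A] [Group G] [AddCommGroup M] [Module A M]
    (H : ℕ → Type) [∀ n, CommGroup (H n)] (t : ∀ n, H (n + 1) →* H n) (κ : ∀ n, G →* H n)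
    (hκ : ∀ n, Function.Surjective (κ n)) (hκt : ∀ n g, t n (κ (n + 1) g) = κ n g)
    (ρ : G → M →+ M) (hρ : IsRho (A := A) ρ) (hsm : ∀ s, ∃ n, ∀ h, κ n h = 1 → ρ h s = s)
    (R : Subring (∀ n, MonoidAlgebra A (H n)))
    (hR : ∀ r ∈ R, ∀ n, MonoidAlgebra.mapDomainRingHom A (t n) (r (n + 1)) = r n) :
    ∃ inst : Module R M, ∀ (r : R) (s : M) (n : ℕ), (∀ h, κ n h = 1 → ρ h s = s) →
      ∀ σ : H n → G, (∀ a, κ n (σ a) = a) →
        r • s = lact ρ σ ((r : ∀ n, MonoidAlgebra A (H n)) n) s := by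
  choose N hN using hsm
  obtain ⟨σ0, hσ0⟩ : ∃ σ0 : ∀ n, H n → G, ∀ n a, κ n (σ0 n a) = a :=
    ⟨fun n => Function.surjInv (hκ n), fun n a => Function.surjInv_eq (hκ n) a⟩
  -- an element fixed at a level is fixed at the higher levels
  have hup : ∀ (s : M) (n d : ℕ), (∀ h, κ n h = 1 → ρ h s = s) → ∀ h, κ (n + d) h = 1 → ρ h s = s := by
    intro s n d hs
    induction d with
    | zero => exact hs
    | succ d ih =>
      intro h hh
      refine ih h ?_
      rw [← hκt (n + d) h]
      have h1 : κ (n + d + 1) h = 1 := hh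
      rw [h1, map_one]
  have hval : ∀ (r : R) (s : M) (n d : ℕ), (∀ h, κ n h = 1 → ρ h s = s) →
      lact ρ (σ0 (n + d)) ((r : ∀ n, MonoidAlgebra A (H n)) (n + d)) s =
        lact ρ (σ0 n) ((r : ∀ n, MonoidAlgebra A (H n)) n) s := by
    intro r s n d hs
    induction d with
    | zero => rfl
    | succ d ih =>
      rw [← ih]
      have h1 := lact_tr (t (n + d)) (κ (n + d)) (κ (n + d + 1)) (hκt (n + d)) ρ hρ (σ0 (n + d)) (σ0 (n + d + 1))
        (hσ0 _) (hσ0 _) ((r : ∀ n, MonoidAlgebra A (H n)) (n + d + 1)) s (hup s n d hs)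
      rw [hR r r.2 (n + d)] at h1
      exact h1
  have hval2 : ∀ (r : R) (s : M) (n n' : ℕ), (∀ h, κ n h = 1 → ρ h s = s) → (∀ h, κ n' h = 1 → ρ h s = s) →
      lact ρ (σ0 n) ((r : ∀ n, MonoidAlgebra A (H n)) n) s = lact ρ (σ0 n') ((r : ∀ n, MonoidAlgebra A (H n)) n') s := by
    intro r s n n' h h'
    rcases Nat.le_total n n' with hle | hle
    · obtain ⟨d, rfl⟩ := Nat.exists_eq_add_of_le hle
      exact (hval r s n d h).symm
    · obtain ⟨d, rfl⟩ := Nat.exists_eq_add_of_le hle
      exact hval r s n' d h'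
  obtain ⟨act, hact⟩ : ∃ act : R → M → M, ∀ (r : R) (s : M) (n : ℕ), (∀ h, κ n h = 1 → ρ h s = s) →
      act r s = lact ρ (σ0 n) ((r : ∀ n, MonoidAlgebra A (H n)) n) s :=
    ⟨fun r s => lact ρ (σ0 (N s)) ((r : ∀ n, MonoidAlgebra A (H n)) (N s)) s,
      fun r s n h => hval2 r s (N s) n (hN s) h⟩
  have h1 : ∀ s : M, act 1 s = s := by
    intro s
    rw [hact 1 s (N s) (hN s)]
    exact lact_one (κ (N s)) ρ hρ (σ0 (N s)) (hσ0 _) s (hN s)
  have h2 : ∀ (r r' : R) (s : M), act (r * r') s = act r (act r' s) := by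
    intro r r' s
    have hf : ∀ h, κ (N s) h = 1 → ρ h (act r' s) = act r' s := by
      intro h hh
      rw [hact r' s (N s) (hN s)]
      exact lact_fix (κ (N s)) ρ hρ (σ0 (N s)) (hσ0 _) _ s (hN s) h hh
    rw [hact r _ (N s) hf, hact r' s (N s) (hN s), hact (r * r') s (N s) (hN s)]
    exact lact_mul (κ (N s)) ρ hρ (σ0 (N s)) (hσ0 _) _ _ s (hN s)
  have h3 : ∀ (r : R) (s s' : M), act r (s + s') = act r s + act r s' := by
    intro r s s'
    have e1 : ∀ h, κ (max (N s) (N s')) h = 1 → ρ h s = s := by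
      obtain ⟨d, hd⟩ := Nat.exists_eq_add_of_le (le_max_left (N s) (N s'))
      rw [hd]
      exact hup s (N s) d (hN s)
    have e2 : ∀ h, κ (max (N s) (N s')) h = 1 → ρ h s' = s' := by
      obtain ⟨d, hd⟩ := Nat.exists_eq_add_of_le (le_max_right (N s) (N s'))
      rw [hd]
      exact hup s' (N s') d (hN s')
    have e3 : ∀ h, κ (max (N s) (N s')) h = 1 → ρ h (s + s') = s + s' := by
      intro h hh
      rw [map_add, e1 h hh, e2 h hh]
    rw [hact r _ _ e3, hact r _ _ e1, hact r _ _ e2, lact_add]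
  have h4 : ∀ (r r' : R) (s : M), act (r + r') s = act r s + act r' s := by
    intro r r' s
    rw [hact (r + r') s (N s) (hN s), hact r s (N s) (hN s), hact r' s (N s) (hN s)]
    exact lact_add' ρ (σ0 (N s)) _ _ s
  have h5 : ∀ r : R, act r 0 = 0 := by
    intro r
    have e := h3 r 0 0
    rw [add_zero] at e
    exact left_eq_add.1 e
  have h6 : ∀ s : M, act 0 s = 0 := by
    intro s
    have e := h4 0 0 s
    rw [add_zero] at e
    exact left_eq_add.1 e
  refine ⟨{ smul := act, one_smul := h1, mul_smul := h2, smul_zero := h5, smul_add := h3, add_smul := h4,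
            zero_smul := h6 }, ?_⟩
  intro r s n hs σ hσ
  change act r s = _
  rw [hact r s n hs]
  exact lact_sec (κ n) ρ hρ (σ0 n) σ (hσ0 n) hσ _ s hs

end KE16
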