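import Mathlib

/-! KE16, block A: the action of a group algebra on the elements fixed by the kernel (definition). -/

namespace KE16

/-- the action of level `n`: `r s = Σ_a r(a) σ_a⁻¹ s` -/
noncomputable def lact {A G H M : Type} [CommRing A] [Group G] [CommGroup H] [AddCommGroup M]
    [Module A M] (ρ : G → M →+ M) (σ : H → G) (r : MonoidAlgebra A H) (s : M) : M :=
  r.coeff.sum fun a z ↦ z • ρ (σ a)⁻¹ s

/-- `ρ` is an `A`-linear action of `G` on `M` -/
structure IsRho {A G M : Type} [CommRing A] [Group G] [AddCommGroup M] [Module A M]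
    (ρ : G → M →+ M) : Prop where
  one : ∀ s, ρ 1 s = s
  mul : ∀ g h s, ρ (g * h) s = ρ g (ρ h s)
  smul : ∀ g (z : A) s, ρ g (z • s) = z • ρ g s

end KE16
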