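import Pool.Agent.LibKE16.CBase

/-!
KE16, block A, row S0 (MEDIUM). A continuous cocycle has finite range and is fixed by an open subgroup.

Plan: let `L` be as in the definition of `Z1` (`f` vanishes on the elements which fix `L`). If `σ`, `τ` agree on
`L` then `σ⁻¹ * τ` fixes `L`, so `f τ = f (σ * (σ⁻¹ * τ)) = f σ + gal σ 0 = f σ`. `L →ₐ[ℚ] Qb` is finite
(`AlgHom.fintype`/`Finite (L →ₐ[ℚ] Qb)`), so the range of `f` is finite.
Second statement: `L' := IntermediateField.normalClosure ℚ L Qb ⊔ (⨆ over the finite range of the fields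
ℚ⟮x, y⟯ of the points f σ = (x, y))` (all finite-dimensional; `normalClosure.is_finiteDimensional` or: the
`⨆` of the images of `L` under the finitely many embeddings). If `g` fixes `L'` then `g⁻¹ σ g` and `σ` agree
on `L` (`g x = x` and `g⁻¹ (σ x) = σ x`, since `σ x ∈ L'`), so `f (g⁻¹ σ g) = f σ`, and
`gal W g (f σ) = f σ` because `g` fixes the coordinates (`cases` on the point, `Affine.Point.map_some`,
`congr`).
-/

open WeierstrassCurve

namespace KE16

private theorem S0_agree (W : WeierstrassCurve ℚ) (p m : ℕ) (f : Kmul p m → Pt W)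
    (hf : ∀ σ τ, f (σ * τ) = f σ + gal W σ (f τ)) (L : IntermediateField ℚ Qb)
    (hL : ∀ σ : Kmul p m, (∀ x ∈ L, (σ : GQ) x = x) → f σ = 0) (σ τ : Kmul p m)
    (h : ∀ x ∈ L, (σ : GQ) x = (τ : GQ) x) : f σ = f τ := by
  have h1 : f (σ⁻¹ * τ) = 0 := by
    refine hL _ fun x hx => ?_
    change (σ : GQ)⁻¹ ((τ : GQ) x) = x
    rw [← h x hx]
    exact AlgEquiv.symm_apply_apply (σ : GQ) x
  have h2 := hf σ (σ⁻¹ * τ)
  rw [mul_inv_cancel_left, h1, map_zero, add_zero] at h2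
  exact h2.symm

private theorem S0_cont (W : WeierstrassCurve ℚ) (P : Pt W) : ∃ L : IntermediateField ℚ Qb,
    FiniteDimensional ℚ L ∧ ∀ g : GQ, (∀ x ∈ L, g x = x) → gal W g P = P := by
  cases P with
  | zero => exact ⟨⊥, inferInstance, fun g _ => rfl⟩
  | some x y hxy =>
    refine ⟨IntermediateField.adjoin ℚ {x, y}, ?_, fun g hg => ?_⟩
    · refine IntermediateField.finiteDimensional_adjoin ?_
      intro z _
      exact ((AlgebraicClosure.isAlgebraic ℚ).isAlgebraic z).isIntegral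
    · have hx : g x = x := hg x (IntermediateField.subset_adjoin ℚ _ (by simp))
      have hy : g y = y := hg y (IntermediateField.subset_adjoin ℚ _ (by simp))
      change Affine.Point.some (g x) (g y) _ = Affine.Point.some x y _
      congr 1

private theorem S0_all (W : WeierstrassCurve ℚ) (S : Set (Pt W)) (hS : S.Finite) :
    ∃ L : IntermediateField ℚ Qb, FiniteDimensional ℚ L ∧
      ∀ g : GQ, (∀ x ∈ L, g x = x) → ∀ P ∈ S, gal W g P = P := by
  induction S, hS using Set.Finite.induction_on with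
  | empty => exact ⟨⊥, inferInstance, fun g _ P hP => hP.elim⟩
  | insert _ _ ih =>
    rename_i Q S _ _
    obtain ⟨L, hL, hL'⟩ := ih
    obtain ⟨L1, hL1, hL1'⟩ := S0_cont W Q
    refine ⟨L ⊔ L1, IntermediateField.finiteDimensional_sup L L1, fun g hg P hP => ?_⟩
    rcases hP with hP | hP
    · rw [hP]
      exact hL1' g fun x hx => hg x ((le_sup_right : L1 ≤ L ⊔ L1) hx)
    · exact hL' g (fun x hx => hg x ((le_sup_left : L ≤ L ⊔ L1) hx)) P hP

theorem range_finite (W : WeierstrassCurve ℚ) (p m : ℕ) (f : Kmul p m → Pt W) (hf : f ∈ Z1 W p m) :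
    (Set.range f).Finite := by
  obtain ⟨h1, -, L, hL, h3⟩ := hf
  have : Finite (L →ₐ[ℚ] Qb) := inferInstance
  obtain ⟨res, hres⟩ : ∃ res : Kmul p m → (L →ₐ[ℚ] Qb), ∀ σ (x : L), res σ x = (σ : GQ) x :=
    ⟨fun σ => ((σ : GQ) : Qb →ₐ[ℚ] Qb).comp L.val, fun σ x => rfl⟩
  have hag : ∀ σ τ : Kmul p m, res σ = res τ → f σ = f τ := by
    intro σ τ h
    refine S0_agree W p m f h1 L h3 _ _ fun x hx => ?_
    rw [← hres σ ⟨x, hx⟩, ← hres τ ⟨x, hx⟩, h]
  obtain ⟨F, hF⟩ : ∃ F : (L →ₐ[ℚ] Qb) → Pt W, ∀ σ : Kmul p m, F (res σ) = f σ := by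
    classical
    refine ⟨fun φ => if h : ∃ σ : Kmul p m, res σ = φ then f h.choose else 0, fun σ => ?_⟩
    have h : ∃ τ : Kmul p m, res τ = res σ := ⟨σ, rfl⟩
    dsimp only
    rw [dif_pos h]
    exact hag _ _ h.choose_spec
  refine (Set.finite_range F).subset ?_
  rintro _ ⟨σ, rfl⟩
  exact ⟨_, hF σ⟩

theorem exists_fix (W : WeierstrassCurve ℚ) (p m : ℕ) (f : Kmul p m → Pt W) (hf : f ∈ Z1 W p m) :
    ∃ L' : IntermediateField ℚ Qb, FiniteDimensional ℚ L' ∧
      ∀ g : GQ, (∀ x ∈ L', g x = x) → cj W p m g f = f := by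
  obtain ⟨L1, hL1, hL1'⟩ := S0_all W (Set.range f) (range_finite W p m f hf)
  obtain ⟨h1, -, L, hL, h3⟩ := hf
  have hnc : FiniteDimensional ℚ (IntermediateField.normalClosure ℚ L Qb) :=
    normalClosure.is_finiteDimensional ℚ L Qb
  refine ⟨IntermediateField.normalClosure ℚ L Qb ⊔ L1,
    IntermediateField.finiteDimensional_sup _ _, fun g hg => ?_⟩
  funext σ
  change gal W g (f ⟨g⁻¹ * (σ : GQ) * g, Kmul_conj p m g σ⟩) = f σ
  have hφ : ∀ (φ : L →ₐ[ℚ] Qb) (x : L), g (φ x) = φ x := by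
    intro φ x
    refine hg _ ((le_sup_left : IntermediateField.normalClosure ℚ L Qb ≤
      IntermediateField.normalClosure ℚ L Qb ⊔ L1) ?_)
    exact φ.fieldRange_le_normalClosure ⟨x, rfl⟩
  have h4 : f ⟨g⁻¹ * (σ : GQ) * g, Kmul_conj p m g σ⟩ = f σ := by
    refine S0_agree W p m f h1 L h3 _ _ fun x hx => ?_
    change g⁻¹ ((σ : GQ) (g x)) = (σ : GQ) x
    have h5 : g x = x := hφ L.val ⟨x, hx⟩
    have h6 : g ((σ : GQ) x) = (σ : GQ) x := hφ (((σ : GQ) : Qb →ₐ[ℚ] Qb).comp L.val) ⟨x, hx⟩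
    rw [h5]
    conv_lhs => rw [← h6]
    exact AlgEquiv.symm_apply_apply g _
  rw [h4]
  exact hL1' g (fun x hx => hg x ((le_sup_right : L1 ≤ _ ⊔ L1) hx)) _ ⟨σ, rfl⟩

end KE16
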