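import Mathlib

/-!
# MP_3c6ab9: definitions used in the statement (Galois group, points, roots of unity, Fitting ideal)
-/

open WeierstrassCurve

namespace KE16

/-- the algebraic closure of `ℚ` -/
abbrev Qb : Type := AlgebraicClosure ℚ

/-- the absolute Galois group of `ℚ` -/
abbrev GQ : Type := Qb ≃ₐ[ℚ] Qb

noncomputable instance decQb : DecidableEq Qb := Classical.decEq _

/-- the points of `W` over the algebraic closure of `ℚ` -/
abbrev Pt (W : WeierstrassCurve ℚ) : Type := (W⁄Qb).toAffine.Point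

/-- the Galois action on points -/
noncomputable def gal (W : WeierstrassCurve ℚ) (g : GQ) : Pt W →+ Pt W :=
  Affine.Point.map (W' := W) (S := ℚ) (g : Qb →ₐ[ℚ] Qb)

/-- the algebraic closure of `ℚ_q` -/
abbrev Cq (q : ℕ) [Fact q.Prime] : Type := AlgebraicClosure ℚ_[q]

noncomputable instance decCq (q : ℕ) [Fact q.Prime] : DecidableEq (Cq q) := Classical.decEq _

/-- the groups `(ℤ/m pⁿ)ˣ = Gal(ℚ(μ_{m pⁿ})/ℚ)` -/
abbrev Hn (p m n : ℕ) : Type := (ZMod (m * p ^ n))ˣ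

/-- the projection `(ℤ/m pⁿ⁺¹)ˣ → (ℤ/m pⁿ)ˣ` -/
noncomputable def tr (p m n : ℕ) : Hn p m (n + 1) →* Hn p m n :=
  ZMod.unitsMap (Nat.mul_dvd_mul_left m (pow_dvd_pow p (Nat.le_succ n)))

/-- `σ` acts on the roots of unity of order dividing `N` as `ζ ↦ ζ^a` -/
def CycAct (N : ℕ) (σ : GQ) (a : (ZMod N)ˣ) : Prop :=
  ∀ ζ : Qb, ζ ^ N = 1 → σ ζ = ζ ^ (a : ZMod N).val

/-- `X` is finitely generated and its zeroth Fitting ideal is `I` -/
def IsFitt {R : Type} [CommRing R] (X : Type) [AddCommGroup X] [Module R X] (I : Ideal R) : Prop :=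
  ∃ (n : ℕ) (e : Fin n → X), Submodule.span R (Set.range e) = ⊤ ∧
    I = Ideal.span {d | ∃ A : Matrix (Fin n) (Fin n) R, (∀ i, ∑ j, A i j • e j = 0) ∧ d = A.det}

instance fact3 : Fact (Nat.Prime 3) := ⟨by norm_num⟩

/-- the curve `y² = x³ - x² - 3x - 1` (Cremona 256d1) -/
def E0 : WeierstrassCurve ℚ := ⟨0, -1, 0, -3, -1⟩

end KE16
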